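import Pool.Agent.Lib.MP_5a9905_co_NC.Defs

set_option autoImplicit false

open MeasureTheory Finset

namespace Pool.Agent.SausN

open Pool.Agent.Saus (E kap Loc Vor)

noncomputable section

namespace AbelAux

theorem one_add_sq_pos (x : ℝ) : 0 < 1 + x ^ 2 := by positivity

theorem continuous_wt (m : ℕ) : Continuous (wt m) := by
  unfold wt
  refine Continuous.rpow_const (by fun_prop) fun x => Or.inl (one_add_sq_pos x).ne'

theorem continuous_pow (p : ℝ) : Continuous (fun x : ℝ => (1 + x ^ 2) ^ p) :=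
  Continuous.rpow_const (by fun_prop) fun x => Or.inl (one_add_sq_pos x).ne'

theorem continuous_Pf (m : ℕ) (a : ℝ) : Continuous (Pf m a) := by
  unfold Pf
  refine continuous_const.mul ?_
  refine intervalIntegral.continuous_parametric_intervalIntegral_of_continuous'
    (f := fun (η : ℝ) (ξ : ℝ) => ξ * (1 - ξ * η) ^ (m - 1)) ?_ a 1
  unfold Function.uncurry
  fun_prop

theorem wt_mul (m : ℕ) (x : ℝ) : wt m x * (1 + x ^ 2) ^ (((m : ℝ) + 1) / 2) = 1 := by
  unfold wt
  rw [← Real.rpow_add (one_add_sq_pos x)]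
  rw [neg_add_cancel, Real.rpow_zero]

theorem hasDerivAt_wt (m : ℕ) (x : ℝ) :
    HasDerivAt (wt m)
      (2 * x * (-(((m : ℝ) + 1) / 2)) * (1 + x ^ 2) ^ (-(((m : ℝ) + 1) / 2) - 1)) x := by
  have h1 : HasDerivAt (fun x : ℝ => 1 + x ^ 2) (2 * x) x := by
    have := (hasDerivAt_pow 2 x).const_add 1
    simpa using this
  exact h1.rpow_const (Or.inl (one_add_sq_pos x).ne')

end AbelAux

open AbelAux

theorem abel {m : ℕ} (hm : 1 ≤ m) {a τ : ℝ} (ha0 : 0 < a) (ha1 : a < 1)
    (h : ∀ s, 0 ≤ s → s ≤ a →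
      0 ≤ ∫ η in (0 : ℝ)..s, (Pf m a η - AA m + (1 + η ^ 2) ^ (((m : ℝ) + 1) / 2)))
    (hτ : 0 ≤ τ) (hτa : τ ≤ a) :
    ∫ η in (0 : ℝ)..τ, (AA m * wt m η - 1) ≤ ∫ η in (0 : ℝ)..τ, wt m η * Pf m a η := by
  have _ := hm
  have _ := ha0
  have _ := ha1
  set k : ℝ → ℝ := fun η => Pf m a η - AA m + (1 + η ^ 2) ^ (((m : ℝ) + 1) / 2) with hk
  have hkc : Continuous k :=
    ((continuous_Pf m a).sub continuous_const).add (continuous_pow _)
  set K : ℝ → ℝ := fun s => ∫ η in (0 : ℝ)..s, k η with hK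
  have hKd : ∀ x, HasDerivAt K (k x) x := fun x =>
    (hkc.integral_hasStrictDerivAt 0 x).hasDerivAt
  have hKc : Continuous K := continuous_iff_continuousAt.2 fun x => (hKd x).continuousAt
  set w' : ℝ → ℝ := fun x =>
    2 * x * (-(((m : ℝ) + 1) / 2)) * (1 + x ^ 2) ^ (-(((m : ℝ) + 1) / 2) - 1) with hw'
  have hw'c : Continuous w' := by
    refine Continuous.mul (by fun_prop) (continuous_pow _)
  have hparts := intervalIntegral.integral_mul_deriv_eq_deriv_mul (a := 0) (b := τ)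
    (fun x _ => hasDerivAt_wt m x) (fun x _ => hKd x)
    (hw'c.intervalIntegrable 0 τ) (hkc.intervalIntegrable 0 τ)
  have h1 : ∫ x in (0 : ℝ)..τ, w' x * K x ≤ 0 := by
    have h2 : 0 ≤ ∫ x in (0 : ℝ)..τ, -(w' x * K x) := by
      refine intervalIntegral.integral_nonneg hτ fun x hx => ?_
      have hx0 : 0 ≤ x := hx.1
      have hKx : 0 ≤ K x := h x hx.1 (hx.2.trans hτa)
      have hp : 0 ≤ (1 + x ^ 2) ^ (-(((m : ℝ) + 1) / 2) - 1) :=
        Real.rpow_nonneg (one_add_sq_pos x).le _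
      have hw : w' x ≤ 0 := by
        have h3 : w' x = -(x * ((m : ℝ) + 1) *
            (1 + x ^ 2) ^ (-(((m : ℝ) + 1) / 2) - 1)) := by
          simp only [hw']
          ring
        rw [h3]
        have : 0 ≤ x * ((m : ℝ) + 1) * (1 + x ^ 2) ^ (-(((m : ℝ) + 1) / 2) - 1) := by
          positivity
        linarith
      have := mul_nonneg (neg_nonneg.2 hw) hKx
      linarith
    rw [intervalIntegral.integral_neg] at h2
    linarith
  have hK0 : K 0 = 0 := by simp [hK]
  have hKτ : 0 ≤ K τ := h τ hτ hτa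
  have hwτ : 0 ≤ wt m τ := Real.rpow_nonneg (one_add_sq_pos τ).le _
  have h4 : 0 ≤ ∫ x in (0 : ℝ)..τ, wt m x * k x := by
    rw [hparts, hK0]
    have := mul_nonneg hwτ hKτ
    linarith
  have h5 : ∫ x in (0 : ℝ)..τ, wt m x * k x =
      (∫ η in (0 : ℝ)..τ, wt m η * Pf m a η) - ∫ η in (0 : ℝ)..τ, (AA m * wt m η - 1) := by
    rw [← intervalIntegral.integral_sub]
    · refine intervalIntegral.integral_congr fun x _ => ?_
      simp only [hk]
      have := wt_mul m x
      linear_combination this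
    · exact ((continuous_wt m).mul (continuous_Pf m a)).intervalIntegrable _ _
    · exact ((continuous_const.mul (continuous_wt m)).sub continuous_const).intervalIntegrable _ _
  linarith

end

end Pool.Agent.SausN
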