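import Pool.Agent.Lib.MP_5a9905_co_NC.Defs

set_option autoImplicit false

open MeasureTheory Finset

namespace Pool.Agent.SausN

open Pool.Agent.Saus (E kap Loc Vor)

noncomputable section

namespace JexAux

/-- The isometry for a nonzero vector. -/
theorem exists_J_ne {m : ℕ} (u : E (m + 1)) (hu : u ≠ 0) :
    ∃ J : E m →ₗᵢ[ℝ] E (m + 1), ∀ v, inner ℝ u (J v) = (0 : ℝ) := by
  have hdim : Fact (Module.finrank ℝ (E (m + 1)) = m + 1) :=
    ⟨by simp [E, finrank_euclideanSpace]⟩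
  have hK : Module.finrank ℝ ((Submodule.span ℝ {u})ᗮ : Submodule ℝ (E (m + 1))) = m :=
    Submodule.finrank_orthogonal_span_singleton (n := m) hu
  let b : OrthonormalBasis (Fin m) ℝ ((Submodule.span ℝ {u})ᗮ : Submodule ℝ (E (m + 1))) :=
    (stdOrthonormalBasis ℝ ((Submodule.span ℝ {u})ᗮ : Submodule ℝ (E (m + 1)))).reindex
      (finCongr hK)
  refine ⟨(Submodule.subtypeₗᵢ ((Submodule.span ℝ {u})ᗮ : Submodule ℝ (E (m + 1)))).comp
    b.repr.symm.toLinearIsometry, fun v => ?_⟩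
  have h := (b.repr.symm v).2
  exact Submodule.mem_orthogonal_singleton_iff_inner_right.mp h

end JexAux

theorem exists_J {m : ℕ} (u : E (m + 1)) :
    ∃ J : E m →ₗᵢ[ℝ] E (m + 1), ∀ v, inner ℝ u (J v) = (0 : ℝ) := by
  by_cases hu : u = 0
  · obtain ⟨J, _⟩ := JexAux.exists_J_ne (m := m) (EuclideanSpace.single 0 (1 : ℝ)) (by
      intro h
      have := congrArg (fun w : E (m + 1) => ‖w‖) h
      simp at this)
    exact ⟨J, fun v => by rw [hu]; simp⟩
  · exact JexAux.exists_J_ne u hu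

theorem J_surj {m : ℕ} {u : E (m + 1)} (hu : u ≠ 0) {J : E m →ₗᵢ[ℝ] E (m + 1)}
    (hJ : ∀ v, inner ℝ u (J v) = (0 : ℝ)) {z : E (m + 1)} (hz : inner ℝ u z = (0 : ℝ)) :
    ∃ v, J v = z := by
  have hdim : Fact (Module.finrank ℝ (E (m + 1)) = m + 1) :=
    ⟨by simp [E, finrank_euclideanSpace]⟩
  have hK : Module.finrank ℝ ((Submodule.span ℝ {u})ᗮ : Submodule ℝ (E (m + 1))) = m :=
    Submodule.finrank_orthogonal_span_singleton (n := m) hu
  have hle : LinearMap.range J.toLinearMap ≤ (Submodule.span ℝ {u})ᗮ := by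
    rintro _ ⟨v, rfl⟩
    exact Submodule.mem_orthogonal_singleton_iff_inner_right.mpr (hJ v)
  have hr : Module.finrank ℝ (LinearMap.range J.toLinearMap) = m := by
    rw [LinearMap.finrank_range_of_inj J.injective]
    simp [E, finrank_euclideanSpace]
  have heq := Submodule.eq_of_le_of_finrank_eq hle (by rw [hr, hK])
  have hz' : z ∈ (Submodule.span ℝ {u})ᗮ :=
    Submodule.mem_orthogonal_singleton_iff_inner_right.mpr hz
  rw [← heq] at hz'
  obtain ⟨v, hv⟩ := hz'
  exact ⟨v, hv⟩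

end

end Pool.Agent.SausN
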