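import Pool.Agent.Lib.MP_5a9905_co_NC.Defs

set_option autoImplicit false

open MeasureTheory Finset

namespace Pool.Agent.SausN

open Pool.Agent.Saus (E kap Loc Vor)

noncomputable section

theorem PolAux.radial {m : ℕ} (g : E (m + 1) → ℝ) (θ : E (m + 1)) :
    ∫ r : Set.Ioi (0 : ℝ), g ((r : ℝ) • θ) ∂(Measure.volumeIoiPow m) =
      ∫ r in Set.Ioi (0 : ℝ), g (r • θ) * r ^ m := by
  simp only [Measure.volumeIoiPow, ENNReal.ofReal]
  rw [integral_withDensity_eq_integral_smul,
    integral_subtype_comap measurableSet_Ioi fun a : ℝ => Real.toNNReal (a ^ m) • g (a • θ),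
    setIntegral_congr_fun measurableSet_Ioi fun x hx => ?_]
  · rw [NNReal.smul_def, Real.coe_toNNReal _ (pow_nonneg (le_of_lt hx) _), smul_eq_mul, mul_comm]
  · exact (measurable_subtype_coe.pow_const _).real_toNNReal

theorem pol_nonneg {m : ℕ} {g : E (m + 1) → ℝ} (hg : Integrable g)
    (h : ∀ θ : E (m + 1), ‖θ‖ = 1 → 0 ≤ ∫ r in Set.Ioi (0 : ℝ), g (r • θ) * r ^ m) :
    0 ≤ ∫ z, g z := by
  have hdim : Module.finrank ℝ (E (m + 1)) - 1 = m := by
    rw [finrank_euclideanSpace_fin]
    simp
  set F : Metric.sphere (0 : E (m + 1)) 1 × Set.Ioi (0 : ℝ) → ℝ :=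
    fun p => g ((p.2 : ℝ) • (p.1 : E (m + 1))) with hF
  have hcomp : ∀ x : ({(0)}ᶜ : Set (E (m + 1))),
      F (homeomorphUnitSphereProd (E (m + 1)) x) = g x := by
    intro x
    have hx : ‖(x : E (m + 1))‖ ≠ 0 := norm_ne_zero_iff.2 x.2
    simp only [hF, homeomorphUnitSphereProd_apply_fst_coe, homeomorphUnitSphereProd_apply_snd_coe]
    rw [smul_smul, mul_inv_cancel₀ hx, one_smul]
  have hmp := (volume : Measure (E (m + 1))).measurePreserving_homeomorphUnitSphereProd
  have h1 : ∫ z, g z = ∫ x : ({(0)}ᶜ : Set (E (m + 1))), g x ∂((volume : Measure (E (m + 1))).comap Subtype.val) := by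
    rw [integral_subtype_comap (measurableSet_singleton _).compl g, restrict_compl_singleton]
  have h2 : ∫ x : ({(0)}ᶜ : Set (E (m + 1))), g x ∂((volume : Measure (E (m + 1))).comap Subtype.val) =
      ∫ p, F p ∂((volume : Measure (E (m + 1))).toSphere.prod
        (Measure.volumeIoiPow (Module.finrank ℝ (E (m + 1)) - 1))) := by
    rw [← hmp.integral_comp (Homeomorph.measurableEmbedding _)]
    exact integral_congr_ae (Filter.Eventually.of_forall fun x => (hcomp x).symm)
  have hint : Integrable F ((volume : Measure (E (m + 1))).toSphere.prod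
      (Measure.volumeIoiPow (Module.finrank ℝ (E (m + 1)) - 1))) := by
    rw [← hmp.integrable_comp_emb (Homeomorph.measurableEmbedding _)]
    have h3 : F ∘ homeomorphUnitSphereProd (E (m + 1)) = g ∘ Subtype.val := by
      funext x
      exact hcomp x
    rw [h3, ← integrableOn_iff_comap_subtypeVal (measurableSet_singleton _).compl]
    exact hg.integrableOn
  rw [h1, h2, integral_prod _ hint]
  refine integral_nonneg fun θ => ?_
  have h4 := PolAux.radial g (θ : E (m + 1))
  rw [hdim]
  change 0 ≤ ∫ r : Set.Ioi (0 : ℝ), g ((r : ℝ) • (θ : E (m + 1))) ∂(Measure.volumeIoiPow m)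
  rw [h4]
  exact h _ (by simp)

end

end Pool.Agent.SausN
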