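import Pool.Agent.Lib.MP_5a9905_co_NC.Defs
import Pool.Agent.Lib.MP_5a9905_co_NC.Jex
import Pool.Agent.Lib.MP_5a9905_co.Cyl

set_option autoImplicit false

open MeasureTheory Finset

namespace Pool.Agent.SausN

open Pool.Agent.Saus (E kap Loc Vor)

noncomputable section

namespace ProdCAux

/-- The tail of a vector, as a linear map. -/
def tl (m : ℕ) : E (m + 1) →ₗ[ℝ] E m where
  toFun z := WithLp.toLp 2 (fun j : Fin m => z j.succ)
  map_add' _ _ := rfl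
  map_smul' _ _ := rfl

theorem norm_tl (m : ℕ) (z : E (m + 1)) : ‖z‖ ^ 2 = z 0 ^ 2 + ‖tl m z‖ ^ 2 :=
  Pool.Agent.Saus.CylAux.norm_spl m z

/-- The linear map `z ↦ z₀ u + J (tail z)`. -/
def lin {m : ℕ} (u : E (m + 1)) (J : E m →ₗᵢ[ℝ] E (m + 1)) : E (m + 1) →ₗ[ℝ] E (m + 1) where
  toFun z := z 0 • u + J (tl m z)
  map_add' x y := by
    rw [map_add, map_add, PiLp.add_apply, add_smul]
    abel
  map_smul' c x := by
    rw [map_smul, map_smul, PiLp.smul_apply, smul_eq_mul, mul_smul, RingHom.id_apply, smul_add]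

theorem norm_lin {m : ℕ} {u : E (m + 1)} (hu : ‖u‖ = 1) {J : E m →ₗᵢ[ℝ] E (m + 1)}
    (hJ : ∀ v, inner ℝ u (J v) = (0 : ℝ)) (z : E (m + 1)) : ‖lin u J z‖ = ‖z‖ := by
  have h1 : ‖lin u J z‖ ^ 2 = ‖z‖ ^ 2 := by
    have h2 : inner ℝ (z 0 • u) (J (tl m z)) = (0 : ℝ) := by
      rw [real_inner_smul_left, hJ, mul_zero]
    show ‖z 0 • u + J (tl m z)‖ ^ 2 = ‖z‖ ^ 2
    rw [norm_add_sq_real, h2, norm_smul, hu, J.norm_map, norm_tl m z, Real.norm_eq_abs, mul_one,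
      sq_abs]
    ring
  exact (sq_eq_sq₀ (norm_nonneg _) (norm_nonneg _)).1 h1

/-- The linear isometry. -/
def iso {m : ℕ} {u : E (m + 1)} (hu : ‖u‖ = 1) {J : E m →ₗᵢ[ℝ] E (m + 1)}
    (hJ : ∀ v, inner ℝ u (J v) = (0 : ℝ)) : E (m + 1) ≃ₗᵢ[ℝ] E (m + 1) :=
  LinearIsometry.toLinearIsometryEquiv ⟨lin u J, norm_lin hu hJ⟩ rfl

theorem iso_apply {m : ℕ} {u : E (m + 1)} (hu : ‖u‖ = 1) {J : E m →ₗᵢ[ℝ] E (m + 1)}
    (hJ : ∀ v, inner ℝ u (J v) = (0 : ℝ)) (z : E (m + 1)) :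
    iso hu hJ z = z 0 • u + J (tl m z) := rfl

/-- Splitting off the first coordinate, as a measurable equivalence. -/
def spe (m : ℕ) : E (m + 1) ≃ᵐ ℝ × E m :=
  ((MeasurableEquiv.toLp 2 (Fin (m + 1) → ℝ)).symm.trans
    (MeasurableEquiv.piFinSuccAbove (fun _ : Fin (m + 1) => ℝ) 0)).trans
    (MeasurableEquiv.prodCongr (MeasurableEquiv.refl ℝ) (MeasurableEquiv.toLp 2 (Fin m → ℝ)))

theorem spe_eq (m : ℕ) : (spe m : E (m + 1) → ℝ × E m) = Pool.Agent.Saus.CylAux.spl m := rfl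

theorem spe_preserving (m : ℕ) : MeasurePreserving (spe m)
    (volume : Measure (E (m + 1))) (volume : Measure (ℝ × E m)) := by
  rw [spe_eq]
  exact Pool.Agent.Saus.CylAux.spl_preserving m

end ProdCAux

open ProdCAux in
theorem exists_prod {m : ℕ} {u : E (m + 1)} (hu : ‖u‖ = 1) {J : E m →ₗᵢ[ℝ] E (m + 1)}
    (hJ : ∀ v, inner ℝ u (J v) = (0 : ℝ)) :
    ∃ Φ : (ℝ × E m) ≃ᵐ E (m + 1), (∀ p, Φ p = p.1 • u + J p.2) ∧
      MeasurePreserving Φ volume volume := by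
  refine ⟨(spe m).symm.trans (iso hu hJ).toMeasurableEquiv, fun p => ?_, ?_⟩
  · obtain ⟨z, rfl⟩ := (spe m).surjective p
    rw [MeasurableEquiv.trans_apply, MeasurableEquiv.symm_apply_apply]
    show iso hu hJ z = _
    rw [iso_apply, spe_eq]
    rfl
  · exact ((spe_preserving m).symm (spe m)).trans (iso hu hJ).measurePreserving

end

end Pool.Agent.SausN
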