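import Pool.Agent.Lib.MP_5a9905_co_NC.Defs
import Pool.Agent.Lib.MP_5a9905_co_NC.Jex
import Pool.Agent.Lib.MP_5a9905_co_NC.ProdC
import Pool.Agent.Lib.MP_5a9905_co_NC.Pol

set_option autoImplicit false

open MeasureTheory Finset

namespace Pool.Agent.SausN

open Pool.Agent.Saus (E kap Loc Vor)

noncomputable section

namespace AxAux

theorem norm_sq_comb {k : ℕ} {u θ : E (k + 2)} (hu : ‖u‖ = 1) (hθ : ‖θ‖ = 1)
    (huθ : inner ℝ u θ = (0 : ℝ)) (r x : ℝ) :
    ‖r • (x • u + θ)‖ ^ 2 = r ^ 2 * (x ^ 2 + 1) := by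
  have h2 : inner ℝ (x • u) θ = (0 : ℝ) := by
    rw [real_inner_smul_left, huθ, mul_zero]
  rw [norm_smul, mul_pow, norm_add_sq_real, h2, norm_smul, hu, hθ, Real.norm_eq_abs,
    Real.norm_eq_abs, mul_one, sq_abs, sq_abs]
  ring

/-- Absolute integrability of the ray integrand. -/
theorem integrable_H {k : ℕ} {u : E (k + 2)} (hu : ‖u‖ = 1) {g : E (k + 2) → ℝ}
    (hgm : Measurable g) {C R : ℝ} (hC : ∀ z, |g z| ≤ C) (hR : 0 ≤ R)
    (hρ : ∀ z, R < ‖z‖ → g z = 0) {θ : E (k + 2)} (hθ : ‖θ‖ = 1)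
    (huθ : inner ℝ u θ = (0 : ℝ)) :
    Integrable (Function.uncurry
      (fun (r x : ℝ) => g (r • (x • u + θ)) * r ^ (k + 1)))
      ((volume.restrict (Set.Ioi (0 : ℝ))).prod (volume.restrict (Set.Ioi (0 : ℝ)))) := by
  have hC0 : 0 ≤ C := le_trans (abs_nonneg _) (hC 0)
  have hHm : Measurable (Function.uncurry
      (fun (r x : ℝ) => g (r • (x • u + θ)) * r ^ (k + 1))) := by
    have h1 : Measurable (fun p : ℝ × ℝ => p.1 • (p.2 • u + θ)) :=
      (by fun_prop : Continuous (fun p : ℝ × ℝ => p.1 • (p.2 • u + θ))).measurable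
    exact (hgm.comp h1).mul (measurable_fst.pow_const _)
  -- pointwise bound
  have hb : ∀ r, 0 < r → ∀ x, 0 < x →
      ‖g (r • (x • u + θ)) * r ^ (k + 1)‖ ≤
        (Set.Ioc (0 : ℝ) (R / r)).indicator (fun _ => C * r ^ (k + 1)) x := by
    intro r hr x hx
    by_cases hxr : x ≤ R / r
    · rw [Set.indicator_of_mem (show x ∈ Set.Ioc (0 : ℝ) (R / r) from ⟨hx, hxr⟩), norm_mul,
        Real.norm_eq_abs, Real.norm_of_nonneg (by positivity)]
      exact mul_le_mul_of_nonneg_right (hC _) (by positivity)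
    · have hz : g (r • (x • u + θ)) = 0 := by
        apply hρ
        push Not at hxr
        have h1 : R < r * x := by
          rw [div_lt_iff₀ hr] at hxr
          linarith [mul_comm x r]
        have h2 : R ^ 2 < ‖r • (x • u + θ)‖ ^ 2 := by
          rw [norm_sq_comb hu hθ huθ]
          nlinarith [mul_pos hr hx, sq_nonneg r, sq_nonneg (r * x - R), pow_pos hr 2]
        exact lt_of_pow_lt_pow_left₀ 2 (norm_nonneg _) h2
      rw [hz, zero_mul, norm_zero]
      exact Set.indicator_nonneg (fun _ _ => by positivity) _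
  have hb0 : ∀ r, R < r → ∀ x : ℝ, g (r • (x • u + θ)) * r ^ (k + 1) = 0 := by
    intro r hr x
    have hz : g (r • (x • u + θ)) = 0 := by
      apply hρ
      have h2 : R ^ 2 < ‖r • (x • u + θ)‖ ^ 2 := by
        rw [norm_sq_comb hu hθ huθ]
        have h3 : R ^ 2 < r ^ 2 := by nlinarith
        nlinarith [sq_nonneg (r * x)]
      exact lt_of_pow_lt_pow_left₀ 2 (norm_nonneg _) h2
    rw [hz, zero_mul]
  have hbi : ∀ r : ℝ, Integrable
      ((Set.Ioc (0 : ℝ) (R / r)).indicator (fun _ => C * r ^ (k + 1)))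
      (volume.restrict (Set.Ioi (0 : ℝ))) := by
    intro r
    apply Integrable.mono_measure _ Measure.restrict_le_self
    rw [integrable_indicator_iff measurableSet_Ioc]
    exact integrableOn_const (by simp) enorm_ne_top
  rw [integrable_prod_iff hHm.aestronglyMeasurable]
  refine ⟨?_, ?_⟩
  · refine (ae_restrict_iff' measurableSet_Ioi).2 (Filter.Eventually.of_forall fun r hr => ?_)
    refine (hbi r).mono' (hHm.comp measurable_prodMk_left).aestronglyMeasurable ?_
    refine (ae_restrict_iff' measurableSet_Ioi).2 (Filter.Eventually.of_forall fun x hx => ?_)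
    exact hb r hr x hx
  · have hdom : Integrable ((Set.Ioc (0 : ℝ) R).indicator (fun r : ℝ => C * R * r ^ k))
        (volume.restrict (Set.Ioi (0 : ℝ))) := by
      apply Integrable.mono_measure _ Measure.restrict_le_self
      rw [integrable_indicator_iff measurableSet_Ioc]
      exact (by fun_prop : Continuous (fun r : ℝ => C * R * r ^ k)).integrableOn_Ioc
    refine hdom.mono' hHm.aestronglyMeasurable.norm.integral_prod_right' ?_
    refine (ae_restrict_iff' measurableSet_Ioi).2 (Filter.Eventually.of_forall fun r hr => ?_)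
    have hr0 : 0 < r := hr
    rw [Real.norm_of_nonneg (integral_nonneg fun _ => norm_nonneg _)]
    by_cases hrR : r ≤ R
    · rw [Set.indicator_of_mem (show r ∈ Set.Ioc (0 : ℝ) R from ⟨hr0, hrR⟩)]
      calc ∫ x in Set.Ioi (0 : ℝ), ‖Function.uncurry
              (fun (r x : ℝ) => g (r • (x • u + θ)) * r ^ (k + 1)) (r, x)‖
          ≤ ∫ x in Set.Ioi (0 : ℝ),
              (Set.Ioc (0 : ℝ) (R / r)).indicator (fun _ => C * r ^ (k + 1)) x := by
            refine integral_mono_of_nonneg (Filter.Eventually.of_forall fun _ => norm_nonneg _)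
              (hbi r) ?_
            refine (ae_restrict_iff' measurableSet_Ioi).2
              (Filter.Eventually.of_forall fun x hx => ?_)
            exact hb r hr0 x hx
        _ = C * R * r ^ k := by
            rw [setIntegral_indicator measurableSet_Ioc,
              show Set.Ioi (0 : ℝ) ∩ Set.Ioc (0 : ℝ) (R / r) = Set.Ioc (0 : ℝ) (R / r) from
                Set.inter_eq_right.2 fun y hy => hy.1,
              setIntegral_const, Real.volume_real_Ioc_of_le (by positivity), smul_eq_mul]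
            field_simp
            ring
    · push Not at hrR
      have : ∀ x : ℝ, ‖Function.uncurry
          (fun (r x : ℝ) => g (r • (x • u + θ)) * r ^ (k + 1)) (r, x)‖ = 0 := by
        intro x
        show ‖g (r • (x • u + θ)) * r ^ (k + 1)‖ = 0
        rw [hb0 r hrR x, norm_zero]
      simp only [this, integral_zero]
      exact Set.indicator_nonneg (fun r hr => mul_nonneg (mul_nonneg hC0 hR)
        (pow_nonneg hr.1.le _)) _

theorem integrable_g {d : ℕ} {g : E d → ℝ} (hgm : Measurable g) {C R : ℝ} (hC : ∀ z, |g z| ≤ C)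
    (hρ : ∀ z, R < ‖z‖ → g z = 0) : Integrable g := by
  have hC0 : 0 ≤ C := le_trans (abs_nonneg _) (hC 0)
  have hi : Integrable ((Metric.closedBall (0 : E d) R).indicator (fun _ => C)) := by
    rw [integrable_indicator_iff Metric.isClosed_closedBall.measurableSet]
    exact integrableOn_const (measure_closedBall_lt_top.ne) enorm_ne_top
  refine hi.mono' hgm.aestronglyMeasurable (Filter.Eventually.of_forall fun z => ?_)
  by_cases hz : z ∈ Metric.closedBall (0 : E d) R
  · rw [Set.indicator_of_mem hz]; exact hC z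
  · rw [Set.indicator_of_notMem hz]
    have : R < ‖z‖ := by
      rw [mem_closedBall_zero_iff] at hz
      exact not_le.1 hz
    rw [hρ z this, norm_zero]

end AxAux

open AxAux in
theorem ax_nonneg {k : ℕ} {u : E (k + 2)} (hu : ‖u‖ = 1) {g : E (k + 2) → ℝ}
    (hgm : Measurable g) {C ρ : ℝ} (hC : ∀ z, |g z| ≤ C) (hρ : ∀ z, ρ < ‖z‖ → g z = 0)
    (h : ∀ θ : E (k + 2), ‖θ‖ = 1 → inner ℝ u θ = (0 : ℝ) →
      0 ≤ ∫ x in Set.Ioi (0 : ℝ), ∫ r in Set.Ioi (0 : ℝ), g (r • (x • u + θ)) * r ^ (k + 1)) :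
  0 ≤ ∫ z in {z | 0 < inner ℝ u z}, g z := by
  obtain ⟨J, hJ⟩ := exists_J u
  obtain ⟨Φ, hΦ, hΦp⟩ := exists_prod hu hJ
  have hgi : Integrable g := integrable_g hgm hC hρ
  have hfi : Integrable (fun p : ℝ × E (k + 1) => g (Φ p))
      (volume : Measure (ℝ × E (k + 1))) :=
    (hΦp.integrable_comp_emb Φ.measurableEmbedding).2 hgi
  -- the half space
  have hpre : Φ ⁻¹' {z | 0 < inner ℝ u z} = Set.Ioi (0 : ℝ) ×ˢ (Set.univ : Set (E (k + 1))) := by
    ext p
    rw [Set.mem_preimage, Set.mem_ofPred_eq, Set.mem_prod, Set.mem_Ioi, hΦ p, inner_add_right,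
      hJ, real_inner_smul_right, real_inner_self_eq_norm_sq, hu]
    simp
  rw [← hΦp.setIntegral_preimage_emb Φ.measurableEmbedding, hpre, Measure.volume_eq_prod,
    ← Measure.prod_restrict, Measure.restrict_univ]
  have hfi2 : Integrable (fun p : ℝ × E (k + 1) => g (Φ p))
      ((volume.restrict (Set.Ioi (0 : ℝ))).prod (volume : Measure (E (k + 1)))) := by
    have := hfi.restrict (s := Set.Ioi (0 : ℝ) ×ˢ (Set.univ : Set (E (k + 1))))
    rwa [Measure.volume_eq_prod, ← Measure.prod_restrict, Measure.restrict_univ] at this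
  rw [integral_prod_symm _ hfi2]
  apply pol_nonneg hfi2.integral_prod_right
  intro θ' hθ'
  have hθ : ‖J θ'‖ = 1 := by rw [J.norm_map, hθ']
  have huθ : inner ℝ u (J θ') = (0 : ℝ) := hJ θ'
  have key := h (J θ') hθ huθ
  have hR : ∀ z, max ρ 0 < ‖z‖ → g z = 0 := fun z hz => hρ z (lt_of_le_of_lt (le_max_left _ _) hz)
  rw [← integral_integral_swap
    (integrable_H hu hgm hC (le_max_right ρ 0) hR hθ huθ)] at key
  refine le_of_le_of_eq key (setIntegral_congr_fun measurableSet_Ioi fun r hr => ?_)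
  have hr0 : 0 < r := hr
  have h1 := integral_comp_mul_left_Ioi (fun a : ℝ => g (a • u + r • J θ')) 0 hr0
  rw [mul_zero, smul_eq_mul] at h1
  simp only [hΦ, map_smul]
  have h2 : ∫ a in Set.Ioi (0 : ℝ), g (a • u + r • J θ') =
      r * ∫ x in Set.Ioi (0 : ℝ), g ((r * x) • u + r • J θ') := by
    rw [h1, ← mul_assoc, mul_inv_cancel₀ hr0.ne', one_mul]
  rw [h2, integral_mul_const]
  have h3 : ∀ x : ℝ, r • (x • u + J θ') = (r * x) • u + r • J θ' := fun x => by
    rw [smul_add, smul_smul]
  simp only [h3]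
  ring

end

end Pool.Agent.SausN
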