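import Pool.Agent.Lib.MP_5a9905_co_NC.Defs

set_option autoImplicit false

open MeasureTheory Finset

namespace Pool.Agent.SausN

open Pool.Agent.Saus (E kap Loc Vor)

noncomputable section

namespace BinAux

theorem deriv_pow (p x : ℝ) (hx : 0 ≤ x) :
    HasDerivAt (fun y : ℝ => (1 + y) ^ p) (p * (1 + x) ^ (p - 1)) x := by
  have h1 : HasDerivAt (fun y : ℝ => 1 + y) 1 x := by
    simpa using (hasDerivAt_id x).const_add 1
  have h2 := h1.rpow_const (p := p) (Or.inl (by positivity))
  simpa using h2

/-- a function on `[0, ∞)` with nonnegative derivative and value `0` at `0` -/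
theorem nonneg_of_deriv {f f' : ℝ → ℝ} (hf : ∀ x, 0 ≤ x → HasDerivAt f (f' x) x)
    (h0 : f 0 = 0) (h' : ∀ x, 0 ≤ x → 0 ≤ f' x) {y : ℝ} (hy : 0 ≤ y) : 0 ≤ f y := by
  have hm : MonotoneOn f (Set.Ici 0) := by
    apply monotoneOn_of_deriv_nonneg (convex_Ici 0)
    · intro x hx
      exact (hf x hx).continuousAt.continuousWithinAt
    · intro x hx
      rw [interior_Ici] at hx
      exact (hf x (le_of_lt hx)).differentiableAt.differentiableWithinAt
    · intro x hx
      rw [interior_Ici] at hx
      rw [(hf x (le_of_lt hx)).deriv]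
      exact h' x (le_of_lt hx)
  have h := hm (Set.mem_Ici.2 le_rfl) (Set.mem_Ici.2 hy) hy
  rwa [h0] at h

end BinAux

theorem pow_lower {p y : ℝ} (hp : 2 ≤ p) (hy : 0 ≤ y) :
    1 + p * y + p * (p - 1) / 2 * y ^ 2 ≤ (1 + y) ^ p := by
  have h := BinAux.nonneg_of_deriv
    (f := fun x => (1 + x) ^ p - (1 + p * x + p * (p - 1) / 2 * x ^ 2))
    (f' := fun x => p * (1 + x) ^ (p - 1) - (p + p * (p - 1) * x))
    (fun x hx => by
      have h1 := BinAux.deriv_pow p x hx
      have h2 : HasDerivAt (fun x : ℝ => 1 + p * x + p * (p - 1) / 2 * x ^ 2)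
          (p + p * (p - 1) * x) x := by
        have h3 := (((hasDerivAt_id x).const_mul p).const_add 1).add
          ((hasDerivAt_pow 2 x).const_mul (p * (p - 1) / 2))
        exact h3.congr_deriv (by push_cast; ring)
      exact h1.sub h2)
    (by simp)
    (fun x hx => by
      have hb := one_add_mul_self_le_rpow_one_add (s := x) (by linarith) (p := p - 1) (by linarith)
      have hpp : 0 ≤ p := by linarith
      have h4 := mul_le_mul_of_nonneg_left hb hpp
      nlinarith [h4])
    hy
  linarith [h]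

theorem pow_lower3 {p y : ℝ} (hp : 3 ≤ p) (hy : 0 ≤ y) :
    1 + p * y + p * (p - 1) / 2 * y ^ 2 + p * (p - 1) * (p - 2) / 6 * y ^ 3 ≤ (1 + y) ^ p := by
  have h := BinAux.nonneg_of_deriv
    (f := fun x => (1 + x) ^ p - (1 + p * x + p * (p - 1) / 2 * x ^ 2 +
      p * (p - 1) * (p - 2) / 6 * x ^ 3))
    (f' := fun x => p * (1 + x) ^ (p - 1) - (p + p * (p - 1) * x +
      p * (p - 1) * (p - 2) / 2 * x ^ 2))
    (fun x hx => by
      have h1 := BinAux.deriv_pow p x hx
      have h2 : HasDerivAt (fun x : ℝ => 1 + p * x + p * (p - 1) / 2 * x ^ 2 +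
          p * (p - 1) * (p - 2) / 6 * x ^ 3)
          (p + p * (p - 1) * x + p * (p - 1) * (p - 2) / 2 * x ^ 2) x := by
        have h3 := ((((hasDerivAt_id x).const_mul p).const_add 1).add
          ((hasDerivAt_pow 2 x).const_mul (p * (p - 1) / 2))).add
          ((hasDerivAt_pow 3 x).const_mul (p * (p - 1) * (p - 2) / 6))
        exact h3.congr_deriv (by push_cast; ring)
      exact h1.sub h2)
    (by simp)
    (fun x hx => by
      have hb := pow_lower (p := p - 1) (by linarith) hx
      have hpp : 0 ≤ p := by linarith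
      have h4 := mul_le_mul_of_nonneg_left hb hpp
      nlinarith [h4])
    hy
  linarith [h]

end

end Pool.Agent.SausN
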