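import Pool.Agent.Lib.MP_5a9905_co_NC.Defs
import Pool.Agent.Lib.MP_5a9905_co.Kap

set_option autoImplicit false

open MeasureTheory Finset

namespace Pool.Agent.SausN

open Pool.Agent.Saus (E kap Loc Vor)

noncomputable section

namespace KapNAux

theorem AA_add_two (m : ℕ) : AA (m + 2) = AA m * (((m : ℝ) + 3) / ((m : ℝ) + 2)) := by
  have h1 := Pool.Agent.Saus.kap_add_two m
  have h2 := Pool.Agent.Saus.kap_add_two (m + 1)
  have hp := Pool.Agent.Saus.kap_pos (m + 1)
  have hp0 := Pool.Agent.Saus.kap_pos m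
  have hpi := Real.pi_pos
  have hm : (0 : ℝ) ≤ (m : ℝ) := Nat.cast_nonneg m
  have e3 : m + 2 + 1 = m + 1 + 2 := by ring
  unfold AA
  rw [e3, h1, h2]
  push_cast
  have h4 : (m : ℝ) + 1 + 2 ≠ 0 := by positivity
  have h5 : (m : ℝ) + 2 ≠ 0 := by positivity
  have h6 : (m : ℝ) + 3 ≠ 0 := by positivity
  have h7 : (m : ℝ) + 1 + 2 = (m : ℝ) + 3 := by ring
  rw [h7]
  field_simp

theorem AA_zero : AA 0 = 1 := by
  unfold AA
  rw [Pool.Agent.Saus.kap_zero, show (0 : ℕ) + 1 = 1 from rfl, Pool.Agent.Saus.kap_one]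
  norm_num

theorem AA_one : AA 1 = 4 / Real.pi := by
  unfold AA
  have h := Pool.Agent.Saus.kap_add_two 0
  rw [show (1 : ℕ) + 1 = 0 + 2 from rfl, h, Pool.Agent.Saus.kap_one, Pool.Agent.Saus.kap_zero]
  have hpi := Real.pi_pos
  push_cast
  field_simp
  norm_num

theorem AA_two : AA 2 = 3 / 2 := by
  have h := AA_add_two 0
  rw [show (0 : ℕ) + 2 = 2 from rfl, AA_zero] at h
  rw [h]; norm_num

theorem AA_three : AA 3 = 16 / (3 * Real.pi) := by
  have h := AA_add_two 1
  rw [show (1 : ℕ) + 2 = 3 from rfl, AA_one] at h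
  have hpi := Real.pi_pos
  rw [h]; push_cast; field_simp; norm_num

theorem kap_succ_le (m : ℕ) : kap (m + 1) ≤ 2 * kap m := by
  induction m with
  | zero => rw [Pool.Agent.Saus.kap_zero, Pool.Agent.Saus.kap_one]; norm_num
  | succ m ih =>
    have h1 := Pool.Agent.Saus.kap_ratio_anti m
    have h2 := Pool.Agent.Saus.kap_pos m
    have h3 := Pool.Agent.Saus.kap_pos (m + 1)
    have h4 : kap (m + 2) * kap m ≤ (2 * kap (m + 1)) * kap m := by
      calc kap (m + 2) * kap m ≤ kap (m + 1) ^ 2 := h1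
        _ = kap (m + 1) * kap (m + 1) := by ring
        _ ≤ (2 * kap m) * kap (m + 1) := by
            exact mul_le_mul_of_nonneg_right ih h3.le
        _ = (2 * kap (m + 1)) * kap m := by ring
    exact le_of_mul_le_mul_right h4 h2

end KapNAux

theorem AA_pos (m : ℕ) : 0 < AA m := by
  have h1 := Pool.Agent.Saus.kap_pos m
  have h2 := Pool.Agent.Saus.kap_pos (m + 1)
  unfold AA
  positivity

theorem AA_four : AA 4 = 15 / 8 := by
  have h := KapNAux.AA_add_two 2
  rw [show (2 : ℕ) + 2 = 4 from rfl, KapNAux.AA_two] at h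
  rw [h]; norm_num

theorem AA_five : AA 5 = 32 / (5 * Real.pi) := by
  have h := KapNAux.AA_add_two 3
  rw [show (3 : ℕ) + 2 = 5 from rfl, KapNAux.AA_three] at h
  have hpi := Real.pi_pos
  rw [h]; push_cast; field_simp; norm_num

theorem AA_six : AA 6 = 35 / 16 := by
  have h := KapNAux.AA_add_two 4
  rw [show (4 : ℕ) + 2 = 6 from rfl, AA_four] at h
  rw [h]; norm_num

theorem AA_seven : AA 7 = 256 / (35 * Real.pi) := by
  have h := KapNAux.AA_add_two 5
  rw [show (5 : ℕ) + 2 = 7 from rfl, AA_five] at h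
  have hpi := Real.pi_pos
  rw [h]; push_cast; field_simp; norm_num

theorem AA_eight : AA 8 = 315 / 128 := by
  have h := KapNAux.AA_add_two 6
  rw [show (6 : ℕ) + 2 = 8 from rfl, AA_six] at h
  rw [h]; norm_num

theorem AA_nine : AA 9 = 512 / (63 * Real.pi) := by
  have h := KapNAux.AA_add_two 7
  rw [show (7 : ℕ) + 2 = 9 from rfl, AA_seven] at h
  have hpi := Real.pi_pos
  rw [h]; push_cast; field_simp; norm_num

theorem AA_ten : AA 10 = 693 / 256 := by
  have h := KapNAux.AA_add_two 8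
  rw [show (8 : ℕ) + 2 = 10 from rfl, AA_eight] at h
  rw [h]; norm_num

theorem AA_eleven : AA 11 = 2048 / (231 * Real.pi) := by
  have h := KapNAux.AA_add_two 9
  rw [show (9 : ℕ) + 2 = 11 from rfl, AA_nine] at h
  have hpi := Real.pi_pos
  rw [h]; push_cast; field_simp; norm_num

theorem AA_twelve : AA 12 = 3003 / 1024 := by
  have h := KapNAux.AA_add_two 10
  rw [show (10 : ℕ) + 2 = 12 from rfl, AA_ten] at h
  rw [h]; norm_num

theorem one_le_AA (m : ℕ) : 1 ≤ AA m := by
  have h2 := Pool.Agent.Saus.kap_pos (m + 1)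
  unfold AA
  rw [le_div_iff₀ h2, one_mul]
  exact KapNAux.kap_succ_le m

end

end Pool.Agent.SausN
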