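import Pool.Agent.Lib.MP_5a9905_co_NC.Defs
import Pool.Agent.Lib.MP_5a9905_co_NC.ProdC

set_option autoImplicit false

open MeasureTheory Finset

namespace Pool.Agent.SausN

open Pool.Agent.Saus (E kap Loc Vor)

noncomputable section

namespace PCAux

open scoped ENNReal

/-- Dilation in the tail space. -/
theorem lint_smul {m : ℕ} {F : E m → ℝ≥0∞} (hF : Measurable F) {r : ℝ} (hr : 0 < r) :
    ∫⁻ y, F y = ENNReal.ofReal (r ^ m) * ∫⁻ v, F (r • v) := by
  have h1 : ∫⁻ v, F (r • v) = ∫⁻ y, F y ∂(Measure.map (fun v : E m => r • v) volume) := by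
    rw [lintegral_map hF (measurable_const_smul r)]
  rw [h1, Measure.map_addHaar_smul _ hr.ne', lintegral_smul_measure, smul_eq_mul, ← mul_assoc,
    ← ENNReal.ofReal_mul (by positivity)]
  have h2 : r ^ m * |(r ^ Module.finrank ℝ (E m))⁻¹| = 1 := by
    rw [finrank_euclideanSpace_fin, abs_of_pos (by positivity)]
    exact mul_inv_cancel₀ (by positivity)
  rw [h2, ENNReal.ofReal_one, one_mul]

/-- Dilation on the half-line. -/
theorem lint_Ioi {G : ℝ → ℝ≥0∞} (hG : Measurable G) {r : ℝ} (hr : 0 < r) :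
    ∫⁻ a in Set.Ioi (0 : ℝ), G a = ENNReal.ofReal r * ∫⁻ x in Set.Ioi (0 : ℝ), G (r * x) := by
  have h0 : ∫⁻ x in Set.Ioi (0 : ℝ), G (r * x)
      = ∫⁻ x, (Set.Ioi (0 : ℝ)).indicator G (r * x) := by
    rw [← lintegral_indicator measurableSet_Ioi]
    refine lintegral_congr fun x => ?_
    have hiff : r * x ∈ Set.Ioi (0 : ℝ) ↔ x ∈ Set.Ioi (0 : ℝ) := by
      rw [Set.mem_Ioi, Set.mem_Ioi, mul_pos_iff_of_pos_left hr]
    simp only [Set.indicator_apply, hiff]
  have hGi : Measurable ((Set.Ioi (0 : ℝ)).indicator G) := hG.indicator measurableSet_Ioi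
  have h1 : ∫⁻ x, (Set.Ioi (0 : ℝ)).indicator G (r * x)
      = ∫⁻ y, (Set.Ioi (0 : ℝ)).indicator G y ∂(Measure.map (fun v : ℝ => r * v) volume) := by
    rw [lintegral_map hGi (measurable_const_mul r)]
  rw [h0, h1, Real.map_volume_mul_left hr.ne', lintegral_smul_measure, smul_eq_mul, ← mul_assoc,
    ← ENNReal.ofReal_mul hr.le, abs_of_pos (inv_pos.2 hr), mul_inv_cancel₀ hr.ne',
    ENNReal.ofReal_one, one_mul, lintegral_indicator measurableSet_Ioi]

/-- The reference measure. -/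
def mu (m : ℕ) : Measure ℝ :=
  (volume.restrict (Set.Ioi (0 : ℝ))).withDensity (fun x => ENNReal.ofReal (x ^ m))

instance (m : ℕ) : SigmaFinite (mu m) := by
  unfold mu
  exact SigmaFinite.withDensity_of_ne_top (Filter.Eventually.of_forall fun _ =>
    ENNReal.ofReal_ne_top)

/-- The projective chart. -/
def Th {m : ℕ} (c : E (m + 1)) (J : E m →ₗᵢ[ℝ] E (m + 1)) (p : ℝ × E m) : E (m + 1) :=
  p.1 • (c + J p.2)

theorem measurable_Th {m : ℕ} (c : E (m + 1)) (J : E m →ₗᵢ[ℝ] E (m + 1)) :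
    Measurable (Th c J) := by
  have : Continuous (Th c J) := by
    unfold Th
    exact continuous_fst.smul (continuous_const.add (J.continuous.comp continuous_snd))
  exact this.measurable

theorem lint_eq {m : ℕ} {c : E (m + 1)} (hc : c ≠ 0) {J : E m →ₗᵢ[ℝ] E (m + 1)}
    (hJ : ∀ v, inner ℝ c (J v) = (0 : ℝ)) {f : E (m + 1) → ℝ≥0∞} (hf : Measurable f) :
    ∫⁻ z in {z | 0 < inner ℝ c z}, f z
      = ENNReal.ofReal ‖c‖ * ∫⁻ p, f (Th c J p) ∂((mu m).prod (volume : Measure (E m))) := by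
  have hc' : 0 < ‖c‖ := norm_pos_iff.2 hc
  obtain ⟨Φ, hΦ, hΦm⟩ := exists_prod (u := ‖c‖⁻¹ • c)
    (by rw [norm_smul, norm_inv, norm_norm, inv_mul_cancel₀ hc'.ne'])
    (J := J) (fun v => by rw [real_inner_smul_left, hJ, mul_zero])
  have hH : MeasurableSet {z : E (m + 1) | 0 < inner ℝ c z} :=
    measurableSet_lt measurable_const (Continuous.measurable (by fun_prop))
  have hpre : Φ ⁻¹' {z : E (m + 1) | 0 < inner ℝ c z} = Set.Ioi (0 : ℝ) ×ˢ Set.univ := by
    ext p
    simp only [Set.mem_preimage, Set.mem_prod, Set.mem_Ioi, Set.mem_univ, and_true]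
    change 0 < inner ℝ c (Φ p) ↔ 0 < p.1
    rw [hΦ, inner_add_right, hJ, add_zero, real_inner_smul_right, real_inner_smul_right,
      real_inner_self_eq_norm_sq]
    have h1 : ‖c‖⁻¹ * ‖c‖ ^ 2 = ‖c‖ := by field_simp
    rw [h1, mul_pos_iff_of_pos_right hc']
  have hfT : Measurable fun p : ℝ × E m => f (Th c J p) := hf.comp (measurable_Th c J)
  have hL : ∫⁻ z in {z | 0 < inner ℝ c z}, f z
      = ∫⁻ a in Set.Ioi (0 : ℝ), ∫⁻ y : E m, f (Φ (a, y)) := by
    rw [← hΦm.map_eq, Measure.restrict_map Φ.measurable hH, lintegral_map hf Φ.measurable, hpre,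
      Measure.volume_eq_prod, ← Measure.prod_restrict, Measure.restrict_univ,
      lintegral_prod (fun p => f (Φ p)) (hf.comp Φ.measurable).aemeasurable]
  have hR : ∫⁻ p, f (Th c J p) ∂((mu m).prod (volume : Measure (E m)))
      = ∫⁻ x in Set.Ioi (0 : ℝ), ENNReal.ofReal (x ^ m) * ∫⁻ v : E m, f (Th c J (x, v)) := by
    rw [lintegral_prod _ hfT.aemeasurable, mu, lintegral_withDensity_eq_lintegral_mul]
    · rfl
    · exact (measurable_id.pow_const m).ennreal_ofReal
    · exact hfT.lintegral_prod_right'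
  have hG : Measurable fun a : ℝ => ∫⁻ y : E m, f (Φ (a, y)) :=
    (hf.comp Φ.measurable).lintegral_prod_right'
  rw [hL, hR, lint_Ioi hG hc']
  congr 1
  refine setLIntegral_congr_fun measurableSet_Ioi fun x hx => ?_
  have hx' : (0 : ℝ) < x := hx
  have hF : Measurable fun y : E m => f (Φ (‖c‖ * x, y)) :=
    (hf.comp Φ.measurable).comp measurable_prodMk_left
  change ∫⁻ y : E m, f (Φ (‖c‖ * x, y)) = _
  rw [lint_smul hF hx']
  congr 1
  refine lintegral_congr fun v => ?_
  rw [hΦ]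
  unfold Th
  simp only
  rw [smul_smul, map_smul, smul_add]
  congr 3
  field_simp

theorem meas_eq {m : ℕ} {c : E (m + 1)} (hc : c ≠ 0) {J : E m →ₗᵢ[ℝ] E (m + 1)}
    (hJ : ∀ v, inner ℝ c (J v) = (0 : ℝ)) :
    (volume : Measure (E (m + 1))).restrict {z | 0 < inner ℝ c z}
      = ENNReal.ofReal ‖c‖ •
        Measure.map (Th c J) ((mu m).prod (volume : Measure (E m))) := by
  refine Measure.ext_of_lintegral _ fun f hf => ?_
  rw [lint_eq hc hJ hf, lintegral_smul_measure, smul_eq_mul, lintegral_map hf (measurable_Th c J)]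

end PCAux

open PCAux in
theorem pc_integral {m : ℕ} {c : E (m + 1)} (hc : c ≠ 0) {J : E m →ₗᵢ[ℝ] E (m + 1)}
    (hJ : ∀ v, inner ℝ c (J v) = (0 : ℝ)) {g : E (m + 1) → ℝ}
    (hg : IntegrableOn g {z | 0 < inner ℝ c z}) :
    ∫ z in {z | 0 < inner ℝ c z}, g z
      = ‖c‖ * ∫ v : E m, ∫ x in Set.Ioi (0 : ℝ), g (x • (c + J v)) * x ^ m := by
  have hc' : 0 < ‖c‖ := norm_pos_iff.2 hc
  have hg1 : Integrable g (ENNReal.ofReal ‖c‖ •
      Measure.map (Th c J) ((mu m).prod (volume : Measure (E m)))) := by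
    rw [← meas_eq hc hJ]
    exact hg
  have hg2 : Integrable g (Measure.map (Th c J) ((mu m).prod (volume : Measure (E m)))) :=
    (integrable_smul_measure (by simpa using hc) ENNReal.ofReal_ne_top).1 hg1
  have hg3 : Integrable (g ∘ Th c J) ((mu m).prod (volume : Measure (E m))) :=
    (integrable_map_measure hg2.1 (measurable_Th c J).aemeasurable).1 hg2
  rw [meas_eq hc hJ, integral_smul_measure, ENNReal.toReal_ofReal hc'.le, smul_eq_mul,
    integral_map (measurable_Th c J).aemeasurable hg2.1]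
  congr 1
  have h4 := integral_prod_symm (g ∘ Th c J) hg3
  simp only [Function.comp] at h4
  rw [h4]
  congr 1
  funext v
  have hmm : Measurable fun x : ℝ => ENNReal.ofReal (x ^ m) :=
    (measurable_id.pow_const m).ennreal_ofReal
  rw [mu, integral_withDensity_eq_integral_toReal_smul hmm
    (Filter.Eventually.of_forall fun _ => ENNReal.ofReal_lt_top)]
  refine setIntegral_congr_fun measurableSet_Ioi fun x hx => ?_
  have hx' : (0 : ℝ) < x := hx
  change (ENNReal.ofReal (x ^ m)).toReal • g (x • (c + J v)) = g (x • (c + J v)) * x ^ m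
  rw [ENNReal.toReal_ofReal (pow_nonneg hx'.le m), smul_eq_mul, mul_comm]

end

end Pool.Agent.SausN
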