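import Pool.Agent.Lib.MP_5a9905_co_NC.Defs
import Pool.Agent.Lib.MP_5a9905_co_NC.Jex
import Pool.Agent.Lib.MP_5a9905_co_NC.PC
import Pool.Agent.Lib.MP_5a9905_co_NC.KapN

set_option autoImplicit false

open MeasureTheory Finset

namespace Pool.Agent.SausN

open Pool.Agent.Saus (E kap Loc Vor)

noncomputable section

namespace CellVAux

theorem meas_Cell {d : ℕ} (Z : Finset (E d)) (w : E d) : MeasurableSet (Cell Z w) := by
  have h : Cell Z w = {z | 0 < inner ℝ w z} ∩
      ⋂ y ∈ Z, {z | inner ℝ y z * ‖w‖ ^ 2 ≤ inner ℝ w z * ‖y‖ ^ 2} := by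
    ext z
    simp [Cell]
  rw [h]
  refine (isOpen_lt continuous_const (by fun_prop)).measurableSet.inter ?_
  refine Finset.measurableSet_biInter _ (fun y _ => ?_)
  exact (isClosed_le (by fun_prop) (by fun_prop)).measurableSet

theorem meas_Vor {d : ℕ} (Z : Finset (E d)) : MeasurableSet (Vor Z) := by
  have h : Vor Z = ⋂ y ∈ Z, {z | inner ℝ y z ≤ ‖y‖ ^ 2 / 2} := by
    ext z
    simp [Pool.Agent.Saus.Vor]
  rw [h]
  refine Finset.measurableSet_biInter _ (fun y _ => ?_)
  exact (isClosed_le (by fun_prop) (by fun_prop)).measurableSet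

theorem meas_Cy {d : ℕ} (w : E d) : MeasurableSet (Cy w) := by
  have h : Cy w = {z | 0 < inner ℝ w z} ∩
      {z | ‖w‖ ^ 2 * ‖z‖ ^ 2 ≤ (inner ℝ w z) ^ 2 + ‖w‖ ^ 2} := by
    ext z
    simp [Cy]
  rw [h]
  exact (isOpen_lt continuous_const (by fun_prop)).measurableSet.inter
    (isClosed_le (by fun_prop) (by fun_prop)).measurableSet

theorem int_pow (n : ℕ) {M : ℝ} (hM : 0 < M) :
    IntegrableOn (fun x : ℝ => (if x ^ 2 * M ≤ 1 then (1 : ℝ) else 0) * x ^ n) (Set.Ioi (0 : ℝ)) ∧
    ∫ x in Set.Ioi (0 : ℝ), (if x ^ 2 * M ≤ 1 then (1 : ℝ) else 0) * x ^ n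
      = M ^ (-(((n : ℝ) + 1) / 2)) / ((n : ℝ) + 1) := by
  have hs : 0 < √M := Real.sqrt_pos.mpr hM
  have hr : 0 < (√M)⁻¹ := inv_pos.mpr hs
  have hiff : ∀ x : ℝ, 0 < x → (x ^ 2 * M ≤ 1 ↔ x ≤ (√M)⁻¹) := by
    intro x hx
    have e1 : x ^ 2 * M = (x * √M) ^ 2 := by
      rw [mul_pow, Real.sq_sqrt hM.le]
    rw [e1, sq_le_one_iff₀ (by positivity), ← le_div_iff₀ hs, one_div]
  have hcongr : Set.EqOn (fun x : ℝ => (if x ^ 2 * M ≤ 1 then (1 : ℝ) else 0) * x ^ n)
      ((Set.Iic ((√M)⁻¹)).indicator (fun x : ℝ => x ^ n)) (Set.Ioi (0 : ℝ)) := by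
    intro x hx
    have hx0 : (0 : ℝ) < x := hx
    by_cases h : x ≤ (√M)⁻¹
    · have h2 := (hiff x hx0).mpr h
      simp only [if_pos h2, one_mul]
      rw [Set.indicator_of_mem (show x ∈ Set.Iic ((√M)⁻¹) from h)]
    · have h2 : ¬ x ^ 2 * M ≤ 1 := fun hh => h ((hiff x hx0).mp hh)
      simp only [if_neg h2, zero_mul]
      rw [Set.indicator_of_notMem (show x ∉ Set.Iic ((√M)⁻¹) from h)]
  have hset : Set.Ioi (0 : ℝ) ∩ Set.Iic ((√M)⁻¹) = Set.Ioc 0 ((√M)⁻¹) := by
    ext x
    simp [Set.mem_Ioc]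
  have hint : IntegrableOn (fun x : ℝ => x ^ n) (Set.Ioc 0 ((√M)⁻¹)) :=
    (continuous_pow n).integrableOn_Ioc
  constructor
  · rw [integrableOn_congr_fun hcongr measurableSet_Ioi]
    rw [IntegrableOn, integrable_indicator_iff measurableSet_Iic, IntegrableOn,
      Measure.restrict_restrict measurableSet_Iic, Set.inter_comm, hset]
    exact hint
  · rw [setIntegral_congr_fun measurableSet_Ioi hcongr, setIntegral_indicator measurableSet_Iic,
      hset, ← intervalIntegral.integral_of_le hr.le, integral_pow]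
    have e2 : ((√M)⁻¹) ^ (n + 1) = M ^ (-(((n : ℝ) + 1) / 2)) := by
      rw [Real.sqrt_eq_rpow, ← Real.rpow_neg hM.le, ← Real.rpow_natCast, ← Real.rpow_mul hM.le]
      congr 1
      push_cast
      ring
    rw [e2]
    simp

end CellVAux

open CellVAux

theorem near_cell {k : ℕ} {Z : Finset (E (k + 2))} (hZ : Sep Z)
    {w : E (k + 2)} (hw : w ∈ Z) (hw8 : ‖w‖ ^ 2 < 8)
    (hface : ∀ J : E (k + 1) →ₗᵢ[ℝ] E (k + 2), (∀ v, inner ℝ w (J v) = (0 : ℝ)) →
      0 ≤ ∫ v in {v : E (k + 1) | ∀ y ∈ Z, inner ℝ y ((1 / 2 : ℝ) • w + J v) ≤ ‖y‖ ^ 2 / 2},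
        fn (k + 1) (‖w‖ ^ 2 / 4) (‖v‖ ^ 2)) :
    AA (k + 1) * volume.real (Ba (k + 2) ∩ Cell Z w)
      ≤ volume.real ({z | ‖z‖ ^ 2 ≤ 2 ∧ z ∈ Vor Z ∧ z ∈ Cy w} ∩ Cell Z w) := by
  obtain ⟨J, hJ⟩ := exists_J (m := k + 1) w
  have hJw := hface J hJ
  have hw2 : 2 ≤ ‖w‖ := hZ.far w hw
  have hw0 : 0 < ‖w‖ := by linarith
  have hwne : w ≠ 0 := norm_pos_iff.mp hw0
  set h : ℝ := ‖w‖ ^ 2 / 4 with hh
  have hh1 : 1 ≤ h := by rw [hh]; nlinarith
  set c : E (k + 2) := (1 / 2 : ℝ) • w with hc
  have hcne : c ≠ 0 := by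
    rw [hc]
    exact smul_ne_zero (by norm_num) hwne
  have hcJ : ∀ v, inner ℝ c (J v) = (0 : ℝ) := by
    intro v
    rw [hc, inner_smul_left, hJ v, mul_zero]
  have hcn : ‖c‖ ^ 2 = h := by
    rw [hc, norm_smul, hh]
    norm_num
    ring
  have hwc : inner ℝ w c = ‖w‖ ^ 2 / 2 := by
    rw [hc, inner_smul_right, real_inner_self_eq_norm_sq]
    ring
  set Wp : Set (E (k + 2)) := {z | ‖z‖ ^ 2 ≤ 2 ∧ z ∈ Vor Z ∧ z ∈ Cy w} ∩ Cell Z w with hWp
  set Wm : Set (E (k + 2)) := Ba (k + 2) ∩ Cell Z w with hWm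
  set V : Set (E (k + 1)) := {v : E (k + 1) | ∀ y ∈ Z, inner ℝ y (c + J v) ≤ ‖y‖ ^ 2 / 2} with hV
  have hWpm : MeasurableSet Wp := by
    have h1 : MeasurableSet {z : E (k + 2) | ‖z‖ ^ 2 ≤ 2} :=
      (isClosed_le (by fun_prop) (by fun_prop)).measurableSet
    exact (h1.inter ((meas_Vor Z).inter (meas_Cy w))).inter (meas_Cell Z w)
  have hWmm : MeasurableSet Wm := (Metric.isClosed_closedBall.measurableSet).inter (meas_Cell Z w)
  have hVm : MeasurableSet V := by
    have h1 : V = ⋂ y ∈ Z, {v : E (k + 1) | inner ℝ y (c + J v) ≤ ‖y‖ ^ 2 / 2} := by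
      ext v
      simp [hV]
    rw [h1]
    refine Finset.measurableSet_biInter _ (fun y _ => ?_)
    exact (isClosed_le (continuous_const.inner (continuous_const.add J.continuous))
      (by fun_prop)).measurableSet
  have hWpf : volume Wp ≠ ⊤ := by
    refine ne_top_of_le_ne_top (measure_closedBall_lt_top (x := (0 : E (k + 2))) (r := √2)).ne
      (measure_mono ?_)
    rintro z ⟨⟨hz, _⟩, _⟩
    rw [mem_closedBall_zero_iff]
    exact Real.le_sqrt_of_sq_le hz
  have hWmf : volume Wm ≠ ⊤ := by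
    refine ne_top_of_le_ne_top (measure_closedBall_lt_top (x := (0 : E (k + 2))) (r := 1)).ne
      (measure_mono ?_)
    rintro z ⟨hz, _⟩
    exact hz
  set g : E (k + 2) → ℝ := fun z => Wp.indicator (fun _ => (1 : ℝ)) z
    - AA (k + 1) * Wm.indicator (fun _ => (1 : ℝ)) z with hg
  have hgp : Integrable (Wp.indicator (fun _ : E (k + 2) => (1 : ℝ))) :=
    (integrable_indicator_iff hWpm).mpr (integrableOn_const (by simpa using hWpf))
  have hgm : Integrable (Wm.indicator (fun _ : E (k + 2) => (1 : ℝ))) :=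
    (integrable_indicator_iff hWmm).mpr (integrableOn_const (by simpa using hWmf))
  have hgi : Integrable g := hgp.sub (hgm.const_mul _)
  have hpos : ∀ z, z ∈ Cell Z w → 0 < inner ℝ c z := by
    rintro z ⟨hz, _⟩
    rw [hc, inner_smul_left]
    have : (0 : ℝ) < 1 / 2 * inner ℝ w z := by positivity
    simpa using this
  have hsupp : ∀ z, z ∉ {z | 0 < inner ℝ c z} → g z = 0 := by
    intro z hz
    have h1 : z ∉ Wp := fun h2 => hz (hpos z h2.2)
    have h3 : z ∉ Wm := fun h2 => hz (hpos z h2.2)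
    rw [hg]
    simp only
    rw [Set.indicator_of_notMem h1, Set.indicator_of_notMem h3]
    ring
  have hI1 : ∫ z in {z | 0 < inner ℝ c z}, g z = volume.real Wp - AA (k + 1) * volume.real Wm := by
    rw [setIntegral_eq_integral_of_forall_compl_eq_zero hsupp]
    rw [hg, integral_sub hgp (hgm.const_mul _), integral_const_mul, integral_indicator hWpm,
      integral_indicator hWmm]
    simp
  have hpc := pc_integral hcne hcJ (g := g) hgi.integrableOn
  have hinner : ∀ v : E (k + 1), (∫ x in Set.Ioi (0 : ℝ), g (x • (c + J v)) * x ^ (k + 1))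
      = V.indicator (fun v => fn (k + 1) h (‖v‖ ^ 2)) v * (1 / ((k : ℝ) + 2)) := by
    intro v
    have hn2 : ‖c + J v‖ ^ 2 = h + ‖v‖ ^ 2 := by
      rw [norm_add_sq_real, hcJ v, J.norm_map, hcn]
      ring
    have hwcJ : inner ℝ w (c + J v) = ‖w‖ ^ 2 / 2 := by
      rw [inner_add_right, hJ v, hwc, add_zero]
    have hcell : ∀ x : ℝ, 0 < x → (x • (c + J v) ∈ Cell Z w ↔ v ∈ V) := by
      intro x hx
      constructor
      · rintro ⟨_, h2⟩ y hy
        have h3 := h2 y hy
        rw [inner_smul_right, inner_smul_right, hwcJ] at h3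
        have h4 : (x * ‖w‖ ^ 2) * inner ℝ y (c + J v) ≤ (x * ‖w‖ ^ 2) * (‖y‖ ^ 2 / 2) := by
          linarith
        exact le_of_mul_le_mul_left h4 (by positivity)
      · intro hv
        refine ⟨?_, fun y hy => ?_⟩
        · rw [inner_smul_right, hwcJ]
          positivity
        · rw [inner_smul_right, inner_smul_right, hwcJ]
          have h4 := mul_le_mul_of_nonneg_left (hv y hy) (show 0 ≤ x * ‖w‖ ^ 2 by positivity)
          linarith
    by_cases hv : v ∈ V
    · set s : ℝ := ‖v‖ ^ 2 with hs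
      have hs0 : 0 ≤ s := by positivity
      set M : ℝ := max 1 (max ((h + s) / 2) s) with hM
      have hM0 : 0 < M := lt_of_lt_of_le one_pos (le_max_left _ _)
      have hM0' : 0 < h + s := by linarith
      have key : ∀ x ∈ Set.Ioi (0 : ℝ), g (x • (c + J v)) * x ^ (k + 1)
          = (if x ^ 2 * M ≤ 1 then (1 : ℝ) else 0) * x ^ (k + 1)
            - AA (k + 1) * ((if x ^ 2 * (h + s) ≤ 1 then (1 : ℝ) else 0) * x ^ (k + 1)) := by
        intro x hx
        have hx0 : (0 : ℝ) < x := hx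
        have hnx : ‖x • (c + J v)‖ ^ 2 = x ^ 2 * (h + s) := by
          rw [norm_smul, mul_pow, hn2, Real.norm_eq_abs, sq_abs]
        have hcl := (hcell x hx0).mpr hv
        have h1 : (x • (c + J v) ∈ Wm) ↔ x ^ 2 * (h + s) ≤ 1 := by
          rw [hWm]
          constructor
          · rintro ⟨h2, _⟩
            rw [mem_closedBall_zero_iff] at h2
            rw [← hnx]
            have := norm_nonneg (x • (c + J v))
            nlinarith
          · intro h2
            refine ⟨?_, hcl⟩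
            rw [mem_closedBall_zero_iff]
            rw [← hnx] at h2
            exact (sq_le_one_iff₀ (norm_nonneg _)).mp h2
        have h2 : (x • (c + J v) ∈ Wp) ↔ x ^ 2 * M ≤ 1 := by
          rw [hWp]
          have hx2 : 0 < x ^ 2 := by positivity
          have e1 : x ^ 2 * M ≤ 1 ↔ (x ^ 2 ≤ 1 ∧ x ^ 2 * ((h + s) / 2) ≤ 1 ∧ x ^ 2 * s ≤ 1) := by
            rw [hM, mul_max_of_nonneg _ _ hx2.le, mul_max_of_nonneg _ _ hx2.le, max_le_iff,
              max_le_iff, mul_one]
          rw [e1]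
          constructor
          · rintro ⟨⟨ha, hb, hc'⟩, _⟩
            refine ⟨?_, ?_, ?_⟩
            · have h3 := hb w hw
              rw [inner_smul_right, hwcJ] at h3
              have h4 : x ≤ 1 := by
                by_contra h5
                push Not at h5
                have : 0 < ‖w‖ ^ 2 := by positivity
                nlinarith
              exact (sq_le_one_iff₀ hx0.le).mpr h4
            · rw [hnx] at ha
              linarith
            · have h3 := hc'.2
              rw [hnx, inner_smul_right, hwcJ] at h3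
              have h4 : ‖w‖ ^ 2 = 4 * h := by rw [hh]; ring
              rw [h4] at h3
              have h5 : (4 * h) * (x ^ 2 * s) ≤ (4 * h) * 1 := by nlinarith
              exact le_of_mul_le_mul_left h5 (by linarith)
          · rintro ⟨ha, hb, hc'⟩
            refine ⟨⟨?_, ?_, ?_⟩, hcl⟩
            · rw [hnx]
              linarith
            · intro y hy
              rw [inner_smul_right]
              have h3 := hv y hy
              have h4 : x ≤ 1 := (sq_le_one_iff₀ hx0.le).mp ha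
              have h5 : 0 ≤ ‖y‖ ^ 2 / 2 := by positivity
              by_cases h6 : 0 ≤ inner ℝ y (c + J v)
              · nlinarith
              · push Not at h6
                nlinarith
            · refine ⟨?_, ?_⟩
              · rw [inner_smul_right, hwcJ]
                positivity
              · rw [hnx, inner_smul_right, hwcJ]
                have h4 : ‖w‖ ^ 2 = 4 * h := by rw [hh]; ring
                rw [h4]
                nlinarith
        rw [hg]
        simp only
        by_cases ha : x ^ 2 * M ≤ 1 <;> by_cases hb : x ^ 2 * (h + s) ≤ 1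
        · rw [Set.indicator_of_mem (h2.mpr ha), Set.indicator_of_mem (h1.mpr hb), if_pos ha,
            if_pos hb]
          ring
        · rw [Set.indicator_of_mem (h2.mpr ha), Set.indicator_of_notMem (fun q => hb (h1.mp q)),
            if_pos ha, if_neg hb]
          ring
        · rw [Set.indicator_of_notMem (fun q => ha (h2.mp q)), Set.indicator_of_mem (h1.mpr hb),
            if_neg ha, if_pos hb]
          ring
        · rw [Set.indicator_of_notMem (fun q => ha (h2.mp q)),
            Set.indicator_of_notMem (fun q => hb (h1.mp q)), if_neg ha, if_neg hb]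
          ring
      rw [setIntegral_congr_fun measurableSet_Ioi key]
      obtain ⟨i1, i2⟩ := int_pow (k + 1) hM0
      obtain ⟨i3, i4⟩ := int_pow (k + 1) hM0'
      rw [integral_sub i1 (i3.const_mul _), integral_const_mul, i2, i4,
        Set.indicator_of_mem hv]
      unfold fn
      push_cast
      have hk : (k : ℝ) + 1 + 1 = (k : ℝ) + 2 := by ring
      rw [hk, ← hs, ← hM]
      field_simp
    · rw [Set.indicator_of_notMem hv, zero_mul]
      have key : ∀ x ∈ Set.Ioi (0 : ℝ), g (x • (c + J v)) * x ^ (k + 1) = 0 := by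
        intro x hx
        have hx0 : (0 : ℝ) < x := hx
        have hcl : ¬ x • (c + J v) ∈ Cell Z w := fun q => hv ((hcell x hx0).mp q)
        have h1 : ¬ x • (c + J v) ∈ Wp := fun q => hcl q.2
        have h2 : ¬ x • (c + J v) ∈ Wm := fun q => hcl q.2
        rw [hg]
        simp only
        rw [Set.indicator_of_notMem h1, Set.indicator_of_notMem h2]
        ring
      rw [setIntegral_congr_fun measurableSet_Ioi key]
      simp
  rw [hI1] at hpc
  have hpc2 : (∫ v : E (k + 1), ∫ x in Set.Ioi (0 : ℝ), g (x • (c + J v)) * x ^ (k + 1))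
      = (∫ v in V, fn (k + 1) h (‖v‖ ^ 2)) * (1 / ((k : ℝ) + 2)) := by
    rw [← integral_indicator hVm, ← integral_mul_const]
    exact integral_congr_ae (Filter.Eventually.of_forall hinner)
  rw [hpc2] at hpc
  have hfin : 0 ≤ ‖c‖ * ((∫ v in V, fn (k + 1) h (‖v‖ ^ 2)) * (1 / ((k : ℝ) + 2))) := by
    have : 0 ≤ ∫ v in V, fn (k + 1) h (‖v‖ ^ 2) := hJw
    positivity
  linarith

end

end Pool.Agent.SausN
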