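import Pool.Agent.Lib.MP_5a9905_co.Defs

/-!
# Sausage conjecture, all dimensions `d ≥ 5` (MP_5a9905_co): definitions of the normal cone project

`d = m + 1` throughout.  `AA m = 2 κ_m / κ_{m+1}` is the constant of dimension `m + 1`.
For a finite set `Y` of (other) centres seen from the centre `0`, `Op Y` is the complement of the
normal cone at `0`, `Vor Z` (from the first sausage project) the Voronoi cell of `0`,
`Cy y` the half-cylinder of radius one around the ray of `y`.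
-/

set_option autoImplicit false

open MeasureTheory

namespace Pool.Agent.SausN

open Pool.Agent.Saus (E kap Loc Vor)

noncomputable section

/-- `2 κ_m / κ_{m+1}`, the constant of dimension `m + 1`. -/
def AA (m : ℕ) : ℝ := 2 * kap m / kap (m + 1)

/-- The closed unit ball. -/
abbrev Ba (d : ℕ) : Set (E d) := Metric.closedBall (0 : E d) 1

/-- The points on the positive side of some `y ∈ Y`: complement of the normal cone at `0`. -/
def Op {d : ℕ} (Y : Finset (E d)) : Set (E d) := {z | ∃ y ∈ Y, 0 < inner ℝ y z}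

/-- The open half-cylinder of radius one around the ray of `y`. -/
def Cy {d : ℕ} (y : E d) : Set (E d) :=
  {z | 0 < inner ℝ y z ∧ ‖y‖ ^ 2 * ‖z‖ ^ 2 ≤ (inner ℝ y z) ^ 2 + ‖y‖ ^ 2}

/-- Near centres: half distance smaller than `√2`. -/
def Nr {d : ℕ} (Y : Finset (E d)) : Finset (E d) := Y.filter (fun y => ‖y‖ ^ 2 < 8)

/-- The truncated region: near centres `Z` cut, all centres `Y` contribute cylinders. -/
def WW {d : ℕ} (Z Y : Finset (E d)) : Set (E d) :=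
  {z | ‖z‖ ^ 2 ≤ 2 ∧ z ∈ Vor Z ∧ ∃ y ∈ Y, z ∈ Cy y}

/-- The cone over the Voronoi facet of `w`. -/
def Cell {d : ℕ} (Z : Finset (E d)) (w : E d) : Set (E d) :=
  {z | 0 < inner ℝ w z ∧ ∀ y ∈ Z, inner ℝ y z * ‖w‖ ^ 2 ≤ inner ℝ w z * ‖y‖ ^ 2}

/-- Separated set of other centres. -/
structure Sep {d : ℕ} (Y : Finset (E d)) : Prop where
  far : ∀ y ∈ Y, 2 ≤ ‖y‖
  sep : ∀ y ∈ Y, ∀ y' ∈ Y, y ≠ y' → 2 ≤ ‖y - y'‖

/-- The facet density: `v` runs over the bisector hyperplane of a centre at half distance `√h`,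
`x = ‖v‖²` is the squared distance to the foot. -/
def fn (m : ℕ) (h x : ℝ) : ℝ :=
  (max 1 (max ((h + x) / 2) x)) ^ (-(((m : ℝ) + 1) / 2)) - AA m * (h + x) ^ (-(((m : ℝ) + 1) / 2))

/-- Radial average of `1 - A |z|^{-(m+1)}` over the segment from the foot (squared distance `h`) to
a point of squared distance `X`. -/
def F2 (m : ℕ) (h X : ℝ) : ℝ :=
  ∫ τ in (0 : ℝ)..1, (1 - AA m * (h + τ ^ 2 * (X - h)) ^ (-(((m : ℝ) + 1) / 2))) * τ ^ (m - 1)

/-- Directions that leave the polyhedron `{⟪v,b⟫ ≤ 1}` at distance at least `s₀`. -/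
def FrS {m : ℕ} (B : Finset (E (m + 1))) (s₀ : ℝ) : Set (E (m + 1)) :=
  {v | ∀ b ∈ B, s₀ * inner ℝ v b ≤ ‖v‖}

/-- Directions that leave it through the facet of `b` at distance less than `s₀`. -/
def CbS {m : ℕ} (B : Finset (E (m + 1))) (s₀ : ℝ) (b : E (m + 1)) : Set (E (m + 1)) :=
  {v | ‖v‖ < s₀ * inner ℝ v b ∧ ∀ b' ∈ B, inner ℝ v b' ≤ inner ℝ v b}

/-- The polyhedron. -/
def QS {m : ℕ} (B : Finset (E (m + 1))) : Set (E (m + 1)) := {v | ∀ b ∈ B, inner ℝ v b ≤ 1}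

/-- Flat data: `c` is the foot and `J` the direction isometry of the flat equidistant from `0` and
the points of `S`. -/
structure IsFl {d m : ℕ} (Y S : Finset (E d)) (c : E d) (J : E m →ₗᵢ[ℝ] E d) : Prop where
  sub : S ⊆ Y
  card : S.card + m = d
  orth : ∀ v, inner ℝ c (J v) = 0
  orthS : ∀ w ∈ S, ∀ v, inner ℝ w (J v) = 0
  mid : ∀ w ∈ S, inner ℝ w c = ‖w‖ ^ 2 / 2

/-- Integral over the Voronoi face of a flat, inside the ball of radius `√R`. -/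
def FI {d m : ℕ} (Y : Finset (E d)) (c : E d) (J : E m →ₗᵢ[ℝ] E d) (R : ℝ) (f : ℝ → ℝ) : ℝ :=
  ∫ v in {v : E m | ‖c‖ ^ 2 + ‖v‖ ^ 2 < R ∧ ∀ y ∈ Y, inner ℝ y (c + J v) ≤ ‖y‖ ^ 2 / 2},
    f (‖c‖ ^ 2 + ‖v‖ ^ 2)

/-- What is needed about faces of codimension two (`m = k + 1`, `d = k + 2`). -/
def NearTwo (k : ℕ) (R : ℝ) : Prop :=
  ∀ (Y S : Finset (E (k + 2))) (c : E (k + 2)) (J : E k →ₗᵢ[ℝ] E (k + 2)) (h : ℝ), Sep Y →
    IsFl Y S c J → 1 ≤ h → h < ‖c‖ ^ 2 → ‖c‖ ^ 2 < R → 0 ≤ FI Y c J R (F2 (k + 1) h)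

/-- Weight of the direction with cotangent `x`. -/
def wt (m : ℕ) (x : ℝ) : ℝ := (1 + x ^ 2) ^ (-(((m : ℝ) + 1) / 2))

/-- `ρ^{m+1}` in the direction with cotangent `x` from the axis of a cylinder. -/
def qq (m : ℕ) (x : ℝ) : ℝ := (min 2 (1 + x ^ 2)) ^ (((m : ℝ) + 1) / 2)

/-- The same for a direction with cotangent `(x - τ)/(1 + xτ)`. -/
def pp (m : ℕ) (τ x : ℝ) : ℝ :=
  (min 2 ((1 + x ^ 2) * (1 + τ ^ 2) / (1 + x * τ) ^ 2)) ^ (((m : ℝ) + 1) / 2)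

/-- Layer integral. -/
def Pf (m : ℕ) (a η : ℝ) : ℝ := ((m : ℝ) + 1) * ∫ ξ in a..1, ξ * (1 - ξ * η) ^ (m - 1)

/-- The numerical input of the far part. -/
def FarNum (m : ℕ) : Prop :=
  ∃ a : ℝ, 0 < a ∧ a < 1 ∧ (1 + a ^ 2) ^ (((m : ℝ) + 1) / 2) = AA m ∧
    ∀ τ, 0 ≤ τ → τ ≤ a →
      0 ≤ ∫ η in (0 : ℝ)..τ, (Pf m a η - AA m + (1 + η ^ 2) ^ (((m : ℝ) + 1) / 2))

end

end Pool.Agent.SausN
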