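import Pool.Agent.Lib.MP_5a9905_co_NC.Defs

set_option autoImplicit false

open MeasureTheory

namespace Pool.Agent.SausN

open Pool.Agent.Saus (E kap Loc Vor)

/-- Continuity of the radial average. -/
theorem F2_continuousOn {m : ℕ} {h R : ℝ} (h1 : 1 ≤ h) :
    ContinuousOn (F2 m h) (Set.Icc h R) := by
  have hcont : Continuous (fun X : ℝ => ∫ τ in (0 : ℝ)..1,
      (1 - AA m * (h + τ ^ 2 * (max h X - h)) ^ (-(((m : ℝ) + 1) / 2))) * τ ^ (m - 1)) := by
    apply intervalIntegral.continuous_parametric_intervalIntegral_of_continuous'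
    have hb : Continuous (fun p : ℝ × ℝ => h + p.2 ^ 2 * (max h p.1 - h)) := by fun_prop
    have hr : Continuous (fun p : ℝ × ℝ =>
        (h + p.2 ^ 2 * (max h p.1 - h)) ^ (-(((m : ℝ) + 1) / 2))) := by
      rw [continuous_iff_continuousAt]
      intro p
      refine hb.continuousAt.rpow_const (Or.inl ?_)
      have h2 : 0 ≤ p.2 ^ 2 * (max h p.1 - h) :=
        mul_nonneg (sq_nonneg _) (by linarith [le_max_left h p.1])
      linarith
    simp only [Function.uncurry_def]
    exact (continuous_const.sub (continuous_const.mul hr)).mul (by fun_prop)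
  refine hcont.continuousOn.congr ?_
  intro X hX
  simp only [F2, max_eq_right hX.1]

end Pool.Agent.SausN
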