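import Pool.Agent.Lib.MP_5a9905_co_NC.Defs
import Pool.Agent.Lib.MP_5a9905_co_NC.KapN

set_option autoImplicit false

open MeasureTheory Finset

namespace Pool.Agent.SausN

open Pool.Agent.Saus (E kap Loc Vor)

noncomputable section

namespace FIntAux

theorem base {m : ℕ} :
    Integrable (fun v : E m => ((1 : ℝ) + ‖v‖ ^ 2) ^ (-(((m : ℝ) + 1) / 2))) := by
  have h : ((Module.finrank ℝ (E m) : ℕ) : ℝ) < (m : ℝ) + 1 := by
    rw [finrank_euclideanSpace, Fintype.card_fin]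
    linarith
  have h2 := integrable_rpow_neg_one_add_norm_sq (E := E m) (μ := volume) (r := (m : ℝ) + 1) h
  refine h2.congr (Filter.Eventually.of_forall fun v => ?_)
  simp only []
  congr 1
  ring

theorem meas {m : ℕ} (h : ℝ) : Measurable (fun v : E m => fn m h (‖v‖ ^ 2)) := by
  unfold fn
  fun_prop

theorem bound {m : ℕ} {h : ℝ} (h1 : 1 ≤ h) {x : ℝ} (hx : 0 ≤ x) :
    ‖fn m h x‖ ≤
      ((2 : ℝ) ^ (((m : ℝ) + 1) / 2) + AA m) * (1 + x) ^ (-(((m : ℝ) + 1) / 2)) := by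
  have hp : (0 : ℝ) ≤ ((m : ℝ) + 1) / 2 := by positivity
  have hx1 : (0 : ℝ) < 1 + x := by linarith
  have hM : (1 + x) / 2 ≤ max 1 (max ((h + x) / 2) x) := by
    refine le_trans ?_ (le_max_right _ _)
    refine le_trans ?_ (le_max_left _ _)
    linarith
  have hM0 : 0 < max 1 (max ((h + x) / 2) x) := lt_of_lt_of_le one_pos (le_max_left _ _)
  have a1 : (max 1 (max ((h + x) / 2) x)) ^ (-(((m : ℝ) + 1) / 2))
      ≤ ((1 + x) / 2) ^ (-(((m : ℝ) + 1) / 2)) :=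
    Real.rpow_le_rpow_of_nonpos (by positivity) hM (by linarith)
  have a2 : ((1 + x) / 2) ^ (-(((m : ℝ) + 1) / 2))
      = (2 : ℝ) ^ (((m : ℝ) + 1) / 2) * (1 + x) ^ (-(((m : ℝ) + 1) / 2)) := by
    rw [Real.div_rpow hx1.le (by norm_num), Real.rpow_neg (by norm_num : (0 : ℝ) ≤ 2)]
    rw [div_inv_eq_mul, mul_comm]
  have a3 : 0 ≤ (max 1 (max ((h + x) / 2) x)) ^ (-(((m : ℝ) + 1) / 2)) :=
    Real.rpow_nonneg hM0.le _
  have a4 : (h + x) ^ (-(((m : ℝ) + 1) / 2)) ≤ (1 + x) ^ (-(((m : ℝ) + 1) / 2)) :=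
    Real.rpow_le_rpow_of_nonpos hx1 (by linarith) (by linarith)
  have a5 : 0 ≤ (h + x) ^ (-(((m : ℝ) + 1) / 2)) := Real.rpow_nonneg (by linarith) _
  have hA := AA_pos m
  unfold fn
  rw [Real.norm_eq_abs]
  have b1 : AA m * (h + x) ^ (-(((m : ℝ) + 1) / 2)) ≤ AA m * (1 + x) ^ (-(((m : ℝ) + 1) / 2)) :=
    mul_le_mul_of_nonneg_left a4 hA.le
  have b2 : 0 ≤ AA m * (h + x) ^ (-(((m : ℝ) + 1) / 2)) := mul_nonneg hA.le a5
  have b3 : 0 ≤ (2 : ℝ) ^ (((m : ℝ) + 1) / 2) * (1 + x) ^ (-(((m : ℝ) + 1) / 2)) := by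
    positivity
  rw [abs_le]
  rw [a2] at a1
  constructor <;> nlinarith

end FIntAux

theorem fn_integrable {m : ℕ} (hm : 1 ≤ m) {h : ℝ} (h1 : 1 ≤ h) :
    Integrable (fun v : E m => fn m h (‖v‖ ^ 2)) := by
  refine Integrable.mono' (FIntAux.base.const_mul
    ((2 : ℝ) ^ (((m : ℝ) + 1) / 2) + AA m)) (FIntAux.meas h).aestronglyMeasurable ?_
  refine Filter.Eventually.of_forall fun v => ?_
  exact FIntAux.bound h1 (by positivity)

end

end Pool.Agent.SausN
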