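import Pool.Agent.Lib.MP_5a9905_co_NC.Defs

set_option autoImplicit false

open MeasureTheory Finset

namespace Pool.Agent.SausN

open Pool.Agent.Saus (E kap Loc Vor)

noncomputable section

theorem fl_step {d m : ℕ} {Y S : Finset (E d)} {c : E d} {J : E (m + 1) →ₗᵢ[ℝ] E d}
    (hF : IsFl Y S c J) {y : E d} (hy : y ∈ Y) (hyS : y ∉ S) {b : E (m + 1)} (hb : b ≠ 0)
    (hyb : ∀ v, inner ℝ y (J v) = inner ℝ b v * (‖y‖ ^ 2 / 2 - inner ℝ y c))
    {J' : E m →ₗᵢ[ℝ] E (m + 1)} (hJ' : ∀ v, inner ℝ b (J' v) = (0 : ℝ)) :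
    IsFl Y (insert y S) (c + J ((1 / ‖b‖ ^ 2) • b)) (J.comp J') ∧
      ‖c + J ((1 / ‖b‖ ^ 2) • b)‖ ^ 2 = ‖c‖ ^ 2 + 1 / ‖b‖ ^ 2 := by
  have hbn : ‖b‖ ≠ 0 := norm_ne_zero_iff.mpr hb
  have hb2 : ‖b‖ ^ 2 ≠ 0 := pow_ne_zero 2 hbn
  have hbb : inner ℝ b ((1 / ‖b‖ ^ 2) • b) = (1 : ℝ) := by
    rw [real_inner_smul_right, real_inner_self_eq_norm_sq]
    field_simp
  have hnb : ‖(1 / ‖b‖ ^ 2) • b‖ ^ 2 = 1 / ‖b‖ ^ 2 := by
    rw [norm_smul, mul_pow]
    have : ‖(1 / ‖b‖ ^ 2 : ℝ)‖ = 1 / ‖b‖ ^ 2 := by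
      rw [Real.norm_eq_abs, abs_of_nonneg (by positivity)]
    rw [this]
    field_simp
  refine ⟨⟨?_, ?_, ?_, ?_, ?_⟩, ?_⟩
  · intro z hz
    rcases Finset.mem_insert.mp hz with rfl | hz
    · exact hy
    · exact hF.sub hz
  · rw [Finset.card_insert_of_notMem hyS]
    have := hF.card
    omega
  · intro v
    have h1 : inner ℝ (J ((1 / ‖b‖ ^ 2) • b)) (J (J' v)) = (0 : ℝ) := by
      rw [J.inner_map_map, real_inner_smul_left, hJ' v, mul_zero]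
    have h2 := hF.orth (J' v)
    have h3 : (J.comp J') v = J (J' v) := rfl
    rw [h3, inner_add_left, h1, h2, add_zero]
  · intro w hw v
    rcases Finset.mem_insert.mp hw with rfl | hw
    · have h3 : (J.comp J') v = J (J' v) := rfl
      rw [h3, hyb (J' v), hJ' v, zero_mul]
    · have h3 : (J.comp J') v = J (J' v) := rfl
      rw [h3]
      exact hF.orthS w hw (J' v)
  · intro w hw
    rcases Finset.mem_insert.mp hw with rfl | hw
    · rw [inner_add_right, hyb, hbb]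
      ring
    · rw [inner_add_right, hF.orthS w hw, hF.mid w hw, add_zero]
  · rw [norm_add_sq_real, hF.orth, J.norm_map, hnb]
    ring

end

end Pool.Agent.SausN
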