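import Pool.Agent.Lib.MP_5a9905_co_NC.Defs

set_option autoImplicit false

open MeasureTheory Finset

namespace Pool.Agent.SausN

open Pool.Agent.Saus (E kap Loc Vor)

noncomputable section

namespace FlSAux

theorem rel_zero {ι F : Type*} [Fintype ι] [NormedAddCommGroup F] [InnerProductSpace ℝ F]
    (p : ι → F) (q : F) (μ : ι → ℝ) (h0 : ∑ i, μ i • p i = 0)
    (hp : ∀ i j, i ≠ j → inner ℝ (p i) (p j) < 0) (hq : ∀ i, inner ℝ q (p i) < 0) :
    ∀ i, μ i = 0 := by
  classical
  set a : ι → ℝ := fun i => max (μ i) 0 with ha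
  set b : ι → ℝ := fun i => max (-μ i) 0 with hb
  have ha0 : ∀ i, 0 ≤ a i := fun i => le_max_right _ _
  have hb0 : ∀ i, 0 ≤ b i := fun i => le_max_right _ _
  have hab : ∀ i, μ i = a i - b i := by
    intro i
    simp only [ha, hb]
    rcases le_total (μ i) 0 with h | h
    · rw [max_eq_right h, max_eq_left (by linarith)]; ring
    · rw [max_eq_left h, max_eq_right (by linarith)]; ring
  have hmul : ∀ i, a i * b i = 0 := by
    intro i
    simp only [ha, hb]
    rcases le_total (μ i) 0 with h | h
    · rw [max_eq_right h, zero_mul]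
    · rw [max_eq_right (a := -μ i) (by linarith), mul_zero]
  set x : F := ∑ i, a i • p i with hx
  have hx' : x = ∑ i, b i • p i := by
    have : x - ∑ i, b i • p i = 0 := by
      rw [hx, ← Finset.sum_sub_distrib, ← h0]
      refine Finset.sum_congr rfl fun i _ => ?_
      rw [hab i, sub_smul]
    exact sub_eq_zero.mp this
  have hxx : inner ℝ x x ≤ 0 := by
    have : inner ℝ x x = ∑ i, ∑ j, a i * (b j * inner ℝ (p i) (p j)) := by
      have h1 : inner ℝ x x = inner ℝ (∑ i, a i • p i) (∑ i, b i • p i) := by
        rw [← hx, ← hx']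
      rw [h1, sum_inner]
      refine Finset.sum_congr rfl fun i _ => ?_
      rw [inner_sum]
      refine Finset.sum_congr rfl fun j _ => ?_
      rw [real_inner_smul_left, real_inner_smul_right]
    rw [this]
    refine Finset.sum_nonpos fun i _ => Finset.sum_nonpos fun j _ => ?_
    by_cases hij : i = j
    · subst hij
      rw [← mul_assoc, hmul i, zero_mul]
    · have := hp i j hij
      have h1 := mul_nonneg (ha0 i) (hb0 j)
      nlinarith
  have hx0 : x = 0 := by
    have := real_inner_self_nonneg (x := x)
    exact inner_self_eq_zero.mp (le_antisymm hxx this)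
  have key : ∀ c : ι → ℝ, (∀ i, 0 ≤ c i) → ∑ i, c i • p i = 0 → ∀ i, c i = 0 := by
    intro c hc hs i
    have h1 : ∑ i, c i * inner ℝ q (p i) = 0 := by
      have : inner ℝ q (∑ i, c i • p i) = 0 := by rw [hs, inner_zero_right]
      rw [inner_sum] at this
      rw [← this]
      exact Finset.sum_congr rfl fun j _ => by rw [real_inner_smul_right]
    have h2 := (Finset.sum_eq_zero_iff_of_nonpos (fun j _ =>
      mul_nonpos_of_nonneg_of_nonpos (hc j) (hq j).le)).mp h1 i (Finset.mem_univ i)
    rcases mul_eq_zero.mp h2 with h | h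
    · exact h
    · exact absurd h (hq i).ne
  intro i
  rw [hab i, key a ha0 (by rw [← hx]; exact hx0) i, key b hb0 (by rw [← hx']; exact hx0) i,
    sub_zero]

end FlSAux

theorem fl_strict {d m : ℕ} {Y S : Finset (E d)} {c : E d} {J : E m →ₗᵢ[ℝ] E d} (hY : Sep Y)
    (hF : IsFl Y S c J) (hc : ‖c‖ ^ 2 < 2) {y : E d} (hy : y ∈ Y) (hyS : y ∉ S) :
    inner ℝ y c < ‖y‖ ^ 2 / 2 := by
  classical
  by_contra hcon
  push Not at hcon
  let p : Option S → E d := fun o => match o with
    | none => -c
    | some w => (w : E d) - c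
  let v : Option S ⊕ Fin m → E d := fun s => match s with
    | Sum.inl i => p i
    | Sum.inr k => J (EuclideanSpace.single k (1 : ℝ))
  have hnl : ¬ LinearIndependent ℝ v := by
    intro hli
    have h1 := hli.fintype_card_le_finrank
    have h2 : Module.finrank ℝ (E d) = d := finrank_euclideanSpace_fin
    rw [h2, Fintype.card_sum, Fintype.card_option, Fintype.card_coe, Fintype.card_fin] at h1
    have := hF.card
    omega
  obtain ⟨g, hg, i₀, hi₀⟩ := Fintype.not_linearIndependent_iff.mp hnl
  have hpJ : ∀ (i : Option S) (z : E m), inner ℝ (p i) (J z) = 0 := by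
    intro i z
    match i with
    | none => simp only [p]; rw [inner_neg_left, hF.orth, neg_zero]
    | some w => simp only [p]; rw [inner_sub_left, hF.orth, hF.orthS _ w.2, sub_zero]
  have hgr : ∀ k : Fin m, g (Sum.inr k) = 0 := by
    intro k
    have h1 : inner ℝ (J (EuclideanSpace.single k (1 : ℝ))) (∑ i, g i • v i) = 0 := by
      rw [hg, inner_zero_right]
    rw [Fintype.sum_sum_type, inner_add_right, inner_sum, inner_sum] at h1
    have h2 : ∑ i : Option S, inner ℝ (J (EuclideanSpace.single k (1 : ℝ)))
        (g (Sum.inl i) • v (Sum.inl i)) = 0 := by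
      refine Finset.sum_eq_zero fun i _ => ?_
      rw [real_inner_smul_right, real_inner_comm]
      simp only [v]
      rw [hpJ, mul_zero]
    have h3 : ∑ l : Fin m, inner ℝ (J (EuclideanSpace.single k (1 : ℝ)))
        (g (Sum.inr l) • v (Sum.inr l)) = g (Sum.inr k) := by
      rw [Finset.sum_eq_single k]
      · simp only [v]
        rw [real_inner_smul_right, J.inner_map_map]
        simp
      · intro l _ hl
        simp only [v]
        rw [real_inner_smul_right, J.inner_map_map]
        simp [EuclideanSpace.inner_single_left, hl.symm]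
      · intro h
        exact absurd (Finset.mem_univ k) h
    rw [h2, h3, zero_add] at h1
    exact h1
  have hsum : ∑ i : Option S, g (Sum.inl i) • p i = 0 := by
    rw [Fintype.sum_sum_type] at hg
    have : ∑ l : Fin m, g (Sum.inr l) • v (Sum.inr l) = 0 :=
      Finset.sum_eq_zero fun l _ => by rw [hgr l, zero_smul]
    rw [this, add_zero] at hg
    exact hg
  have hcc : inner ℝ c c = ‖c‖ ^ 2 := real_inner_self_eq_norm_sq c
  have hww : ∀ w w' : E d, 2 ≤ ‖w - w'‖ → inner ℝ w w' ≤ ‖w‖ ^ 2 / 2 + ‖w'‖ ^ 2 / 2 - 2 := by
    intro w w' h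
    have h1 := norm_sub_sq_real w w'
    nlinarith
  have hp : ∀ i j, i ≠ j → inner ℝ (p i) (p j) < 0 := by
    have h0w : ∀ w : S, inner ℝ (-c) ((w : E d) - c) < 0 := by
      intro w
      have h1 := hF.mid _ w.2
      have h2 := hY.far _ (hF.sub w.2)
      rw [inner_neg_left, inner_sub_right, hcc, real_inner_comm, h1]
      nlinarith
    intro i j hij
    match i, j with
    | none, none => exact absurd rfl hij
    | none, some w => exact h0w w
    | some w, none => simp only [p]; rw [real_inner_comm]; exact h0w w
    | some w, some w' =>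
      simp only [p]
      have hne : (w : E d) ≠ w' := fun h => hij (by rw [Subtype.ext h])
      have h1 := hww _ _ (hY.sep _ (hF.sub w.2) _ (hF.sub w'.2) hne)
      have h2 := hF.mid _ w.2
      have h3 := hF.mid _ w'.2
      rw [inner_sub_left, inner_sub_right, inner_sub_right, hcc, real_inner_comm (w' : E d) c, h2,
        h3]
      linarith
  have hq : ∀ i, inner ℝ (y - c) (p i) < 0 := by
    intro i
    match i with
    | none =>
      simp only [p]
      have h2 := hY.far _ hy
      rw [inner_neg_right, inner_sub_left, hcc]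
      nlinarith
    | some w =>
      simp only [p]
      have hne : y ≠ (w : E d) := fun h => hyS (h ▸ w.2)
      have h1 := hww _ _ (hY.sep _ hy _ (hF.sub w.2) hne)
      have h3 := hF.mid _ w.2
      rw [inner_sub_left, inner_sub_right, inner_sub_right, hcc, real_inner_comm (w : E d) c, h3]
      linarith
  have hall := FlSAux.rel_zero p (y - c) (fun i => g (Sum.inl i)) hsum hp hq
  match i₀, hi₀ with
  | Sum.inl i, h => exact h (hall i)
  | Sum.inr k, h => exact h (hgr k)

end

end Pool.Agent.SausN
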