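import Pool.Agent.Lib.MP_5a9905_co_NC.Defs
import Pool.Agent.Lib.MP_5a9905_co_NC.PC

set_option autoImplicit false

open MeasureTheory Finset

namespace Pool.Agent.SausN

open Pool.Agent.Saus (E kap Loc Vor)

noncomputable section

namespace LevConeAux

theorem measurable_QS {m : ℕ} (B : Finset (E (m + 1))) : MeasurableSet (QS B) := by
  have e : QS B = ⋂ b ∈ B, {v : E (m + 1) | inner ℝ v b ≤ 1} := by
    ext v
    simp [QS]
  rw [e]
  refine Finset.measurableSet_biInter _ (fun b _ => ?_)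
  have h1 : Measurable (fun v : E (m + 1) => (inner ℝ v b : ℝ)) := by fun_prop
  exact measurableSet_le h1 measurable_const

theorem measurable_CbS {m : ℕ} (B : Finset (E (m + 1))) (s₀ : ℝ) (b : E (m + 1)) :
    MeasurableSet (CbS B s₀ b) := by
  have hb : ∀ b : E (m + 1), Measurable (fun v : E (m + 1) => (inner ℝ v b : ℝ)) := by
    intro b
    fun_prop
  have e : CbS B s₀ b = {v : E (m + 1) | ‖v‖ < s₀ * inner ℝ v b} ∩
      ⋂ b' ∈ B, {v : E (m + 1) | inner ℝ v b' ≤ inner ℝ v b} := by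
    ext v
    simp [CbS]
  rw [e]
  refine (measurableSet_lt measurable_norm ((hb b).const_mul s₀)).inter ?_
  refine Finset.measurableSet_biInter _ (fun b' _ => ?_)
  exact measurableSet_le (hb b') (hb b)

/-- The domain of the face integral. -/
def VS {m : ℕ} (B : Finset (E (m + 1))) (s₀ : ℝ) (b : E (m + 1)) (J : E m →ₗᵢ[ℝ] E (m + 1)) :
    Set (E m) :=
  {v : E m | 1 / ‖b‖ ^ 2 + ‖v‖ ^ 2 < s₀ ^ 2 ∧
    ∀ b' ∈ B, inner ℝ ((1 / ‖b‖ ^ 2) • b + J v) b' ≤ 1}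

theorem measurable_VS {m : ℕ} (B : Finset (E (m + 1))) (s₀ : ℝ) (b : E (m + 1))
    (J : E m →ₗᵢ[ℝ] E (m + 1)) : MeasurableSet (VS B s₀ b J) := by
  have hJ : Continuous J := J.continuous
  have e : VS B s₀ b J = {v : E m | 1 / ‖b‖ ^ 2 + ‖v‖ ^ 2 < s₀ ^ 2} ∩
      ⋂ b' ∈ B, {v : E m | inner ℝ ((1 / ‖b‖ ^ 2) • b + J v) b' ≤ 1} := by
    ext v
    simp [VS]
  rw [e]
  refine (measurableSet_lt (by fun_prop) measurable_const).inter ?_
  refine Finset.measurableSet_biInter _ (fun b' _ => ?_)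
  have h1 : Continuous (fun v : E m => (inner ℝ ((1 / ‖b‖ ^ 2) • b + J v) b' : ℝ)) := by
    fun_prop
  exact measurableSet_le h1.measurable measurable_const

theorem norm_sq {m : ℕ} {b : E (m + 1)} (hb : b ≠ 0) {J : E m →ₗᵢ[ℝ] E (m + 1)}
    (hJ : ∀ v, inner ℝ b (J v) = (0 : ℝ)) (x : ℝ) (v : E m) :
    ‖x • ((1 / ‖b‖ ^ 2) • b + J v)‖ ^ 2 = x ^ 2 * (1 / ‖b‖ ^ 2 + ‖v‖ ^ 2) := by
  have hn : ‖b‖ ≠ 0 := norm_ne_zero_iff.2 hb
  rw [norm_smul, mul_pow, norm_add_sq_real, real_inner_smul_left, hJ, norm_smul, J.norm_map,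
    Real.norm_eq_abs, sq_abs, Real.norm_eq_abs, mul_pow, sq_abs]
  field_simp
  ring

theorem mem_iff {m : ℕ} {B : Finset (E (m + 1))} {s₀ : ℝ} (hs₀ : 0 ≤ s₀)
    {b : E (m + 1)} (hb : b ∈ B) (hb0 : b ≠ 0) {J : E m →ₗᵢ[ℝ] E (m + 1)}
    (hJ : ∀ v, inner ℝ b (J v) = (0 : ℝ)) {x : ℝ} (hx : 0 < x) (v : E m) :
    x • ((1 / ‖b‖ ^ 2) • b + J v) ∈ QS B ∩ CbS B s₀ b ↔ v ∈ VS B s₀ b J ∧ x ≤ 1 := by
  have hn : ‖b‖ ≠ 0 := norm_ne_zero_iff.2 hb0
  set z : E (m + 1) := (1 / ‖b‖ ^ 2) • b + J v with hz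
  have hzb : inner ℝ z b = (1 : ℝ) := by
    rw [hz, inner_add_left, real_inner_smul_left, real_inner_self_eq_norm_sq,
      real_inner_comm, hJ]
    field_simp
    simp
  have hin : ∀ b' : E (m + 1), inner ℝ (x • z) b' = x * inner ℝ z b' := fun b' =>
    real_inner_smul_left _ _ _
  have hnorm := norm_sq hb0 hJ x v
  rw [← hz] at hnorm
  have hlt : ‖x • z‖ < s₀ * (x * 1) ↔ 1 / ‖b‖ ^ 2 + ‖v‖ ^ 2 < s₀ ^ 2 := by
    have h0 : 0 ≤ s₀ * (x * 1) := by positivity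
    rw [← abs_of_nonneg (norm_nonneg (x • z)), ← abs_of_nonneg h0, ← sq_lt_sq, hnorm]
    have hx2 : 0 < x ^ 2 := by positivity
    constructor
    · intro h
      have h' : x ^ 2 * (1 / ‖b‖ ^ 2 + ‖v‖ ^ 2) < x ^ 2 * s₀ ^ 2 := by
        calc x ^ 2 * (1 / ‖b‖ ^ 2 + ‖v‖ ^ 2) < (s₀ * (x * 1)) ^ 2 := h
          _ = x ^ 2 * s₀ ^ 2 := by ring
      exact lt_of_mul_lt_mul_left h' hx2.le
    · intro h
      calc x ^ 2 * (1 / ‖b‖ ^ 2 + ‖v‖ ^ 2) < x ^ 2 * s₀ ^ 2 := mul_lt_mul_of_pos_left h hx2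
        _ = (s₀ * (x * 1)) ^ 2 := by ring
  constructor
  · rintro ⟨h1, h2, h3⟩
    rw [hin, hzb] at h2
    refine ⟨⟨hlt.1 h2, fun b' hb' => ?_⟩, ?_⟩
    · have h4 := h3 b' hb'
      rw [hin, hin, hzb] at h4
      exact le_of_mul_le_mul_left h4 hx
    · have h4 := h1 b hb
      rw [hin, hzb, mul_one] at h4
      exact h4
  · rintro ⟨⟨h1, h2⟩, h3⟩
    refine ⟨fun b' hb' => ?_, ?_, fun b' hb' => ?_⟩
    · rw [hin]
      have h4 : x * inner ℝ z b' ≤ x * 1 := mul_le_mul_of_nonneg_left (h2 b' hb') hx.le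
      linarith
    · rw [hin, hzb]
      exact hlt.2 h1
    · rw [hin, hin, hzb]
      exact mul_le_mul_of_nonneg_left (h2 b' hb') hx.le

end LevConeAux

open LevConeAux in
theorem level_cone {m : ℕ} (B : Finset (E (m + 1))) {f : ℝ → ℝ}
    (hf : Integrable (fun v : E (m + 1) => f (‖v‖ ^ 2))) {s₀ : ℝ} (hs₀ : 0 ≤ s₀)
    {b : E (m + 1)} (hb : b ∈ B) (hb1 : 1 < s₀ * ‖b‖) {J : E m →ₗᵢ[ℝ] E (m + 1)}
    (hJ : ∀ v, inner ℝ b (J v) = (0 : ℝ))
    (h : 0 ≤ ∫ v in {v : E m | 1 / ‖b‖ ^ 2 + ‖v‖ ^ 2 < s₀ ^ 2 ∧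
          ∀ b' ∈ B, inner ℝ ((1 / ‖b‖ ^ 2) • b + J v) b' ≤ 1},
        ∫ τ in (0 : ℝ)..1, f (τ ^ 2 * (1 / ‖b‖ ^ 2 + ‖v‖ ^ 2)) * τ ^ m) :
    0 ≤ ∫ v in QS B ∩ CbS B s₀ b, f (‖v‖ ^ 2) := by
  have hb0 : b ≠ 0 := by
    rintro rfl
    rw [norm_zero, mul_zero] at hb1
    norm_num at hb1
  have hn : 0 < ‖b‖ := norm_pos_iff.2 hb0
  set c : E (m + 1) := (1 / ‖b‖ ^ 2) • b with hc
  have hc0 : c ≠ 0 := by
    rw [hc]
    exact smul_ne_zero (by positivity) hb0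
  have hJc : ∀ v, inner ℝ c (J v) = (0 : ℝ) := by
    intro v
    rw [hc, real_inner_smul_left, hJ, mul_zero]
  set S : Set (E (m + 1)) := QS B ∩ CbS B s₀ b with hS
  have hSm : MeasurableSet S := (measurable_QS B).inter (measurable_CbS B s₀ b)
  have hSsub : S ⊆ {z | 0 < inner ℝ c z} := by
    rintro z ⟨_, hz, _⟩
    have h1 : 0 < s₀ * inner ℝ z b := (norm_nonneg z).trans_lt hz
    have h2 : 0 < inner ℝ z b := by
      by_contra hcon
      push Not at hcon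
      have := mul_nonpos_of_nonneg_of_nonpos hs₀ hcon
      linarith
    show 0 < inner ℝ c z
    rw [hc, real_inner_smul_left, real_inner_comm]
    positivity
  set g : E (m + 1) → ℝ := S.indicator (fun z => f (‖z‖ ^ 2)) with hg
  have hgi : IntegrableOn g {z | 0 < inner ℝ c z} := (hf.indicator hSm).integrableOn
  have hpc := pc_integral hc0 hJc hgi
  have hL : ∫ z in {z | 0 < inner ℝ c z}, g z = ∫ z in S, f (‖z‖ ^ 2) := by
    rw [hg, setIntegral_indicator hSm, Set.inter_eq_self_of_subset_right hSsub]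
  have hinner : ∀ v : E m, ∫ x in Set.Ioi (0 : ℝ), g (x • (c + J v)) * x ^ m
      = (VS B s₀ b J).indicator (fun v => ∫ τ in (0 : ℝ)..1,
          f (τ ^ 2 * (1 / ‖b‖ ^ 2 + ‖v‖ ^ 2)) * τ ^ m) v := by
    intro v
    by_cases hv : v ∈ VS B s₀ b J
    · rw [Set.indicator_of_mem hv, intervalIntegral.integral_of_le zero_le_one]
      have h1 : ∀ x ∈ Set.Ioi (0 : ℝ), g (x • (c + J v)) * x ^ m
          = (Set.Ioc (0 : ℝ) 1).indicator
              (fun x => f (x ^ 2 * (1 / ‖b‖ ^ 2 + ‖v‖ ^ 2)) * x ^ m) x := by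
        intro x hx
        have hx0 : 0 < x := hx
        by_cases hx1 : x ≤ 1
        · rw [Set.indicator_of_mem (show x ∈ Set.Ioc (0 : ℝ) 1 from ⟨hx0, hx1⟩), hg,
            Set.indicator_of_mem ((mem_iff hs₀ hb hb0 hJ hx0 v).2 ⟨hv, hx1⟩)]
          show f (‖x • (c + J v)‖ ^ 2) * x ^ m = _
          rw [norm_sq hb0 hJ]
        · rw [Set.indicator_of_notMem (fun h => hx1 h.2), hg, Set.indicator_of_notMem, zero_mul]
          intro h
          exact hx1 ((mem_iff hs₀ hb hb0 hJ hx0 v).1 h).2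
      rw [setIntegral_congr_fun measurableSet_Ioi h1, setIntegral_indicator measurableSet_Ioc]
      congr 2
      ext x
      simp only [Set.mem_inter_iff, Set.mem_Ioi, Set.mem_Ioc]
      tauto
    · rw [Set.indicator_of_notMem hv]
      refine setIntegral_eq_zero_of_forall_eq_zero ?_
      intro x hx
      rw [hg, Set.indicator_of_notMem, zero_mul]
      intro h
      exact hv ((mem_iff hs₀ hb hb0 hJ hx v).1 h).1
  rw [← hL, hpc]
  refine mul_nonneg (norm_nonneg _) ?_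
  rw [integral_congr_ae (Filter.Eventually.of_forall hinner),
    integral_indicator (measurable_VS B s₀ b J)]
  exact h

end

end Pool.Agent.SausN
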