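import Pool.Agent.Lib.MP_5a9905_co_NC.Defs
import Pool.Agent.Lib.MP_5a9905_co_NC.Pol

set_option autoImplicit false

open MeasureTheory Finset

namespace Pool.Agent.SausN

open Pool.Agent.Saus (E kap Loc Vor)

noncomputable section

namespace LevFreeAux

lemma isClosed_QS {m : ℕ} (B : Finset (E (m + 1))) : IsClosed (QS B) := by
  have : QS B = ⋂ b ∈ B, {v : E (m + 1) | inner ℝ v b ≤ 1} := by
    ext v; simp [QS]
  rw [this]
  refine isClosed_biInter (fun b _ => ?_)
  exact isClosed_le (by fun_prop) continuous_const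

lemma isClosed_FrS {m : ℕ} (B : Finset (E (m + 1))) (s₀ : ℝ) : IsClosed (FrS B s₀) := by
  have : FrS B s₀ = ⋂ b ∈ B, {v : E (m + 1) | s₀ * inner ℝ v b ≤ ‖v‖} := by
    ext v; simp [FrS]
  rw [this]
  refine isClosed_biInter (fun b _ => ?_)
  exact isClosed_le (by fun_prop) continuous_norm

lemma smul_mem_QS {m : ℕ} (B : Finset (E (m + 1))) (θ : E (m + 1)) (r : ℝ) :
    r • θ ∈ QS B ↔ ∀ b ∈ B, r * inner ℝ θ b ≤ 1 := by
  simp only [QS, Set.mem_setOf_eq, inner_smul_left, RCLike.conj_to_real]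

lemma smul_mem_FrS {m : ℕ} (B : Finset (E (m + 1))) {θ : E (m + 1)} (hθ : ‖θ‖ = 1) (s₀ : ℝ)
    {r : ℝ} (hr : 0 < r) :
    r • θ ∈ FrS B s₀ ↔ ∀ b ∈ B, s₀ * inner ℝ θ b ≤ 1 := by
  simp only [FrS, Set.mem_setOf_eq, inner_smul_left, RCLike.conj_to_real, norm_smul, hθ, mul_one,
    Real.norm_eq_abs, abs_of_pos hr]
  refine forall₂_congr (fun b _ => ?_)
  constructor
  · intro h
    have h2 : r * (s₀ * inner ℝ θ b) ≤ r * 1 := by nlinarith
    exact le_of_mul_le_mul_left h2 hr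
  · intro h
    nlinarith [mul_le_mul_of_nonneg_left h hr.le]

end LevFreeAux

open LevFreeAux in
theorem level_free {m : ℕ} (B : Finset (E (m + 1))) {f : ℝ → ℝ}
    (hf : Integrable (fun v : E (m + 1) => f (‖v‖ ^ 2))) {s₀ : ℝ} (hs₀ : 0 ≤ s₀)
    (ha : ∀ s, s₀ ≤ s → 0 < s → 0 ≤ ∫ r in (0 : ℝ)..s, f (r ^ 2) * r ^ m) :
    0 ≤ ∫ v in QS B ∩ FrS B s₀, f (‖v‖ ^ 2) := by
  classical
  have hmeas : MeasurableSet (QS B ∩ FrS B s₀) :=
    (isClosed_QS B).measurableSet.inter (isClosed_FrS B s₀).measurableSet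
  rw [← integral_indicator hmeas]
  refine pol_nonneg (hf.indicator hmeas) (fun θ hθ => ?_)
  have hnorm : ∀ r : ℝ, ‖r • θ‖ ^ 2 = r ^ 2 := by
    intro r
    rw [norm_smul, hθ, mul_one, Real.norm_eq_abs, sq_abs]
  by_cases hF : ∀ b ∈ B, s₀ * inner ℝ θ b ≤ 1
  · by_cases hall : ∀ b ∈ B, inner ℝ θ b ≤ (0 : ℝ)
    · have heq : ∫ r in Set.Ioi (0 : ℝ),
          (QS B ∩ FrS B s₀).indicator (fun v => f (‖v‖ ^ 2)) (r • θ) * r ^ m
          = ∫ r in Set.Ioi (0 : ℝ), f (r ^ 2) * r ^ m := by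
        refine setIntegral_congr_fun measurableSet_Ioi (fun r hr => ?_)
        have hr' : (0 : ℝ) < r := hr
        have hmem : r • θ ∈ QS B ∩ FrS B s₀ := by
          refine ⟨(smul_mem_QS B θ r).2 (fun b hb => ?_), (smul_mem_FrS B hθ s₀ hr').2 hF⟩
          have := mul_le_mul_of_nonneg_left (hall b hb) hr'.le
          linarith
        simp only [Set.indicator_of_mem hmem, hnorm]
      rw [heq]
      by_cases hint : IntegrableOn (fun r : ℝ => f (r ^ 2) * r ^ m) (Set.Ioi 0)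
      · have ht := intervalIntegral_tendsto_integral_Ioi 0 hint Filter.tendsto_id
        refine ge_of_tendsto ht (Filter.eventually_atTop.2 ⟨max s₀ 1, fun s hs => ?_⟩)
        exact ha s (le_trans (le_max_left _ _) hs)
          (lt_of_lt_of_le one_pos (le_trans (le_max_right _ _) hs))
      · rw [integral_undef hint]
    · push Not at hall
      obtain ⟨b0, hb0, hpos⟩ := hall
      obtain ⟨b1, hb1, hmax⟩ := B.exists_max_image (fun b => (inner ℝ θ b : ℝ)) ⟨b0, hb0⟩
      have hM : (0 : ℝ) < inner ℝ θ b1 := lt_of_lt_of_le hpos (hmax b0 hb0)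
      set M : ℝ := inner ℝ θ b1 with hMdef
      have hs : (0 : ℝ) < 1 / M := by positivity
      have hss : s₀ ≤ 1 / M := by
        rw [le_div_iff₀ hM]; exact hF b1 hb1
      have heq : ∫ r in Set.Ioi (0 : ℝ),
          (QS B ∩ FrS B s₀).indicator (fun v => f (‖v‖ ^ 2)) (r • θ) * r ^ m
          = ∫ r in Set.Ioi (0 : ℝ), (Set.Iic (1 / M)).indicator (fun r => f (r ^ 2) * r ^ m) r := by
        refine setIntegral_congr_fun measurableSet_Ioi (fun r hr => ?_)
        have hr' : (0 : ℝ) < r := hr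
        by_cases hrs : r ≤ 1 / M
        · have hmem : r • θ ∈ QS B ∩ FrS B s₀ := by
            refine ⟨(smul_mem_QS B θ r).2 (fun b hb => ?_), (smul_mem_FrS B hθ s₀ hr').2 hF⟩
            have h1 : r * inner ℝ θ b ≤ r * M := mul_le_mul_of_nonneg_left (hmax b hb) hr'.le
            have h2 : r * M ≤ 1 := (le_div_iff₀ hM).1 hrs
            linarith
          have h3 : r ∈ Set.Iic (1 / M) := hrs
          simp only [Set.indicator_of_mem hmem, Set.indicator_of_mem h3, hnorm]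
        · have hmem : r • θ ∉ QS B ∩ FrS B s₀ := by
            intro h
            have h2 := (smul_mem_QS B θ r).1 h.1 b1 hb1
            exact hrs ((le_div_iff₀ hM).2 h2)
          have h3 : r ∉ Set.Iic (1 / M) := hrs
          simp only [Set.indicator_of_notMem hmem, Set.indicator_of_notMem h3, zero_mul]
      rw [heq, setIntegral_indicator measurableSet_Iic, Set.Ioi_inter_Iic,
        ← intervalIntegral.integral_of_le hs.le]
      exact ha _ hss hs
  · have heq : ∫ r in Set.Ioi (0 : ℝ),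
        (QS B ∩ FrS B s₀).indicator (fun v => f (‖v‖ ^ 2)) (r • θ) * r ^ m
        = ∫ r in Set.Ioi (0 : ℝ), (0 : ℝ) := by
      refine setIntegral_congr_fun measurableSet_Ioi (fun r hr => ?_)
      have hr' : (0 : ℝ) < r := hr
      have hmem : r • θ ∉ QS B ∩ FrS B s₀ := fun h => hF ((smul_mem_FrS B hθ s₀ hr').1 h.2)
      simp only [Set.indicator_of_notMem hmem, zero_mul]
    rw [heq]
    simp

end

end Pool.Agent.SausN
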