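import Pool.Agent.Lib.MP_5a9905_co_NC.Defs
import Pool.Agent.Lib.MP_5a9905_co_NC.Jex
import Pool.Agent.Lib.MP_5a9905_co_NC.LevFree
import Pool.Agent.Lib.MP_5a9905_co_NC.LevCone

set_option autoImplicit false

open MeasureTheory Finset

namespace Pool.Agent.SausN

open Pool.Agent.Saus (E kap Loc Vor)

noncomputable section

namespace LevelAux

variable {m : ℕ}

theorem closed_QS (B : Finset (E (m + 1))) : IsClosed (QS B) := by
  have h : QS B = ⋂ b ∈ B, {v : E (m + 1) | inner ℝ v b ≤ (1 : ℝ)} := by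
    ext v; simp [QS]
  rw [h]
  exact isClosed_biInter fun b _ =>
    isClosed_le (continuous_id.inner continuous_const) continuous_const

theorem closed_FrS (B : Finset (E (m + 1))) (s₀ : ℝ) : IsClosed (FrS B s₀) := by
  have h : FrS B s₀ = ⋂ b ∈ B, {v : E (m + 1) | s₀ * inner ℝ v b ≤ ‖v‖} := by
    ext v; simp [FrS]
  rw [h]
  exact isClosed_biInter fun b _ =>
    isClosed_le (continuous_const.mul (continuous_id.inner continuous_const)) continuous_norm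

theorem meas_CbS (B : Finset (E (m + 1))) (s₀ : ℝ) (b : E (m + 1)) :
    MeasurableSet (CbS B s₀ b) := by
  have h : CbS B s₀ b = {v : E (m + 1) | ‖v‖ < s₀ * inner ℝ v b} ∩
      ⋂ b' ∈ B, {v : E (m + 1) | (inner ℝ v b' : ℝ) ≤ inner ℝ v b} := by
    ext v; simp [CbS]
  rw [h]
  refine (isOpen_lt continuous_norm
    (continuous_const.mul (continuous_id.inner continuous_const))).measurableSet.inter ?_
  exact (isClosed_biInter fun b' _ =>
    isClosed_le (continuous_id.inner continuous_const)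
      (continuous_id.inner continuous_const)).measurableSet

theorem null_hyper {w : E (m + 1)} (hw : w ≠ 0) :
    volume {v : E (m + 1) | (inner ℝ v w : ℝ) = 0} = 0 := by
  have h : {v : E (m + 1) | (inner ℝ v w : ℝ) = 0} = ((ℝ ∙ w)ᗮ : Submodule ℝ (E (m + 1))) := by
    ext v
    simp only [Set.mem_ofPred_eq, SetLike.mem_coe, Submodule.mem_orthogonal_singleton_iff_inner_left]
  rw [h]
  refine Measure.addHaar_submodule _ _ ?_
  intro htop
  have h1 : w ∈ ((ℝ ∙ w)ᗮ : Submodule ℝ (E (m + 1))) := by rw [htop]; trivial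
  rw [Submodule.mem_orthogonal_singleton_iff_inner_left] at h1
  exact hw (inner_self_eq_zero.mp h1)

theorem aedisj (B : Finset (E (m + 1))) (s₀ : ℝ) :
    Pairwise (fun b b' : B =>
      AEDisjoint volume (QS B ∩ CbS B s₀ (b : E (m + 1))) (QS B ∩ CbS B s₀ (b' : E (m + 1)))) := by
  intro b b' hbb
  have hne : (b : E (m + 1)) - (b' : E (m + 1)) ≠ 0 := by
    intro h; exact hbb (Subtype.ext (sub_eq_zero.mp h))
  refine measure_mono_null ?_ (null_hyper hne)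
  intro v hv
  have h1 := hv.1.2.2 b' b'.2
  have h2 := hv.2.2.2 b b.2
  simp only [Set.mem_ofPred_eq, inner_sub_right]
  linarith

theorem cover (B : Finset (E (m + 1))) {s₀ : ℝ} (hs₀ : 0 ≤ s₀) :
    QS B = (QS B ∩ FrS B s₀) ∪ ⋃ b : B, (QS B ∩ CbS B s₀ (b : E (m + 1))) := by
  ext v
  constructor
  · intro hv
    by_cases h : v ∈ FrS B s₀
    · exact Or.inl ⟨hv, h⟩
    · right
      simp only [FrS, Set.mem_ofPred_eq, not_forall, not_le] at h
      obtain ⟨b, hb, hlt⟩ := h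
      obtain ⟨b₀, hb₀, hmax⟩ := B.exists_max_image (fun b => (inner ℝ v b : ℝ)) ⟨b, hb⟩
      rw [Set.mem_iUnion]
      refine ⟨⟨b₀, hb₀⟩, hv, ?_, fun b' hb' => hmax b' hb'⟩
      exact lt_of_lt_of_le hlt (mul_le_mul_of_nonneg_left (hmax b hb) hs₀)
  · rintro (h | h)
    · exact h.1
    · rw [Set.mem_iUnion] at h
      obtain ⟨b, hb⟩ := h
      exact hb.1

theorem disj (B : Finset (E (m + 1))) (s₀ : ℝ) :
    Disjoint (QS B ∩ FrS B s₀) (⋃ b : B, (QS B ∩ CbS B s₀ (b : E (m + 1)))) := by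
  rw [Set.disjoint_left]
  intro v hv hv'
  rw [Set.mem_iUnion] at hv'
  obtain ⟨b, hb⟩ := hv'
  have h1 := hv.2 b b.2
  have h2 := hb.2.1
  exact absurd h2 (not_lt.mpr h1)

theorem empty_CbS (B : Finset (E (m + 1))) {s₀ : ℝ} (hs₀ : 0 ≤ s₀) {b : E (m + 1)}
    (h : ¬ 1 < s₀ * ‖b‖) : CbS B s₀ b = ∅ := by
  rw [Set.eq_empty_iff_forall_notMem]
  intro v hv
  have h1 := hv.1
  have h2 : (inner ℝ v b : ℝ) ≤ ‖v‖ * ‖b‖ := real_inner_le_norm v b
  have h3 : s₀ * inner ℝ v b ≤ s₀ * (‖v‖ * ‖b‖) := mul_le_mul_of_nonneg_left h2 hs₀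
  have h4 : s₀ * (‖v‖ * ‖b‖) = ‖v‖ * (s₀ * ‖b‖) := by ring
  have h5 : ‖v‖ * (s₀ * ‖b‖) ≤ ‖v‖ * 1 := mul_le_mul_of_nonneg_left (not_lt.mp h) (norm_nonneg v)
  linarith

end LevelAux

open LevelAux in
theorem level_step {m : ℕ} (B : Finset (E (m + 1))) {f : ℝ → ℝ}
    (hf : Integrable (fun v : E (m + 1) => f (‖v‖ ^ 2))) {s₀ : ℝ} (hs₀ : 0 ≤ s₀)
    (ha : ∀ s, s₀ ≤ s → 0 < s → 0 ≤ ∫ r in (0 : ℝ)..s, f (r ^ 2) * r ^ m)
    (hb : ∀ b ∈ B, 1 < s₀ * ‖b‖ → ∀ J : E m →ₗᵢ[ℝ] E (m + 1), (∀ v, inner ℝ b (J v) = (0 : ℝ)) →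
      0 ≤ ∫ v in {v : E m | 1 / ‖b‖ ^ 2 + ‖v‖ ^ 2 < s₀ ^ 2 ∧
          ∀ b' ∈ B, inner ℝ ((1 / ‖b‖ ^ 2) • b + J v) b' ≤ 1},
        ∫ τ in (0 : ℝ)..1, f (τ ^ 2 * (1 / ‖b‖ ^ 2 + ‖v‖ ^ 2)) * τ ^ m) :
    0 ≤ ∫ v in QS B, f (‖v‖ ^ 2) := by
  have hm1 : MeasurableSet (⋃ b : B, (QS B ∩ CbS B s₀ (b : E (m + 1)))) :=
    MeasurableSet.iUnion fun b => (closed_QS B).measurableSet.inter (meas_CbS B s₀ b)
  rw [cover B hs₀, setIntegral_union (disj B s₀) hm1 hf.integrableOn hf.integrableOn]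
  refine add_nonneg (level_free B hf hs₀ ha) ?_
  have hkey := integral_iUnion_ae (μ := (volume : Measure (E (m + 1))))
    (f := fun v : E (m + 1) => f (‖v‖ ^ 2))
    (s := fun b : B => QS B ∩ CbS B s₀ (b : E (m + 1)))
    (fun b => ((closed_QS B).measurableSet.inter (meas_CbS B s₀ b)).nullMeasurableSet)
    (aedisj B s₀) hf.integrableOn
  rw [hkey]
  refine tsum_nonneg fun b => ?_
  by_cases h1 : 1 < s₀ * ‖(b : E (m + 1))‖
  · obtain ⟨J, hJ⟩ := exists_J (b : E (m + 1))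
    exact level_cone B hf hs₀ b.2 h1 hJ (hb b b.2 h1 J hJ)
  · rw [empty_CbS B hs₀ h1]
    simp

end

end Pool.Agent.SausN
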