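import Pool.Agent.Lib.MP_5a9905_co_NC.Defs
import Pool.Agent.Lib.MP_5a9905_co_NC.KapN

set_option autoImplicit false

open MeasureTheory Finset

namespace Pool.Agent.SausN

open Pool.Agent.Saus (E kap Loc Vor)

noncomputable section

namespace RaySAux

/-- On the short segment the density is `1 - A (h + r²)^{-p}`. -/
theorem fn_eq {m : ℕ} {h s r : ℝ} (h1 : 1 ≤ h) (hs2 : h + s ^ 2 ≤ 2) (hr0 : 0 ≤ r) (hrs : r ≤ s) :
    fn m h (r ^ 2) = 1 - AA m * (h + r ^ 2) ^ (-(((m : ℝ) + 1) / 2)) := by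
  have hr2 : r ^ 2 ≤ s ^ 2 := by nlinarith
  have ha : (h + r ^ 2) / 2 ≤ 1 := by linarith
  have hb : r ^ 2 ≤ 1 := by linarith
  unfold fn
  rw [max_eq_left (max_le ha hb), Real.one_rpow]

theorem pos_aux {h r : ℝ} (h1 : 1 ≤ h) : 0 < h + r ^ 2 := by nlinarith [sq_nonneg r]

/-- The antiderivative that bounds the integral from above. -/
def Ph (m : ℕ) (h r : ℝ) : ℝ := r ^ m * (h + r ^ 2) ^ (-(((m : ℝ) - 1) / 2)) / ((m : ℝ) * h)

theorem hasDeriv_Ph {m : ℕ} (hm : 2 ≤ m) {h : ℝ} (h1 : 1 ≤ h) (r : ℝ) :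
    HasDerivAt (Ph m h)
      (r ^ (m - 1) * (h + r ^ 2) ^ (-(((m : ℝ) + 1) / 2)) * (((m : ℝ) * h + r ^ 2) / ((m : ℝ) * h)))
      r := by
  have hpos : 0 < h + r ^ 2 := pos_aux h1
  have hm0 : (0 : ℝ) < (m : ℝ) := by
    have : (2 : ℝ) ≤ (m : ℝ) := by exact_mod_cast hm
    linarith
  have hh0 : (0 : ℝ) < h := by linarith
  have d1 : HasDerivAt (fun r : ℝ => r ^ m) ((m : ℝ) * r ^ (m - 1)) r := hasDerivAt_pow m r
  have d2 : HasDerivAt (fun r : ℝ => h + r ^ 2) (2 * r) r := by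
    have := (hasDerivAt_pow 2 r).const_add h
    simpa using this
  have d3 : HasDerivAt (fun r : ℝ => (h + r ^ 2) ^ (-(((m : ℝ) - 1) / 2)))
      (2 * r * (-(((m : ℝ) - 1) / 2)) * (h + r ^ 2) ^ (-(((m : ℝ) - 1) / 2) - 1)) r :=
    d2.rpow_const (Or.inl hpos.ne')
  have d4 := (d1.mul d3).div_const ((m : ℝ) * h)
  have e1 : (h + r ^ 2) ^ (-(((m : ℝ) - 1) / 2)) =
      (h + r ^ 2) * (h + r ^ 2) ^ (-(((m : ℝ) + 1) / 2)) := by
    have : (-(((m : ℝ) - 1) / 2)) = 1 + (-(((m : ℝ) + 1) / 2)) := by ring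
    rw [this, Real.rpow_add hpos, Real.rpow_one]
  have e2 : (-(((m : ℝ) - 1) / 2) - 1) = (-(((m : ℝ) + 1) / 2)) := by ring
  have e3 : r ^ m = r ^ (m - 1) * r := by
    rw [← pow_succ]
    congr 1
    omega
  have e5 : ((m : ℝ) * r ^ (m - 1) * (h + r ^ 2) ^ (-(((m : ℝ) - 1) / 2)) +
      r ^ m * (2 * r * (-(((m : ℝ) - 1) / 2)) * (h + r ^ 2) ^ (-(((m : ℝ) - 1) / 2) - 1))) /
      ((m : ℝ) * h) = r ^ (m - 1) * (h + r ^ 2) ^ (-(((m : ℝ) + 1) / 2)) *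
      (((m : ℝ) * h + r ^ 2) / ((m : ℝ) * h)) := by
    rw [e2, e1, e3]
    field_simp
    ring
  rw [← e5]
  exact d4

end RaySAux

open RaySAux

theorem fn_short {m : ℕ} (hm : 2 ≤ m) {h R : ℝ} (h1 : 1 ≤ h) (h2 : h < 2) (hR1 : 1 ≤ R)
    (hR : AA m ≤ R ^ (((m : ℝ) - 1) / 2)) {s : ℝ} (hs : 0 < s) (hRs : R ≤ h + s ^ 2)
    (hs2 : h + s ^ 2 ≤ 2) : 0 ≤ ∫ r in (0 : ℝ)..s, fn m h (r ^ 2) * r ^ (m - 1) := by
  have hm0 : (0 : ℝ) < (m : ℝ) := by
    have : (2 : ℝ) ≤ (m : ℝ) := by exact_mod_cast hm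
    linarith
  have hm1 : (1 : ℝ) ≤ (m : ℝ) := by
    have : (2 : ℝ) ≤ (m : ℝ) := by exact_mod_cast hm
    linarith
  have hh0 : (0 : ℝ) < h := by linarith
  have hA : 0 < AA m := AA_pos m
  have hpos : ∀ r : ℝ, 0 < h + r ^ 2 := fun r => pos_aux h1
  -- continuity
  have c1 : Continuous (fun r : ℝ => (h + r ^ 2) ^ (-(((m : ℝ) + 1) / 2))) := by
    apply Continuous.rpow_const (by fun_prop)
    intro r
    exact Or.inl (hpos r).ne'
  have c2 : Continuous (fun r : ℝ => r ^ (m - 1) * (h + r ^ 2) ^ (-(((m : ℝ) + 1) / 2))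
      * (((m : ℝ) * h + r ^ 2) / ((m : ℝ) * h))) := by
    have : Continuous (fun r : ℝ => (((m : ℝ) * h + r ^ 2) / ((m : ℝ) * h))) := by fun_prop
    exact ((continuous_pow _).mul c1).mul this
  -- the integral of the bound
  have i1 : ∫ r in (0 : ℝ)..s, r ^ (m - 1) * (h + r ^ 2) ^ (-(((m : ℝ) + 1) / 2))
      * (((m : ℝ) * h + r ^ 2) / ((m : ℝ) * h)) = Ph m h s - Ph m h 0 :=
    intervalIntegral.integral_eq_sub_of_hasDerivAt (fun r _ => hasDeriv_Ph hm h1 r)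
      (c2.intervalIntegrable _ _)
  have hP0 : Ph m h 0 = 0 := by
    unfold Ph
    have : (0 : ℝ) ^ m = 0 := zero_pow (by omega)
    rw [this]; simp
  have i2 : ∫ r in (0 : ℝ)..s, r ^ (m - 1) = s ^ m / (m : ℝ) := by
    rw [integral_pow]
    have e : m - 1 + 1 = m := by omega
    have e' : ((m - 1 : ℕ) : ℝ) + 1 = (m : ℝ) := by
      have := congrArg (fun n : ℕ => (n : ℝ)) e
      push_cast at this
      exact this
    rw [e, e', zero_pow (by omega), sub_zero]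
  have key : ∫ r in (0 : ℝ)..s, (r ^ (m - 1) - AA m * (r ^ (m - 1) *
      (h + r ^ 2) ^ (-(((m : ℝ) + 1) / 2)) * (((m : ℝ) * h + r ^ 2) / ((m : ℝ) * h)))) ≤
      ∫ r in (0 : ℝ)..s, fn m h (r ^ 2) * r ^ (m - 1) := by
    have hle : ∀ r ∈ Set.Icc (0 : ℝ) s, (r ^ (m - 1) - AA m * (r ^ (m - 1) *
        (h + r ^ 2) ^ (-(((m : ℝ) + 1) / 2)) * (((m : ℝ) * h + r ^ 2) / ((m : ℝ) * h)))) ≤
        (1 - AA m * (h + r ^ 2) ^ (-(((m : ℝ) + 1) / 2))) * r ^ (m - 1) := by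
      intro r hr
      have hr0 : 0 ≤ r ^ (m - 1) := pow_nonneg hr.1 _
      have hp : 0 ≤ (h + r ^ 2) ^ (-(((m : ℝ) + 1) / 2)) := Real.rpow_nonneg (hpos r).le _
      have h3 : 1 ≤ (((m : ℝ) * h + r ^ 2) / ((m : ℝ) * h)) := by
        rw [le_div_iff₀ (by positivity)]
        nlinarith [sq_nonneg r]
      have h4 : AA m * (r ^ (m - 1) * (h + r ^ 2) ^ (-(((m : ℝ) + 1) / 2))) * 1 ≤
          AA m * (r ^ (m - 1) * (h + r ^ 2) ^ (-(((m : ℝ) + 1) / 2))) *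
          (((m : ℝ) * h + r ^ 2) / ((m : ℝ) * h)) :=
        mul_le_mul_of_nonneg_left h3 (by positivity)
      nlinarith
    have hcong : ∫ r in (0 : ℝ)..s, fn m h (r ^ 2) * r ^ (m - 1) =
        ∫ r in (0 : ℝ)..s, (1 - AA m * (h + r ^ 2) ^ (-(((m : ℝ) + 1) / 2))) * r ^ (m - 1) := by
      apply intervalIntegral.integral_congr
      intro r hr
      rw [Set.uIcc_of_le hs.le] at hr
      show fn m h (r ^ 2) * r ^ (m - 1) = _
      rw [fn_eq h1 hs2 hr.1 hr.2]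
    rw [hcong]
    apply intervalIntegral.integral_mono_on hs.le
    · apply Continuous.intervalIntegrable
      exact (continuous_pow _).sub (c2.const_mul _ |>.congr (fun r => rfl))
    · apply Continuous.intervalIntegrable
      exact (continuous_const.sub (c1.const_mul _ |>.congr (fun r => rfl))).mul (continuous_pow _)
    · exact hle
  refine le_trans ?_ key
  have j1 : IntervalIntegrable (fun r : ℝ => r ^ (m - 1)) volume 0 s :=
    (continuous_pow _).intervalIntegrable _ _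
  have j2 : IntervalIntegrable (fun r : ℝ => AA m * (r ^ (m - 1) *
      (h + r ^ 2) ^ (-(((m : ℝ) + 1) / 2)) * (((m : ℝ) * h + r ^ 2) / ((m : ℝ) * h)))) volume 0 s :=
    (c2.intervalIntegrable _ _).const_mul _
  rw [intervalIntegral.integral_sub j1 j2, intervalIntegral.integral_const_mul, i1, hP0,
    i2, sub_zero]
  -- the final inequality
  have hsm : 0 < s ^ m := pow_pos hs m
  have hge : AA m ≤ (h + s ^ 2) ^ (((m : ℝ) - 1) / 2) :=
    hR.trans (Real.rpow_le_rpow (by linarith) hRs (by linarith))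
  have hq : 0 < (h + s ^ 2) ^ (((m : ℝ) - 1) / 2) := Real.rpow_pos_of_pos (hpos s) _
  have hinv : (h + s ^ 2) ^ (-(((m : ℝ) - 1) / 2)) = ((h + s ^ 2) ^ (((m : ℝ) - 1) / 2))⁻¹ :=
    Real.rpow_neg (hpos s).le _
  unfold Ph
  rw [hinv, sub_nonneg]
  have h5 : AA m * ((h + s ^ 2) ^ (((m : ℝ) - 1) / 2))⁻¹ ≤ 1 := by
    rw [mul_inv_le_iff₀ hq]
    linarith
  calc AA m * (s ^ m * ((h + s ^ 2) ^ (((m : ℝ) - 1) / 2))⁻¹ / ((m : ℝ) * h))
      = (AA m * ((h + s ^ 2) ^ (((m : ℝ) - 1) / 2))⁻¹) * (s ^ m / ((m : ℝ) * h)) := by ring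
    _ ≤ 1 * (s ^ m / ((m : ℝ) * h)) := mul_le_mul_of_nonneg_right h5 (by positivity)
    _ = s ^ m / ((m : ℝ) * h) := one_mul _
    _ ≤ s ^ m / (m : ℝ) := by
        apply div_le_div_of_nonneg_left hsm.le hm0
        nlinarith

end

end Pool.Agent.SausN
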