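import Pool.Agent.Lib.MP_5a9905_co_NC.Defs
import Pool.Agent.Lib.MP_5a9905_co_NC.KapN

set_option autoImplicit false

open MeasureTheory Finset

namespace Pool.Agent.SausN

open Pool.Agent.Saus (E kap Loc Vor)

noncomputable section

namespace IdentAux

open Pool.Agent.Saus (kap_zero kap_one kap_add_two kap_pos)

/-- The integrand. -/
def ig (m : ℕ) (r : ℝ) : ℝ := r ^ (m - 1) * (1 + r ^ 2) ^ (-(((m : ℝ) + 1) / 2))

lemma ig_cont (m : ℕ) : Continuous (ig m) := by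
  unfold ig
  refine (continuous_pow _).mul ?_
  refine Continuous.rpow_const (by fun_prop) (fun r => Or.inl ?_)
  positivity

lemma ig_nonneg (m : ℕ) {r : ℝ} (hr : 0 ≤ r) : 0 ≤ ig m r := by
  unfold ig; positivity

lemma ig_le {m : ℕ} (hm : 1 ≤ m) {r : ℝ} (hr : 0 ≤ r) : ig m r ≤ (1 + r ^ 2)⁻¹ := by
  have hb : (0 : ℝ) < 1 + r ^ 2 := by positivity
  have h1 : r ^ (m - 1) ≤ (1 + r ^ 2) ^ (((m : ℝ) - 1) / 2) := by
    have h2 : r ^ (m - 1) = (r ^ 2) ^ (((m : ℝ) - 1) / 2) := by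
      rw [← Real.rpow_natCast r 2, ← Real.rpow_mul hr, ← Real.rpow_natCast r (m - 1)]
      congr 1
      push_cast [Nat.cast_sub hm]
      ring
    rw [h2]
    have hm1 : (1 : ℝ) ≤ m := by exact_mod_cast hm
    exact Real.rpow_le_rpow (by positivity) (by linarith) (by linarith)
  have h3 : (1 + r ^ 2) ^ (((m : ℝ) - 1) / 2) * (1 + r ^ 2) ^ (-(((m : ℝ) + 1) / 2))
      = (1 + r ^ 2)⁻¹ := by
    rw [← Real.rpow_add hb, ← Real.rpow_neg_one]
    congr 1
    ring
  rw [← h3]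
  unfold ig
  exact mul_le_mul_of_nonneg_right h1 (by positivity)

lemma ig_int {m : ℕ} (hm : 1 ≤ m) : IntegrableOn (ig m) (Set.Ioi 0) := by
  refine Integrable.mono' (integrable_inv_one_add_sq.integrableOn (s := Set.Ioi 0))
    (ig_cont m).aestronglyMeasurable.restrict ?_
  refine (ae_restrict_iff' measurableSet_Ioi).2 (Filter.Eventually.of_forall (fun r hr => ?_))
  have hr' : (0 : ℝ) ≤ r := le_of_lt hr
  rw [Real.norm_eq_abs, abs_of_nonneg (ig_nonneg m hr')]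
  exact ig_le hm hr'

lemma ig_rec {m : ℕ} (hm : 1 ≤ m) :
    ((m : ℝ) + 1) * ∫ r in Set.Ioi (0 : ℝ), ig (m + 2) r
      = m * ∫ r in Set.Ioi (0 : ℝ), ig m r := by
  have hm0 : m ≠ 0 := by omega
  set G : ℝ → ℝ := fun r => r ^ m * (1 + r ^ 2) ^ (-(((m : ℝ) + 1) / 2)) with hG
  have hderiv : ∀ r ∈ Set.Ici (0 : ℝ),
      HasDerivAt G ((m : ℝ) * ig m r - ((m : ℝ) + 1) * ig (m + 2) r) r := by
    intro r _
    have hb : (0 : ℝ) < 1 + r ^ 2 := by positivity
    have h1 : HasDerivAt (fun r : ℝ => 1 + r ^ 2) (2 * r) r := by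
      simpa using (hasDerivAt_pow 2 r).const_add 1
    have h2 := h1.rpow_const (p := -(((m : ℝ) + 1) / 2)) (Or.inl hb.ne')
    have h3 := (hasDerivAt_pow m r).mul h2
    refine h3.congr_deriv ?_
    have e1 : (-(((m : ℝ) + 1) / 2) - 1) = -((((m + 2 : ℕ) : ℝ) + 1) / 2) := by
      push_cast; ring
    have e2 : r ^ m * (2 * r) = 2 * r ^ (m + 2 - 1) := by
      have : m + 2 - 1 = m + 1 := by omega
      rw [this, pow_succ]; ring
    rw [e1]
    unfold ig
    calc (m : ℝ) * r ^ (m - 1) * (1 + r ^ 2) ^ (-(((m : ℝ) + 1) / 2))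
          + r ^ m * (2 * r * -(((m : ℝ) + 1) / 2) * (1 + r ^ 2) ^ (-((((m + 2 : ℕ) : ℝ) + 1) / 2)))
        = (m : ℝ) * r ^ (m - 1) * (1 + r ^ 2) ^ (-(((m : ℝ) + 1) / 2))
          + (r ^ m * (2 * r)) * (-(((m : ℝ) + 1) / 2)
            * (1 + r ^ 2) ^ (-((((m + 2 : ℕ) : ℝ) + 1) / 2))) := by ring
      _ = _ := by rw [e2]; ring
  have hint : IntegrableOn (fun r => (m : ℝ) * ig m r - ((m : ℝ) + 1) * ig (m + 2) r)
      (Set.Ioi 0) :=
    ((ig_int hm).const_mul _).sub ((ig_int (by omega : 1 ≤ m + 2)).const_mul _)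
  have hlim : Filter.Tendsto G Filter.atTop (nhds 0) := by
    have hle : ∀ r : ℝ, 1 ≤ r → G r ≤ r⁻¹ := by
      intro r hr
      have hr0 : (0 : ℝ) < r := by linarith
      have hb : (0 : ℝ) < 1 + r ^ 2 := by positivity
      have h1 : (1 + r ^ 2) ^ (-(((m : ℝ) + 1) / 2)) ≤ (r ^ 2) ^ (-(((m : ℝ) + 1) / 2)) :=
        Real.rpow_le_rpow_of_nonpos (by positivity) (by linarith)
          (by have : (0 : ℝ) ≤ m := by positivity
              linarith)
      have h2 : (r ^ 2) ^ (-(((m : ℝ) + 1) / 2)) = r⁻¹ * (r ^ m)⁻¹ := by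
        rw [← Real.rpow_natCast r 2, ← Real.rpow_mul hr0.le]
        have : ((2 : ℕ) : ℝ) * -(((m : ℝ) + 1) / 2) = -1 + -(m : ℝ) := by push_cast; ring
        rw [this, Real.rpow_add hr0, Real.rpow_neg_one, Real.rpow_neg hr0.le, Real.rpow_natCast]
      rw [h2] at h1
      have h3 : r ^ m * (r⁻¹ * (r ^ m)⁻¹) = r⁻¹ := by
        have : (r ^ m) ≠ 0 := by positivity
        field_simp
      calc G r ≤ r ^ m * (r⁻¹ * (r ^ m)⁻¹) := mul_le_mul_of_nonneg_left h1 (by positivity)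
        _ = r⁻¹ := h3
    refine squeeze_zero' (Filter.eventually_atTop.2 ⟨0, fun r hr => ?_⟩)
      (Filter.eventually_atTop.2 ⟨1, fun r hr => hle r hr⟩) tendsto_inv_atTop_zero
    have : (0 : ℝ) ≤ r := hr
    simp only [hG]; positivity
  have hmain := integral_Ioi_of_hasDerivAt_of_tendsto' hderiv hint hlim
  have hG0 : G 0 = 0 := by simp [hG, hm0]
  rw [hG0, integral_sub ((ig_int hm).const_mul _)
    ((ig_int (by omega : 1 ≤ m + 2)).const_mul _), integral_const_mul, integral_const_mul] at hmain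
  linarith

lemma ig_one : ∫ r in Set.Ioi (0 : ℝ), ig 1 r = Real.pi / 2 := by
  have : ∀ r : ℝ, ig 1 r = (1 + r ^ 2)⁻¹ := by
    intro r
    unfold ig
    have hb : (0 : ℝ) < 1 + r ^ 2 := by positivity
    rw [← Real.rpow_neg_one]
    norm_num
  simp_rw [this]
  rw [integral_Ioi_inv_one_add_sq, Real.arctan_zero, sub_zero]

lemma ig_two : ∫ r in Set.Ioi (0 : ℝ), ig 2 r = 1 := by
  set G : ℝ → ℝ := fun r => -(1 + r ^ 2) ^ (-(1 / 2 : ℝ)) with hG
  have hderiv : ∀ r ∈ Set.Ici (0 : ℝ), HasDerivAt G (ig 2 r) r := by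
    intro r _
    have hb : (0 : ℝ) < 1 + r ^ 2 := by positivity
    have h1 : HasDerivAt (fun r : ℝ => 1 + r ^ 2) (2 * r) r := by
      simpa using (hasDerivAt_pow 2 r).const_add 1
    have h2 := (h1.rpow_const (p := -(1 / 2 : ℝ)) (Or.inl hb.ne')).neg
    refine h2.congr_deriv ?_
    unfold ig
    have e1 : (-(1 / 2 : ℝ) - 1) = -((((2 : ℕ) : ℝ) + 1) / 2) := by norm_num
    rw [e1]
    simp only [Nat.add_one_sub_one, pow_one]
    ring
  have hlim : Filter.Tendsto G Filter.atTop (nhds 0) := by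
    have h1 : Filter.Tendsto (fun r : ℝ => 1 + r ^ 2) Filter.atTop Filter.atTop :=
      Filter.tendsto_atTop_add_const_left _ _ (Filter.tendsto_pow_atTop (by norm_num))
    have h2 := (tendsto_rpow_neg_atTop (by norm_num : (0 : ℝ) < 1 / 2)).comp h1
    have h3 := h2.neg
    rw [neg_zero] at h3
    exact h3
  have hmain := integral_Ioi_of_hasDerivAt_of_tendsto' hderiv (ig_int (by norm_num)) hlim
  rw [hmain]
  simp [hG]

lemma AA_step (m : ℕ) : AA (m + 2) = ((m : ℝ) + 3) / ((m : ℝ) + 2) * AA m := by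
  unfold AA
  have h1 := kap_add_two m
  have h2 := kap_add_two (m + 1)
  have h3 := (kap_pos m).ne'
  have h4 := (kap_pos (m + 1)).ne'
  have e : m + 2 + 1 = m + 1 + 2 := by ring
  rw [e, h1, h2]
  have hp := Real.pi_pos.ne'
  have h5 : ((m : ℝ) + 2) ≠ 0 := by positivity
  have h6 : ((m : ℝ) + 1 + 2) ≠ 0 := by positivity
  have h7 : ((m : ℝ) + 3) ≠ 0 := by positivity
  push_cast
  field_simp
  ring

lemma main : ∀ m : ℕ, AA (m + 1) * ∫ r in Set.Ioi (0 : ℝ), ig (m + 1) r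
      = (((m + 1 : ℕ) : ℝ) + 1) / ((m + 1 : ℕ) : ℝ)
  | 0 => by
    have h2 : kap 2 = Real.pi := by
      have := kap_add_two 0
      rw [kap_zero] at this
      rw [this]; push_cast; ring
    rw [ig_one]
    unfold AA
    simp only [zero_add, Nat.reduceAdd]
    rw [h2, kap_one]
    have := Real.pi_pos.ne'
    field_simp
    norm_num
  | 1 => by
    have h2 : kap 2 = Real.pi := by
      have := kap_add_two 0
      rw [kap_zero] at this
      rw [this]; push_cast; ring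
    have h3 : kap 3 = 4 * Real.pi / 3 := by
      have := kap_add_two 1
      rw [kap_one] at this
      rw [this]; push_cast; ring
    simp only [Nat.reduceAdd]
    rw [ig_two]
    unfold AA
    simp only [Nat.reduceAdd]
    rw [h2, h3]
    have := Real.pi_pos.ne'
    push_cast
    field_simp
    norm_num
  | (m + 2) => by
    have ih := main m
    have hr := ig_rec (m := m + 1) (by omega)
    have e : m + 2 + 1 = m + 1 + 2 := by ring
    rw [e, AA_step (m + 1)]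
    have h1 : (((m + 1 : ℕ) : ℝ) + 1) ≠ 0 := by positivity
    have h2 : ((m + 1 : ℕ) : ℝ) ≠ 0 := by positivity
    have h3 : (((m + 1 : ℕ) : ℝ) + 2) ≠ 0 := by positivity
    have h4 : ((m + 1 + 2 : ℕ) : ℝ) ≠ 0 := by positivity
    have h5 : ∫ r in Set.Ioi (0 : ℝ), ig (m + 1 + 2) r
        = ((m + 1 : ℕ) : ℝ) / (((m + 1 : ℕ) : ℝ) + 1) * ∫ r in Set.Ioi (0 : ℝ), ig (m + 1) r := by
      field_simp
      linarith
    rw [h5]
    calc (((m + 1 : ℕ) : ℝ) + 3) / (((m + 1 : ℕ) : ℝ) + 2) * AA (m + 1)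
          * (((m + 1 : ℕ) : ℝ) / (((m + 1 : ℕ) : ℝ) + 1) * ∫ r in Set.Ioi (0 : ℝ), ig (m + 1) r)
        = (((m + 1 : ℕ) : ℝ) + 3) / (((m + 1 : ℕ) : ℝ) + 2)
          * (((m + 1 : ℕ) : ℝ) / (((m + 1 : ℕ) : ℝ) + 1))
          * (AA (m + 1) * ∫ r in Set.Ioi (0 : ℝ), ig (m + 1) r) := by ring
      _ = _ := by
        rw [ih]
        push_cast
        push_cast at h1 h2 h3 h4
        field_simp
        ring

end IdentAux

theorem AA_ident {m : ℕ} (hm : 1 ≤ m) :
    AA m * ∫ r in Set.Ioi (0 : ℝ), r ^ (m - 1) * (1 + r ^ 2) ^ (-(((m : ℝ) + 1) / 2))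
      = ((m : ℝ) + 1) / m := by
  obtain ⟨k, rfl⟩ : ∃ k, m = k + 1 := ⟨m - 1, by omega⟩
  exact IdentAux.main k

end

end Pool.Agent.SausN
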