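import Pool.Agent.Lib.MP_5a9905_co_NC.Defs
import Pool.Agent.Lib.MP_5a9905_co_NC.KapN
import Pool.Agent.Lib.MP_5a9905_co_NC.Ident

set_option autoImplicit false

open MeasureTheory Finset

namespace Pool.Agent.SausN

open Pool.Agent.Saus (E kap Loc Vor)

noncomputable section

namespace RayTAux

/-- comparison function -/
def G (m : ℕ) (q : ℝ) : ℝ := (max 1 (q ^ 2)) ^ (-(((m : ℝ) + 1) / 2)) * q ^ (m - 1)

/-- the second function -/
def G2 (m : ℕ) (q : ℝ) : ℝ := q ^ (m - 1) * (1 + q ^ 2) ^ (-(((m : ℝ) + 1) / 2))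

theorem G_small {m : ℕ} {q : ℝ} (h0 : 0 < q) (h1 : q ≤ 1) : G m q = q ^ (m - 1) := by
  have h : max 1 (q ^ 2) = 1 := max_eq_left (by nlinarith)
  simp [G, h]

theorem G_large {m : ℕ} (hm : 1 ≤ m) {q : ℝ} (h1 : 1 < q) : G m q = q ^ (-2 : ℝ) := by
  have h0 : 0 < q := by linarith
  have h2 : max 1 (q ^ 2) = q ^ 2 := max_eq_right (by nlinarith)
  have h3 : (q ^ 2) ^ (-(((m : ℝ) + 1) / 2)) = q ^ (-((m : ℝ) + 1)) := by
    rw [← Real.rpow_natCast q 2, ← Real.rpow_mul h0.le]
    congr 1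
    push_cast
    ring
  unfold G
  rw [h2, h3, ← Real.rpow_natCast q (m - 1), ← Real.rpow_add h0]
  congr 1
  rw [Nat.cast_sub hm]
  push_cast
  ring

theorem union_eq : Set.Ioc (0 : ℝ) 1 ∪ Set.Ioi 1 = Set.Ioi 0 :=
  Set.Ioc_union_Ioi_eq_Ioi zero_le_one

theorem G_int1 {m : ℕ} : IntegrableOn (G m) (Set.Ioc 0 1) := by
  have h : IntegrableOn (fun q : ℝ => q ^ (m - 1)) (Set.Ioc 0 1) :=
    (intervalIntegrable_iff_integrableOn_Ioc_of_le zero_le_one).1
      ((continuous_pow (m - 1)).intervalIntegrable _ _)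
  exact h.congr_fun (fun q hq => (G_small hq.1 hq.2).symm) measurableSet_Ioc

theorem G_int2 {m : ℕ} (hm : 1 ≤ m) : IntegrableOn (G m) (Set.Ioi 1) := by
  have h : IntegrableOn (fun q : ℝ => q ^ (-2 : ℝ)) (Set.Ioi 1) :=
    integrableOn_Ioi_rpow_of_lt (by norm_num) one_pos
  exact h.congr_fun (fun q hq => (G_large hm hq).symm) measurableSet_Ioi

theorem G_int {m : ℕ} (hm : 1 ≤ m) : IntegrableOn (G m) (Set.Ioi 0) := by
  rw [← union_eq]
  exact G_int1.union (G_int2 hm)

theorem G_val {m : ℕ} (hm : 1 ≤ m) : ∫ q in Set.Ioi (0 : ℝ), G m q = ((m : ℝ) + 1) / m := by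
  have hm0 : (0 : ℝ) < m := by exact_mod_cast hm
  rw [← union_eq, setIntegral_union Set.Ioc_disjoint_Ioi_same measurableSet_Ioi G_int1 (G_int2 hm)]
  have h1 : ∫ q in Set.Ioc (0 : ℝ) 1, G m q = 1 / m := by
    rw [setIntegral_congr_fun measurableSet_Ioc (fun q hq => G_small hq.1 hq.2),
      ← intervalIntegral.integral_of_le zero_le_one, integral_pow]
    have h2 : ((m - 1 : ℕ) : ℝ) + 1 = m := by
      rw [Nat.cast_sub hm]
      push_cast
      ring
    rw [h2, one_pow, zero_pow (by omega)]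
    ring
  have h2 : ∫ q in Set.Ioi (1 : ℝ), G m q = 1 := by
    rw [setIntegral_congr_fun measurableSet_Ioi (fun q hq => G_large hm hq),
      integral_Ioi_rpow_of_lt (by norm_num) one_pos]
    norm_num
  rw [h1, h2]
  field_simp
  ring

theorem rpow_anti {m : ℕ} {x y : ℝ} (hx : 0 < x) (hxy : x ≤ y) :
    y ^ (-(((m : ℝ) + 1) / 2)) ≤ x ^ (-(((m : ℝ) + 1) / 2)) :=
  Real.rpow_le_rpow_of_nonpos hx hxy (by
    have : (0 : ℝ) ≤ (m : ℝ) := Nat.cast_nonneg m
    linarith)

theorem G2_int {m : ℕ} (hm : 1 ≤ m) : IntegrableOn (G2 m) (Set.Ioi 0) := by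
  refine (G_int hm).mono' ?_ ?_
  · unfold G2
    exact (by fun_prop : Measurable fun q : ℝ =>
      q ^ (m - 1) * (1 + q ^ 2) ^ (-(((m : ℝ) + 1) / 2))).aestronglyMeasurable
  · rw [ae_restrict_iff' measurableSet_Ioi]
    refine Filter.Eventually.of_forall fun q hq => ?_
    have hq0 : (0 : ℝ) < q := hq
    unfold G2 G
    rw [Real.norm_of_nonneg (by positivity), mul_comm]
    refine mul_le_mul_of_nonneg_right (rpow_anti (lt_max_of_lt_left one_pos) ?_) (by positivity)
    exact max_le (by nlinarith) (by linarith)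

end RayTAux

open RayTAux in
theorem fn_total {m : ℕ} (hm : 1 ≤ m) {h : ℝ} (h1 : 1 ≤ h) :
    IntegrableOn (fun r : ℝ => fn m h (r ^ 2) * r ^ (m - 1)) (Set.Ioi 0) ∧
    0 ≤ ∫ r in Set.Ioi (0 : ℝ), fn m h (r ^ 2) * r ^ (m - 1) := by
  have hh : 0 < h := by linarith
  have hA := AA_pos m
  set p : ℝ := -(((m : ℝ) + 1) / 2) with hp
  -- integrability
  have hint : IntegrableOn (fun r : ℝ => fn m h (r ^ 2) * r ^ (m - 1)) (Set.Ioi 0) := by
    have i1 : IntegrableOn (fun r : ℝ =>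
        (max 1 (max ((h + r ^ 2) / 2) (r ^ 2))) ^ p * r ^ (m - 1)) (Set.Ioi 0) := by
      refine (G_int hm).mono' ?_ ?_
      · exact (by fun_prop : Measurable fun r : ℝ =>
          (max 1 (max ((h + r ^ 2) / 2) (r ^ 2))) ^ p * r ^ (m - 1)).aestronglyMeasurable
      · rw [ae_restrict_iff' measurableSet_Ioi]
        refine Filter.Eventually.of_forall fun q hq => ?_
        have hq0 : (0 : ℝ) < q := hq
        unfold G
        rw [Real.norm_of_nonneg (by positivity)]
        refine mul_le_mul_of_nonneg_right (rpow_anti (lt_max_of_lt_left one_pos) ?_)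
          (by positivity)
        exact max_le_max le_rfl (le_max_right _ _)
    have i2 : IntegrableOn (fun r : ℝ => (h + r ^ 2) ^ p * r ^ (m - 1)) (Set.Ioi 0) := by
      refine (G2_int hm).mono' ?_ ?_
      · exact (by fun_prop : Measurable fun r : ℝ =>
          (h + r ^ 2) ^ p * r ^ (m - 1)).aestronglyMeasurable
      · rw [ae_restrict_iff' measurableSet_Ioi]
        refine Filter.Eventually.of_forall fun q hq => ?_
        have hq0 : (0 : ℝ) < q := hq
        unfold G2
        rw [Real.norm_of_nonneg (by positivity), mul_comm]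
        refine mul_le_mul_of_nonneg_left (rpow_anti (by positivity) (by linarith)) (by positivity)
    refine (i1.sub (i2.const_mul (AA m))).congr_fun (fun r _ => ?_) measurableSet_Ioi
    simp only [fn, Pi.sub_apply]
    rw [← hp]
    ring
  refine ⟨hint, ?_⟩
  set b : ℝ := Real.sqrt h with hb
  have hb0 : 0 < b := Real.sqrt_pos.2 hh
  have hb2 : b ^ 2 = h := Real.sq_sqrt hh.le
  have hsub := integral_comp_mul_left_Ioi (fun r : ℝ => fn m h (r ^ 2) * r ^ (m - 1)) 0 hb0
  rw [mul_zero] at hsub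
  have hlow : 0 ≤ ∫ q in Set.Ioi (0 : ℝ), fn m h ((b * q) ^ 2) * (b * q) ^ (m - 1) := by
    have h0 : ∫ q in Set.Ioi (0 : ℝ), (h ^ p * b ^ (m - 1)) * (G m q - AA m * G2 m q) = 0 := by
      rw [integral_const_mul, integral_sub (G_int hm) ((G2_int hm).const_mul _),
        integral_const_mul, G_val hm]
      have := AA_ident hm
      unfold G2
      rw [this, sub_self, mul_zero]
    have hi : IntegrableOn (fun q : ℝ => (h ^ p * b ^ (m - 1)) * (G m q - AA m * G2 m q))
        (Set.Ioi 0) := ((G_int hm).sub ((G2_int hm).const_mul _)).const_mul _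
    refine h0.ge.trans (setIntegral_mono_on hi ?_ measurableSet_Ioi fun q hq => ?_)
    · have := (integrableOn_Ioi_comp_mul_left_iff
        (fun r : ℝ => fn m h (r ^ 2) * r ^ (m - 1)) 0 hb0).2 (by simpa using hint)
      exact this
    · have hq0 : (0 : ℝ) < q := hq
      have e1 : (b * q) ^ 2 = h * q ^ 2 := by rw [mul_pow, hb2]
      have e2 : (h ^ p) * (max 1 (q ^ 2)) ^ p ≤
          (max 1 (max ((h + h * q ^ 2) / 2) (h * q ^ 2))) ^ p := by
        rw [← Real.mul_rpow hh.le (by positivity)]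
        refine rpow_anti (lt_max_of_lt_left one_pos) ?_
        have m1 : (1 : ℝ) ≤ max 1 (q ^ 2) := le_max_left _ _
        have m2 : q ^ 2 ≤ max 1 (q ^ 2) := le_max_right _ _
        refine max_le ?_ (max_le ?_ ?_)
        · nlinarith
        · nlinarith
        · exact mul_le_mul_of_nonneg_left m2 hh.le
      have e3 : (h + h * q ^ 2) ^ p = h ^ p * (1 + q ^ 2) ^ p := by
        rw [← Real.mul_rpow hh.le (by positivity)]
        congr 1
        ring
      have e4 : (0 : ℝ) ≤ b ^ (m - 1) * q ^ (m - 1) := by positivity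
      unfold fn G G2
      rw [← hp, e1, e3, mul_pow]
      calc h ^ p * b ^ (m - 1) * ((max 1 (q ^ 2)) ^ p * q ^ (m - 1) -
            AA m * (q ^ (m - 1) * (1 + q ^ 2) ^ p))
          = (h ^ p * (max 1 (q ^ 2)) ^ p - AA m * (h ^ p * (1 + q ^ 2) ^ p)) *
              (b ^ (m - 1) * q ^ (m - 1)) := by ring
        _ ≤ _ := mul_le_mul_of_nonneg_right (by linarith) e4
  rw [hsub, smul_eq_mul] at hlow
  have hbi : 0 < b⁻¹ := inv_pos.2 hb0
  exact nonneg_of_mul_nonneg_right hlow hbi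

end

end Pool.Agent.SausN
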