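import Pool.Agent.Lib.MP_5a9905_co_NC.Defs
import Pool.Agent.Lib.MP_5a9905_co_NC.RayS
import Pool.Agent.Lib.MP_5a9905_co_NC.RayT

set_option autoImplicit false

open MeasureTheory Finset

namespace Pool.Agent.SausN

open Pool.Agent.Saus (E kap Loc Vor)

noncomputable section

namespace RayAux

/-- the maximum in the density -/
def MM (h r : ℝ) : ℝ := max 1 (max ((h + r ^ 2) / 2) (r ^ 2))

/-- the power of the ratio -/
def rho (m : ℕ) (h r : ℝ) : ℝ := ((h + r ^ 2) / MM h r) ^ (((m : ℝ) + 1) / 2)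

theorem MM_pos (h r : ℝ) : 0 < MM h r := lt_max_of_lt_left one_pos

theorem fn_eq {m : ℕ} {h r : ℝ} (hh : 0 < h) :
    fn m h (r ^ 2) = (h + r ^ 2) ^ (-(((m : ℝ) + 1) / 2)) * (rho m h r - AA m) := by
  have hp : 0 < h + r ^ 2 := by positivity
  have hM := MM_pos h r
  have e : (MM h r) ^ (-(((m : ℝ) + 1) / 2)) =
      (h + r ^ 2) ^ (-(((m : ℝ) + 1) / 2)) * rho m h r := by
    unfold rho
    rw [Real.div_rpow hp.le hM.le, Real.rpow_neg hM.le, Real.rpow_neg hp.le]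
    have := (Real.rpow_pos_of_pos hp (((m : ℝ) + 1) / 2)).ne'
    field_simp
  unfold fn
  unfold MM at e
  rw [e]
  ring

theorem MM_cmp {h r₁ r₂ : ℝ} (hh : 0 < h) (h0 : 0 ≤ r₁) (h12 : r₁ ≤ r₂) (h2 : 2 ≤ h + r₁ ^ 2) :
    (h + r₂ ^ 2) * MM h r₁ ≤ (h + r₁ ^ 2) * MM h r₂ := by
  have hs : r₁ ^ 2 ≤ r₂ ^ 2 := pow_le_pow_left₀ h0 h12 2
  have hM1 : MM h r₁ = max ((h + r₁ ^ 2) / 2) (r₁ ^ 2) := by
    unfold MM
    exact max_eq_right (le_max_of_le_left (by linarith))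
  have a1 : (h + r₂ ^ 2) / 2 ≤ MM h r₂ := le_max_of_le_right (le_max_left _ _)
  have a2 : r₂ ^ 2 ≤ MM h r₂ := le_max_of_le_right (le_max_right _ _)
  have p1 : 0 < h + r₁ ^ 2 := by linarith
  have p2 : 0 < h + r₂ ^ 2 := by linarith
  rw [hM1]
  rcases max_choice ((h + r₁ ^ 2) / 2) (r₁ ^ 2) with hc | hc
  · rw [hc]
    calc (h + r₂ ^ 2) * ((h + r₁ ^ 2) / 2) = (h + r₁ ^ 2) * ((h + r₂ ^ 2) / 2) := by ring
      _ ≤ _ := mul_le_mul_of_nonneg_left a1 p1.le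
  · rw [hc]
    calc (h + r₂ ^ 2) * r₁ ^ 2 ≤ (h + r₁ ^ 2) * r₂ ^ 2 := by nlinarith
      _ ≤ _ := mul_le_mul_of_nonneg_left a2 p1.le

theorem rho_anti {m : ℕ} {h r₁ r₂ : ℝ} (hh : 0 < h) (h0 : 0 ≤ r₁) (h12 : r₁ ≤ r₂)
    (h2 : 2 ≤ h + r₁ ^ 2) : rho m h r₂ ≤ rho m h r₁ := by
  have hp2 : 0 < h + r₂ ^ 2 := by positivity
  unfold rho
  refine Real.rpow_le_rpow (div_nonneg hp2.le (MM_pos h r₂).le) ?_ (by positivity)
  rw [div_le_div_iff₀ (MM_pos h r₂) (MM_pos h r₁)]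
  exact MM_cmp hh h0 h12 h2

end RayAux

open RayAux in
theorem fn_ray {m : ℕ} (hm : 2 ≤ m) {h R : ℝ} (h1 : 1 ≤ h) (h2 : h < 2) (hR1 : 1 ≤ R) (hR2 : R ≤ 2)
    (hR : AA m ≤ R ^ (((m : ℝ) - 1) / 2)) {s : ℝ} (hs : 0 < s) (hRs : R ≤ h + s ^ 2) :
    0 ≤ ∫ r in (0 : ℝ)..s, fn m h (r ^ 2) * r ^ (m - 1) := by
  have hh : 0 < h := by linarith
  by_cases hc : h + s ^ 2 ≤ 2
  · exact fn_short hm h1 h2 hR1 hR hs hRs hc
  have hc' : 2 < h + s ^ 2 := not_le.1 hc
  obtain ⟨hint, htot⟩ := fn_total (m := m) (by omega) h1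
  set F : ℝ → ℝ := fun r : ℝ => fn m h (r ^ 2) * r ^ (m - 1) with hF
  by_cases hr : AA m ≤ rho m h s
  · -- nonnegative on `[s₁, s]`
    set s₁ : ℝ := Real.sqrt (2 - h) with hs₁
    have q0 : 0 < s₁ := Real.sqrt_pos.2 (by linarith)
    have q2 : s₁ ^ 2 = 2 - h := Real.sq_sqrt (by linarith)
    have q1 : s₁ ≤ s := by
      by_contra hq
      have : s ^ 2 ≤ s₁ ^ 2 := pow_le_pow_left₀ hs.le (not_le.1 hq).le 2
      linarith
    have t1 : 0 ≤ ∫ r in (0 : ℝ)..s₁, F r :=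
      fn_short hm h1 h2 hR1 hR q0 (by rw [q2]; linarith) (by rw [q2]; linarith)
    have t2 : 0 ≤ ∫ r in s₁..s, F r := by
      refine intervalIntegral.integral_nonneg q1 fun r hr' => ?_
      have hr0 : 0 < r := q0.trans_le hr'.1
      have hr2 : 2 ≤ h + r ^ 2 := by
        have : s₁ ^ 2 ≤ r ^ 2 := pow_le_pow_left₀ q0.le hr'.1 2
        linarith
      have hrho := rho_anti (m := m) hh hr0.le hr'.2 hr2
      have : 0 ≤ fn m h (r ^ 2) := by
        rw [fn_eq hh]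
        exact mul_nonneg (by positivity) (by linarith)
      exact mul_nonneg this (by positivity)
    have i1 : IntervalIntegrable F volume 0 s₁ :=
      (intervalIntegrable_iff_integrableOn_Ioc_of_le q0.le).2
        (hint.mono_set fun x hx => hx.1)
    have i2 : IntervalIntegrable F volume s₁ s :=
      (intervalIntegrable_iff_integrableOn_Ioc_of_le q1).2
        (hint.mono_set fun x hx => q0.trans hx.1)
    rw [← intervalIntegral.integral_add_adjacent_intervals i1 i2]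
    exact add_nonneg t1 t2
  · have hr' : rho m h s < AA m := not_le.1 hr
    have t3 : ∫ r in Set.Ioi s, F r ≤ 0 := by
      refine setIntegral_nonpos measurableSet_Ioi fun r hr0 => ?_
      have hsr : s < r := hr0
      have hrho := rho_anti (m := m) hh hs.le hsr.le hc'.le
      have : fn m h (r ^ 2) ≤ 0 := by
        rw [fn_eq hh]
        exact mul_nonpos_of_nonneg_of_nonpos (by positivity) (by linarith)
      have hrp : 0 < r := hs.trans hsr
      exact mul_nonpos_of_nonpos_of_nonneg this (by positivity)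
    have hU : Set.Ioc (0 : ℝ) s ∪ Set.Ioi s = Set.Ioi 0 := Set.Ioc_union_Ioi_eq_Ioi hs.le
    have i1 : IntegrableOn F (Set.Ioc 0 s) := hint.mono_set fun x hx => hx.1
    have i2 : IntegrableOn F (Set.Ioi s) := hint.mono_set fun x hx => hs.trans hx
    rw [← hU, setIntegral_union Set.Ioc_disjoint_Ioi_same measurableSet_Ioi i1 i2] at htot
    rw [intervalIntegral.integral_of_le hs.le]
    linarith

end

end Pool.Agent.SausN
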