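import Pool.Agent.Lib.MP_5a9905_co_NC.Defs
import Pool.Agent.Lib.MP_5a9905_co_NC.Jex
import Pool.Agent.Lib.MP_5a9905_co_NC.Level
import Pool.Agent.Lib.MP_5a9905_co_NC.FlS
import Pool.Agent.Lib.MP_5a9905_co_NC.FlN
import Pool.Agent.Lib.MP_5a9905_co_NC.Ray
import Pool.Agent.Lib.MP_5a9905_co_NC.FInt
import Pool.Agent.Lib.MP_5a9905_co_NC.KapN

set_option autoImplicit false

open MeasureTheory Finset

namespace Pool.Agent.SausN

open Pool.Agent.Saus (E kap Loc Vor)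

noncomputable section

namespace FaceAux

/-- Measurability of the polyhedral domains. -/
theorem meas_dom {n m : ℕ} (B : Finset (E n)) (a : ℝ) (K : ℝ) (u : E n)
    (J : E m →ₗᵢ[ℝ] E n) :
    MeasurableSet {v : E m | K + ‖v‖ ^ 2 < a ∧ ∀ b ∈ B, inner ℝ (u + J v) b ≤ 1} := by
  have h1 : MeasurableSet {v : E m | K + ‖v‖ ^ 2 < a} :=
    (isOpen_lt (by fun_prop) (by fun_prop)).measurableSet
  have h2 : MeasurableSet {v : E m | ∀ b ∈ B, inner ℝ (u + J v) b ≤ 1} := by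
    have : {v : E m | ∀ b ∈ B, inner ℝ (u + J v) b ≤ 1}
        = ⋂ b ∈ B, {v : E m | inner ℝ (u + J v) b ≤ 1} := by
      ext v; simp
    rw [this]
    refine Finset.measurableSet_biInter _ (fun b _ => ?_)
    have hJc : Continuous fun v : E m => J v := J.continuous
    exact (isClosed_le (by fun_prop) (by fun_prop)).measurableSet
  exact h1.inter h2

/-- the density is `1 - A |z| ^ (-d)` in the ball of radius `√2` -/
theorem fn_eq {m : ℕ} {h x : ℝ} (h1 : 1 ≤ h) (hx : h + x ≤ 2) :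
    fn m h x = 1 - AA m * (h + x) ^ (-(((m : ℝ) + 1) / 2)) := by
  have e1 : max 1 (max ((h + x) / 2) x) = 1 := by
    apply max_eq_left
    apply max_le
    · linarith
    · linarith
  rw [fn, e1, Real.one_rpow]

end FaceAux

theorem near_face {k : ℕ} (hk : 1 ≤ k) {R : ℝ} (hR1 : 1 ≤ R) (hR2 : R ≤ 2)
    (hR : AA (k + 1) ≤ R ^ ((k : ℝ) / 2)) (hN : NearTwo k R) {Z : Finset (E (k + 2))} (hZ : Sep Z)
    {w : E (k + 2)} (hw : w ∈ Z) (hw8 : ‖w‖ ^ 2 < 8) {J : E (k + 1) →ₗᵢ[ℝ] E (k + 2)}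
    (hJ : ∀ v, inner ℝ w (J v) = (0 : ℝ)) :
    0 ≤ ∫ v in {v : E (k + 1) | ∀ y ∈ Z, inner ℝ y ((1 / 2 : ℝ) • w + J v) ≤ ‖y‖ ^ 2 / 2},
      fn (k + 1) (‖w‖ ^ 2 / 4) (‖v‖ ^ 2) := by
  classical
  obtain ⟨h, hh⟩ : ∃ h : ℝ, h = ‖w‖ ^ 2 / 4 := ⟨_, rfl⟩
  obtain ⟨c, hc⟩ : ∃ c : E (k + 2), c = (1 / 2 : ℝ) • w := ⟨_, rfl⟩
  rw [← hh, ← hc]
  have hw2 : 2 ≤ ‖w‖ := hZ.far w hw
  have h1 : 1 ≤ h := by rw [hh]; nlinarith
  have h2 : h < 2 := by rw [hh]; linarith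
  have hcn : ‖c‖ ^ 2 = h := by
    rw [hc, hh, norm_smul, Real.norm_eq_abs, abs_of_pos (by norm_num : (0 : ℝ) < 1 / 2)]
    ring
  have hF : IsFl Z {w} c J := by
    refine ⟨Finset.singleton_subset_iff.2 hw, ?_, fun v => ?_, fun x hx v => ?_, fun x hx => ?_⟩
    · rw [Finset.card_singleton]
      ring
    · rw [hc, real_inner_smul_left, hJ, mul_zero]
    · rw [Finset.mem_singleton.1 hx]
      exact hJ v
    · rw [Finset.mem_singleton.1 hx, hc, real_inner_smul_right, real_inner_self_eq_norm_sq]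
      ring
  have hc2 : ‖c‖ ^ 2 < 2 := by rw [hcn]; exact h2
  have hκ : ∀ y ∈ Z, y ∉ ({w} : Finset (E (k + 2))) → 0 < ‖y‖ ^ 2 / 2 - inner ℝ y c :=
    fun y hy hyS => by
      have := fl_strict hZ hF hc2 hy hyS
      linarith
  obtain ⟨bb, hbb⟩ : ∃ bb : E (k + 2) → E (k + 1), ∀ y v,
      inner ℝ (bb y) v = (‖y‖ ^ 2 / 2 - inner ℝ y c)⁻¹ * inner ℝ y (J v) := by
    refine ⟨fun y => (‖y‖ ^ 2 / 2 - inner ℝ y c)⁻¹ •
      (ContinuousLinearMap.adjoint J.toContinuousLinearMap y), fun y v => ?_⟩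
    rw [real_inner_smul_left, ContinuousLinearMap.adjoint_inner_left]
    rfl
  obtain ⟨B, hB⟩ : ∃ B : Finset (E (k + 1)),
    B = (Z.filter (fun y => y ∉ ({w} : Finset (E (k + 2))))).image bb := ⟨_, rfl⟩
  have hdom : ∀ u : E (k + 1), (∀ b' ∈ B, inner ℝ u b' ≤ 1) ↔
      ∀ y ∈ Z, inner ℝ y (c + J u) ≤ ‖y‖ ^ 2 / 2 := by
    intro u
    rw [hB]
    constructor
    · intro h y hy
      rw [inner_add_right]
      by_cases hyS : y ∈ ({w} : Finset (E (k + 2)))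
      · rw [hF.mid y hyS, hF.orthS y hyS, add_zero]
      · have h1 := h (bb y) (Finset.mem_image_of_mem _ (Finset.mem_filter.2 ⟨hy, hyS⟩))
        rw [real_inner_comm, hbb] at h1
        have h2 := hκ y hy hyS
        rw [inv_mul_le_iff₀ h2, mul_one] at h1
        linarith
    · intro h b' hb'
      obtain ⟨y, hy, rfl⟩ := Finset.mem_image.1 hb'
      obtain ⟨hy, hyS⟩ := Finset.mem_filter.1 hy
      have h1 := h y hy
      rw [inner_add_right] at h1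
      rw [real_inner_comm, hbb, inv_mul_le_iff₀ (hκ y hy hyS), mul_one]
      linarith
  have hset0 : {v : E (k + 1) | ∀ y ∈ Z, inner ℝ y (c + J v) ≤ ‖y‖ ^ 2 / 2} = QS B := by
    ext v
    exact (hdom v).symm
  rw [hset0]
  refine level_step B (fn_integrable (by omega) h1) (Real.sqrt_nonneg (R - h)) ?_ ?_
  · intro s hs hs1
    have hRs : R ≤ h + s ^ 2 := by
      have h3 := (Real.sqrt_le_left hs1.le).1 hs
      linarith
    have h4 := fn_ray (m := k + 1) (by omega) h1 h2 hR1 hR2 (by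
      push_cast
      rw [add_sub_cancel_right]
      exact hR) hs1 hRs
    exact h4
  · intro b hbB hb1 J' hJ'
    obtain ⟨s₀, hs₀⟩ : ∃ s₀ : ℝ, s₀ = √(R - h) := ⟨_, rfl⟩
    rw [← hs₀] at hb1 ⊢
    have hs0pos : 0 < s₀ := by
      have h3 : 0 ≤ s₀ := by rw [hs₀]; exact Real.sqrt_nonneg _
      rcases h3.lt_or_eq with h4 | h4
      · exact h4
      · rw [← h4, zero_mul] at hb1
        linarith
    have hRh : 0 < R - h := by
      rw [hs₀] at hs0pos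
      exact Real.sqrt_pos.1 hs0pos
    have hs0sq : s₀ ^ 2 = R - h := by rw [hs₀]; exact Real.sq_sqrt hRh.le
    rw [hB] at hbB
    obtain ⟨y, hy, rfl⟩ := Finset.mem_image.1 hbB
    obtain ⟨hy, hyS⟩ := Finset.mem_filter.1 hy
    have hb0 : bb y ≠ 0 := by
      intro h0
      rw [h0, norm_zero, mul_zero] at hb1
      linarith
    have hbn : 0 < ‖bb y‖ := norm_pos_iff.2 hb0
    have hκy := hκ y hy hyS
    obtain ⟨hfl, hnorm⟩ := fl_step hF hy hyS hb0 (fun v => by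
      rw [hbb, mul_right_comm, inv_mul_cancel₀ hκy.ne', one_mul]) hJ'
    rw [hcn] at hnorm
    have hlt : 1 / ‖bb y‖ ^ 2 < s₀ ^ 2 := by
      rw [div_lt_iff₀ (by positivity), ← mul_pow]
      exact one_lt_pow₀ hb1 (by norm_num)
    have hpos : 0 < 1 / ‖bb y‖ ^ 2 := by positivity
    have h5 := hN Z _ _ _ h hZ hfl h1 (by rw [hnorm]; linarith) (by rw [hnorm]; linarith)
    have hE : FI Z (c + J ((1 / ‖bb y‖ ^ 2) • bb y)) (J.comp J') R (F2 (k + 1) h)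
      = ∫ v in {v : E k | 1 / ‖bb y‖ ^ 2 + ‖v‖ ^ 2 < s₀ ^ 2 ∧
          ∀ b' ∈ B, inner ℝ ((1 / ‖bb y‖ ^ 2) • bb y + J' v) b' ≤ 1},
        ∫ τ in (0 : ℝ)..1, fn (k + 1) h (τ ^ 2 * (1 / ‖bb y‖ ^ 2 + ‖v‖ ^ 2)) * τ ^ k := by
      unfold FI
      have hset : {v : E k | ‖c + J ((1 / ‖bb y‖ ^ 2) • bb y)‖ ^ 2 + ‖v‖ ^ 2 < R ∧
          ∀ y_1 ∈ Z, inner ℝ y_1 (c + J ((1 / ‖bb y‖ ^ 2) • bb y) + (J.comp J') v)
            ≤ ‖y_1‖ ^ 2 / 2}
          = {v : E k | 1 / ‖bb y‖ ^ 2 + ‖v‖ ^ 2 < s₀ ^ 2 ∧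
          ∀ b' ∈ B, inner ℝ ((1 / ‖bb y‖ ^ 2) • bb y + J' v) b' ≤ 1} := by
        ext v
        have hJJ : c + J ((1 / ‖bb y‖ ^ 2) • bb y) + (J.comp J') v
            = c + J ((1 / ‖bb y‖ ^ 2) • bb y + J' v) := by
          rw [map_add, add_assoc]
          rfl
        constructor
        · rintro ⟨h1, h2⟩
          rw [hnorm] at h1
          rw [hJJ] at h2
          exact ⟨by linarith, (hdom _).2 h2⟩
        · rintro ⟨h1, h2⟩
          refine ⟨by rw [hnorm]; linarith, ?_⟩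
          rw [hJJ]
          exact (hdom _).1 h2
      rw [hset]
      refine setIntegral_congr_fun (FaceAux.meas_dom B _ _ _ _) (fun v hv => ?_)
      show F2 (k + 1) h (‖c + J ((1 / ‖bb y‖ ^ 2) • bb y)‖ ^ 2 + ‖v‖ ^ 2)
        = ∫ τ in (0 : ℝ)..1, fn (k + 1) h (τ ^ 2 * (1 / ‖bb y‖ ^ 2 + ‖v‖ ^ 2)) * τ ^ k
      unfold F2
      refine intervalIntegral.integral_congr (fun τ hτ => ?_)
      rw [Set.uIcc_of_le (by norm_num : (0 : ℝ) ≤ 1)] at hτ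
      have hv1 : 1 / ‖bb y‖ ^ 2 + ‖v‖ ^ 2 < s₀ ^ 2 := hv.1
      have h0 : 0 ≤ 1 / ‖bb y‖ ^ 2 + ‖v‖ ^ 2 := by positivity
      have hτ2 : τ ^ 2 ≤ 1 := pow_le_one₀ hτ.1 hτ.2
      have hlt2 : τ ^ 2 * (1 / ‖bb y‖ ^ 2 + ‖v‖ ^ 2) < s₀ ^ 2 := by nlinarith
      have e1 : h + τ ^ 2 * (‖c + J ((1 / ‖bb y‖ ^ 2) • bb y)‖ ^ 2 + ‖v‖ ^ 2 - h)
          = h + τ ^ 2 * (1 / ‖bb y‖ ^ 2 + ‖v‖ ^ 2) := by
        rw [hnorm]
        ring
      show (1 - AA (k + 1) * (h + τ ^ 2 * (‖c + J ((1 / ‖bb y‖ ^ 2) • bb y)‖ ^ 2 + ‖v‖ ^ 2 - h)) ^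
          (-((((k + 1 : ℕ) : ℝ) + 1) / 2))) * τ ^ (k + 1 - 1)
        = fn (k + 1) h (τ ^ 2 * (1 / ‖bb y‖ ^ 2 + ‖v‖ ^ 2)) * τ ^ k
      rw [e1, FaceAux.fn_eq h1 (by linarith), Nat.add_sub_cancel]
    rw [← hE]
    exact h5

end

end Pool.Agent.SausN
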