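import Pool.Agent.Lib.MP_5a9905_co_NC.Defs

set_option autoImplicit false

open MeasureTheory Finset

namespace Pool.Agent.SausN

open Pool.Agent.Saus (E kap Loc Vor)

noncomputable section

namespace LayA

lemma rpow_scale {m : ℕ} {a b c : ℝ} (ha : 0 < a) (hb : 0 < b) (hc : 0 < c) :
    (a * b / c ^ 2) ^ (-(((m : ℝ) + 1) / 2))
      = a ^ (-(((m : ℝ) + 1) / 2)) * b ^ (-(((m : ℝ) + 1) / 2)) * c ^ (m + 1) := by
  rw [Real.div_rpow (by positivity) (by positivity), Real.mul_rpow ha.le hb.le]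
  have h1 : (c ^ 2 : ℝ) ^ (-(((m : ℝ) + 1) / 2)) = (c ^ (m + 1))⁻¹ := by
    rw [← Real.rpow_natCast c 2, ← Real.rpow_mul hc.le, ← Real.rpow_natCast c (m + 1),
      ← Real.rpow_neg hc.le]
    congr 1
    push_cast
    ring
  rw [h1, div_inv_eq_mul]

lemma rpow_collect {m : ℕ} {a : ℝ} (ha : 0 < a) :
    a ^ (((m : ℝ) - 1) / 2) * a ^ (-(((m : ℝ) + 1) / 2)) * a = 1 := by
  rw [← Real.rpow_add ha]
  nth_rewrite 2 [← Real.rpow_one a]
  rw [← Real.rpow_add ha]
  have : ((m : ℝ) - 1) / 2 + -(((m : ℝ) + 1) / 2) + 1 = 0 := by ring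
  rw [this, Real.rpow_zero]

lemma one_add_sq {ξ η : ℝ} (h : 1 - ξ * η ≠ 0) :
    1 + ((ξ + η) / (1 - ξ * η)) ^ 2 = (1 + ξ ^ 2) * (1 + η ^ 2) / (1 - ξ * η) ^ 2 := by
  field_simp
  ring

end LayA

/-- C0 LAYA. The inner substitution. -/
theorem layer_inner {m : ℕ} (hm : 1 ≤ m) {ξ τ : ℝ} (hξ0 : 0 < ξ) (hξ1 : ξ < 1) (hτ : 0 ≤ τ)
    (hτ1 : τ < 1) :
    (((m : ℝ) + 1) * ξ * (1 + ξ ^ 2) ^ (((m : ℝ) - 1) / 2)) *
        ∫ x in ξ..((ξ + τ) / (1 - ξ * τ)), wt m x
      = ((m : ℝ) + 1) * ∫ η in (0 : ℝ)..τ, wt m η * (ξ * (1 - ξ * η) ^ (m - 1)) := by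
  have hpos : ∀ η ∈ Set.uIcc (0 : ℝ) τ, 0 < 1 - ξ * η := by
    intro η hη
    rw [Set.uIcc_of_le hτ] at hη
    nlinarith [hη.1, hη.2]
  have hd : ∀ η ∈ Set.uIcc (0 : ℝ) τ,
      HasDerivAt (fun η => (ξ + η) / (1 - ξ * η)) ((1 + ξ ^ 2) / (1 - ξ * η) ^ 2) η := by
    intro η hη
    have h0 := hpos η hη
    have h1 : HasDerivAt (fun η : ℝ => ξ + η) 1 η := by
      simpa using (hasDerivAt_id η).const_add ξ
    have h2 : HasDerivAt (fun η : ℝ => 1 - ξ * η) (-ξ) η := by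
      have := ((hasDerivAt_id η).const_mul ξ).const_sub 1
      simpa using this
    have h3 := h1.div h2 h0.ne'
    refine h3.congr_deriv ?_
    congr 1
    ring
  have hc : ContinuousOn (fun η : ℝ => (1 + ξ ^ 2) / (1 - ξ * η) ^ 2) (Set.uIcc (0 : ℝ) τ) := by
    apply ContinuousOn.div
    · fun_prop
    · fun_prop
    · intro η hη
      have := hpos η hη
      positivity
  have hw : ContinuousOn (wt m) ((fun η => (ξ + η) / (1 - ξ * η)) '' Set.uIcc (0 : ℝ) τ) := by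
    apply Continuous.continuousOn
    unfold wt
    apply Continuous.rpow_const (by fun_prop)
    intro x
    left
    positivity
  have key := intervalIntegral.integral_comp_mul_deriv' hd hc hw
  simp only [add_zero, mul_zero, sub_zero, div_one] at key
  rw [← key, ← intervalIntegral.integral_const_mul, ← intervalIntegral.integral_const_mul]
  apply intervalIntegral.integral_congr
  intro η hη
  have h0 := hpos η hη
  simp only [Function.comp]
  unfold wt
  rw [LayA.one_add_sq h0.ne', LayA.rpow_scale (by positivity) (by positivity) h0]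
  have hcol := LayA.rpow_collect (m := m) (a := 1 + ξ ^ 2) (by positivity)
  have hp : (1 - ξ * η) ^ (m + 1) = (1 - ξ * η) ^ (m - 1) * (1 - ξ * η) ^ 2 := by
    rw [← pow_add]
    congr 1
    omega
  rw [hp]
  field_simp
  linear_combination hcol

end

end Pool.Agent.SausN
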