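import Pool.Agent.Lib.MP_5a9905_co_NC.Defs
import Pool.Agent.Lib.MP_5a9905_co_NC.LayerA
import Pool.Agent.Lib.MP_5a9905_co_NC.KapN

set_option autoImplicit false

open MeasureTheory Finset

namespace Pool.Agent.SausN

open Pool.Agent.Saus (E kap Loc Vor)

noncomputable section

namespace LayerAux

/-- the density of the layers -/
def DD (m : ℕ) (ξ : ℝ) : ℝ := ((m : ℝ) + 1) * ξ * (1 + ξ ^ 2) ^ (((m : ℝ) - 1) / 2)

/-- the integrand of the double integral -/
def FF (m : ℕ) (τ : ℝ) (q : ℝ × ℝ) : ℝ :=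
  Set.indicator {q : ℝ × ℝ | q.2 < q.1 ∧ q.1 * (1 - q.2 * τ) < q.2 + τ}
    (fun q => DD m q.2 * wt m q.1) q

theorem DD_cont (m : ℕ) : Continuous (DD m) := by
  unfold DD
  refine Continuous.mul (by fun_prop) ?_
  refine Continuous.rpow_const (by fun_prop) fun x => Or.inl ?_
  positivity

theorem wt_cont (m : ℕ) : Continuous (wt m) := by
  unfold wt
  refine Continuous.rpow_const (by fun_prop) fun x => Or.inl ?_
  positivity

theorem DD_int (m : ℕ) (l u : ℝ) :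
    ∫ ξ in l..u, DD m ξ = (1 + u ^ 2) ^ (((m : ℝ) + 1) / 2) - (1 + l ^ 2) ^ (((m : ℝ) + 1) / 2) := by
  apply intervalIntegral.integral_eq_sub_of_hasDerivAt
  · intro x _
    have h1 : HasDerivAt (fun x : ℝ => 1 + x ^ 2) (2 * x) x := by
      simpa using (hasDerivAt_pow 2 x).const_add 1
    have h2 := h1.rpow_const (p := ((m : ℝ) + 1) / 2) (Or.inl (by positivity))
    have h3 : 2 * x * (((m : ℝ) + 1) / 2) * (1 + x ^ 2) ^ (((m : ℝ) + 1) / 2 - 1) = DD m x := by
      unfold DD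
      have : ((m : ℝ) + 1) / 2 - 1 = ((m : ℝ) - 1) / 2 := by ring
      rw [this]; ring
    rw [h3] at h2
    exact h2
  · exact (DD_cont m).intervalIntegrable _ _

theorem set_meas (τ : ℝ) :
    MeasurableSet {q : ℝ × ℝ | q.2 < q.1 ∧ q.1 * (1 - q.2 * τ) < q.2 + τ} := by
  apply MeasurableSet.inter
  · exact measurableSet_lt measurable_snd measurable_fst
  · exact measurableSet_lt (f := fun q : ℝ × ℝ => q.1 * (1 - q.2 * τ))
      (g := fun q : ℝ × ℝ => q.2 + τ) (by fun_prop) (by fun_prop)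

theorem FF_int (m : ℕ) (τ a b : ℝ) :
    Integrable (FF m τ) ((volume.restrict (Set.Ioc a b)).prod (volume.restrict (Set.Ioo a 1))) := by
  have h1 : Integrable (fun q : ℝ × ℝ => DD m q.2 * wt m q.1)
      ((volume.restrict (Set.Ioc a b)).prod (volume.restrict (Set.Ioo a 1))) := by
    rw [Measure.prod_restrict]
    have h2 : IntegrableOn (fun q : ℝ × ℝ => DD m q.2 * wt m q.1)
        (Set.Icc a b ×ˢ Set.Icc a 1) (volume.prod volume) := by
      apply ContinuousOn.integrableOn_compact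
      · exact isCompact_Icc.prod isCompact_Icc
      · exact (((DD_cont m).comp continuous_snd).mul ((wt_cont m).comp continuous_fst)).continuousOn
    exact h2.mono_set (Set.prod_mono Set.Ioc_subset_Icc_self Set.Ioo_subset_Icc_self)
  exact h1.indicator (set_meas τ)

/-- `1 + σ²` -/
theorem one_add_sigma {x τ : ℝ} (h : 0 < 1 + x * τ) :
    (1 + x ^ 2) * (1 + τ ^ 2) / (1 + x * τ) ^ 2 = 1 + ((x - τ) / (1 + x * τ)) ^ 2 := by
  field_simp
  ring

theorem g_eq {m : ℕ} {a τ x : ℝ} (ha0 : 0 < a) (ha1 : a < 1) (hτ : 0 ≤ τ) (hτa : τ ≤ a)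
    (hA : (1 + a ^ 2) ^ (((m : ℝ) + 1) / 2) = AA m) (hx : a < x)
    (hxb : x ≤ (1 + τ) / (1 - τ)) :
    qq m x - max (AA m) (pp m τ x) =
      (1 + (min 1 x) ^ 2) ^ (((m : ℝ) + 1) / 2) -
        (1 + (max a ((x - τ) / (1 + x * τ))) ^ 2) ^ (((m : ℝ) + 1) / 2) := by
  have hτ1 : τ < 1 := by linarith
  have hx0 : 0 < x := by linarith
  have hpos : 0 < 1 + x * τ := by positivity
  have hp : (0 : ℝ) ≤ ((m : ℝ) + 1) / 2 := by positivity
  have hσ0 : 0 ≤ (x - τ) / (1 + x * τ) := div_nonneg (by linarith) hpos.le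
  have hσ1 : (x - τ) / (1 + x * τ) ≤ 1 := by
    rw [div_le_one hpos]
    rw [le_div_iff₀ (by linarith)] at hxb
    linarith
  have h1 : qq m x = (1 + (min 1 x) ^ 2) ^ (((m : ℝ) + 1) / 2) := by
    unfold qq
    congr 1
    rcases le_total x 1 with h | h
    · rw [min_eq_right h, min_eq_right]
      nlinarith
    · rw [min_eq_left h, min_eq_left]
      · norm_num
      · nlinarith
  have h2 : pp m τ x = (1 + ((x - τ) / (1 + x * τ)) ^ 2) ^ (((m : ℝ) + 1) / 2) := by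
    unfold pp
    rw [one_add_sigma hpos, min_eq_right]
    nlinarith
  rw [h1, h2, ← hA]
  congr 1
  rcases le_total a ((x - τ) / (1 + x * τ)) with h | h
  · rw [max_eq_right h, max_eq_right]
    apply Real.rpow_le_rpow (by positivity) _ hp
    nlinarith
  · rw [max_eq_left h, max_eq_left]
    apply Real.rpow_le_rpow (by positivity) _ hp
    nlinarith

theorem g_zero {m : ℕ} {a τ x : ℝ} (ha0 : 0 < a) (ha1 : a < 1) (hτ : 0 ≤ τ) (hτa : τ ≤ a)
    (hA : (1 + a ^ 2) ^ (((m : ℝ) + 1) / 2) = AA m)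
    (hxb : (1 + τ) / (1 - τ) < x) :
    qq m x - max (AA m) (pp m τ x) = 0 := by
  have hτ1 : τ < 1 := by linarith
  have hb1 : 1 ≤ (1 + τ) / (1 - τ) := by
    rw [le_div_iff₀ (by linarith)]; linarith
  have hx1 : 1 < x := by linarith
  have hpos : 0 < 1 + x * τ := by positivity
  have hp : (0 : ℝ) ≤ ((m : ℝ) + 1) / 2 := by positivity
  have hσ1 : 1 < (x - τ) / (1 + x * τ) := by
    rw [lt_div_iff₀ hpos]
    rw [div_lt_iff₀ (by linarith)] at hxb
    linarith
  have h1 : qq m x = 2 ^ (((m : ℝ) + 1) / 2) := by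
    unfold qq
    congr 1
    rw [min_eq_left]
    nlinarith
  have h2 : pp m τ x = 2 ^ (((m : ℝ) + 1) / 2) := by
    unfold pp
    rw [one_add_sigma hpos, min_eq_left]
    nlinarith
  rw [h1, h2, ← hA, max_eq_right]
  · ring
  · apply Real.rpow_le_rpow (by positivity) _ hp
    nlinarith

/-- inner integral over the layers -/
theorem inner_xi {m : ℕ} {a τ x : ℝ} (ha0 : 0 < a) (ha1 : a < 1) (hτ : 0 ≤ τ) (hτa : τ ≤ a)
    (hA : (1 + a ^ 2) ^ (((m : ℝ) + 1) / 2) = AA m) (hx : a < x)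
    (hxb : x ≤ (1 + τ) / (1 - τ)) :
    ∫ ξ in Set.Ioo a 1, FF m τ (x, ξ) = (qq m x - max (AA m) (pp m τ x)) * wt m x := by
  have hτ1 : τ < 1 := by linarith
  have hx0 : 0 < x := by linarith
  have hpos : 0 < 1 + x * τ := by positivity
  have hσ1 : (x - τ) / (1 + x * τ) ≤ 1 := by
    rw [div_le_one hpos]
    rw [le_div_iff₀ (by linarith)] at hxb
    linarith
  have hσx : (x - τ) / (1 + x * τ) ≤ x := by
    rw [div_le_iff₀ hpos]
    nlinarith [mul_nonneg (mul_nonneg hx0.le hx0.le) hτ]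
  set l := max a ((x - τ) / (1 + x * τ)) with hl
  set u := min 1 x with hu
  have hlu : l ≤ u := by
    rw [hl, hu]
    exact max_le (le_min ha1.le hx.le) (le_min hσ1 hσx)
  have hset : Set.Ioo a 1 ∩ {ξ : ℝ | ξ < x ∧ x * (1 - ξ * τ) < ξ + τ} = Set.Ioo l u := by
    ext ξ
    simp only [Set.mem_inter_iff, Set.mem_Ioo, Set.mem_ofPred_eq, hl, hu, max_lt_iff, lt_min_iff]
    have hiff : x * (1 - ξ * τ) < ξ + τ ↔ (x - τ) / (1 + x * τ) < ξ := by
      rw [div_lt_iff₀ hpos]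
      constructor <;> intro h <;> nlinarith
    rw [hiff]
    tauto
  have hfun : ∀ ξ, FF m τ (x, ξ) =
      Set.indicator {ξ : ℝ | ξ < x ∧ x * (1 - ξ * τ) < ξ + τ} (fun ξ => DD m ξ * wt m x) ξ := by
    intro ξ
    unfold FF
    by_cases h : ξ < x ∧ x * (1 - ξ * τ) < ξ + τ
    · rw [Set.indicator_of_mem (by exact h), Set.indicator_of_mem (by exact h)]
    · rw [Set.indicator_of_notMem (by exact h), Set.indicator_of_notMem (by exact h)]
  have hm2 : MeasurableSet {ξ : ℝ | ξ < x ∧ x * (1 - ξ * τ) < ξ + τ} := by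
    apply MeasurableSet.inter
    · exact measurableSet_lt measurable_id measurable_const
    · exact measurableSet_lt (f := fun ξ : ℝ => x * (1 - ξ * τ))
        (g := fun ξ : ℝ => ξ + τ) (by fun_prop) (by fun_prop)
  simp_rw [hfun]
  rw [setIntegral_indicator hm2, hset, ← integral_Ioc_eq_integral_Ioo,
    ← intervalIntegral.integral_of_le hlu, intervalIntegral.integral_mul_const, DD_int,
    g_eq ha0 ha1 hτ hτa hA hx hxb]

/-- inner integral over the directions -/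
theorem inner_x {m : ℕ} {a τ ξ : ℝ} (ha0 : 0 < a) (ha1 : a < 1) (hτ : 0 ≤ τ) (hτa : τ ≤ a)
    (hξ : ξ ∈ Set.Ioo a 1) :
    ∫ x in Set.Ioc a ((1 + τ) / (1 - τ)), FF m τ (x, ξ) =
      DD m ξ * ∫ x in ξ..((ξ + τ) / (1 - ξ * τ)), wt m x := by
  have hτ1 : τ < 1 := by linarith
  have hξ0 : 0 < ξ := by linarith [hξ.1]
  have hpos : 0 < 1 - ξ * τ := by nlinarith [hξ.2]
  have hle : ξ ≤ (ξ + τ) / (1 - ξ * τ) := by
    rw [le_div_iff₀ hpos]
    nlinarith [mul_nonneg (mul_nonneg hξ0.le hξ0.le) hτ]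
  have hXb : (ξ + τ) / (1 - ξ * τ) ≤ (1 + τ) / (1 - τ) := by
    rw [div_le_div_iff₀ hpos (by linarith)]
    nlinarith [hξ.2, mul_nonneg hτ hτ]
  have hset : Set.Ioc a ((1 + τ) / (1 - τ)) ∩ {x : ℝ | ξ < x ∧ x * (1 - ξ * τ) < ξ + τ} =
      Set.Ioo ξ ((ξ + τ) / (1 - ξ * τ)) := by
    ext x
    simp only [Set.mem_inter_iff, Set.mem_Ioo, Set.mem_Ioc, Set.mem_ofPred_eq]
    rw [← lt_div_iff₀ hpos]
    constructor
    · rintro ⟨-, h1, h2⟩
      exact ⟨h1, h2⟩
    · rintro ⟨h1, h2⟩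
      exact ⟨⟨hξ.1.trans h1, (h2.trans_le hXb).le⟩, h1, h2⟩
  have hfun : ∀ x, FF m τ (x, ξ) =
      Set.indicator {x : ℝ | ξ < x ∧ x * (1 - ξ * τ) < ξ + τ} (fun x => DD m ξ * wt m x) x := by
    intro x
    unfold FF
    by_cases h : ξ < x ∧ x * (1 - ξ * τ) < ξ + τ
    · rw [Set.indicator_of_mem (by exact h), Set.indicator_of_mem (by exact h)]
    · rw [Set.indicator_of_notMem (by exact h), Set.indicator_of_notMem (by exact h)]
  have hm2 : MeasurableSet {x : ℝ | ξ < x ∧ x * (1 - ξ * τ) < ξ + τ} := by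
    apply MeasurableSet.inter
    · exact measurableSet_lt measurable_const measurable_id
    · exact measurableSet_lt (f := fun x : ℝ => x * (1 - ξ * τ))
        (g := fun _ : ℝ => ξ + τ) (by fun_prop) (by fun_prop)
  simp_rw [hfun]
  rw [setIntegral_indicator hm2, hset, ← integral_Ioc_eq_integral_Ioo,
    ← intervalIntegral.integral_of_le hle, intervalIntegral.integral_const_mul]

/-- the last exchange of integrals -/
theorem last_swap {m : ℕ} {a τ : ℝ} (ha1 : a < 1) (hτ : 0 ≤ τ) :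
    ∫ ξ in Set.Ioo a 1, ((m : ℝ) + 1) * ∫ η in (0 : ℝ)..τ, wt m η * (ξ * (1 - ξ * η) ^ (m - 1)) =
      ∫ η in (0 : ℝ)..τ, wt m η * Pf m a η := by
  have hc : Continuous fun q : ℝ × ℝ => wt m q.2 * (q.1 * (1 - q.1 * q.2) ^ (m - 1)) := by
    refine ((wt_cont m).comp continuous_snd).mul (by fun_prop)
  have hint : Integrable (Function.uncurry fun ξ η : ℝ => wt m η * (ξ * (1 - ξ * η) ^ (m - 1)))
      ((volume.restrict (Set.Ioc a 1)).prod (volume.restrict (Set.Ioc 0 τ))) := by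
    rw [Measure.prod_restrict]
    have h2 : IntegrableOn (fun q : ℝ × ℝ => wt m q.2 * (q.1 * (1 - q.1 * q.2) ^ (m - 1)))
        (Set.Icc a 1 ×ˢ Set.Icc 0 τ) (volume.prod volume) :=
      ContinuousOn.integrableOn_compact (isCompact_Icc.prod isCompact_Icc) hc.continuousOn
    exact h2.mono_set (Set.prod_mono Set.Ioc_subset_Icc_self Set.Ioc_subset_Icc_self)
  rw [← integral_Ioc_eq_integral_Ioo, integral_const_mul]
  simp_rw [intervalIntegral.integral_of_le hτ]
  rw [integral_integral_swap hint, ← integral_const_mul]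
  apply integral_congr_ae
  filter_upwards with η
  unfold Pf
  rw [intervalIntegral.integral_of_le ha1.le, integral_const_mul]
  ring

end LayerAux

open LayerAux in
theorem layer {m : ℕ} (hm : 1 ≤ m) {a τ : ℝ} (ha0 : 0 < a) (ha1 : a < 1) (hτ : 0 ≤ τ)
    (hτa : τ ≤ a) (hA : (1 + a ^ 2) ^ (((m : ℝ) + 1) / 2) = AA m) :
    IntegrableOn (fun x => (qq m x - max (AA m) (pp m τ x)) * wt m x) (Set.Ioi a) ∧
    ∫ η in (0 : ℝ)..τ, wt m η * Pf m a η
      ≤ ∫ x in Set.Ioi a, (qq m x - max (AA m) (pp m τ x)) * wt m x := by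
  have hτ1 : τ < 1 := by linarith
  set b := (1 + τ) / (1 - τ) with hb
  have hb1 : 1 ≤ b := by rw [hb, le_div_iff₀ (by linarith)]; linarith
  have hab : a ≤ b := by linarith
  have hF := FF_int m τ a b
  have hx : ∀ x ∈ Set.Ioc a b, ∫ ξ in Set.Ioo a 1, FF m τ (x, ξ) =
      (qq m x - max (AA m) (pp m τ x)) * wt m x :=
    fun x hx => inner_xi ha0 ha1 hτ hτa hA hx.1 hx.2
  have hI1 : IntegrableOn (fun x => (qq m x - max (AA m) (pp m τ x)) * wt m x) (Set.Ioc a b) := by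
    have h1 : IntegrableOn (fun x => ∫ ξ in Set.Ioo a 1, FF m τ (x, ξ)) (Set.Ioc a b) :=
      hF.integral_prod_left
    exact h1.congr_fun hx measurableSet_Ioc
  have hz : ∀ x ∈ Set.Ioi b, (qq m x - max (AA m) (pp m τ x)) * wt m x = 0 := by
    intro x hx
    rw [g_zero ha0 ha1 hτ hτa hA hx, zero_mul]
  have hI2 : IntegrableOn (fun x => (qq m x - max (AA m) (pp m τ x)) * wt m x) (Set.Ioi b) := by
    have h1 : IntegrableOn (fun _ : ℝ => (0 : ℝ)) (Set.Ioi b) := integrableOn_zero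
    exact h1.congr_fun (fun x hx => (hz x hx).symm) measurableSet_Ioi
  have hU : Set.Ioc a b ∪ Set.Ioi b = Set.Ioi a := Set.Ioc_union_Ioi_eq_Ioi hab
  refine ⟨by rw [← hU]; exact hI1.union hI2, ?_⟩
  rw [← hU, setIntegral_union Set.Ioc_disjoint_Ioi_same measurableSet_Ioi hI1 hI2,
    setIntegral_congr_fun measurableSet_Ioi hz, ← setIntegral_congr_fun measurableSet_Ioc hx]
  simp only [integral_zero, add_zero]
  have hswap : ∫ x in Set.Ioc a b, ∫ ξ in Set.Ioo a 1, FF m τ (x, ξ) =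
      ∫ ξ in Set.Ioo a 1, ∫ x in Set.Ioc a b, FF m τ (x, ξ) :=
    integral_integral_swap (f := fun x ξ => FF m τ (x, ξ)) hF
  rw [hswap, ← last_swap ha1 hτ]
  apply le_of_eq
  apply setIntegral_congr_fun measurableSet_Ioo
  intro ξ hξ
  have h1 := layer_inner hm (show 0 < ξ by linarith [hξ.1]) hξ.2 hτ hτ1
  show ((m : ℝ) + 1) * ∫ η in (0 : ℝ)..τ, wt m η * (ξ * (1 - ξ * η) ^ (m - 1)) =
    ∫ x in Set.Ioc a b, FF m τ (x, ξ)
  rw [← h1, inner_x ha0 ha1 hτ hτa hξ]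
  rfl

end

end Pool.Agent.SausN
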