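import Pool.Agent.Lib.MP_5a9905_co_NC.Defs
import Pool.Agent.Lib.MP_5a9905_co_NC.Layer
import Pool.Agent.Lib.MP_5a9905_co_NC.Abel
import Pool.Agent.Lib.MP_5a9905_co_NC.KapN

set_option autoImplicit false

open MeasureTheory Finset

namespace Pool.Agent.SausN

open Pool.Agent.Saus (E kap Loc Vor)

noncomputable section

theorem Far1Aux.wt_pos (m : ℕ) (x : ℝ) : 0 < wt m x := by
  unfold wt
  positivity

theorem Far1Aux.wt_cont (m : ℕ) : Continuous (wt m) := by
  unfold wt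
  refine Continuous.rpow_const (by fun_prop) (fun x => Or.inl ?_)
  positivity

theorem Far1Aux.qq_small {m : ℕ} {x : ℝ} (hx : x ^ 2 ≤ 1) :
    qq m x = (1 + x ^ 2) ^ (((m : ℝ) + 1) / 2) := by
  unfold qq
  rw [min_eq_right (by linarith)]

theorem Far1Aux.qq_wt {m : ℕ} {x : ℝ} (hx : x ^ 2 ≤ 1) : qq m x * wt m x = 1 := by
  rw [Far1Aux.qq_small hx]
  unfold wt
  rw [← Real.rpow_add (by positivity)]
  simp

theorem Far1Aux.qq_le {m : ℕ} {x y : ℝ} (hx : 0 ≤ x) (hxy : x ≤ y) : qq m x ≤ qq m y := by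
  unfold qq
  refine Real.rpow_le_rpow (by positivity) (min_le_min_left _ ?_) (by positivity)
  have := pow_le_pow_left₀ hx hxy 2
  linarith

theorem far1d {m : ℕ} (hm : 1 ≤ m) (hF : FarNum m) {T : Set ℝ} (hT : IsClosed T) {g : ℝ → ℝ}
    (hg : IntegrableOn (fun x => g x * wt m x) (Set.Ioi 0))
    (h1 : ∀ x, 0 < x → x ∈ T → g x = qq m x - AA m) (h2 : ∀ x, 0 < x → x ∉ T → 0 ≤ g x)
    (h3 : ∀ τ ∈ T, 0 < τ → ∀ x, τ < x → x ∉ T → qq m x - pp m τ x ≤ g x) :
    0 ≤ ∫ x in Set.Ioi (0 : ℝ), g x * wt m x := by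
  obtain ⟨a, ha0, ha1, hA, hN⟩ := hF
  have ha2 : a ^ 2 ≤ 1 := pow_le_one₀ ha0.le ha1.le
  have hqa : qq m a = AA m := by rw [Far1Aux.qq_small ha2, hA]
  by_cases hE : ∀ x, 0 < x → x ≤ a → x ∉ T
  · refine setIntegral_nonneg measurableSet_Ioi (fun x hx => ?_)
    have hx0 : 0 < x := hx
    refine mul_nonneg ?_ (Far1Aux.wt_pos m x).le
    by_cases hxT : x ∈ T
    · rw [h1 x hx0 hxT]
      have hax : a ≤ x := by
        by_contra hlt
        exact hE x hx0 (by linarith) hxT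
      have := Far1Aux.qq_le (m := m) ha0.le hax
      linarith
    · exact h2 x hx0 hxT
  · push Not at hE
    obtain ⟨x₀, hx0, hx0a, hx0T⟩ := hE
    obtain ⟨τ, ⟨hτT, hτI⟩, hmax⟩ := (isCompact_Icc.inter_left hT : IsCompact (T ∩ Set.Icc 0 a)).exists_isGreatest
      ⟨x₀, hx0T, hx0.le, hx0a⟩
    have hτ0 : 0 < τ := lt_of_lt_of_le hx0 (hmax ⟨hx0T, hx0.le, hx0a⟩)
    have hτa : τ ≤ a := hτI.2
    obtain ⟨hLi, hL⟩ := layer hm ha0 ha1 hτ0.le hτa hA
    have hAb := abel hm ha0 ha1 hN hτ0.le hτa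
    have hs1 : Set.Ioi (0 : ℝ) = Set.Ioc 0 τ ∪ Set.Ioi τ := (Set.Ioc_union_Ioi_eq_Ioi hτ0.le).symm
    have hs2 : Set.Ioi τ = Set.Ioc τ a ∪ Set.Ioi a := (Set.Ioc_union_Ioi_eq_Ioi hτa).symm
    have hd1 : Disjoint (Set.Ioc (0 : ℝ) τ) (Set.Ioi τ) :=
      Set.disjoint_left.2 (fun x hx hx' => absurd hx.2 (not_le.2 hx'))
    have hd2 : Disjoint (Set.Ioc τ a) (Set.Ioi a) :=
      Set.disjoint_left.2 (fun x hx hx' => absurd hx.2 (not_le.2 hx'))
    have hg1 : IntegrableOn (fun x => g x * wt m x) (Set.Ioc 0 τ) :=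
      hg.mono_set (fun x hx => hx.1)
    have hg2 : IntegrableOn (fun x => g x * wt m x) (Set.Ioi τ) :=
      hg.mono_set (fun x hx => lt_trans hτ0 hx)
    have hg3 : IntegrableOn (fun x => g x * wt m x) (Set.Ioc τ a) :=
      hg.mono_set (fun x hx => lt_trans hτ0 hx.1)
    have hg4 : IntegrableOn (fun x => g x * wt m x) (Set.Ioi a) :=
      hg.mono_set (fun x hx => lt_trans ha0 hx)
    rw [hs1, setIntegral_union hd1 measurableSet_Ioi hg1 hg2, hs2,
      setIntegral_union hd2 measurableSet_Ioi hg3 hg4]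
    have hI1 : -(∫ η in (0 : ℝ)..τ, (AA m * wt m η - 1)) ≤ ∫ x in Set.Ioc 0 τ, g x * wt m x := by
      rw [← intervalIntegral.integral_neg, intervalIntegral.integral_of_le hτ0.le]
      refine setIntegral_mono_on ?_ hg1 measurableSet_Ioc (fun x hx => ?_)
      · have hc : Continuous fun η => -(AA m * wt m η - 1) :=
          ((continuous_const.mul (Far1Aux.wt_cont m)).sub continuous_const).neg
        exact (hc.integrableOn_Icc (a := (0 : ℝ)) (b := τ)).mono_set Set.Ioc_subset_Icc_self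
      · have hxa : x ≤ a := hx.2.trans hτa
        have hx1 : x ^ 2 ≤ 1 := pow_le_one₀ hx.1.le (hxa.trans ha1.le)
        have hq := Far1Aux.qq_wt (m := m) hx1
        by_cases hxT : x ∈ T
        · rw [h1 x hx.1 hxT]
          linarith
        · have hg0 := h2 x hx.1 hxT
          have hw := Far1Aux.wt_pos m x
          have hqle := Far1Aux.qq_le (m := m) hx.1.le hxa
          rw [hqa] at hqle
          nlinarith [mul_nonneg hg0 hw.le, mul_le_mul_of_nonneg_right hqle hw.le]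
    have hI2 : 0 ≤ ∫ x in Set.Ioc τ a, g x * wt m x := by
      refine setIntegral_nonneg measurableSet_Ioc (fun x hx => ?_)
      have hx0 : 0 < x := lt_trans hτ0 hx.1
      refine mul_nonneg (h2 x hx0 ?_) (Far1Aux.wt_pos m x).le
      intro hxT
      exact absurd (hmax ⟨hxT, hx0.le, hx.2⟩) (not_le.2 hx.1)
    have hI3 : ∫ x in Set.Ioi a, (qq m x - max (AA m) (pp m τ x)) * wt m x
        ≤ ∫ x in Set.Ioi a, g x * wt m x := by
      refine setIntegral_mono_on hLi hg4 measurableSet_Ioi (fun x hx => ?_)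
      have hx' : a < x := hx
      have hx0 : 0 < x := lt_trans ha0 hx'
      refine mul_le_mul_of_nonneg_right ?_ (Far1Aux.wt_pos m x).le
      by_cases hxT : x ∈ T
      · rw [h1 x hx0 hxT]
        have := le_max_left (AA m) (pp m τ x)
        linarith
      · have h := h3 τ hτT hτ0 x (lt_of_le_of_lt hτa hx') hxT
        have := le_max_right (AA m) (pp m τ x)
        linarith
    linarith

end

end Pool.Agent.SausN
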