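import Pool.Agent.Lib.MP_5a9905_co_NC.Defs
import Pool.Agent.Lib.MP_5a9905_co_NC.Jex
import Pool.Agent.Lib.MP_5a9905_co_NC.Ax
import Pool.Agent.Lib.MP_5a9905_co_NC.Far1
import Pool.Agent.Lib.MP_5a9905_co_NC.KapN

set_option autoImplicit false

open MeasureTheory Finset

namespace Pool.Agent.SausN

open Pool.Agent.Saus (E kap Loc Vor)

noncomputable section

namespace FarGAux

theorem meas_half {d : ℕ} (y : E d) : MeasurableSet {z : E d | 0 < inner ℝ y z} :=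
  measurableSet_lt measurable_const (by fun_prop)

theorem meas_Op {d : ℕ} (Y : Finset (E d)) : MeasurableSet (Op Y) := by
  have h : Op Y = ⋃ y ∈ Y, {z | 0 < inner ℝ y z} := by ext z; simp [Op]
  rw [h]
  exact Finset.measurableSet_biUnion _ (fun y _ => meas_half y)

theorem meas_Cy {d : ℕ} (y : E d) : MeasurableSet (Cy y) := by
  have h : Cy y = {z : E d | 0 < inner ℝ y z} ∩
      {z : E d | ‖y‖ ^ 2 * ‖z‖ ^ 2 ≤ (inner ℝ y z) ^ 2 + ‖y‖ ^ 2} := rfl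
  rw [h]
  exact (meas_half y).inter (measurableSet_le (by fun_prop) (by fun_prop))

theorem le_one_of {r S : ℝ} (hS : 0 < S) (h : r ^ 2 * S ≤ S) : r ≤ 1 := by
  have h1 : r ^ 2 ≤ 1 := by
    by_contra hc
    have hc' : 1 < r ^ 2 := not_le.1 hc
    nlinarith
  nlinarith

theorem meas_Vor {d : ℕ} (Z : Finset (E d)) : MeasurableSet (Vor Z) := by
  have h : Vor Z = ⋂ y ∈ Z, {z | inner ℝ y z ≤ ‖y‖ ^ 2 / 2} := by ext z; simp [Vor]
  rw [h]
  exact Finset.measurableSet_biInter _ (fun y _ => measurableSet_le (by fun_prop) measurable_const)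

/-- The region of the statement. -/
def W1 {d : ℕ} (Z Y : Finset (E d)) (w : E d) : Set (E d) :=
  {z | ‖z‖ ^ 2 ≤ 2 ∧ z ∈ Vor Z ∧ z ∈ Cy w ∧ ∀ y ∈ Y, z ∉ Cy y}

/-- The cone part. -/
def W2 {d : ℕ} (Y : Finset (E d)) (w : E d) : Set (E d) := (Ba d ∩ Op {w}) \ Op Y

theorem meas_W1 {d : ℕ} (Z Y : Finset (E d)) (w : E d) : MeasurableSet (W1 Z Y w) := by
  have h : W1 Z Y w = {z | ‖z‖ ^ 2 ≤ 2} ∩ (Vor Z ∩ (Cy w ∩ ⋂ y ∈ Y, (Cy y)ᶜ)) := by
    ext z; simp [W1]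
  rw [h]
  refine (measurableSet_le (by fun_prop) measurable_const).inter ((meas_Vor Z).inter
    ((meas_Cy w).inter ?_))
  exact Finset.measurableSet_biInter _ (fun y _ => (meas_Cy y).compl)

theorem meas_W2 {d : ℕ} (Y : Finset (E d)) (w : E d) : MeasurableSet (W2 Y w) :=
  (Metric.isClosed_closedBall.measurableSet.inter (meas_Op _)).diff (meas_Op _)

/-- The test function. -/
def gt {d : ℕ} (A : ℝ) (Z Y : Finset (E d)) (w : E d) (z : E d) : ℝ :=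
  (W1 Z Y w).indicator (fun _ => (1 : ℝ)) z - A * (W2 Y w).indicator (fun _ => (1 : ℝ)) z

theorem meas_gt {d : ℕ} (A : ℝ) (Z Y : Finset (E d)) (w : E d) : Measurable (gt A Z Y w) :=
  (measurable_const.indicator (meas_W1 Z Y w)).sub
    (measurable_const.mul (measurable_const.indicator (meas_W2 Y w)))

theorem ind_le {α : Type*} (s : Set α) (z : α) :
    0 ≤ s.indicator (fun _ => (1 : ℝ)) z ∧ s.indicator (fun _ => (1 : ℝ)) z ≤ 1 := by
  by_cases h : z ∈ s <;> simp [h]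

theorem gt_bound {d : ℕ} {A : ℝ} (hA : 0 ≤ A) (Z Y : Finset (E d)) (w : E d) (z : E d) :
    |gt A Z Y w z| ≤ 1 + A := by
  have h1 := ind_le (W1 Z Y w) z
  have h2 := ind_le (W2 Y w) z
  have h3 := mul_nonneg hA h2.1
  have h4 := mul_le_mul_of_nonneg_left h2.2 hA
  unfold gt
  rw [abs_le]
  constructor <;> linarith [h1.1, h1.2]

theorem gt_supp {d : ℕ} (A : ℝ) (Z Y : Finset (E d)) (w : E d) (z : E d) (hz : 2 < ‖z‖) :
    gt A Z Y w z = 0 := by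
  have h1 : z ∉ W1 Z Y w := by
    intro h
    have := h.1
    nlinarith
  have h2 : z ∉ W2 Y w := by
    intro h
    have h3 : ‖z‖ ≤ 1 := by simpa using h.1.1
    linarith
  simp [gt, h1, h2]

/-- `s ^ ((k+2)/2)`. -/
theorem rp (k : ℕ) {s : ℝ} (hs : 0 ≤ s) :
    s ^ ((((k + 1 : ℕ) : ℝ) + 1) / 2) = (√s) ^ (k + 2) := by
  rw [Real.sqrt_eq_rpow, ← Real.rpow_natCast, ← Real.rpow_mul hs]
  congr 1
  push_cast
  ring

theorem wt_eq (k : ℕ) (x : ℝ) : wt (k + 1) x = ((√(1 + x ^ 2)) ^ (k + 2))⁻¹ := by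
  have h : (0 : ℝ) ≤ 1 + x ^ 2 := by positivity
  unfold wt
  rw [Real.rpow_neg h, rp k h]

theorem qq_wt (k : ℕ) (x : ℝ) :
    qq (k + 1) x * wt (k + 1) x = (√(min 2 (1 + x ^ 2) / (1 + x ^ 2))) ^ (k + 2) := by
  have h : (0 : ℝ) ≤ 1 + x ^ 2 := by positivity
  have h2 : (0 : ℝ) ≤ min 2 (1 + x ^ 2) := by positivity
  unfold qq
  rw [wt_eq, rp k h2, Real.sqrt_div h2, div_pow]
  exact (div_eq_mul_inv _ _).symm

theorem pp_wt (k : ℕ) (τ x : ℝ) :
    pp (k + 1) τ x * wt (k + 1) x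
      = (√(min 2 ((1 + x ^ 2) * (1 + τ ^ 2) / (1 + x * τ) ^ 2) / (1 + x ^ 2))) ^ (k + 2) := by
  have h : (0 : ℝ) ≤ 1 + x ^ 2 := by positivity
  have h2 : (0 : ℝ) ≤ min 2 ((1 + x ^ 2) * (1 + τ ^ 2) / (1 + x * τ) ^ 2) := by positivity
  unfold pp
  rw [wt_eq, rp k h2, Real.sqrt_div h2, div_pow]
  exact (div_eq_mul_inv _ _).symm

theorem int_ind (k : ℕ) {R : ℝ} (hR : 0 ≤ R) :
    ∫ r in Set.Ioi (0 : ℝ), (Set.Ioc 0 R).indicator (fun r : ℝ => r ^ (k + 1)) r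
      = R ^ (k + 2) / ((k : ℝ) + 2) := by
  rw [setIntegral_indicator measurableSet_Ioc]
  have h : Set.Ioi (0 : ℝ) ∩ Set.Ioc 0 R = Set.Ioc 0 R := by
    ext r; simp only [Set.mem_inter_iff, Set.mem_Ioi, Set.mem_Ioc]; tauto
  rw [h, ← intervalIntegral.integral_of_le hR, integral_pow]
  push_cast
  rw [zero_pow (by omega)]
  ring_nf

theorem integrable_ind (k : ℕ) (a b : ℝ) :
    IntegrableOn ((Set.Ioc a b).indicator (fun r : ℝ => r ^ (k + 1))) (Set.Ioi 0) := by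
  have h : IntegrableOn (fun r : ℝ => r ^ (k + 1)) (Set.Ioc a b) :=
    (continuous_pow (k + 1)).integrableOn_Ioc
  exact ((integrable_indicator_iff measurableSet_Ioc).2 h).integrableOn

/-- Ray coordinates. -/
structure RayD {k : ℕ} (w u θ : E (k + 2)) : Prop where
  hw : w ≠ 0
  hu : w = ‖w‖ • u
  hun : ‖u‖ = 1
  hθ : ‖θ‖ = 1
  huθ : inner ℝ u θ = (0 : ℝ)

theorem RayD.norm_sq {k : ℕ} {w u θ : E (k + 2)} (h : RayD w u θ) (x : ℝ) :
    ‖x • u + θ‖ ^ 2 = 1 + x ^ 2 := by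
  rw [norm_add_sq_real, norm_smul, inner_smul_left, h.huθ, h.hun, h.hθ]
  simp
  ring

theorem RayD.inner_u {k : ℕ} {w u θ : E (k + 2)} (h : RayD w u θ) (x : ℝ) :
    inner ℝ u (x • u + θ) = x := by
  rw [inner_add_right, inner_smul_right, real_inner_self_eq_norm_sq, h.huθ, h.hun]
  ring

theorem RayD.inner_w {k : ℕ} {w u θ : E (k + 2)} (h : RayD w u θ) (x : ℝ) :
    inner ℝ w (x • u + θ) = ‖w‖ * x := by
  conv_lhs => rw [h.hu]
  rw [inner_smul_left, h.inner_u]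
  simp

theorem RayD.nw {k : ℕ} {w u θ : E (k + 2)} (h : RayD w u θ) : 0 < ‖w‖ := norm_pos_iff.2 h.hw

theorem norm_ray {d : ℕ} (r : ℝ) (v : E d) : ‖r • v‖ ^ 2 = r ^ 2 * ‖v‖ ^ 2 := by
  rw [norm_smul, mul_pow, Real.norm_eq_abs, sq_abs]

theorem RayD.mem_Cy {k : ℕ} {w u θ : E (k + 2)} (h : RayD w u θ) {x r : ℝ} (hx : 0 < x)
    (hr : 0 < r) : r • (x • u + θ) ∈ Cy w ↔ r ≤ 1 := by
  have hn := h.nw
  have e1 : inner ℝ w (r • (x • u + θ)) = r * (‖w‖ * x) := by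
    rw [inner_smul_right, h.inner_w]
  unfold Cy
  simp only [Set.mem_ofPred_eq]
  rw [e1, norm_ray, h.norm_sq]
  constructor
  · rintro ⟨_, h2⟩
    by_contra h3
    push Not at h3
    have h4 : 1 < r ^ 2 := by nlinarith
    have h5 : 0 < ‖w‖ ^ 2 := by positivity
    nlinarith
  · intro h2
    refine ⟨by positivity, ?_⟩
    have h4 : r ^ 2 ≤ 1 := by nlinarith
    have h5 : 0 ≤ ‖w‖ ^ 2 := by positivity
    nlinarith

/-- Directions in the normal cone. -/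
def TT {k : ℕ} (Y : Finset (E (k + 2))) (u θ : E (k + 2)) : Set ℝ :=
  {x | ∀ y ∈ Y, inner ℝ y (x • u + θ) ≤ 0}

theorem closed_TT {k : ℕ} (Y : Finset (E (k + 2))) (u θ : E (k + 2)) : IsClosed (TT Y u θ) := by
  have h : TT Y u θ = ⋂ y ∈ Y, {x : ℝ | inner ℝ y (x • u + θ) ≤ 0} := by ext z; simp [TT]
  rw [h]
  refine isClosed_biInter (fun y _ => ?_)
  exact isClosed_le (by fun_prop) continuous_const

theorem mem_W1_T {k : ℕ} {w u θ : E (k + 2)} (h : RayD w u θ) {Z Y : Finset (E (k + 2))}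
    (hZY : Z ⊆ Y) {x r : ℝ} (hx : 0 < x) (hr : 0 < r) (hT : x ∈ TT Y u θ) :
    r • (x • u + θ) ∈ W1 Z Y w ↔ r ^ 2 * (1 + x ^ 2) ≤ 2 ∧ r ≤ 1 := by
  have hy : ∀ y ∈ Y, inner ℝ y (r • (x • u + θ)) ≤ 0 := by
    intro y hy
    rw [inner_smul_right]
    exact mul_nonpos_of_nonneg_of_nonpos hr.le (hT y hy)
  unfold W1
  simp only [Set.mem_ofPred_eq]
  rw [norm_ray, h.norm_sq, h.mem_Cy hx hr]
  constructor
  · rintro ⟨h1, _, h2, _⟩
    exact ⟨h1, h2⟩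
  · rintro ⟨h1, h2⟩
    refine ⟨h1, ?_, h2, ?_⟩
    · intro y hyZ
      have := hy y (hZY hyZ)
      have h3 : 0 ≤ ‖y‖ ^ 2 / 2 := by positivity
      linarith
    · intro y hyY hc
      have := hy y hyY
      have := hc.1
      linarith

theorem mem_W2_T {k : ℕ} {w u θ : E (k + 2)} (h : RayD w u θ) {Y : Finset (E (k + 2))}
    {x r : ℝ} (hx : 0 < x) (hr : 0 < r) (hT : x ∈ TT Y u θ) :
    r • (x • u + θ) ∈ W2 Y w ↔ r ^ 2 * (1 + x ^ 2) ≤ 1 := by
  have hy : ∀ y ∈ Y, inner ℝ y (r • (x • u + θ)) ≤ 0 := by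
    intro y hy
    rw [inner_smul_right]
    exact mul_nonpos_of_nonneg_of_nonpos hr.le (hT y hy)
  have hn : ‖r • (x • u + θ)‖ ≤ 1 ↔ r ^ 2 * (1 + x ^ 2) ≤ 1 := by
    rw [← h.norm_sq x, ← norm_ray]
    rw [sq_le_one_iff₀ (norm_nonneg _)]
  unfold W2
  constructor
  · rintro ⟨⟨h1, _⟩, _⟩
    exact hn.1 (by simpa using h1)
  · intro h1
    refine ⟨⟨by simpa using hn.2 h1, ?_⟩, ?_⟩
    · refine ⟨w, by simp, ?_⟩
      rw [inner_smul_right, h.inner_w]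
      have := h.nw
      positivity
    · rintro ⟨y, hyY, hc⟩
      have := hy y hyY
      linarith

theorem not_W2 {k : ℕ} {w u θ : E (k + 2)} {Y : Finset (E (k + 2))}
    {x r : ℝ} (hr : 0 < r) (hT : x ∉ TT Y u θ) :
    r • (x • u + θ) ∉ W2 Y w := by
  intro hW
  apply hW.2
  simp only [TT, Set.mem_ofPred_eq, not_forall, not_le] at hT
  obtain ⟨y, hyY, hc⟩ := hT
  refine ⟨y, hyY, ?_⟩
  rw [inner_smul_right]
  exact mul_pos hr hc

/-- The core inequality: the angle to `y` grows at most as fast as the angle to `w`. -/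
theorem not_Cy {k : ℕ} {w u θ : E (k + 2)} (h : RayD w u θ) {Y : Finset (E (k + 2))}
    {τ x r : ℝ} (hτ : 0 < τ) (hx : τ < x) (hr : 0 < r) (hT : τ ∈ TT Y u θ)
    (hrr : 1 + τ ^ 2 < r ^ 2 * (1 + x * τ) ^ 2) {y : E (k + 2)} (hy : y ∈ Y) (hy0 : y ≠ 0)
    (hpos : 0 < inner ℝ y (r • (x • u + θ))) :
    (inner ℝ y (r • (x • u + θ))) ^ 2 < ‖y‖ ^ 2 * (‖r • (x • u + θ)‖ ^ 2 - 1) := by
  have hyn : 0 < ‖y‖ := norm_pos_iff.2 hy0
  set a : ℝ := inner ℝ y u with ha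
  set b : ℝ := inner ℝ y θ with hb
  have e1 : ∀ t : ℝ, inner ℝ y (t • u + θ) = t * a + b := by
    intro t
    rw [inner_add_right, inner_smul_right]
  have hτT : τ * a + b ≤ 0 := by
    have := hT y hy
    rwa [e1] at this
  have e2 : inner ℝ y (r • (x • u + θ)) = r * (x * a + b) := by
    rw [inner_smul_right, e1]
  rw [e2] at hpos ⊢
  have hp2 : 0 < x * a + b := by
    by_contra hc
    push Not at hc
    have := mul_nonpos_of_nonneg_of_nonpos hr.le hc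
    linarith
  -- Bessel
  have hbes : a ^ 2 + b ^ 2 ≤ ‖y‖ ^ 2 := by
    have h1 : inner ℝ y (a • u + b • θ) = a ^ 2 + b ^ 2 := by
      rw [inner_add_right, inner_smul_right, inner_smul_right, ← ha, ← hb]
      ring
    have h2 : ‖a • u + b • θ‖ ^ 2 = a ^ 2 + b ^ 2 := by
      rw [norm_add_sq_real, norm_smul, norm_smul, inner_smul_left, inner_smul_right, h.huθ,
        h.hun, h.hθ]
      simp
    have h3 := real_inner_le_norm y (a • u + b • θ)
    rw [h1] at h3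
    have h4 : (a ^ 2 + b ^ 2) ^ 2 ≤ ‖y‖ ^ 2 * (a ^ 2 + b ^ 2) := by
      calc (a ^ 2 + b ^ 2) ^ 2 ≤ (‖y‖ * ‖a • u + b • θ‖) ^ 2 := by
            apply pow_le_pow_left₀ (by positivity) h3
        _ = ‖y‖ ^ 2 * (a ^ 2 + b ^ 2) := by rw [mul_pow, h2]
    by_contra hc
    push Not at hc
    have h5 : 0 < a ^ 2 + b ^ 2 := lt_of_le_of_lt (by positivity) hc
    nlinarith
  have hapos : 0 < a := by
    by_contra hc
    push Not at hc
    nlinarith
  have hle : x * a + b ≤ (x - τ) * a := by linarith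
  have hbb : (τ * a) ^ 2 ≤ b ^ 2 := by
    have h1 : τ * a ≤ -b := by linarith
    have h2 : 0 ≤ τ * a := by positivity
    have h3 : (τ * a) ^ 2 ≤ (-b) ^ 2 := pow_le_pow_left₀ h2 h1 2
    simpa using h3
  have ha2 : a ^ 2 * (1 + τ ^ 2) ≤ ‖y‖ ^ 2 := by nlinarith
  rw [norm_ray, h.norm_sq]
  have hxt : 0 < x - τ := by linarith
  have h6 : (x * a + b) ^ 2 ≤ (x - τ) ^ 2 * a ^ 2 := by
    have := pow_le_pow_left₀ hp2.le hle 2
    nlinarith
  -- multiply by (1 + τ²)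
  have hS : 0 < 1 + τ ^ 2 := by positivity
  have h7 : (x * a + b) ^ 2 * (1 + τ ^ 2) ≤ (x - τ) ^ 2 * ‖y‖ ^ 2 := by
    calc (x * a + b) ^ 2 * (1 + τ ^ 2) ≤ (x - τ) ^ 2 * a ^ 2 * (1 + τ ^ 2) := by
          exact mul_le_mul_of_nonneg_right h6 hS.le
      _ = (x - τ) ^ 2 * (a ^ 2 * (1 + τ ^ 2)) := by ring
      _ ≤ (x - τ) ^ 2 * ‖y‖ ^ 2 := mul_le_mul_of_nonneg_left ha2 (by positivity)
  have h8 : (1 + x ^ 2) * (1 + τ ^ 2) = (x - τ) ^ 2 + (1 + x * τ) ^ 2 := by ring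
  have hyn2 : 0 < ‖y‖ ^ 2 := by positivity
  have hr2 : 0 < r ^ 2 := by positivity
  have key : (r * (x * a + b)) ^ 2 * (1 + τ ^ 2)
      < ‖y‖ ^ 2 * (r ^ 2 * (1 + x ^ 2) - 1) * (1 + τ ^ 2) := by
    have h9 : (r * (x * a + b)) ^ 2 * (1 + τ ^ 2) ≤ r ^ 2 * ((x - τ) ^ 2 * ‖y‖ ^ 2) := by
      calc (r * (x * a + b)) ^ 2 * (1 + τ ^ 2) = r ^ 2 * ((x * a + b) ^ 2 * (1 + τ ^ 2)) := by
            ring
        _ ≤ r ^ 2 * ((x - τ) ^ 2 * ‖y‖ ^ 2) := mul_le_mul_of_nonneg_left h7 hr2.le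
    have h10 : ‖y‖ ^ 2 * (r ^ 2 * (1 + x ^ 2) - 1) * (1 + τ ^ 2)
        = r ^ 2 * ((x - τ) ^ 2 * ‖y‖ ^ 2)
          + ‖y‖ ^ 2 * (r ^ 2 * (1 + x * τ) ^ 2 - (1 + τ ^ 2)) := by
      have : ‖y‖ ^ 2 * (r ^ 2 * (1 + x ^ 2) - 1) * (1 + τ ^ 2)
          = ‖y‖ ^ 2 * (r ^ 2 * ((1 + x ^ 2) * (1 + τ ^ 2)) - (1 + τ ^ 2)) := by ring
      rw [this, h8]
      ring
    rw [h10]
    have h11 : 0 < ‖y‖ ^ 2 * (r ^ 2 * (1 + x * τ) ^ 2 - (1 + τ ^ 2)) := by
      apply mul_pos hyn2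
      linarith
    linarith
  exact lt_of_mul_lt_mul_right key hS.le

theorem mem_W1_far {k : ℕ} {w u θ : E (k + 2)} (h : RayD w u θ) {Z Y : Finset (E (k + 2))}
    (hZY : Z ⊆ Y) (hZ : ∀ y ∈ Z, 2 ≤ ‖y‖) (hY : ∀ y ∈ Y, y ≠ 0)
    {τ x r : ℝ} (hτ : 0 < τ) (hx : τ < x) (hr : 0 < r) (hT : τ ∈ TT Y u θ)
    (hrr : 1 + τ ^ 2 < r ^ 2 * (1 + x * τ) ^ 2) (hr1 : r ≤ 1)
    (hr2 : r ^ 2 * (1 + x ^ 2) ≤ 2) : r • (x • u + θ) ∈ W1 Z Y w := by
  have hn : ‖r • (x • u + θ)‖ ^ 2 = r ^ 2 * (1 + x ^ 2) := by rw [norm_ray, h.norm_sq]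
  have hx0 : 0 < x := hτ.trans hx
  refine ⟨by rw [hn]; exact hr2, ?_, (h.mem_Cy hx0 hr).2 hr1, ?_⟩
  · intro y hyZ
    by_cases hpos : 0 < inner ℝ y (r • (x • u + θ))
    · have h1 := not_Cy h hτ hx hr hT hrr (hZY hyZ) (hY y (hZY hyZ)) hpos
      rw [hn] at h1
      have h2 := hZ y hyZ
      have h3 : (inner ℝ y (r • (x • u + θ)) : ℝ) ^ 2 < ‖y‖ ^ 2 := by
        have h5 : 0 < ‖y‖ ^ 2 := by positivity
        nlinarith
      have h4 : (inner ℝ y (r • (x • u + θ)) : ℝ) < ‖y‖ :=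
        lt_of_pow_lt_pow_left₀ 2 (norm_nonneg _) h3
      nlinarith
    · push Not at hpos
      have h3 : 0 ≤ ‖y‖ ^ 2 / 2 := by positivity
      linarith
  · intro y hyY hc
    have h1 := not_Cy h hτ hx hr hT hrr hyY (hY y hyY) hc.1
    have h2 := hc.2
    nlinarith

/-- The ray function. -/
theorem ray_integrable {k : ℕ} {g : E (k + 2) → ℝ} (hgm : Measurable g) {C : ℝ}
    (hC : ∀ z, |g z| ≤ C) (hρ : ∀ z, 2 < ‖z‖ → g z = 0) {v : E (k + 2)} (hv : 1 ≤ ‖v‖) :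
    IntegrableOn (fun r : ℝ => g (r • v) * r ^ (k + 1)) (Set.Ioi 0) := by
  have h1 : IntegrableOn ((Set.Ioc 0 (2 : ℝ)).indicator (fun r : ℝ => r ^ (k + 1)))
      (Set.Ioi 0) := integrable_ind k 0 2
  refine (h1.const_mul C).mono' ?_ ?_
  · have h2 : Measurable (fun r : ℝ => g (r • v) * r ^ (k + 1)) :=
      (hgm.comp (by fun_prop)).mul (by fun_prop)
    exact h2.aestronglyMeasurable
  · refine (ae_restrict_iff' measurableSet_Ioi).2 (Filter.Eventually.of_forall fun r hr => ?_)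
    have hr0 : (0 : ℝ) < r := hr
    rw [norm_mul, Real.norm_eq_abs, Real.norm_eq_abs, abs_of_pos (pow_pos hr0 (k + 1))]
    by_cases hr2 : r ≤ 2
    · rw [Set.indicator_of_mem (show r ∈ Set.Ioc 0 (2 : ℝ) from ⟨hr0, hr2⟩)]
      exact mul_le_mul_of_nonneg_right (hC _) (by positivity)
    · push Not at hr2
      have h3 : g (r • v) = 0 := by
        apply hρ
        rw [norm_smul, Real.norm_eq_abs, abs_of_pos hr0]
        nlinarith
      rw [h3]
      have hC0 : 0 ≤ C := (abs_nonneg _).trans (hC 0)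
      simp only [abs_zero, zero_mul]
      apply mul_nonneg hC0
      apply Set.indicator_nonneg
      intro t ht
      have := ht.1
      positivity

theorem ray_bound {k : ℕ} {g : E (k + 2) → ℝ} (hgm : Measurable g) {C : ℝ}
    (hC : ∀ z, |g z| ≤ C) (hρ : ∀ z, 2 < ‖z‖ → g z = 0) {v : E (k + 2)} (hv : 1 ≤ ‖v‖) :
    |∫ r in Set.Ioi (0 : ℝ), g (r • v) * r ^ (k + 1)|
      ≤ C * 2 ^ (k + 2) * (‖v‖ ^ 2)⁻¹ := by
  have hv0 : 0 < ‖v‖ := by linarith
  have hC0 : 0 ≤ C := (abs_nonneg _).trans (hC 0)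
  have hR : (0 : ℝ) ≤ 2 / ‖v‖ := by positivity
  have h1 : ‖∫ r in Set.Ioi (0 : ℝ), g (r • v) * r ^ (k + 1)‖
      ≤ ∫ r in Set.Ioi (0 : ℝ),
        C * (Set.Ioc 0 (2 / ‖v‖)).indicator (fun r : ℝ => r ^ (k + 1)) r := by
    apply norm_integral_le_of_norm_le ((integrable_ind k 0 (2 / ‖v‖)).const_mul C)
    refine (ae_restrict_iff' measurableSet_Ioi).2 (Filter.Eventually.of_forall fun r hr => ?_)
    have hr0 : (0 : ℝ) < r := hr
    rw [norm_mul, Real.norm_eq_abs, Real.norm_eq_abs, abs_of_pos (pow_pos hr0 (k + 1))]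
    by_cases hr2 : r ≤ 2 / ‖v‖
    · rw [Set.indicator_of_mem (show r ∈ Set.Ioc 0 (2 / ‖v‖) from ⟨hr0, hr2⟩)]
      exact mul_le_mul_of_nonneg_right (hC _) (by positivity)
    · push Not at hr2
      have h3 : g (r • v) = 0 := by
        apply hρ
        rw [norm_smul, Real.norm_eq_abs, abs_of_pos hr0]
        exact (div_lt_iff₀ hv0).1 hr2
      rw [h3]
      simp only [abs_zero, zero_mul]
      apply mul_nonneg hC0
      apply Set.indicator_nonneg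
      intro t ht
      have := ht.1
      positivity
  rw [Real.norm_eq_abs, integral_const_mul, int_ind k hR] at h1
  refine h1.trans ?_
  have h2 : (2 / ‖v‖) ^ (k + 2) / ((k : ℝ) + 2) ≤ 2 ^ (k + 2) * (‖v‖ ^ 2)⁻¹ := by
    rw [div_pow]
    have h4 : ‖v‖ ^ 2 ≤ ‖v‖ ^ (k + 2) := pow_le_pow_right₀ hv (by omega)
    have h5 : (0 : ℝ) < ‖v‖ ^ 2 := by positivity
    have h6 : (2 : ℝ) ^ (k + 2) / ‖v‖ ^ (k + 2) ≤ 2 ^ (k + 2) / ‖v‖ ^ 2 :=
      div_le_div_of_nonneg_left (by positivity) h5 h4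
    have h7 : (2 : ℝ) ^ (k + 2) / ‖v‖ ^ (k + 2) / ((k : ℝ) + 2)
        ≤ 2 ^ (k + 2) / ‖v‖ ^ (k + 2) := by
      apply div_le_self (by positivity)
      have : (0 : ℝ) ≤ (k : ℝ) := Nat.cast_nonneg k
      linarith
    calc (2 : ℝ) ^ (k + 2) / ‖v‖ ^ (k + 2) / ((k : ℝ) + 2)
        ≤ 2 ^ (k + 2) / ‖v‖ ^ (k + 2) := h7
      _ ≤ 2 ^ (k + 2) / ‖v‖ ^ 2 := h6
      _ = 2 ^ (k + 2) * (‖v‖ ^ 2)⁻¹ := div_eq_mul_inv _ _
  calc C * ((2 / ‖v‖) ^ (k + 2) / ((k : ℝ) + 2)) ≤ C * (2 ^ (k + 2) * (‖v‖ ^ 2)⁻¹) :=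
        mul_le_mul_of_nonneg_left h2 hC0
    _ = C * 2 ^ (k + 2) * (‖v‖ ^ 2)⁻¹ := by ring

/-- The parametric integral. -/
def GG {k : ℕ} (g : E (k + 2) → ℝ) (u θ : E (k + 2)) (x : ℝ) : ℝ :=
  ∫ r in Set.Ioi (0 : ℝ), g (r • (x • u + θ)) * r ^ (k + 1)

theorem GG_integrable {k : ℕ} {w u θ : E (k + 2)} (h : RayD w u θ) {g : E (k + 2) → ℝ}
    (hgm : Measurable g) {C : ℝ} (hC : ∀ z, |g z| ≤ C) (hρ : ∀ z, 2 < ‖z‖ → g z = 0) :
    IntegrableOn (GG g u θ) (Set.Ioi 0) := by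
  have h1 : Integrable (fun x : ℝ => C * 2 ^ (k + 2) * (1 + x ^ 2)⁻¹) :=
    integrable_inv_one_add_sq.const_mul _
  refine h1.integrableOn.mono' ?_ ?_
  · have h2 : Measurable (fun p : ℝ × ℝ => g (p.2 • (p.1 • u + θ)) * p.2 ^ (k + 1)) :=
      (hgm.comp (by fun_prop)).mul (by fun_prop)
    have h3 : StronglyMeasurable (GG g u θ) :=
      StronglyMeasurable.integral_prod_right' (ν := volume.restrict (Set.Ioi (0 : ℝ)))
        (f := fun p : ℝ × ℝ => g (p.2 • (p.1 • u + θ)) * p.2 ^ (k + 1)) h2.stronglyMeasurable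
    exact h3.aestronglyMeasurable
  · refine Filter.Eventually.of_forall fun x => ?_
    have hn := h.norm_sq x
    have hv : 1 ≤ ‖x • u + θ‖ := by
      have : (1 : ℝ) ≤ ‖x • u + θ‖ ^ 2 := by rw [hn]; nlinarith [sq_nonneg x]
      nlinarith [norm_nonneg (x • u + θ)]
    have := ray_bound hgm hC hρ hv
    rw [hn] at this
    exact this

theorem GG_T {k : ℕ} {w u θ : E (k + 2)} (h : RayD w u θ) (A : ℝ) {Z Y : Finset (E (k + 2))}
    (hZY : Z ⊆ Y) {x : ℝ} (hx : 0 < x) (hT : x ∈ TT Y u θ) :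
    ((k : ℝ) + 2) * GG (gt A Z Y w) u θ x = (qq (k + 1) x - A) * wt (k + 1) x := by
  have hS : (0 : ℝ) < 1 + x ^ 2 := by positivity
  set R2 : ℝ := √(min 2 (1 + x ^ 2) / (1 + x ^ 2)) with hR2
  set R3 : ℝ := √(1 / (1 + x ^ 2)) with hR3
  have e0 : GG (gt A Z Y w) u θ x
      = ∫ r in Set.Ioi (0 : ℝ), ((Set.Ioc 0 R2).indicator (fun r : ℝ => r ^ (k + 1)) r
        - A * (Set.Ioc 0 R3).indicator (fun r : ℝ => r ^ (k + 1)) r) := by
    unfold GG
    apply setIntegral_congr_fun measurableSet_Ioi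
    intro r hr
    have hr0 : (0 : ℝ) < r := hr
    have m1 : r • (x • u + θ) ∈ W1 Z Y w ↔ r ∈ Set.Ioc 0 R2 := by
      rw [mem_W1_T h hZY hx hr0 hT, Set.mem_Ioc, hR2,
        Real.le_sqrt' hr0, le_div_iff₀ hS, le_min_iff]
      constructor
      · rintro ⟨h1, h2⟩
        refine ⟨hr0, h1, ?_⟩
        have : r ^ 2 ≤ 1 := by nlinarith
        nlinarith
      · rintro ⟨_, h1, h2⟩
        exact ⟨h1, le_one_of hS h2⟩
    have m2 : r • (x • u + θ) ∈ W2 Y w ↔ r ∈ Set.Ioc 0 R3 := by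
      rw [mem_W2_T h hx hr0 hT, Set.mem_Ioc, hR3, Real.le_sqrt' hr0, le_div_iff₀ hS]
      constructor
      · intro h1; exact ⟨hr0, h1⟩
      · rintro ⟨_, h1⟩; exact h1
    show gt A Z Y w (r • (x • u + θ)) * r ^ (k + 1)
      = (Set.Ioc 0 R2).indicator (fun r : ℝ => r ^ (k + 1)) r
        - A * (Set.Ioc 0 R3).indicator (fun r : ℝ => r ^ (k + 1)) r
    unfold gt
    by_cases c1 : r ∈ Set.Ioc 0 R2 <;> by_cases c2 : r ∈ Set.Ioc 0 R3
    · rw [Set.indicator_of_mem (m1.2 c1), Set.indicator_of_mem (m2.2 c2),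
        Set.indicator_of_mem c1, Set.indicator_of_mem c2]; ring
    · rw [Set.indicator_of_mem (m1.2 c1), Set.indicator_of_notMem (fun hh => c2 (m2.1 hh)),
        Set.indicator_of_mem c1, Set.indicator_of_notMem c2]; ring
    · rw [Set.indicator_of_notMem (fun hh => c1 (m1.1 hh)), Set.indicator_of_mem (m2.2 c2),
        Set.indicator_of_notMem c1, Set.indicator_of_mem c2]; ring
    · rw [Set.indicator_of_notMem (fun hh => c1 (m1.1 hh)),
        Set.indicator_of_notMem (fun hh => c2 (m2.1 hh)),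
        Set.indicator_of_notMem c1, Set.indicator_of_notMem c2]; ring
  have e1 : GG (gt A Z Y w) u θ x = R2 ^ (k + 2) / ((k : ℝ) + 2)
      - A * (R3 ^ (k + 2) / ((k : ℝ) + 2)) := by
    rw [e0, integral_sub (integrable_ind k 0 R2)
      ((integrable_ind k 0 R3).const_mul A), integral_const_mul,
      int_ind k (Real.sqrt_nonneg _), int_ind k (Real.sqrt_nonneg _)]
  have hk : ((k : ℝ) + 2) ≠ 0 := by positivity
  rw [e1, sub_mul, qq_wt, wt_eq, hR2, hR3]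
  rw [Real.sqrt_div (by norm_num : (0 : ℝ) ≤ 1), Real.sqrt_one, div_pow, one_pow]
  field_simp

theorem GG_notT {k : ℕ} {w u θ : E (k + 2)} (h : RayD w u θ) (A : ℝ) {Z Y : Finset (E (k + 2))}
    {x : ℝ} (hT : x ∉ TT Y u θ) {a b : ℝ} (ha : 0 ≤ a)
    (hab : ∀ r, a < r → r ≤ b → r • (x • u + θ) ∈ W1 Z Y w) (hab' : a ≤ b) :
    b ^ (k + 2) - a ^ (k + 2) ≤ ((k : ℝ) + 2) * GG (gt A Z Y w) u θ x := by
  have hk : (0 : ℝ) < ((k : ℝ) + 2) := by positivity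
  have hn := h.norm_sq x
  have hv : 1 ≤ ‖x • u + θ‖ := by
    have : (1 : ℝ) ≤ ‖x • u + θ‖ ^ 2 := by rw [hn]; nlinarith [sq_nonneg x]
    nlinarith [norm_nonneg (x • u + θ)]
  have e1 : ∫ r in Set.Ioi (0 : ℝ), (Set.Ioc a b).indicator (fun r : ℝ => r ^ (k + 1)) r
      = (b ^ (k + 2) - a ^ (k + 2)) / ((k : ℝ) + 2) := by
    rw [setIntegral_indicator measurableSet_Ioc]
    have h' : Set.Ioi (0 : ℝ) ∩ Set.Ioc a b = Set.Ioc a b := by
      ext r
      simp only [Set.mem_inter_iff, Set.mem_Ioi, Set.mem_Ioc]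
      constructor
      · rintro ⟨_, h2⟩; exact h2
      · rintro ⟨h1, h2⟩; exact ⟨lt_of_le_of_lt ha h1, h1, h2⟩
    rw [h', ← intervalIntegral.integral_of_le hab', integral_pow]
    push_cast
    ring_nf
  have h2 : ∫ r in Set.Ioi (0 : ℝ), (Set.Ioc a b).indicator (fun r : ℝ => r ^ (k + 1)) r
      ≤ GG (gt A Z Y w) u θ x := by
    unfold GG
    have hWi : ∀ r : ℝ, 0 < r → gt A Z Y w (r • (x • u + θ))
        = (W1 Z Y w).indicator (fun _ => (1 : ℝ)) (r • (x • u + θ)) := by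
      intro r hr
      unfold gt
      rw [Set.indicator_of_notMem (not_W2 hr hT)]
      ring
    have hmono : ∀ r ∈ Set.Ioi (0 : ℝ), (Set.Ioc a b).indicator (fun r : ℝ => r ^ (k + 1)) r
        ≤ gt A Z Y w (r • (x • u + θ)) * r ^ (k + 1) := by
      intro r hr
      have hr0 : (0 : ℝ) < r := hr
      rw [hWi r hr0]
      by_cases c : r ∈ Set.Ioc a b
      · rw [Set.indicator_of_mem c, Set.indicator_of_mem (hab r c.1 c.2)]
        simp
      · rw [Set.indicator_of_notMem c]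
        exact mul_nonneg (ind_le _ _).1 (by positivity)
    refine setIntegral_mono_on (integrable_ind k a b) ?_ measurableSet_Ioi hmono
    have h5 : IntegrableOn (fun r : ℝ => (W1 Z Y w).indicator (fun _ => (1 : ℝ))
        (r • (x • u + θ)) * r ^ (k + 1)) (Set.Ioi 0) := by
      apply ray_integrable (g := (W1 Z Y w).indicator (fun _ => (1 : ℝ))) (C := 1)
        (measurable_const.indicator (meas_W1 Z Y w)) ?_ ?_ hv
      · intro z
        rw [abs_of_nonneg (ind_le _ z).1]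
        exact (ind_le _ z).2
      · intro z hz
        apply Set.indicator_of_notMem
        intro hW
        have := hW.1
        nlinarith
    exact h5.congr_fun (fun r hr => by simp only [hWi r hr]) measurableSet_Ioi
  rw [e1, div_le_iff₀ hk] at h2
  linarith

theorem ax_input {k : ℕ} (hF : FarNum (k + 1)) {Z Y : Finset (E (k + 2))} (hZY : Z ⊆ Y)
    (hZ : ∀ y ∈ Z, 2 ≤ ‖y‖) (hY : ∀ y ∈ Y, y ≠ 0) {w u θ : E (k + 2)} (h : RayD w u θ) :
    0 ≤ ∫ x in Set.Ioi (0 : ℝ), GG (gt (AA (k + 1)) Z Y w) u θ x := by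
  have hk : (0 : ℝ) < ((k : ℝ) + 2) := by positivity
  have hwt : ∀ x, 0 < wt (k + 1) x := by
    intro x
    unfold wt
    positivity
  have hA := AA_pos (k + 1)
  set G := GG (gt (AA (k + 1)) Z Y w) u θ with hG
  have hGi : IntegrableOn G (Set.Ioi 0) :=
    GG_integrable h (meas_gt _ Z Y w) (gt_bound hA.le Z Y w) (gt_supp _ Z Y w)
  have hmul : ∀ x, ((k : ℝ) + 2) * G x / wt (k + 1) x * wt (k + 1) x = ((k : ℝ) + 2) * G x := by
    intro x
    rw [div_mul_cancel₀ _ (hwt x).ne']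
  have key : 0 ≤ ∫ x in Set.Ioi (0 : ℝ), (((k : ℝ) + 2) * G x / wt (k + 1) x) * wt (k + 1) x := by
    apply far1d (m := k + 1) (by omega) hF (closed_TT Y u θ)
    · simp only [hmul]
      exact hGi.const_mul _
    · intro x hx hT
      rw [hG, GG_T h _ hZY hx hT, mul_div_assoc, div_self (hwt x).ne', mul_one]
    · intro x _ hT
      apply div_nonneg _ (hwt x).le
      have := GG_notT h (AA (k + 1)) (Z := Z) (Y := Y) hT (a := 0) (b := 0) le_rfl
        (fun r h1 h2 => absurd h2 (not_le.2 h1)) le_rfl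
      simpa using this
    · intro τ hτT hτ x hx hT
      have hx0 : 0 < x := hτ.trans hx
      rw [le_div_iff₀ (hwt x), sub_mul, qq_wt, pp_wt]
      have hS : (0 : ℝ) < 1 + x ^ 2 := by positivity
      have hD : (0 : ℝ) < (1 + x * τ) ^ 2 := by positivity
      have hq1 : 1 + τ ^ 2 ≤ (1 + x * τ) ^ 2 := by nlinarith
      have hmin : min 2 ((1 + x ^ 2) * (1 + τ ^ 2) / (1 + x * τ) ^ 2) ≤ min 2 (1 + x ^ 2) := by
        apply min_le_min le_rfl
        rw [div_le_iff₀ hD]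
        exact mul_le_mul_of_nonneg_left hq1 hS.le
      apply GG_notT h (AA (k + 1)) hT (Real.sqrt_nonneg _)
      · intro r h1 h2
        have hr0 : 0 < r := lt_of_le_of_lt (Real.sqrt_nonneg _) h1
        rw [Real.le_sqrt' hr0, le_div_iff₀ hS, le_min_iff] at h2
        rw [Real.sqrt_lt' hr0, div_lt_iff₀ hS, min_lt_iff] at h1
        rcases h1 with h1 | h1
        · exact absurd h2.1 (not_le.2 h1)
        · apply mem_W1_far h hZY hZ hY hτ hx hr0 hτT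
          · rw [div_lt_iff₀ hD] at h1
            have h3 : (1 + x ^ 2) * (1 + τ ^ 2) < (1 + x ^ 2) * (r ^ 2 * (1 + x * τ) ^ 2) := by
              linarith
            exact lt_of_mul_lt_mul_left h3 hS.le
          · exact le_one_of hS h2.2
          · exact h2.1
      · apply Real.sqrt_le_sqrt
        exact div_le_div_of_nonneg_right hmin hS.le
  simp only [hmul] at key
  rw [integral_const_mul] at key
  exact nonneg_of_mul_nonneg_right key hk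

end FarGAux

theorem far_step {k : ℕ} (hF : FarNum (k + 1)) {Z Y : Finset (E (k + 2))} (hZY : Z ⊆ Y)
    (hZ : ∀ y ∈ Z, 2 ≤ ‖y‖) (hY : ∀ y ∈ Y, y ≠ 0) {w : E (k + 2)} (hw : w ≠ 0) :
    AA (k + 1) * volume.real ((Ba (k + 2) ∩ Op {w}) \ Op Y)
      ≤ volume.real {z | ‖z‖ ^ 2 ≤ 2 ∧ z ∈ Vor Z ∧ z ∈ Cy w ∧ ∀ y ∈ Y, z ∉ Cy y} := by
  have hA := AA_pos (k + 1)
  have hn : 0 < ‖w‖ := norm_pos_iff.2 hw
  set u : E (k + 2) := ‖w‖⁻¹ • w with hu
  have hwu : w = ‖w‖ • u := by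
    rw [hu, smul_smul, mul_inv_cancel₀ hn.ne', one_smul]
  have hun : ‖u‖ = 1 := by
    rw [hu, norm_smul, norm_inv, norm_norm, inv_mul_cancel₀ hn.ne']
  have hinner : ∀ z, inner ℝ w z = ‖w‖ * inner ℝ u z := by
    intro z
    conv_lhs => rw [hwu]
    rw [inner_smul_left]
    simp
  have hH : ∀ z, 0 < inner ℝ w z → 0 < inner ℝ u z := by
    intro z hz
    rw [hinner] at hz
    exact (mul_pos_iff_of_pos_left hn).1 hz
  have hax := ax_nonneg hun (FarGAux.meas_gt (AA (k + 1)) Z Y w)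
    (FarGAux.gt_bound hA.le Z Y w) (FarGAux.gt_supp _ Z Y w)
    (fun θ hθ huθ => FarGAux.ax_input hF hZY hZ hY ⟨hw, hwu, hun, hθ, huθ⟩)
  have hm1 := FarGAux.meas_W1 Z Y w
  have hm2 := FarGAux.meas_W2 Y w
  have hsub1 : FarGAux.W1 Z Y w ⊆ {z | 0 < inner ℝ u z} := fun z hz => hH z hz.2.2.1.1
  have hsub2 : FarGAux.W2 Y w ⊆ {z | 0 < inner ℝ u z} := by
    intro z hz
    obtain ⟨y, hy, hc⟩ := hz.1.2
    rw [Finset.mem_singleton] at hy
    rw [hy] at hc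
    exact hH z hc
  have hb1 : volume (FarGAux.W1 Z Y w) < ⊤ := by
    have hs : FarGAux.W1 Z Y w ⊆ Metric.closedBall (0 : E (k + 2)) 2 := by
      intro z hz
      rw [mem_closedBall_zero_iff]
      have := hz.1
      nlinarith [norm_nonneg z]
    exact lt_of_le_of_lt (measure_mono hs) measure_closedBall_lt_top
  have hb2 : volume (FarGAux.W2 Y w) < ⊤ := by
    have hs : FarGAux.W2 Y w ⊆ Metric.closedBall (0 : E (k + 2)) 1 := fun z hz => hz.1.1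
    exact lt_of_le_of_lt (measure_mono hs) measure_closedBall_lt_top
  have i1 : ∀ (s : Set (E (k + 2))), MeasurableSet s → volume s < ⊤ →
      Integrable (s.indicator (fun _ => (1 : ℝ))) (volume.restrict {z | 0 < inner ℝ u z}) := by
    intro s hs hfin
    apply Integrable.restrict
    rw [integrable_indicator_iff hs]
    exact integrableOn_const hfin.ne
  have i2 : ∀ (s : Set (E (k + 2))), MeasurableSet s → s ⊆ {z | 0 < inner ℝ u z} →
      ∫ z in {z | 0 < inner ℝ u z}, s.indicator (fun _ => (1 : ℝ)) z = volume.real s := by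
    intro s hs hsub
    rw [setIntegral_indicator hs, Set.inter_eq_right.2 hsub]
    simp
  have hval : ∫ z in {z | 0 < inner ℝ u z}, FarGAux.gt (AA (k + 1)) Z Y w z
      = volume.real (FarGAux.W1 Z Y w) - AA (k + 1) * volume.real (FarGAux.W2 Y w) := by
    unfold FarGAux.gt
    rw [integral_sub (i1 _ hm1 hb1) ((i1 _ hm2 hb2).const_mul _), integral_const_mul,
      i2 _ hm1 hsub1, i2 _ hm2 hsub2]
  rw [hval] at hax
  have := sub_nonneg.1 hax
  exact this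

end

end Pool.Agent.SausN
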