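import Pool.Agent.Lib.MP_5a9905_co_NC.Defs
import Pool.Agent.Lib.MP_5a9905_co_NC.KapN

set_option autoImplicit false

open MeasureTheory Finset

namespace Pool.Agent.SausN

open Pool.Agent.Saus (E kap Loc Vor)

noncomputable section

namespace FarNAux

theorem cont_F (m : ℕ) :
    Continuous (Function.uncurry (fun (η ξ : ℝ) => ξ * (1 - ξ * η) ^ (m - 1))) := by
  unfold Function.uncurry
  fun_prop

theorem cont_Pf (m : ℕ) (a : ℝ) : Continuous (Pf m a) := by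
  have h := intervalIntegral.continuous_parametric_intervalIntegral_of_continuous'
    (μ := volume) (cont_F m) a 1
  exact continuous_const.mul h

theorem Pf_anti (m : ℕ) {a b η : ℝ} (h0 : 0 ≤ a) (hab : a ≤ b) (hb : b ≤ 1) (hη0 : 0 ≤ η)
    (hη1 : η ≤ 1) : Pf m b η ≤ Pf m a η := by
  have hI : ∀ x y : ℝ, IntervalIntegrable (fun ξ => ξ * (1 - ξ * η) ^ (m - 1)) volume x y := by
    intro x y
    apply Continuous.intervalIntegrable
    fun_prop
  have h1 := intervalIntegral.integral_add_adjacent_intervals (hI a b) (hI b 1)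
  have h2 : 0 ≤ ∫ ξ in a..b, ξ * (1 - ξ * η) ^ (m - 1) := by
    refine intervalIntegral.integral_nonneg hab (fun ξ hξ => ?_)
    have hξ0 : 0 ≤ ξ := h0.trans hξ.1
    have hξ1 : ξ ≤ 1 := hξ.2.trans hb
    have h3 : ξ * η ≤ 1 := mul_le_one₀ hξ1 hη0 hη1
    exact mul_nonneg hξ0 (pow_nonneg (by linarith) _)
  unfold Pf
  have hm : (0 : ℝ) ≤ (m : ℝ) + 1 := by positivity
  refine mul_le_mul_of_nonneg_left ?_ hm
  rw [← h1]
  linarith

theorem inner_int {m : ℕ} (hm : 1 ≤ m) (ξ τ : ℝ) :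
    ∫ η in (0 : ℝ)..τ, ξ * (1 - ξ * η) ^ (m - 1) = (1 - (1 - ξ * τ) ^ m) / m := by
  have hm0 : (m : ℝ) ≠ 0 := by positivity
  have hd : ∀ x ∈ Set.uIcc 0 τ, HasDerivAt (fun η : ℝ => -(1 - ξ * η) ^ m / m)
      (ξ * (1 - ξ * x) ^ (m - 1)) x := by
    intro x _
    have h1 : HasDerivAt (fun η : ℝ => 1 - ξ * η) (-ξ) x := by
      have := ((hasDerivAt_id x).const_mul ξ).const_sub 1
      simpa using this
    have h2 := ((h1.pow m).neg).div_const (m : ℝ)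
    refine h2.congr_deriv ?_
    field_simp
  rw [intervalIntegral.integral_eq_sub_of_hasDerivAt hd
    (Continuous.intervalIntegrable (by fun_prop) _ _)]
  simp only [mul_zero, sub_zero, one_pow]
  ring

theorem outer_int {m : ℕ} (hm : 1 ≤ m) (b τ : ℝ) :
    τ * ∫ ξ in b..1, (1 - (1 - ξ * τ) ^ m) / (m : ℝ)
      = ((1 - b) * τ - ((1 - b * τ) ^ (m + 1) - (1 - τ) ^ (m + 1)) / ((m : ℝ) + 1)) / m := by
  have hm0 : (m : ℝ) ≠ 0 := by positivity
  have hm1 : (m : ℝ) + 1 ≠ 0 := by positivity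
  rw [← intervalIntegral.integral_const_mul]
  have hd : ∀ x ∈ Set.uIcc b 1, HasDerivAt
      (fun ξ : ℝ => (τ * ξ + (1 - ξ * τ) ^ (m + 1) / ((m : ℝ) + 1)) / m)
      (τ * ((1 - (1 - x * τ) ^ m) / (m : ℝ))) x := by
    intro x _
    have h1 : HasDerivAt (fun ξ : ℝ => 1 - ξ * τ) (-τ) x := by
      have := ((hasDerivAt_id x).mul_const τ).const_sub 1
      simpa using this
    have h2 := (h1.pow (m + 1)).div_const ((m : ℝ) + 1)
    have h3 : HasDerivAt (fun ξ : ℝ => τ * ξ) τ x := by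
      have := (hasDerivAt_id x).const_mul τ
      simpa using this
    have h4 := (h3.add h2).div_const (m : ℝ)
    refine h4.congr_deriv ?_
    have e : m + 1 - 1 = m := by omega
    rw [e]
    push_cast
    field_simp
    ring
  rw [intervalIntegral.integral_eq_sub_of_hasDerivAt hd
    (Continuous.intervalIntegrable (by fun_prop) _ _)]
  ring

theorem int_Pf {m : ℕ} (hm : 1 ≤ m) (b τ : ℝ) :
    τ * ∫ η in (0 : ℝ)..τ, Pf m b η
      = (((m : ℝ) + 1) / m) *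
        ((1 - b) * τ - ((1 - b * τ) ^ (m + 1) - (1 - τ) ^ (m + 1)) / ((m : ℝ) + 1)) := by
  have h1 : ∫ η in (0 : ℝ)..τ, Pf m b η
      = ((m : ℝ) + 1) * ∫ ξ in b..1, (1 - (1 - ξ * τ) ^ m) / (m : ℝ) := by
    unfold Pf
    rw [intervalIntegral.integral_const_mul]
    congr 1
    have hsw := intervalIntegral_intervalIntegral_swap (E := ℝ)
      (F := fun (η ξ : ℝ) => ξ * (1 - ξ * η) ^ (m - 1)) (a := 0) (b := τ) (c := b) (d := 1) (by
        refine ((cont_F m).continuousOn.integrableOn_compact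
          (isCompact_uIcc.prod isCompact_uIcc)).mono_set
          (Set.prod_mono Set.uIoc_subset_uIcc Set.uIoc_subset_uIcc))
    rw [hsw]
    congr 1
    funext ξ
    exact inner_int hm ξ τ
  rw [h1]
  have h2 := outer_int hm b τ
  calc τ * (((m : ℝ) + 1) * ∫ ξ in b..1, (1 - (1 - ξ * τ) ^ m) / (m : ℝ))
      = ((m : ℝ) + 1) * (τ * ∫ ξ in b..1, (1 - (1 - ξ * τ) ^ m) / (m : ℝ)) := by ring
    _ = _ := by
      rw [h2]
      ring

theorem int_poly (c₁ c₂ c₃ τ : ℝ) :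
    ∫ η in (0 : ℝ)..τ, (1 + c₁ * η ^ 2 + c₂ * (η ^ 2) ^ 2 + c₃ * (η ^ 2) ^ 3)
      = τ * (1 + c₁ / 3 * τ ^ 2 + c₂ / 5 * τ ^ 4 + c₃ / 7 * τ ^ 6) := by
  have hd : ∀ x ∈ Set.uIcc 0 τ, HasDerivAt
      (fun η : ℝ => η + c₁ / 3 * η ^ 3 + c₂ / 5 * η ^ 5 + c₃ / 7 * η ^ 7)
      (1 + c₁ * x ^ 2 + c₂ * (x ^ 2) ^ 2 + c₃ * (x ^ 2) ^ 3) x := by
    intro x _
    have h := (((hasDerivAt_id x).add ((hasDerivAt_pow 3 x).const_mul (c₁ / 3))).add
      ((hasDerivAt_pow 5 x).const_mul (c₂ / 5))).add ((hasDerivAt_pow 7 x).const_mul (c₃ / 7))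
    refine h.congr_deriv ?_
    push_cast
    ring
  rw [intervalIntegral.integral_eq_sub_of_hasDerivAt hd
    (Continuous.intervalIntegrable (by fun_prop) _ _)]
  ring

end FarNAux

open FarNAux in
theorem farNum_of_poly {m : ℕ} (hm : 2 ≤ m) {b c₁ c₂ c₃ : ℝ} (hb0 : 0 < b) (hb1 : b < 1)
    (hb : AA m ≤ (1 + b ^ 2) ^ (((m : ℝ) + 1) / 2)) (hA1 : 1 < AA m)
    (hc : ∀ y : ℝ, 0 ≤ y → y ≤ 1 →
      1 + c₁ * y + c₂ * y ^ 2 + c₃ * y ^ 3 ≤ (1 + y) ^ (((m : ℝ) + 1) / 2))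
    (h : ∀ τ, 0 ≤ τ → τ ≤ b → 0 ≤ (((m : ℝ) + 1) / m) *
        ((1 - b) * τ - ((1 - b * τ) ^ (m + 1) - (1 - τ) ^ (m + 1)) / ((m : ℝ) + 1))
      - AA m * τ ^ 2 + τ ^ 2 * (1 + c₁ / 3 * τ ^ 2 + c₂ / 5 * τ ^ 4 + c₃ / 7 * τ ^ 6)) :
    FarNum m := by
  set p : ℝ := ((m : ℝ) + 1) / 2 with hp
  have hp0 : 0 < p := by positivity
  have hA0 : 0 ≤ AA m := by linarith
  set B : ℝ := (AA m) ^ (1 / p) with hB
  have hB1 : 1 < B := Real.one_lt_rpow hA1 (by positivity)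
  have hBp : B ^ p = AA m := by
    rw [hB, ← Real.rpow_mul hA0, one_div_mul_cancel hp0.ne', Real.rpow_one]
  have hBb : B ≤ 1 + b ^ 2 := by
    have h1 := Real.rpow_le_rpow hA0 hb (by positivity : (0 : ℝ) ≤ 1 / p)
    rw [← Real.rpow_mul (by positivity), mul_one_div_cancel hp0.ne', Real.rpow_one] at h1
    exact h1
  set a : ℝ := Real.sqrt (B - 1) with ha
  have ha0 : 0 < a := Real.sqrt_pos.mpr (by linarith)
  have ha2 : 1 + a ^ 2 = B := by
    rw [ha, Real.sq_sqrt (by linarith)]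
    ring
  have hab : a ≤ b := by
    rw [ha, Real.sqrt_le_left hb0.le]
    linarith
  refine ⟨a, ha0, by linarith, by rw [ha2]; exact hBp, fun τ hτ0 hτa => ?_⟩
  have hm1 : 1 ≤ m := by omega
  have hcp : Continuous (fun η : ℝ => (1 + η ^ 2) ^ p) := by
    refine Continuous.rpow_const (by fun_prop) (fun x => Or.inr hp0.le)
  have hmono : ∫ η in (0 : ℝ)..τ, (Pf m b η - AA m
        + (1 + c₁ * η ^ 2 + c₂ * (η ^ 2) ^ 2 + c₃ * (η ^ 2) ^ 3))
      ≤ ∫ η in (0 : ℝ)..τ, (Pf m a η - AA m + (1 + η ^ 2) ^ p) := by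
    refine intervalIntegral.integral_mono_on hτ0 ?_ ?_ (fun η hη => ?_)
    · refine Continuous.intervalIntegrable ?_ _ _
      exact ((cont_Pf m b).sub continuous_const).add (by fun_prop)
    · refine Continuous.intervalIntegrable ?_ _ _
      exact ((cont_Pf m a).sub continuous_const).add hcp
    · have hη1 : η ≤ 1 := by linarith [hη.2]
      have h1 := Pf_anti m ha0.le hab hb1.le hη.1 hη1
      have h2 := hc (η ^ 2) (by positivity) (by nlinarith [hη.1])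
      linarith
  refine le_trans ?_ hmono
  have hsplit : ∫ η in (0 : ℝ)..τ, (Pf m b η - AA m
        + (1 + c₁ * η ^ 2 + c₂ * (η ^ 2) ^ 2 + c₃ * (η ^ 2) ^ 3))
      = (∫ η in (0 : ℝ)..τ, Pf m b η) - AA m * τ
        + τ * (1 + c₁ / 3 * τ ^ 2 + c₂ / 5 * τ ^ 4 + c₃ / 7 * τ ^ 6) := by
    rw [intervalIntegral.integral_add, intervalIntegral.integral_sub, int_poly]
    · simp
      ring
    · exact (cont_Pf m b).intervalIntegrable _ _
    · exact continuous_const.intervalIntegrable _ _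
    · exact ((cont_Pf m b).sub continuous_const).intervalIntegrable _ _
    · exact Continuous.intervalIntegrable (by fun_prop) _ _
  rw [hsplit]
  rcases hτ0.eq_or_lt with h0 | h0
  · rw [← h0]
    simp
  · have h1 := h τ hτ0 (hτa.trans hab)
    have h2 := int_Pf hm1 b τ
    have h3 : 0 ≤ τ * ((∫ η in (0 : ℝ)..τ, Pf m b η) - AA m * τ
        + τ * (1 + c₁ / 3 * τ ^ 2 + c₂ / 5 * τ ^ 4 + c₃ / 7 * τ ^ 6)) := by
      have h4 : τ * ((∫ η in (0 : ℝ)..τ, Pf m b η) - AA m * τ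
        + τ * (1 + c₁ / 3 * τ ^ 2 + c₂ / 5 * τ ^ 4 + c₃ / 7 * τ ^ 6))
        = τ * (∫ η in (0 : ℝ)..τ, Pf m b η) - AA m * τ ^ 2
          + τ ^ 2 * (1 + c₁ / 3 * τ ^ 2 + c₂ / 5 * τ ^ 4 + c₃ / 7 * τ ^ 6) := by ring
      rw [h4, h2]
      exact h1
    exact nonneg_of_mul_nonneg_right h3 h0

end

end Pool.Agent.SausN
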