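import Pool.Agent.Lib.MP_5a9905_co_NC.Defs
import Pool.Agent.Lib.MP_5a9905_co_NC.KapN
import Pool.Agent.Lib.MP_5a9905_co_NC.FarN
import Pool.Agent.Lib.MP_5a9905_co_NC.Bin

set_option autoImplicit false

open MeasureTheory Finset

namespace Pool.Agent.SausN

open Pool.Agent.Saus (E kap Loc Vor)

noncomputable section

namespace FarVAux

theorem le_rpow_half {A x : ℝ} {n : ℕ} (hx : 0 ≤ x) (h : A ^ 2 ≤ x ^ n) :
    A ≤ x ^ ((n : ℝ) / 2) := by
  have h0 : 0 ≤ x ^ ((n : ℝ) / 2) := Real.rpow_nonneg hx _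
  have h1 : (x ^ ((n : ℝ) / 2)) ^ 2 = x ^ n := by
    rw [← Real.rpow_natCast (x ^ ((n : ℝ) / 2)) 2, ← Real.rpow_mul hx, ← Real.rpow_natCast x n]
    congr 1
    push_cast
    ring
  exact le_of_sq_le_sq (by rw [h1]; exact h) h0 |>.trans le_rfl

theorem low2 {m : ℕ} (hm : 3 ≤ m) (y : ℝ) (hy : 0 ≤ y) :
    1 + ((m : ℝ) + 1) / 2 * y + (((m : ℝ) + 1) / 2 * (((m : ℝ) + 1) / 2 - 1) / 2) * y ^ 2
      + 0 * y ^ 3 ≤ (1 + y) ^ (((m : ℝ) + 1) / 2) := by
  have hm' : (3 : ℝ) ≤ m := by exact_mod_cast hm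
  have h := pow_lower (p := ((m : ℝ) + 1) / 2) (y := y) (by linarith) hy
  linarith

end FarVAux

open FarVAux


theorem farNum_four : FarNum 4 := by
  have hA : AA 4 ≤ 15 / 8 := by
    rw [AA_four]
  have hA1 : 1 < AA 4 := by
    rw [AA_four]
    norm_num
  refine farNum_of_poly (b := 11 / 20) (c₁ := 5 / 2) (c₂ := 15 / 8) (c₃ := 0) (by norm_num)
    (by norm_num) (by norm_num) ?_ hA1 ?_ ?_
  · have h := le_rpow_half (A := 15 / 8) (x := 1 + (11 / 20 : ℝ) ^ 2) (n := 5) (by norm_num) (by norm_num)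
    refine hA.trans (h.trans (le_of_eq ?_))
    norm_num
  · intro y hy _
    refine le_trans (le_of_eq ?_) (low2 (m := 4) (by norm_num) y hy)
    norm_num
  · intro τ h0 h1
    obtain ⟨s, hs⟩ : ∃ s : ℝ, s = 11 / 20 - τ := ⟨_, rfl⟩
    have hs0 : 0 ≤ s := by rw [hs]; linarith
    have hpos : 0 ≤ τ ^ 2 * ((139000 / 14641 : ℝ) * s ^ 4
        + (745205 / 29282 : ℝ) * τ * s ^ 3
        + (363940517 / 14055360 : ℝ) * τ ^ 2 * s ^ 2
        + (364957144643 / 28110720000 : ℝ) * τ ^ 3 * s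
        + (96134430643 / 28110720000 : ℝ) * τ ^ 4) := by positivity
    have hAt : AA 4 * τ ^ 2 ≤ 15 / 8 * τ ^ 2 := mul_le_mul_of_nonneg_right hA (sq_nonneg τ)
    have hkey : (((4 : ℕ) : ℝ) + 1) / ((4 : ℕ) : ℝ) *
        ((1 - 11 / 20) * τ - ((1 - 11 / 20 * τ) ^ (4 + 1) - (1 - τ) ^ (4 + 1)) / (((4 : ℕ) : ℝ) + 1))
      - (15 / 8) * τ ^ 2 + τ ^ 2 * (1 + 5 / 2 / 3 * τ ^ 2 + 15 / 8 / 5 * τ ^ 4 + 0 / 7 * τ ^ 6)
        = τ ^ 2 * ((139000 / 14641 : ℝ) * s ^ 4
        + (745205 / 29282 : ℝ) * τ * s ^ 3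
        + (363940517 / 14055360 : ℝ) * τ ^ 2 * s ^ 2
        + (364957144643 / 28110720000 : ℝ) * τ ^ 3 * s
        + (96134430643 / 28110720000 : ℝ) * τ ^ 4) := by
      rw [hs]
      push_cast
      ring
    have h2 := hkey.symm ▸ hpos
    linarith


theorem farNum_five : FarNum 5 := by
  have hA : AA 5 ≤ 1019 / 500 := by
    rw [AA_five, div_le_iff₀ (by positivity)]
    nlinarith [Real.pi_gt_d4]
  have hA1 : 1 < AA 5 := by
    rw [AA_five]
    rw [lt_div_iff₀ (by positivity)]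
    nlinarith [Real.pi_lt_d4]
  refine farNum_of_poly (b := 13 / 25) (c₁ := 3) (c₂ := 3) (c₃ := 0) (by norm_num)
    (by norm_num) (by norm_num) ?_ hA1 ?_ ?_
  · have h := le_rpow_half (A := 1019 / 500) (x := 1 + (13 / 25 : ℝ) ^ 2) (n := 6) (by norm_num) (by norm_num)
    refine hA.trans (h.trans (le_of_eq ?_))
    norm_num
  · intro y hy _
    refine le_trans (le_of_eq ?_) (low2 (m := 5) (by norm_num) y hy)
    norm_num
  · intro τ h0 h1
    obtain ⟨s, hs⟩ : ∃ s : ℝ, s = 13 / 25 - τ := ⟨_, rfl⟩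
    have hs0 : 0 ≤ s := by rw [hs]; linarith
    have hpos : 0 ≤ τ ^ 2 * ((1798125 / 114244 : ℝ) * s ^ 4
        + (1099869 / 28561 : ℝ) * τ * s ^ 3
        + (1252188521 / 35701250 : ℝ) * τ ^ 2 * s ^ 2
        + (856671012451 / 55783203125 : ℝ) * τ ^ 3 * s
        + (536808388175729 / 139458007812500 : ℝ) * τ ^ 4) := by positivity
    have hAt : AA 5 * τ ^ 2 ≤ 1019 / 500 * τ ^ 2 := mul_le_mul_of_nonneg_right hA (sq_nonneg τ)
    have hkey : (((5 : ℕ) : ℝ) + 1) / ((5 : ℕ) : ℝ) *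
        ((1 - 13 / 25) * τ - ((1 - 13 / 25 * τ) ^ (5 + 1) - (1 - τ) ^ (5 + 1)) / (((5 : ℕ) : ℝ) + 1))
      - (1019 / 500) * τ ^ 2 + τ ^ 2 * (1 + 3 / 3 * τ ^ 2 + 3 / 5 * τ ^ 4 + 0 / 7 * τ ^ 6)
        = τ ^ 2 * ((1798125 / 114244 : ℝ) * s ^ 4
        + (1099869 / 28561 : ℝ) * τ * s ^ 3
        + (1252188521 / 35701250 : ℝ) * τ ^ 2 * s ^ 2
        + (856671012451 / 55783203125 : ℝ) * τ ^ 3 * s
        + (536808388175729 / 139458007812500 : ℝ) * τ ^ 4) := by
      rw [hs]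
      push_cast
      ring
    have h2 := hkey.symm ▸ hpos
    linarith


theorem farNum_six : FarNum 6 := by
  have hA : AA 6 ≤ 35 / 16 := by
    rw [AA_six]
  have hA1 : 1 < AA 6 := by
    rw [AA_six]
    norm_num
  refine farNum_of_poly (b := 51 / 100) (c₁ := 7 / 2) (c₂ := 35 / 8) (c₃ := 0) (by norm_num)
    (by norm_num) (by norm_num) ?_ hA1 ?_ ?_
  · have h := le_rpow_half (A := 35 / 16) (x := 1 + (51 / 100 : ℝ) ^ 2) (n := 7) (by norm_num) (by norm_num)
    refine hA.trans (h.trans (le_of_eq ?_))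
    norm_num
  · intro y hy _
    refine le_trans (le_of_eq ?_) (low2 (m := 6) (by norm_num) y hy)
    norm_num
  · intro τ h0 h1
    obtain ⟨s, hs⟩ : ∃ s : ℝ, s = 51 / 100 - τ := ⟨_, rfl⟩
    have hs0 : 0 ≤ s := by rw [hs]; linarith
    have hpos : 0 ≤ τ ^ 2 * ((14021500000 / 345025251 : ℝ) * s ^ 5
        + (14767955750 / 115008417 : ℝ) * τ * s ^ 4
        + (2167240755131 / 13801010040 : ℝ) * τ ^ 2 * s ^ 3
        + (64904511881642807 / 690050502000000 : ℝ) * τ ^ 3 * s ^ 2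
        + (24081698892306486259 / 766722780000000000 : ℝ) * τ ^ 4 * s
        + (445234405879761603781867 / 69005050200000000000000 : ℝ) * τ ^ 5) := by positivity
    have hAt : AA 6 * τ ^ 2 ≤ 35 / 16 * τ ^ 2 := mul_le_mul_of_nonneg_right hA (sq_nonneg τ)
    have hkey : (((6 : ℕ) : ℝ) + 1) / ((6 : ℕ) : ℝ) *
        ((1 - 51 / 100) * τ - ((1 - 51 / 100 * τ) ^ (6 + 1) - (1 - τ) ^ (6 + 1)) / (((6 : ℕ) : ℝ) + 1))
      - (35 / 16) * τ ^ 2 + τ ^ 2 * (1 + 7 / 2 / 3 * τ ^ 2 + 35 / 8 / 5 * τ ^ 4 + 0 / 7 * τ ^ 6)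
        = τ ^ 2 * ((14021500000 / 345025251 : ℝ) * s ^ 5
        + (14767955750 / 115008417 : ℝ) * τ * s ^ 4
        + (2167240755131 / 13801010040 : ℝ) * τ ^ 2 * s ^ 3
        + (64904511881642807 / 690050502000000 : ℝ) * τ ^ 3 * s ^ 2
        + (24081698892306486259 / 766722780000000000 : ℝ) * τ ^ 4 * s
        + (445234405879761603781867 / 69005050200000000000000 : ℝ) * τ ^ 5) := by
      rw [hs]
      push_cast
      ring
    have h2 := hkey.symm ▸ hpos
    linarith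


theorem farNum_seven : FarNum 7 := by
  have hA : AA 7 ≤ 2329 / 1000 := by
    rw [AA_seven, div_le_iff₀ (by positivity)]
    nlinarith [Real.pi_gt_d4]
  have hA1 : 1 < AA 7 := by
    rw [AA_seven]
    rw [lt_div_iff₀ (by positivity)]
    nlinarith [Real.pi_lt_d4]
  refine farNum_of_poly (b := 1 / 2) (c₁ := 4) (c₂ := 6) (c₃ := 0) (by norm_num)
    (by norm_num) (by norm_num) ?_ hA1 ?_ ?_
  · have h := le_rpow_half (A := 2329 / 1000) (x := 1 + (1 / 2 : ℝ) ^ 2) (n := 8) (by norm_num) (by norm_num)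
    refine hA.trans (h.trans (le_of_eq ?_))
    norm_num
  · intro y hy _
    refine le_trans (le_of_eq ?_) (low2 (m := 7) (by norm_num) y hy)
    norm_num
  · intro τ h0 h1
    obtain ⟨s, hs⟩ : ∃ s : ℝ, s = 1 / 2 - τ := ⟨_, rfl⟩
    have hs0 : 0 ≤ s := by rw [hs]; linarith
    have hpos : 0 ≤ τ ^ 2 * ((13368 / 125 : ℝ) * s ^ 6
        + (52208 / 125 : ℝ) * τ * s ^ 5
        + (49162 / 75 : ℝ) * τ ^ 2 * s ^ 4
        + (39166 / 75 : ℝ) * τ ^ 3 * s ^ 3
        + (22671 / 100 : ℝ) * τ ^ 4 * s ^ 2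
        + (1256419 / 21000 : ℝ) * τ ^ 5 * s
        + (7191593 / 672000 : ℝ) * τ ^ 6) := by positivity
    have hAt : AA 7 * τ ^ 2 ≤ 2329 / 1000 * τ ^ 2 := mul_le_mul_of_nonneg_right hA (sq_nonneg τ)
    have hkey : (((7 : ℕ) : ℝ) + 1) / ((7 : ℕ) : ℝ) *
        ((1 - 1 / 2) * τ - ((1 - 1 / 2 * τ) ^ (7 + 1) - (1 - τ) ^ (7 + 1)) / (((7 : ℕ) : ℝ) + 1))
      - (2329 / 1000) * τ ^ 2 + τ ^ 2 * (1 + 4 / 3 * τ ^ 2 + 6 / 5 * τ ^ 4 + 0 / 7 * τ ^ 6)
        = τ ^ 2 * ((13368 / 125 : ℝ) * s ^ 6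
        + (52208 / 125 : ℝ) * τ * s ^ 5
        + (49162 / 75 : ℝ) * τ ^ 2 * s ^ 4
        + (39166 / 75 : ℝ) * τ ^ 3 * s ^ 3
        + (22671 / 100 : ℝ) * τ ^ 4 * s ^ 2
        + (1256419 / 21000 : ℝ) * τ ^ 5 * s
        + (7191593 / 672000 : ℝ) * τ ^ 6) := by
      rw [hs]
      push_cast
      ring
    have h2 := hkey.symm ▸ hpos
    linarith


theorem farNum_eight : FarNum 8 := by
  have hA : AA 8 ≤ 315 / 128 := by
    rw [AA_eight]
  have hA1 : 1 < AA 8 := by
    rw [AA_eight]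
    norm_num
  refine farNum_of_poly (b := 12 / 25) (c₁ := 9 / 2) (c₂ := 63 / 8) (c₃ := 0) (by norm_num)
    (by norm_num) (by norm_num) ?_ hA1 ?_ ?_
  · have h := le_rpow_half (A := 315 / 128) (x := 1 + (12 / 25 : ℝ) ^ 2) (n := 9) (by norm_num) (by norm_num)
    refine hA.trans (h.trans (le_of_eq ?_))
    norm_num
  · intro y hy _
    refine le_trans (le_of_eq ?_) (low2 (m := 8) (by norm_num) y hy)
    norm_num
  · intro τ h0 h1
    obtain ⟨s, hs⟩ : ∃ s : ℝ, s = 12 / 25 - τ := ⟨_, rfl⟩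
    have hs0 : 0 ≤ s := by rw [hs]; linarith
    have hpos : 0 ≤ τ ^ 2 * ((1564267578125 / 4586471424 : ℝ) * s ^ 7
        + (7447829046875 / 4586471424 : ℝ) * τ * s ^ 6
        + (4930620515675 / 1528823808 : ℝ) * τ ^ 2 * s ^ 5
        + (391627774758511 / 114661785600 : ℝ) * τ ^ 3 * s ^ 4
        + (147570198597432319 / 71663616000000 : ℝ) * τ ^ 4 * s ^ 3
        + (10757023012426577027 / 14929920000000000 : ℝ) * τ ^ 5 * s ^ 2
        + (4422567869278969205459 / 27993600000000000000 : ℝ) * τ ^ 6 * s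
        + (408726940110156587275781 / 17496000000000000000000 : ℝ) * τ ^ 7) := by positivity
    have hAt : AA 8 * τ ^ 2 ≤ 315 / 128 * τ ^ 2 := mul_le_mul_of_nonneg_right hA (sq_nonneg τ)
    have hkey : (((8 : ℕ) : ℝ) + 1) / ((8 : ℕ) : ℝ) *
        ((1 - 12 / 25) * τ - ((1 - 12 / 25 * τ) ^ (8 + 1) - (1 - τ) ^ (8 + 1)) / (((8 : ℕ) : ℝ) + 1))
      - (315 / 128) * τ ^ 2 + τ ^ 2 * (1 + 9 / 2 / 3 * τ ^ 2 + 63 / 8 / 5 * τ ^ 4 + 0 / 7 * τ ^ 6)
        = τ ^ 2 * ((1564267578125 / 4586471424 : ℝ) * s ^ 7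
        + (7447829046875 / 4586471424 : ℝ) * τ * s ^ 6
        + (4930620515675 / 1528823808 : ℝ) * τ ^ 2 * s ^ 5
        + (391627774758511 / 114661785600 : ℝ) * τ ^ 3 * s ^ 4
        + (147570198597432319 / 71663616000000 : ℝ) * τ ^ 4 * s ^ 3
        + (10757023012426577027 / 14929920000000000 : ℝ) * τ ^ 5 * s ^ 2
        + (4422567869278969205459 / 27993600000000000000 : ℝ) * τ ^ 6 * s
        + (408726940110156587275781 / 17496000000000000000000 : ℝ) * τ ^ 7) := by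
      rw [hs]
      push_cast
      ring
    have h2 := hkey.symm ▸ hpos
    linarith


theorem farNum_nine : FarNum 9 := by
  have hA : AA 9 ≤ 2587 / 1000 := by
    rw [AA_nine, div_le_iff₀ (by positivity)]
    nlinarith [Real.pi_gt_d4]
  have hA1 : 1 < AA 9 := by
    rw [AA_nine]
    rw [lt_div_iff₀ (by positivity)]
    nlinarith [Real.pi_lt_d4]
  refine farNum_of_poly (b := 23 / 50) (c₁ := 5) (c₂ := 10) (c₃ := 0) (by norm_num)
    (by norm_num) (by norm_num) ?_ hA1 ?_ ?_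
  · have h := le_rpow_half (A := 2587 / 1000) (x := 1 + (23 / 50 : ℝ) ^ 2) (n := 10) (by norm_num) (by norm_num)
    refine hA.trans (h.trans (le_of_eq ?_))
    norm_num
  · intro y hy _
    refine le_trans (le_of_eq ?_) (low2 (m := 9) (by norm_num) y hy)
    norm_num
  · intro τ h0 h1
    obtain ⟨s, hs⟩ : ∃ s : ℝ, s = 23 / 50 - τ := ⟨_, rfl⟩
    have hs0 : 0 ≤ s := by rw [hs]; linarith
    have hpos : 0 ≤ τ ^ 2 * ((91992187500000 / 78310985281 : ℝ) * s ^ 8
        + (519674250000000 / 78310985281 : ℝ) * τ * s ^ 7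
        + (3779831094425000 / 234932955843 : ℝ) * τ ^ 2 * s ^ 6
        + (1693796896437868 / 78310985281 : ℝ) * τ ^ 3 * s ^ 5
        + (340724036489919819 / 19577746320250 : ℝ) * τ ^ 4 * s ^ 4
        + (311612271168199412821 / 36708274350468750 : ℝ) * τ ^ 5 * s ^ 3
        + (609312158990489792670191 / 244721829003125000000 : ℝ) * τ ^ 6 * s ^ 2
        + (140360563461846952094771829 / 305902286253906250000000 : ℝ) * τ ^ 7 * s
        + (1281173113502203762111385824877 / 22942671469042968750000000000 : ℝ) * τ ^ 8) := by positivity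
    have hAt : AA 9 * τ ^ 2 ≤ 2587 / 1000 * τ ^ 2 := mul_le_mul_of_nonneg_right hA (sq_nonneg τ)
    have hkey : (((9 : ℕ) : ℝ) + 1) / ((9 : ℕ) : ℝ) *
        ((1 - 23 / 50) * τ - ((1 - 23 / 50 * τ) ^ (9 + 1) - (1 - τ) ^ (9 + 1)) / (((9 : ℕ) : ℝ) + 1))
      - (2587 / 1000) * τ ^ 2 + τ ^ 2 * (1 + 5 / 3 * τ ^ 2 + 10 / 5 * τ ^ 4 + 0 / 7 * τ ^ 6)
        = τ ^ 2 * ((91992187500000 / 78310985281 : ℝ) * s ^ 8
        + (519674250000000 / 78310985281 : ℝ) * τ * s ^ 7
        + (3779831094425000 / 234932955843 : ℝ) * τ ^ 2 * s ^ 6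
        + (1693796896437868 / 78310985281 : ℝ) * τ ^ 3 * s ^ 5
        + (340724036489919819 / 19577746320250 : ℝ) * τ ^ 4 * s ^ 4
        + (311612271168199412821 / 36708274350468750 : ℝ) * τ ^ 5 * s ^ 3
        + (609312158990489792670191 / 244721829003125000000 : ℝ) * τ ^ 6 * s ^ 2
        + (140360563461846952094771829 / 305902286253906250000000 : ℝ) * τ ^ 7 * s
        + (1281173113502203762111385824877 / 22942671469042968750000000000 : ℝ) * τ ^ 8) := by
      rw [hs]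
      push_cast
      ring
    have h2 := hkey.symm ▸ hpos
    linarith


theorem farNum_ten : FarNum 10 := by
  have hA : AA 10 ≤ 693 / 256 := by
    rw [AA_ten]
  have hA1 : 1 < AA 10 := by
    rw [AA_ten]
    norm_num
  refine farNum_of_poly (b := 9 / 20) (c₁ := 11 / 2) (c₂ := 99 / 8) (c₃ := 0) (by norm_num)
    (by norm_num) (by norm_num) ?_ hA1 ?_ ?_
  · have h := le_rpow_half (A := 693 / 256) (x := 1 + (9 / 20 : ℝ) ^ 2) (n := 11) (by norm_num) (by norm_num)
    refine hA.trans (h.trans (le_of_eq ?_))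
    norm_num
  · intro y hy _
    refine le_trans (le_of_eq ?_) (low2 (m := 10) (by norm_num) y hy)
    norm_num
  · intro τ h0 h1
    obtain ⟨s, hs⟩ : ∃ s : ℝ, s = 9 / 20 - τ := ⟨_, rfl⟩
    have hs0 : 0 ≤ s := by rw [hs]; linarith
    have hpos : 0 ≤ τ ^ 2 * ((1371760000000 / 387420489 : ℝ) * s ^ 9
        + (987851200000 / 43046721 : ℝ) * τ * s ^ 8
        + (2801460664000 / 43046721 : ℝ) * τ ^ 2 * s ^ 7
        + (13555209134068 / 129140163 : ℝ) * τ ^ 3 * s ^ 6
        + (450742562280641 / 4304672100 : ℝ) * τ ^ 4 * s ^ 5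
        + (22661992404503497 / 344373768000 : ℝ) * τ ^ 5 * s ^ 4
        + (21082230837989846629 / 826497043200000 : ℝ) * τ ^ 6 * s ^ 3
        + (646468816053373452739 / 110199605760000000 : ℝ) * τ ^ 7 * s ^ 2
        + (185199062781954131423741 / 220399211520000000000 : ℝ) * τ ^ 8 * s
        + (73251203668417068301596401 / 793437161472000000000000 : ℝ) * τ ^ 9) := by positivity
    have hAt : AA 10 * τ ^ 2 ≤ 693 / 256 * τ ^ 2 := mul_le_mul_of_nonneg_right hA (sq_nonneg τ)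
    have hkey : (((10 : ℕ) : ℝ) + 1) / ((10 : ℕ) : ℝ) *
        ((1 - 9 / 20) * τ - ((1 - 9 / 20 * τ) ^ (10 + 1) - (1 - τ) ^ (10 + 1)) / (((10 : ℕ) : ℝ) + 1))
      - (693 / 256) * τ ^ 2 + τ ^ 2 * (1 + 11 / 2 / 3 * τ ^ 2 + 99 / 8 / 5 * τ ^ 4 + 0 / 7 * τ ^ 6)
        = τ ^ 2 * ((1371760000000 / 387420489 : ℝ) * s ^ 9
        + (987851200000 / 43046721 : ℝ) * τ * s ^ 8
        + (2801460664000 / 43046721 : ℝ) * τ ^ 2 * s ^ 7
        + (13555209134068 / 129140163 : ℝ) * τ ^ 3 * s ^ 6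
        + (450742562280641 / 4304672100 : ℝ) * τ ^ 4 * s ^ 5
        + (22661992404503497 / 344373768000 : ℝ) * τ ^ 5 * s ^ 4
        + (21082230837989846629 / 826497043200000 : ℝ) * τ ^ 6 * s ^ 3
        + (646468816053373452739 / 110199605760000000 : ℝ) * τ ^ 7 * s ^ 2
        + (185199062781954131423741 / 220399211520000000000 : ℝ) * τ ^ 8 * s
        + (73251203668417068301596401 / 793437161472000000000000 : ℝ) * τ ^ 9) := by
      rw [hs]
      push_cast
      ring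
    have h2 := hkey.symm ▸ hpos
    linarith


theorem farNum_eleven : FarNum 11 := by
  have hA : AA 11 ≤ 14111 / 5000 := by
    rw [AA_eleven, div_le_iff₀ (by positivity)]
    nlinarith [Real.pi_gt_d4]
  have hA1 : 1 < AA 11 := by
    rw [AA_eleven]
    rw [lt_div_iff₀ (by positivity)]
    nlinarith [Real.pi_lt_d4]
  refine farNum_of_poly (b := 87 / 200) (c₁ := 6) (c₂ := 15) (c₃ := 0) (by norm_num)
    (by norm_num) (by norm_num) ?_ hA1 ?_ ?_
  · have h := le_rpow_half (A := 14111 / 5000) (x := 1 + (87 / 200 : ℝ) ^ 2) (n := 12) (by norm_num) (by norm_num)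
    refine hA.trans (h.trans (le_of_eq ?_))
    norm_num
  · intro y hy _
    refine le_trans (le_of_eq ?_) (low2 (m := 11) (by norm_num) y hy)
    norm_num
  · intro τ h0 h1
    obtain ⟨s, hs⟩ : ∃ s : ℝ, s = 87 / 200 - τ := ⟨_, rfl⟩
    have hs0 : 0 ≤ s := by rw [hs]; linarith
    have hpos : 0 ≤ τ ^ 2 * ((34616320000000000000000 / 2760260157682618761 : ℝ) * s ^ 10
        + (765973231360000000000000 / 8280780473047856283 : ℝ) * τ * s ^ 9
        + (837905404471928000000000 / 2760260157682618761 : ℝ) * τ ^ 2 * s ^ 8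
        + (1599142429604363878720000 / 2760260157682618761 : ℝ) * τ ^ 3 * s ^ 7
        + (648560121238439270354692 / 920086719227539587 : ℝ) * τ ^ 4 * s ^ 6
        + (7772543823373768563994898081 / 13801300788413093805000 : ℝ) * τ ^ 5 * s ^ 5
        + (258834614384949145898918539664911 / 883283250458438003520000000 : ℝ) * τ ^ 6 * s ^ 4
        + (840664135721195546267536351096969849 / 8832832504584380035200000000000 : ℝ) * τ ^ 7 * s ^ 3
        + (63395037715801158278399414207277487518757 / 3533133001833752014080000000000000000 : ℝ) * τ ^ 8 * s ^ 2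
        + (1516689387189288925622630602156216197720808267 / 777289260403425443097600000000000000000000 : ℝ) * τ ^ 9 * s
        + (65115500625090358996673950978528247508283532907077 / 373098844993644212686848000000000000000000000000 : ℝ) * τ ^ 10) := by positivity
    have hAt : AA 11 * τ ^ 2 ≤ 14111 / 5000 * τ ^ 2 := mul_le_mul_of_nonneg_right hA (sq_nonneg τ)
    have hkey : (((11 : ℕ) : ℝ) + 1) / ((11 : ℕ) : ℝ) *
        ((1 - 87 / 200) * τ - ((1 - 87 / 200 * τ) ^ (11 + 1) - (1 - τ) ^ (11 + 1)) / (((11 : ℕ) : ℝ) + 1))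
      - (14111 / 5000) * τ ^ 2 + τ ^ 2 * (1 + 6 / 3 * τ ^ 2 + 15 / 5 * τ ^ 4 + 0 / 7 * τ ^ 6)
        = τ ^ 2 * ((34616320000000000000000 / 2760260157682618761 : ℝ) * s ^ 10
        + (765973231360000000000000 / 8280780473047856283 : ℝ) * τ * s ^ 9
        + (837905404471928000000000 / 2760260157682618761 : ℝ) * τ ^ 2 * s ^ 8
        + (1599142429604363878720000 / 2760260157682618761 : ℝ) * τ ^ 3 * s ^ 7
        + (648560121238439270354692 / 920086719227539587 : ℝ) * τ ^ 4 * s ^ 6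
        + (7772543823373768563994898081 / 13801300788413093805000 : ℝ) * τ ^ 5 * s ^ 5
        + (258834614384949145898918539664911 / 883283250458438003520000000 : ℝ) * τ ^ 6 * s ^ 4
        + (840664135721195546267536351096969849 / 8832832504584380035200000000000 : ℝ) * τ ^ 7 * s ^ 3
        + (63395037715801158278399414207277487518757 / 3533133001833752014080000000000000000 : ℝ) * τ ^ 8 * s ^ 2
        + (1516689387189288925622630602156216197720808267 / 777289260403425443097600000000000000000000 : ℝ) * τ ^ 9 * s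
        + (65115500625090358996673950978528247508283532907077 / 373098844993644212686848000000000000000000000000 : ℝ) * τ ^ 10) := by
      rw [hs]
      push_cast
      ring
    have h2 := hkey.symm ▸ hpos
    linarith


theorem farNum_twelve : FarNum 12 := by
  have hA : AA 12 ≤ 3003 / 1024 := by
    rw [AA_twelve]
  have hA1 : 1 < AA 12 := by
    rw [AA_twelve]
    norm_num
  refine farNum_of_poly (b := 17 / 40) (c₁ := 13 / 2) (c₂ := 143 / 8) (c₃ := 429 / 16) (by norm_num)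
    (by norm_num) (by norm_num) ?_ hA1 ?_ ?_
  · have h := le_rpow_half (A := 3003 / 1024) (x := 1 + (17 / 40 : ℝ) ^ 2) (n := 13) (by norm_num) (by norm_num)
    refine hA.trans (h.trans (le_of_eq ?_))
    norm_num
  · intro y hy _
    have h := pow_lower3 (p := (((12 : ℕ) : ℝ) + 1) / 2) (y := y) (by norm_num) hy
    refine le_trans (le_of_eq ?_) h
    norm_num
  · intro τ h0 h1
    obtain ⟨s, hs⟩ : ∃ s : ℝ, s = 17 / 40 - τ := ⟨_, rfl⟩
    have hs0 : 0 ≤ s := by rw [hs]; linarith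
    have hpos : 0 ≤ τ ^ 2 * ((1423261696000000000 / 34271896307633 : ℝ) * s ^ 11
        + (35200606453760000000 / 102815688922899 : ℝ) * τ * s ^ 10
        + (130760539498624000000 / 102815688922899 : ℝ) * τ ^ 2 * s ^ 9
        + (95705365131747024000 / 34271896307633 : ℝ) * τ ^ 3 * s ^ 8
        + (136858558175585623720 / 34271896307633 : ℝ) * τ ^ 4 * s ^ 7
        + (5289186966562271617423 / 1370875852305320 : ℝ) * τ ^ 5 * s ^ 6
        + (154980087833259231099272613 / 61415238183278336000 : ℝ) * τ ^ 6 * s ^ 5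
        + (63935674531345630627182131881 / 58958628655947202560000 : ℝ) * τ ^ 7 * s ^ 4
        + (67173146174589055295147774895991 / 235834514623788810240000000 : ℝ) * τ ^ 8 * s ^ 3
        + (5025698990051761480346197535331291 / 125778407799354032128000000000 : ℝ) * τ ^ 9 * s ^ 2
        + (3539501429913830599409781768819322501 / 1207472714873798708428800000000000 : ℝ) * τ ^ 10 * s
        + (694150795443464538360374411917087061447 / 1931956343798077933486080000000000000 : ℝ) * τ ^ 11) := by positivity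
    have hAt : AA 12 * τ ^ 2 ≤ 3003 / 1024 * τ ^ 2 := mul_le_mul_of_nonneg_right hA (sq_nonneg τ)
    have hkey : (((12 : ℕ) : ℝ) + 1) / ((12 : ℕ) : ℝ) *
        ((1 - 17 / 40) * τ - ((1 - 17 / 40 * τ) ^ (12 + 1) - (1 - τ) ^ (12 + 1)) / (((12 : ℕ) : ℝ) + 1))
      - (3003 / 1024) * τ ^ 2 + τ ^ 2 * (1 + 13 / 2 / 3 * τ ^ 2 + 143 / 8 / 5 * τ ^ 4 + 429 / 16 / 7 * τ ^ 6)
        = τ ^ 2 * ((1423261696000000000 / 34271896307633 : ℝ) * s ^ 11
        + (35200606453760000000 / 102815688922899 : ℝ) * τ * s ^ 10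
        + (130760539498624000000 / 102815688922899 : ℝ) * τ ^ 2 * s ^ 9
        + (95705365131747024000 / 34271896307633 : ℝ) * τ ^ 3 * s ^ 8
        + (136858558175585623720 / 34271896307633 : ℝ) * τ ^ 4 * s ^ 7
        + (5289186966562271617423 / 1370875852305320 : ℝ) * τ ^ 5 * s ^ 6
        + (154980087833259231099272613 / 61415238183278336000 : ℝ) * τ ^ 6 * s ^ 5
        + (63935674531345630627182131881 / 58958628655947202560000 : ℝ) * τ ^ 7 * s ^ 4
        + (67173146174589055295147774895991 / 235834514623788810240000000 : ℝ) * τ ^ 8 * s ^ 3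
        + (5025698990051761480346197535331291 / 125778407799354032128000000000 : ℝ) * τ ^ 9 * s ^ 2
        + (3539501429913830599409781768819322501 / 1207472714873798708428800000000000 : ℝ) * τ ^ 10 * s
        + (694150795443464538360374411917087061447 / 1931956343798077933486080000000000000 : ℝ) * τ ^ 11) := by
      rw [hs]
      push_cast
      ring
    have h2 := hkey.symm ▸ hpos
    linarith


end

end Pool.Agent.SausN
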