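import Pool.Agent.Lib.MP_5a9905_co_NC.Defs

set_option autoImplicit false

open MeasureTheory

namespace Pool.Agent.SausN

open Pool.Agent.Saus (E kap Loc Vor)

namespace FiMAux

/-- The integration domain of `FI`. -/
def dom {d m : ℕ} (Y : Finset (E d)) (c : E d) (J : E m →ₗᵢ[ℝ] E d) (R : ℝ) : Set (E m) :=
  {v : E m | ‖c‖ ^ 2 + ‖v‖ ^ 2 < R ∧ ∀ y ∈ Y, inner ℝ y (c + J v) ≤ ‖y‖ ^ 2 / 2}

theorem dom_meas {d m : ℕ} (Y : Finset (E d)) (c : E d) (J : E m →ₗᵢ[ℝ] E d) (R : ℝ) :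
    MeasurableSet (dom Y c J R) := by
  have h1 : MeasurableSet {v : E m | ‖c‖ ^ 2 + ‖v‖ ^ 2 < R} := by
    apply IsOpen.measurableSet
    exact isOpen_lt (by fun_prop) continuous_const
  have h2 : MeasurableSet {v : E m | ∀ y ∈ Y, inner ℝ y (c + J v) ≤ ‖y‖ ^ 2 / 2} := by
    apply IsClosed.measurableSet
    have : {v : E m | ∀ y ∈ Y, inner ℝ y (c + J v) ≤ ‖y‖ ^ 2 / 2}
        = ⋂ y ∈ Y, {v : E m | inner ℝ y (c + J v) ≤ ‖y‖ ^ 2 / 2} := by
      ext v; simp
    rw [this]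
    refine isClosed_biInter fun y _ => ?_
    have hJ : Continuous (fun v : E m => J v) := J.continuous
    exact isClosed_le (by fun_prop) continuous_const
  exact h1.inter h2

theorem integrable_of_cont {d m : ℕ} {Y : Finset (E d)} {c : E d} {J : E m →ₗᵢ[ℝ] E d} {R : ℝ}
    {f : ℝ → ℝ} (hf : ContinuousOn f (Set.Icc (‖c‖ ^ 2) R)) :
    IntegrableOn (fun v : E m => f (‖c‖ ^ 2 + ‖v‖ ^ 2)) (dom Y c J R) := by
  rcases le_or_gt R (‖c‖ ^ 2) with hR | hR
  · have : dom Y c J R = ∅ := by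
      ext v
      simp only [dom, Set.mem_ofPred_eq, Set.mem_empty_iff_false, iff_false, not_and]
      intro h
      nlinarith [sq_nonneg ‖v‖]
    rw [this]
    exact integrableOn_empty
  · set K : Set (E m) := Metric.closedBall (0 : E m) (√(R - ‖c‖ ^ 2)) with hK
    have hKc : IsCompact K := isCompact_closedBall _ _
    have hcont : ContinuousOn (fun v : E m => f (‖c‖ ^ 2 + ‖v‖ ^ 2)) K := by
      refine hf.comp (by fun_prop) ?_
      intro v hv
      rw [hK, mem_closedBall_zero_iff] at hv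
      have h1 : ‖v‖ ^ 2 ≤ R - ‖c‖ ^ 2 := by
        have := pow_le_pow_left₀ (norm_nonneg v) hv 2
        rwa [Real.sq_sqrt (by linarith)] at this
      constructor
      · nlinarith [sq_nonneg ‖v‖]
      · linarith
    have hint : IntegrableOn (fun v : E m => f (‖c‖ ^ 2 + ‖v‖ ^ 2)) K :=
      hcont.integrableOn_compact hKc
    refine hint.mono_set ?_
    intro v hv
    rw [hK, mem_closedBall_zero_iff]
    apply Real.le_sqrt_of_sq_le
    have := hv.1
    linarith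

end FiMAux

open FiMAux in
/-- Monotonicity of `FI`. -/
theorem FI_nonneg_of_le {d m : ℕ} {Y : Finset (E d)} {c : E d} {J : E m →ₗᵢ[ℝ] E d} {R : ℝ}
    {f g : ℝ → ℝ} (hf : ContinuousOn f (Set.Icc (‖c‖ ^ 2) R))
    (hg : ContinuousOn g (Set.Icc (‖c‖ ^ 2) R))
    (h : ∀ X, ‖c‖ ^ 2 ≤ X → X ≤ R → f X ≤ g X) (h0 : 0 ≤ FI Y c J R f) : 0 ≤ FI Y c J R g := by
  refine h0.trans ?_
  refine setIntegral_mono_on (integrable_of_cont (Y := Y) (J := J) hf)
    (integrable_of_cont (Y := Y) (J := J) hg) (dom_meas Y c J R) ?_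
  intro v hv
  apply h
  · nlinarith [sq_nonneg ‖v‖]
  · exact hv.1.le

end Pool.Agent.SausN
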