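import Pool.Agent.Lib.MP_5a9905_co_NC.Defs

set_option autoImplicit false

open MeasureTheory Finset

namespace Pool.Agent.SausN

open Pool.Agent.Saus (E kap Loc Vor)

noncomputable section

namespace FlRAux

theorem pair_le {d : ℕ} {Y S : Finset (E d)} (hY : Sep Y) (hS : S ⊆ Y) [DecidableEq (E d)]
    {w w' : E d} (hw : w ∈ S) (hw' : w' ∈ S) :
    inner ℝ w w' ≤ (‖w‖ ^ 2 + ‖w'‖ ^ 2) / 2 - 2 + (if w = w' then (2 : ℝ) else 0) := by
  by_cases h : w = w'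
  · subst h
    rw [if_pos rfl, real_inner_self_eq_norm_sq]
    linarith
  · rw [if_neg h]
    have h1 := hY.sep w (hS hw) w' (hS hw') h
    have h2 : (4 : ℝ) ≤ ‖w - w'‖ ^ 2 := by nlinarith [norm_nonneg (w - w')]
    have h3 := norm_sub_sq_real w w'
    linarith

end FlRAux

theorem fl_radius {d : ℕ} {Y S : Finset (E d)} (hY : Sep Y) (hS : S ⊆ Y) {z : E d}
    (hz : ∀ w ∈ S, inner ℝ w z = ‖w‖ ^ 2 / 2) :
    2 * (S.card : ℝ) / (S.card + 1) ≤ ‖z‖ ^ 2 := by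
  classical
  have hk : (0 : ℝ) ≤ (S.card : ℝ) := Nat.cast_nonneg _
  have hss : inner ℝ (∑ w ∈ S, w) (∑ w ∈ S, w) ≤
      (S.card : ℝ) * (∑ w ∈ S, ‖w‖ ^ 2) - 2 * (S.card : ℝ) ^ 2 + 2 * (S.card : ℝ) := by
    rw [sum_inner]
    simp_rw [inner_sum]
    calc ∑ w ∈ S, ∑ w' ∈ S, inner ℝ w w'
        ≤ ∑ w ∈ S, ∑ w' ∈ S,
          ((‖w‖ ^ 2 + ‖w'‖ ^ 2) / 2 - 2 + (if w = w' then (2 : ℝ) else 0)) := by
          apply Finset.sum_le_sum
          intro w hw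
          apply Finset.sum_le_sum
          intro w' hw'
          exact FlRAux.pair_le hY hS hw hw'
      _ = (S.card : ℝ) * (∑ w ∈ S, ‖w‖ ^ 2) - 2 * (S.card : ℝ) ^ 2 + 2 * (S.card : ℝ) := by
          have e1 : ∀ w ∈ S, ∑ w' ∈ S,
              ((‖w‖ ^ 2 + ‖w'‖ ^ 2) / 2 - 2 + (if w = w' then (2 : ℝ) else 0))
              = (S.card : ℝ) * ‖w‖ ^ 2 / 2 + (∑ w' ∈ S, ‖w'‖ ^ 2) / 2 - 2 * (S.card : ℝ) + 2 := by
            intro w hw
            rw [Finset.sum_add_distrib, Finset.sum_sub_distrib, Finset.sum_ite_eq, if_pos hw,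
              ← Finset.sum_div, Finset.sum_add_distrib, Finset.sum_const, Finset.sum_const,
              nsmul_eq_mul, nsmul_eq_mul]
            ring
          rw [Finset.sum_congr rfl e1, Finset.sum_add_distrib, Finset.sum_sub_distrib,
            Finset.sum_add_distrib, Finset.sum_const, Finset.sum_const, Finset.sum_const,
            nsmul_eq_mul, nsmul_eq_mul, nsmul_eq_mul, ← Finset.sum_div, ← Finset.mul_sum]
          ring
  have hsz : inner ℝ (∑ w ∈ S, w) z = (∑ w ∈ S, ‖w‖ ^ 2) / 2 := by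
    rw [sum_inner, Finset.sum_congr rfl hz, Finset.sum_div]
  have hQ : 4 * (S.card : ℝ) ≤ ∑ w ∈ S, ‖w‖ ^ 2 := by
    have h : ∑ _w ∈ S, (4 : ℝ) ≤ ∑ w ∈ S, ‖w‖ ^ 2 := by
      apply Finset.sum_le_sum
      intro w hw
      have := hY.far w (hS hw)
      nlinarith
    rw [Finset.sum_const, nsmul_eq_mul] at h
    linarith
  have h0 : 0 ≤ ‖(∑ w ∈ S, w) - ((S.card : ℝ) + 1) • z‖ ^ 2 := by positivity
  rw [norm_sub_sq_real, inner_smul_right, hsz, norm_smul, mul_pow, ← real_inner_self_eq_norm_sq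
    (∑ w ∈ S, w), Real.norm_of_nonneg (by linarith)] at h0
  rw [div_le_iff₀ (by linarith)]
  have h1 : 0 < (S.card : ℝ) + 1 := by linarith
  have h2 : 2 * (S.card : ℝ) * ((S.card : ℝ) + 1) ≤ ‖z‖ ^ 2 * ((S.card : ℝ) + 1) *
      ((S.card : ℝ) + 1) := by
    nlinarith
  exact le_of_mul_le_mul_right h2 h1

end

end Pool.Agent.SausN
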