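import Pool.Agent.Lib.MP_5a9905_co_NC.Defs
import Pool.Agent.Lib.MP_5a9905_co_NC.Jex
import Pool.Agent.Lib.MP_5a9905_co_NC.Level
import Pool.Agent.Lib.MP_5a9905_co_NC.FlS
import Pool.Agent.Lib.MP_5a9905_co_NC.FlN

set_option autoImplicit false

open MeasureTheory Finset

namespace Pool.Agent.SausN

open Pool.Agent.Saus (E kap Loc Vor)

noncomputable section

/-- Measurability of the polyhedral domains. -/
theorem FlVAux.meas_dom {n m : ℕ} (B : Finset (E n)) (a : ℝ) (K : ℝ) (u : E n)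
    (J : E m →ₗᵢ[ℝ] E n) :
    MeasurableSet {v : E m | K + ‖v‖ ^ 2 < a ∧ ∀ b ∈ B, inner ℝ (u + J v) b ≤ 1} := by
  have h1 : MeasurableSet {v : E m | K + ‖v‖ ^ 2 < a} :=
    (isOpen_lt (by fun_prop) (by fun_prop)).measurableSet
  have h2 : MeasurableSet {v : E m | ∀ b ∈ B, inner ℝ (u + J v) b ≤ 1} := by
    have : {v : E m | ∀ b ∈ B, inner ℝ (u + J v) b ≤ 1}
        = ⋂ b ∈ B, {v : E m | inner ℝ (u + J v) b ≤ 1} := by
      ext v; simp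
    rw [this]
    refine Finset.measurableSet_biInter _ (fun b _ => ?_)
    have hJc : Continuous fun v : E m => J v := J.continuous
    exact (isClosed_le (by fun_prop) (by fun_prop)).measurableSet
  exact h1.inter h2

theorem flat_step {d m : ℕ} {Y S : Finset (E d)} {c : E d} {J : E (m + 1) →ₗᵢ[ℝ] E d}
    (hY : Sep Y) (hF : IsFl Y S c J) {R : ℝ} (hR : R ≤ 2) (hcR : ‖c‖ ^ 2 < R) {f : ℝ → ℝ}
    (hf : Continuous f)
    (ha : 0 ≤ ∫ r in (0 : ℝ)..√(R - ‖c‖ ^ 2), f (‖c‖ ^ 2 + r ^ 2) * r ^ m)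
    (hb : ∀ y ∈ Y, y ∉ S → ∀ (c' : E d) (J' : E m →ₗᵢ[ℝ] E d), IsFl Y (insert y S) c' J' →
      ‖c‖ ^ 2 < ‖c'‖ ^ 2 → ‖c'‖ ^ 2 < R →
      0 ≤ FI Y c' J' R (fun X => ∫ τ in (0 : ℝ)..1, f (‖c‖ ^ 2 + τ ^ 2 * (X - ‖c‖ ^ 2)) * τ ^ m)) :
    0 ≤ FI Y c J R f := by
  classical
  have hc2 : ‖c‖ ^ 2 < 2 := lt_of_lt_of_le hcR hR
  obtain ⟨s₀, hs₀⟩ : ∃ s₀ : ℝ, s₀ = √(R - ‖c‖ ^ 2) := ⟨_, rfl⟩
  have hs0pos : 0 < s₀ := by rw [hs₀]; exact Real.sqrt_pos.2 (by linarith)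
  have hs0sq : s₀ ^ 2 = R - ‖c‖ ^ 2 := by rw [hs₀]; exact Real.sq_sqrt (by linarith)
  rw [← hs₀] at ha
  have hκ : ∀ y ∈ Y, y ∉ S → 0 < ‖y‖ ^ 2 / 2 - inner ℝ y c := fun y hy hyS => by
    have := fl_strict hY hF hc2 hy hyS
    linarith
  obtain ⟨bb, hbb⟩ : ∃ bb : E d → E (m + 1), ∀ y v,
      inner ℝ (bb y) v = (‖y‖ ^ 2 / 2 - inner ℝ y c)⁻¹ * inner ℝ y (J v) := by
    refine ⟨fun y => (‖y‖ ^ 2 / 2 - inner ℝ y c)⁻¹ •
      (ContinuousLinearMap.adjoint J.toContinuousLinearMap y), fun y v => ?_⟩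
    rw [real_inner_smul_left, ContinuousLinearMap.adjoint_inner_left]
    rfl
  obtain ⟨B, hB⟩ : ∃ B : Finset (E (m + 1)), B = (Y.filter (fun y => y ∉ S)).image bb := ⟨_, rfl⟩
  have hdom : ∀ u : E (m + 1), (∀ b' ∈ B, inner ℝ u b' ≤ 1) ↔
      ∀ y ∈ Y, inner ℝ y (c + J u) ≤ ‖y‖ ^ 2 / 2 := by
    intro u
    rw [hB]
    constructor
    · intro h y hy
      rw [inner_add_right]
      by_cases hyS : y ∈ S
      · rw [hF.mid y hyS, hF.orthS y hyS, add_zero]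
      · have h1 := h (bb y) (Finset.mem_image_of_mem _ (Finset.mem_filter.2 ⟨hy, hyS⟩))
        rw [real_inner_comm, hbb] at h1
        have h2 := hκ y hy hyS
        rw [inv_mul_le_iff₀ h2, mul_one] at h1
        linarith
    · intro h b' hb'
      obtain ⟨y, hy, rfl⟩ := Finset.mem_image.1 hb'
      obtain ⟨hy, hyS⟩ := Finset.mem_filter.1 hy
      have h1 := h y hy
      rw [inner_add_right] at h1
      rw [real_inner_comm, hbb, inv_mul_le_iff₀ (hκ y hy hyS), mul_one]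
      linarith
  obtain ⟨fh, hfh⟩ : ∃ fh : ℝ → ℝ, ∀ x, fh x = if x < s₀ ^ 2 then f (‖c‖ ^ 2 + x) else 0 :=
    ⟨_, fun _ => rfl⟩
  have hind : (fun v : E (m + 1) => fh (‖v‖ ^ 2))
      = Set.indicator {v : E (m + 1) | ‖v‖ ^ 2 < s₀ ^ 2} (fun v => f (‖c‖ ^ 2 + ‖v‖ ^ 2)) := by
    funext v
    rw [hfh, Set.indicator_apply]
    rfl
  have hmeas0 : MeasurableSet {v : E (m + 1) | ‖v‖ ^ 2 < s₀ ^ 2} :=
    (isOpen_lt (by fun_prop) (by fun_prop)).measurableSet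
  have hint : Integrable (fun v : E (m + 1) => fh (‖v‖ ^ 2)) := by
    rw [hind, integrable_indicator_iff hmeas0]
    have hsub : {v : E (m + 1) | ‖v‖ ^ 2 < s₀ ^ 2} ⊆ Metric.closedBall (0 : E (m + 1)) s₀ := by
      intro v hv
      rw [mem_closedBall_zero_iff]
      exact le_of_lt (lt_of_pow_lt_pow_left₀ 2 hs0pos.le hv)
    refine IntegrableOn.mono_set ?_ hsub
    exact ContinuousOn.integrableOn_compact (isCompact_closedBall _ _)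
      (hf.comp (by fun_prop)).continuousOn
  have hFI : FI Y c J R f = ∫ v in QS B, fh (‖v‖ ^ 2) := by
    rw [hind, setIntegral_indicator hmeas0]
    unfold FI
    congr 2
    ext v
    constructor
    · rintro ⟨h1, h2⟩
      refine ⟨(hdom v).2 h2, ?_⟩
      show ‖v‖ ^ 2 < s₀ ^ 2
      linarith
    · rintro ⟨h1, h2⟩
      have h2' : ‖v‖ ^ 2 < s₀ ^ 2 := h2
      refine ⟨by linarith, (hdom v).1 h1⟩
  rw [hFI]
  refine level_step B hint hs0pos.le ?_ ?_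
  · intro s hs hs1
    have hE : ∫ r in (0 : ℝ)..s, fh (r ^ 2) * r ^ m
        = ∫ r in (0 : ℝ)..s₀, f (‖c‖ ^ 2 + r ^ 2) * r ^ m := by
      rw [intervalIntegral.integral_of_le hs1.le, intervalIntegral.integral_of_le hs0pos.le,
        integral_Ioc_eq_integral_Ioo (y := s₀)]
      have h1 : ∫ r in Set.Ioc 0 s, fh (r ^ 2) * r ^ m
          = ∫ r in Set.Ioc 0 s, Set.indicator (Set.Iio s₀)
              (fun r => f (‖c‖ ^ 2 + r ^ 2) * r ^ m) r := by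
        refine setIntegral_congr_fun measurableSet_Ioc (fun r hr => ?_)
        show fh (r ^ 2) * r ^ m = _
        rw [hfh, Set.indicator_apply]
        by_cases hrs : r < s₀
        · have : r ^ 2 < s₀ ^ 2 := pow_lt_pow_left₀ hrs hr.1.le (by norm_num)
          rw [if_pos this, if_pos (show r ∈ Set.Iio s₀ from hrs)]
        · have : ¬ r ^ 2 < s₀ ^ 2 := not_lt.2 (pow_le_pow_left₀ hs0pos.le (not_lt.1 hrs) 2)
          rw [if_neg this, if_neg (show ¬ r ∈ Set.Iio s₀ from hrs), zero_mul]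
      rw [h1, setIntegral_indicator measurableSet_Iio]
      congr 2
      ext r
      simp only [Set.mem_inter_iff, Set.mem_Ioc, Set.mem_Iio, Set.mem_Ioo]
      constructor
      · rintro ⟨⟨h1, _⟩, h2⟩; exact ⟨h1, h2⟩
      · rintro ⟨h1, h2⟩; exact ⟨⟨h1, by linarith⟩, h2⟩
    rw [hE]
    exact ha
  · intro b hbB hb1 J' hJ'
    rw [hB] at hbB
    obtain ⟨y, hy, rfl⟩ := Finset.mem_image.1 hbB
    obtain ⟨hy, hyS⟩ := Finset.mem_filter.1 hy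
    have hb0 : bb y ≠ 0 := by
      intro h0
      rw [h0, norm_zero, mul_zero] at hb1
      linarith
    have hbn : 0 < ‖bb y‖ := norm_pos_iff.2 hb0
    have hκy := hκ y hy hyS
    obtain ⟨hfl, hnorm⟩ := fl_step hF hy hyS hb0 (fun v => by
      rw [hbb, mul_right_comm, inv_mul_cancel₀ hκy.ne', one_mul]) hJ'
    have hlt : 1 / ‖bb y‖ ^ 2 < s₀ ^ 2 := by
      rw [div_lt_iff₀ (by positivity), ← mul_pow]
      exact one_lt_pow₀ hb1 (by norm_num)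
    have hpos : 0 < 1 / ‖bb y‖ ^ 2 := by positivity
    have h := hb y hy hyS _ _ hfl (by rw [hnorm]; linarith) (by rw [hnorm]; linarith)
    have hE : FI Y (c + J ((1 / ‖bb y‖ ^ 2) • bb y)) (J.comp J') R
        (fun X => ∫ τ in (0 : ℝ)..1, f (‖c‖ ^ 2 + τ ^ 2 * (X - ‖c‖ ^ 2)) * τ ^ m)
      = ∫ v in {v : E m | 1 / ‖bb y‖ ^ 2 + ‖v‖ ^ 2 < s₀ ^ 2 ∧
          ∀ b' ∈ B, inner ℝ ((1 / ‖bb y‖ ^ 2) • bb y + J' v) b' ≤ 1},
        ∫ τ in (0 : ℝ)..1, fh (τ ^ 2 * (1 / ‖bb y‖ ^ 2 + ‖v‖ ^ 2)) * τ ^ m := by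
      unfold FI
      have hset : {v : E m | ‖c + J ((1 / ‖bb y‖ ^ 2) • bb y)‖ ^ 2 + ‖v‖ ^ 2 < R ∧
          ∀ y_1 ∈ Y, inner ℝ y_1 (c + J ((1 / ‖bb y‖ ^ 2) • bb y) + (J.comp J') v)
            ≤ ‖y_1‖ ^ 2 / 2}
          = {v : E m | 1 / ‖bb y‖ ^ 2 + ‖v‖ ^ 2 < s₀ ^ 2 ∧
          ∀ b' ∈ B, inner ℝ ((1 / ‖bb y‖ ^ 2) • bb y + J' v) b' ≤ 1} := by
        ext v
        have hJJ : c + J ((1 / ‖bb y‖ ^ 2) • bb y) + (J.comp J') v
            = c + J ((1 / ‖bb y‖ ^ 2) • bb y + J' v) := by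
          rw [map_add, add_assoc]
          rfl
        constructor
        · rintro ⟨h1, h2⟩
          rw [hnorm] at h1
          rw [hJJ] at h2
          exact ⟨by linarith, (hdom _).2 h2⟩
        · rintro ⟨h1, h2⟩
          refine ⟨by rw [hnorm]; linarith, ?_⟩
          rw [hJJ]
          exact (hdom _).1 h2
      rw [hset]
      refine setIntegral_congr_fun (FlVAux.meas_dom B _ _ _ _) (fun v hv => ?_)
      show (∫ τ in (0 : ℝ)..1, f (‖c‖ ^ 2 + τ ^ 2 *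
          (‖c + J ((1 / ‖bb y‖ ^ 2) • bb y)‖ ^ 2 + ‖v‖ ^ 2 - ‖c‖ ^ 2)) * τ ^ m)
        = ∫ τ in (0 : ℝ)..1, fh (τ ^ 2 * (1 / ‖bb y‖ ^ 2 + ‖v‖ ^ 2)) * τ ^ m
      refine intervalIntegral.integral_congr (fun τ hτ => ?_)
      rw [Set.uIcc_of_le (by norm_num : (0 : ℝ) ≤ 1)] at hτ
      have hv1 : 1 / ‖bb y‖ ^ 2 + ‖v‖ ^ 2 < s₀ ^ 2 := hv.1
      have h0 : 0 ≤ 1 / ‖bb y‖ ^ 2 + ‖v‖ ^ 2 := by positivity
      have hτ2 : τ ^ 2 ≤ 1 := pow_le_one₀ hτ.1 hτ.2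
      have hlt2 : τ ^ 2 * (1 / ‖bb y‖ ^ 2 + ‖v‖ ^ 2) < s₀ ^ 2 := by nlinarith
      show f _ * τ ^ m = fh _ * τ ^ m
      rw [hfh, if_pos hlt2, hnorm]
      congr 3
      ring
    rw [← hE]
    exact h

end

end Pool.Agent.SausN
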