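import Pool.Agent.Lib.MP_5a9905_co_NC.Defs
import Pool.Agent.Lib.MP_5a9905_co.Kap
import Pool.Agent.Lib.MP_5a9905_co.Voronoi

set_option autoImplicit false

open MeasureTheory

namespace Pool.Agent.SausN

open Pool.Agent.Saus (E kap Loc Vor)

namespace NConeAux

theorem Op_meas {d : ℕ} (Y : Finset (E d)) : MeasurableSet (Op Y) := by
  have e : Op Y = ⋃ y ∈ Y, {z : E d | 0 < inner ℝ y z} := by
    ext z; simp [Op]
  rw [e]
  refine MeasurableSet.biUnion (Finset.countable_toSet Y) fun y _ => ?_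
  exact (isOpen_lt continuous_const (by fun_prop)).measurableSet

theorem null_hyper {d : ℕ} {u : E d} (hu : u ≠ 0) :
    volume {z : E d | inner ℝ u z = (0 : ℝ)} = 0 := by
  have e : {z : E d | inner ℝ u z = (0 : ℝ)} = ((ℝ ∙ u)ᗮ : Submodule ℝ (E d)) := by
    ext z
    rw [Set.mem_ofPred_eq, SetLike.mem_coe, Submodule.mem_orthogonal_singleton_iff_inner_right]
  rw [e]
  refine Measure.addHaar_submodule _ _ fun ht => ?_
  have h1 : u ∈ (ℝ ∙ u)ᗮ := by rw [ht]; trivial
  rw [Submodule.mem_orthogonal_singleton_iff_inner_right] at h1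
  exact hu (inner_self_eq_zero.mp h1)

end NConeAux

open NConeAux

/-- The normal cones of different centres overlap only in a null set. -/
theorem normal_cones {d : ℕ} (X : Finset (E d)) :
    ∑ x ∈ X, volume.real (Ba d \ Op ((X.erase x).image (fun y => y - x))) ≤ kap d := by
  set N : E d → Set (E d) := fun x => Ba d \ Op ((X.erase x).image (fun y => y - x)) with hN
  have hfin : volume (Ba d) ≠ ⊤ := measure_closedBall_lt_top.ne
  have h2 : volume (⋃ x ∈ X, N x) = ∑ x ∈ X, volume (N x) := by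
    refine measure_biUnion_finset₀ ?_ fun x _ =>
      (Metric.isClosed_closedBall.measurableSet.diff (Op_meas _)).nullMeasurableSet
    intro x hx y hy hxy
    refine measure_mono_null ?_ (null_hyper (sub_ne_zero.mpr hxy.symm))
    rintro z ⟨⟨_, h3⟩, ⟨_, h4⟩⟩
    simp only [Op, Set.mem_ofPred_eq, not_exists, not_and, not_lt] at h3 h4
    have h5 := h3 (y - x) (Finset.mem_image.mpr ⟨y, Finset.mem_erase.mpr ⟨hxy.symm, hy⟩, rfl⟩)
    have h6 := h4 (x - y) (Finset.mem_image.mpr ⟨x, Finset.mem_erase.mpr ⟨hxy, hx⟩, rfl⟩)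
    rw [← neg_sub y x, inner_neg_left] at h6
    exact le_antisymm h5 (by linarith)
  have h3 : ∑ x ∈ X, volume.real (N x) = (∑ x ∈ X, volume (N x)).toReal := by
    rw [ENNReal.toReal_sum]
    · rfl
    · intro x _
      exact ne_top_of_le_ne_top hfin (measure_mono Set.sdiff_subset)
  rw [h3, ← h2]
  exact ENNReal.toReal_mono hfin (measure_mono (Set.iUnion₂_subset fun x _ => Set.sdiff_subset))

end Pool.Agent.SausN
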