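import Pool.Agent.Lib.MP_5a9905_co_NC.Defs
import Pool.Agent.Lib.MP_5a9905_co_NC.KapN
import Pool.Agent.Lib.MP_5a9905_co_NC.NCone
import Pool.Agent.Lib.MP_5a9905_co.Kap
import Pool.Agent.Lib.MP_5a9905_co.Voronoi
import Pool.Agent.Lib.MP_5a9905_co.LocX
import Pool.Agent.Lib.MP_5a9905_co.SausVol

set_option autoImplicit false

open MeasureTheory Finset

namespace Pool.Agent.SausN

open Pool.Agent.Saus (E kap Loc Vor)

noncomputable section

namespace GlobAux

theorem isOpen_Op {d : ℕ} (Y : Finset (E d)) : IsOpen (Op Y) := by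
  have e : Op Y = ⋃ y ∈ Y, {z | 0 < inner ℝ y z} := by
    ext z; simp [Op]
  rw [e]
  exact isOpen_biUnion fun y _ => isOpen_lt (by fun_prop) (by fun_prop)

theorem AA_mul (m : ℕ) : AA m * kap (m + 1) = 2 * kap m := by
  have h := Pool.Agent.Saus.kap_pos (m + 1)
  unfold AA
  field_simp

/-- The volume of a Voronoi cell inside the hull, from the inequality outside the normal cone. -/
theorem cell_bound {n : ℕ} {Y : Finset (E (n + 2))} {K : Set (E (n + 2))} (hL : Loc (n + 2) Y K)
    (hS : AA (n + 1) * volume.real (Ba (n + 2) ∩ Op Y) ≤ volume.real ((K ∩ Vor Y) ∩ Op Y)) :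
    AA (n + 1) * (kap (n + 2) - volume.real (Ba (n + 2) \ Op Y)) + volume.real (Ba (n + 2) \ Op Y)
      ≤ volume.real (K ∩ Vor Y) := by
  have hfin : volume (K ∩ Vor Y) ≠ ⊤ :=
    ne_top_of_le_ne_top hL.bounded.measure_lt_top.ne (measure_mono Set.inter_subset_left)
  have hBfin : volume (Ba (n + 2)) ≠ ⊤ := measure_closedBall_lt_top.ne
  have hm := (isOpen_Op Y).measurableSet
  have h1 : volume.real ((K ∩ Vor Y) ∩ Op Y) + volume.real ((K ∩ Vor Y) \ Op Y)
      = volume.real (K ∩ Vor Y) := measureReal_inter_add_diff hm hfin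
  have h2 : volume.real (Ba (n + 2) ∩ Op Y) + volume.real (Ba (n + 2) \ Op Y)
      = kap (n + 2) := measureReal_inter_add_diff hm hBfin
  have hsub : Ba (n + 2) ⊆ K ∩ Vor Y := by
    intro z hz
    refine ⟨hL.ball_zero hz, fun y hy => ?_⟩
    have hz1 : ‖z‖ ≤ 1 := by simpa using hz
    have hy2 := hL.far y hy
    have h3 : inner ℝ y z ≤ ‖y‖ * ‖z‖ := real_inner_le_norm y z
    nlinarith [norm_nonneg y, norm_nonneg z]
  have h3 : volume.real (Ba (n + 2) \ Op Y) ≤ volume.real ((K ∩ Vor Y) \ Op Y) :=
    measureReal_mono (Set.diff_subset_diff_left hsub)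
      (ne_top_of_le_ne_top hfin (measure_mono Set.diff_subset))
  have h4 : kap (n + 2) - volume.real (Ba (n + 2) \ Op Y) = volume.real (Ba (n + 2) ∩ Op Y) := by
    linarith
  rw [h4]
  linarith

end GlobAux

open GlobAux

theorem sausage_of_star {n : ℕ}
    (hS : ∀ (Y : Finset (E (n + 2))) (K : Set (E (n + 2))), Loc (n + 2) Y K →
      AA (n + 1) * volume.real (Ba (n + 2) ∩ Op Y) ≤ volume.real ((K ∩ Vor Y) ∩ Op Y))
    (k : ℕ) (x : Fin k → E (n + 2)) (hx : ∀ i j : Fin k, i ≠ j → 2 ≤ dist (x i) (x j))
    (e : E (n + 2)) (he : ‖e‖ = 1) :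
    volume (convexHull ℝ (⋃ i : Fin k, Metric.closedBall ((2 * ((i : ℕ) : ℝ)) • e) (1 : ℝ)))
      ≤ volume (convexHull ℝ (⋃ i : Fin k, Metric.closedBall (x i) (1 : ℝ))) := by
  classical
  rcases k with _ | k
  · -- no centre
    simp
  · have hinj : Function.Injective x := by
      intro i j hij
      by_contra hne
      have := hx i j hne
      rw [hij, dist_self] at this
      norm_num at this
    set X : Finset (E (n + 2)) := Finset.univ.image x with hXdef
    have hcard : X.card = k + 1 := by
      rw [hXdef, Finset.card_image_of_injective _ hinj, Finset.card_univ, Fintype.card_fin]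
    have hsep : ∀ a ∈ X, ∀ b ∈ X, a ≠ b → 2 ≤ ‖a - b‖ := by
      intro a ha b hb hab
      rw [hXdef, Finset.mem_image] at ha hb
      obtain ⟨i, -, rfl⟩ := ha
      obtain ⟨j, -, rfl⟩ := hb
      have hij : i ≠ j := by rintro rfl; exact hab rfl
      have := hx i j hij
      rwa [dist_eq_norm] at this
    set K : Set (E (n + 2)) := convexHull ℝ (⋃ y ∈ X, Metric.closedBall y 1) with hKdef
    have hK : K = convexHull ℝ (⋃ i : Fin (k + 1), Metric.closedBall (x i) (1 : ℝ)) := by
      rw [hKdef]
      congr 1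
      ext z
      simp [hXdef]
    have hne : X.Nonempty := by rw [← Finset.card_pos, hcard]; omega
    obtain ⟨x₀, hx₀⟩ := hne
    have hcomp : IsCompact K := by
      have hL := Pool.Agent.Saus.loc_of_centres X hsep hx₀
      have h1 : IsCompact ((fun z => z - x₀) '' K) :=
        Metric.isCompact_of_isClosed_isBounded hL.closed hL.bounded
      have h2 := h1.image (continuous_id.add continuous_const : Continuous fun z : E (n + 2) => z + x₀)
      rw [Set.image_image] at h2
      simpa using h2
    have hKb : Bornology.IsBounded K := hcomp.isBounded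
    have hKfin : volume K ≠ ⊤ := hcomp.measure_lt_top.ne
    -- local bounds
    have hloc : ∀ a ∈ X, AA (n + 1) * (kap (n + 2)
        - volume.real (Ba (n + 2) \ Op ((X.erase a).image (fun y => y - a))))
        + volume.real (Ba (n + 2) \ Op ((X.erase a).image (fun y => y - a)))
        ≤ volume.real ((fun z => z - a) '' K ∩ Vor ((X.erase a).image (fun y => y - a))) := by
      intro a haX
      have hL := Pool.Agent.Saus.loc_of_centres X hsep haX
      exact cell_bound hL (hS _ _ hL)
    have hsum := Finset.sum_le_sum hloc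
    have hvor := Pool.Agent.Saus.voronoi_sum X K hcomp.measurableSet hKb
    have hnc := normal_cones X
    have hA := one_le_AA (n + 1)
    have hAm := AA_mul (n + 1)
    have hle : kap (n + 2) + 2 * (k : ℝ) * kap (n + 1) ≤ volume.real K := by
      refine le_trans ?_ (hsum.trans hvor)
      have hsplit : ∑ a ∈ X, (AA (n + 1) * (kap (n + 2)
          - volume.real (Ba (n + 2) \ Op ((X.erase a).image (fun y => y - a))))
          + volume.real (Ba (n + 2) \ Op ((X.erase a).image (fun y => y - a))))
          = ((k : ℝ) + 1) * (AA (n + 1) * kap (n + 2)) - (AA (n + 1) - 1) *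
            ∑ a ∈ X, volume.real (Ba (n + 2) \ Op ((X.erase a).image (fun y => y - a))) := by
        rw [Finset.mul_sum, ← Nat.cast_succ, Nat.succ_eq_add_one, ← hcard, ← nsmul_eq_mul,
          ← Finset.sum_const, ← Finset.sum_sub_distrib]
        refine Finset.sum_congr rfl fun a _ => ?_
        ring
      rw [hsplit]
      have h5 : (AA (n + 1) - 1) *
          ∑ a ∈ X, volume.real (Ba (n + 2) \ Op ((X.erase a).image (fun y => y - a)))
          ≤ (AA (n + 1) - 1) * kap (n + 2) :=
        mul_le_mul_of_nonneg_left hnc (by linarith)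
      have h6 : AA (n + 1) * kap (n + 2) = 2 * kap (n + 1) := hAm
      nlinarith
    have hs := Pool.Agent.Saus.sausage_volume_le (n + 1) k e he
    refine hs.trans ?_
    rw [← hK]
    rw [← ofReal_measureReal hKfin]
    refine ENNReal.ofReal_le_ofReal ?_
    exact hle

end

end Pool.Agent.SausN
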