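import Pool.Agent.Lib.MP_5a9905_co_NC.Defs
import Pool.Agent.Lib.MP_5a9905_co_NC.KapN

set_option autoImplicit false

open MeasureTheory

namespace Pool.Agent.SausN

open Pool.Agent.Saus (E kap Loc Vor)

namespace NSumAux

theorem null_hyper {d : ℕ} {u : E d} (hu : u ≠ 0) :
    volume {z : E d | inner ℝ u z = (0 : ℝ)} = 0 := by
  have e : {z : E d | inner ℝ u z = (0 : ℝ)} = ((ℝ ∙ u)ᗮ : Submodule ℝ (E d)) := by
    ext z
    rw [Set.mem_ofPred_eq, SetLike.mem_coe, Submodule.mem_orthogonal_singleton_iff_inner_right]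
  rw [e]
  refine Measure.addHaar_submodule _ _ fun ht => ?_
  have h1 : u ∈ (ℝ ∙ u)ᗮ := by rw [ht]; trivial
  rw [Submodule.mem_orthogonal_singleton_iff_inner_right] at h1
  exact hu (inner_self_eq_zero.mp h1)

theorem Cell_meas {d : ℕ} (Z : Finset (E d)) (w : E d) : MeasurableSet (Cell Z w) := by
  have e : Cell Z w = {z : E d | 0 < inner ℝ w z} ∩
      ⋂ y ∈ Z, {z : E d | inner ℝ y z * ‖w‖ ^ 2 ≤ inner ℝ w z * ‖y‖ ^ 2} := by
    ext z; simp [Cell]
  rw [e]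
  refine (isOpen_lt continuous_const (by fun_prop)).measurableSet.inter ?_
  exact (isClosed_biInter fun y _ => isClosed_le (by fun_prop) (by fun_prop)).measurableSet

theorem W_meas {d : ℕ} (Z : Finset (E d)) (w : E d) :
    MeasurableSet {z : E d | ‖z‖ ^ 2 ≤ 2 ∧ z ∈ Vor Z ∧ z ∈ Cy w} := by
  have h1 : MeasurableSet {z : E d | ‖z‖ ^ 2 ≤ 2} :=
    (isClosed_le (by fun_prop) continuous_const).measurableSet
  have h2 : MeasurableSet (Vor Z) := by
    have e : Vor Z = ⋂ y ∈ Z, {z : E d | inner ℝ y z ≤ ‖y‖ ^ 2 / 2} := by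
      ext z; simp [Vor]
    rw [e]
    exact (isClosed_biInter fun y _ => isClosed_le (by fun_prop) continuous_const).measurableSet
  have h3 : MeasurableSet (Cy w) := by
    have e : Cy w = {z : E d | 0 < inner ℝ w z} ∩
        {z : E d | ‖w‖ ^ 2 * ‖z‖ ^ 2 ≤ (inner ℝ w z) ^ 2 + ‖w‖ ^ 2} := by
      ext z; simp [Cy]
    rw [e]
    exact (isOpen_lt continuous_const (by fun_prop)).measurableSet.inter
      (isClosed_le (by fun_prop) (by fun_prop)).measurableSet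
  exact h1.inter (h2.inter h3)

/-- The cones over the facets cover the complement of the normal cone. -/
theorem Op_subset {d : ℕ} {Z : Finset (E d)} (hZ : ∀ y ∈ Z, y ≠ 0) :
    Op Z ⊆ ⋃ w ∈ Z, Cell Z w := by
  rintro z ⟨y₀, hy₀, hpos⟩
  obtain ⟨w, hw, hmax⟩ := Finset.exists_max_image Z (fun y => inner ℝ y z / ‖y‖ ^ 2) ⟨y₀, hy₀⟩
  have hn : ∀ y ∈ Z, 0 < ‖y‖ ^ 2 := fun y hy => by
    have := norm_pos_iff.mpr (hZ y hy)
    positivity
  have h0 : 0 < inner ℝ w z / ‖w‖ ^ 2 :=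
    lt_of_lt_of_le (div_pos hpos (hn y₀ hy₀)) (hmax y₀ hy₀)
  refine Set.mem_iUnion₂.mpr ⟨w, hw, ?_, ?_⟩
  · have := mul_pos h0 (hn w hw)
    rwa [div_mul_cancel₀ _ (hn w hw).ne'] at this
  · intro y hy
    have := hmax y hy
    rwa [div_le_div_iff₀ (hn y hy) (hn w hw)] at this

/-- Two different cells meet in a null set. -/
theorem null_cells {d : ℕ} {Z : Finset (E d)} (hZ : ∀ y ∈ Z, y ≠ 0) {w w' : E d} (hw : w ∈ Z)
    (hw' : w' ∈ Z) (hne : w ≠ w') : volume (Cell Z w ∩ Cell Z w') = 0 := by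
  have hu : ‖w'‖ ^ 2 • w - ‖w‖ ^ 2 • w' ≠ 0 := by
    intro h0
    have h1 : ‖w'‖ ^ 2 • w = ‖w‖ ^ 2 • w' := sub_eq_zero.mp h0
    have hp : 0 < ‖w‖ := norm_pos_iff.mpr (hZ w hw)
    have hp' : 0 < ‖w'‖ := norm_pos_iff.mpr (hZ w' hw')
    have h2 : ‖w'‖ ^ 2 * ‖w‖ = ‖w‖ ^ 2 * ‖w'‖ := by
      have := congrArg norm h1
      rwa [norm_smul, norm_smul, Real.norm_of_nonneg (by positivity),
        Real.norm_of_nonneg (by positivity)] at this
    have h3 : ‖w'‖ = ‖w‖ := by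
      have h4 : ‖w‖ * ‖w'‖ * (‖w'‖ - ‖w‖) = 0 := by nlinarith
      rcases mul_eq_zero.mp h4 with h5 | h5
      · exact absurd h5 (mul_pos hp hp').ne'
      · linarith
    rw [h3] at h1
    exact hne (smul_right_injective _ (pow_pos hp 2).ne' h1)
  refine measure_mono_null ?_ (null_hyper hu)
  rintro z ⟨h1, h2⟩
  have h3 := h1.2 w' hw'
  have h4 := h2.2 w hw
  rw [Set.mem_ofPred_eq, inner_sub_left, inner_smul_left, inner_smul_left]
  simp only [conj_trivial]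
  linarith

end NSumAux

open NSumAux

/-- Summation of the near inequalities over the facets. -/
theorem near_sum {d m : ℕ} {Z : Finset (E d)} (hZ : ∀ y ∈ Z, y ≠ 0)
    (h : ∀ w ∈ Z, AA m * volume.real (Ba d ∩ Cell Z w)
      ≤ volume.real ({z | ‖z‖ ^ 2 ≤ 2 ∧ z ∈ Vor Z ∧ z ∈ Cy w} ∩ Cell Z w)) :
    AA m * volume.real (Ba d ∩ Op Z) ≤ volume.real (WW Z Z) := by
  set W : E d → Set (E d) :=
    fun w => {z | ‖z‖ ^ 2 ≤ 2 ∧ z ∈ Vor Z ∧ z ∈ Cy w} ∩ Cell Z w with hW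
  have hB : volume (Ba d) ≠ ⊤ := measure_closedBall_lt_top.ne
  have h1 : volume.real (Ba d ∩ Op Z) ≤ ∑ w ∈ Z, volume.real (Ba d ∩ Cell Z w) := by
    refine le_trans (measureReal_mono ?_ ?_) (measureReal_biUnion_finset_le Z _)
    · intro z hz
      obtain ⟨w, hw, hz2⟩ := Set.mem_iUnion₂.mp (Op_subset hZ hz.2)
      exact Set.mem_iUnion₂.mpr ⟨w, hw, hz.1, hz2⟩
    · exact ne_top_of_le_ne_top hB (measure_mono (Set.iUnion₂_subset fun w _ =>
        Set.inter_subset_left))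
  have hWfin : volume (WW Z Z) ≠ ⊤ := by
    refine ne_top_of_le_ne_top (measure_closedBall_lt_top (x := (0 : E d)) (r := √2)).ne
      (measure_mono ?_)
    intro z hz
    rw [mem_closedBall_zero_iff]
    exact Real.le_sqrt_of_sq_le hz.1
  have hsub : ∀ w ∈ Z, W w ⊆ WW Z Z := by
    rintro w hw z ⟨⟨ha, hb, hc⟩, _⟩
    exact ⟨ha, hb, w, hw, hc⟩
  have h2 : ∑ w ∈ Z, volume.real (W w) ≤ volume.real (WW Z Z) := by
    have h3 : volume (⋃ w ∈ Z, W w) = ∑ w ∈ Z, volume (W w) := by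
      refine measure_biUnion_finset₀ ?_ fun w _ =>
        ((W_meas Z w).inter (Cell_meas Z w)).nullMeasurableSet
      intro w hw w' hw' hne
      exact measure_mono_null (Set.inter_subset_inter Set.inter_subset_right
        Set.inter_subset_right) (null_cells hZ hw hw' hne)
    have h4 : ∑ w ∈ Z, volume.real (W w) = (∑ w ∈ Z, volume (W w)).toReal := by
      rw [ENNReal.toReal_sum]
      · rfl
      · intro w hw
        exact ne_top_of_le_ne_top hWfin (measure_mono (hsub w hw))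
    rw [h4, ← h3]
    exact ENNReal.toReal_mono hWfin (measure_mono (Set.iUnion₂_subset hsub))
  calc AA m * volume.real (Ba d ∩ Op Z)
      ≤ AA m * ∑ w ∈ Z, volume.real (Ba d ∩ Cell Z w) :=
        mul_le_mul_of_nonneg_left h1 (AA_pos m).le
    _ = ∑ w ∈ Z, AA m * volume.real (Ba d ∩ Cell Z w) := Finset.mul_sum _ _ _
    _ ≤ ∑ w ∈ Z, volume.real (W w) := Finset.sum_le_sum h
    _ ≤ volume.real (WW Z Z) := h2

end Pool.Agent.SausN
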