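import Pool.Agent.Lib.MP_5a9905_co_NC.Defs
import Pool.Agent.Lib.MP_5a9905_co_NC.Face
import Pool.Agent.Lib.MP_5a9905_co_NC.CellV
import Pool.Agent.Lib.MP_5a9905_co_NC.NSum
import Pool.Agent.Lib.MP_5a9905_co_NC.FarG
import Pool.Agent.Lib.MP_5a9905_co_NC.KapN
import Pool.Agent.Lib.MP_5a9905_co.HCK

set_option autoImplicit false

open MeasureTheory Finset

namespace Pool.Agent.SausN

open Pool.Agent.Saus (E kap Loc Vor)

noncomputable section

namespace LocSAux

theorem measurable_Cy {d : ℕ} (y : E d) : MeasurableSet (Cy y) := by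
  have h1 : Measurable (fun z : E d => (inner ℝ y z : ℝ)) := by fun_prop
  have h2 : Measurable (fun z : E d => ‖z‖) := by fun_prop
  exact (measurableSet_lt measurable_const h1).inter
    (measurableSet_le (measurable_const.mul (h2.pow_const 2)) ((h1.pow_const 2).add_const _))

theorem measurable_Vor {d : ℕ} (Z : Finset (E d)) : MeasurableSet (Vor Z) := by
  have e : Vor Z = ⋂ y ∈ Z, {z : E d | inner ℝ y z ≤ ‖y‖ ^ 2 / 2} := by
    ext z
    simp [Vor]
  rw [e]
  refine Finset.measurableSet_biInter _ (fun y _ => ?_)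
  have h1 : Measurable (fun z : E d => (inner ℝ y z : ℝ)) := by fun_prop
  exact measurableSet_le h1 measurable_const

theorem measurable_WW {d : ℕ} (Z Y : Finset (E d)) : MeasurableSet (WW Z Y) := by
  have h2 : Measurable (fun z : E d => ‖z‖) := by fun_prop
  have e : WW Z Y = {z : E d | ‖z‖ ^ 2 ≤ 2} ∩ (Vor Z ∩ ⋃ y ∈ Y, Cy y) := by
    ext z
    simp [WW]
  rw [e]
  exact (measurableSet_le (h2.pow_const 2) measurable_const).inter
    ((measurable_Vor Z).inter (Finset.measurableSet_biUnion _ fun y _ => measurable_Cy y))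

theorem measurable_Op {d : ℕ} (Y : Finset (E d)) : MeasurableSet (Op Y) := by
  have e : Op Y = ⋃ y ∈ Y, {z : E d | 0 < inner ℝ y z} := by
    ext z
    simp [Op]
  rw [e]
  refine Finset.measurableSet_biUnion _ (fun y _ => ?_)
  have h1 : Measurable (fun z : E d => (inner ℝ y z : ℝ)) := by fun_prop
  exact measurableSet_lt measurable_const h1

theorem bdd {d : ℕ} {S : Set (E d)} (h : ∀ z ∈ S, ‖z‖ ^ 2 ≤ 2) : volume S ≠ ⊤ := by
  have hs : S ⊆ Metric.closedBall (0 : E d) 2 := by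
    intro z hz
    rw [mem_closedBall_zero_iff]
    nlinarith [h z hz, norm_nonneg z]
  exact ((measure_mono hs).trans_lt (isCompact_closedBall _ _).measure_lt_top).ne

/-- Adding the far centres one at a time. -/
theorem induct {k : ℕ} (hF : FarNum (k + 1)) {Z : Finset (E (k + 2))} (hZ : ∀ y ∈ Z, 2 ≤ ‖y‖)
    (h0 : AA (k + 1) * volume.real (Ba (k + 2) ∩ Op Z) ≤ volume.real (WW Z Z))
    (T : Finset (E (k + 2))) (hT : ∀ y ∈ T, y ≠ 0) :
    AA (k + 1) * volume.real (Ba (k + 2) ∩ Op (Z ∪ T)) ≤ volume.real (WW Z (Z ∪ T)) := by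
  classical
  induction T using Finset.induction_on with
  | empty => simpa using h0
  | insert w T hw ih =>
    have ih' := ih (fun y hy => hT y (Finset.mem_insert_of_mem hy))
    have hw0 : w ≠ 0 := hT w (Finset.mem_insert_self _ _)
    rw [Finset.union_insert]
    set Y : Finset (E (k + 2)) := Z ∪ T with hY
    have hY0 : ∀ y ∈ Y, y ≠ 0 := by
      intro y hy
      rcases Finset.mem_union.1 hy with h | h
      · intro h'
        have := hZ y h
        rw [h', norm_zero] at this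
        norm_num at this
      · exact hT y (Finset.mem_insert_of_mem h)
    have hstep := far_step hF (Z := Z) (Y := Y) Finset.subset_union_left hZ hY0 hw0
    set D : Set (E (k + 2)) := {z | ‖z‖ ^ 2 ≤ 2 ∧ z ∈ Vor Z ∧ z ∈ Cy w ∧ ∀ y ∈ Y, z ∉ Cy y} with hD
    have hfin1 : volume (WW Z Y) ≠ ⊤ := bdd fun z hz => hz.1
    have hfin2 : volume D ≠ ⊤ := bdd fun z hz => hz.1
    have hfin3 : volume (WW Z (insert w Y)) ≠ ⊤ := bdd fun z hz => hz.1
    -- upper bound of the left-hand side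
    have hsub : Ba (k + 2) ∩ Op (insert w Y)
        ⊆ (Ba (k + 2) ∩ Op Y) ∪ ((Ba (k + 2) ∩ Op {w}) \ Op Y) := by
      rintro z ⟨hzB, y, hy, hyz⟩
      by_cases hzY : z ∈ Op Y
      · exact Or.inl ⟨hzB, hzY⟩
      · right
        refine ⟨⟨hzB, ?_⟩, hzY⟩
        rcases Finset.mem_insert.1 hy with rfl | hy'
        · exact ⟨y, Finset.mem_singleton_self y, hyz⟩
        · exact absurd ⟨y, hy', hyz⟩ hzY
    have hBfin : ∀ S : Set (E (k + 2)), S ⊆ Ba (k + 2) → volume S ≠ ⊤ := fun S hS =>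
      ((measure_mono hS).trans_lt (isCompact_closedBall _ _).measure_lt_top).ne
    have h1 : volume.real (Ba (k + 2) ∩ Op (insert w Y))
        ≤ volume.real (Ba (k + 2) ∩ Op Y) + volume.real ((Ba (k + 2) ∩ Op {w}) \ Op Y) := by
      refine (measureReal_mono hsub (hBfin _ ?_)).trans (measureReal_union_le _ _)
      exact Set.union_subset Set.inter_subset_left
        (Set.diff_subset.trans Set.inter_subset_left)
    -- lower bound of the right-hand side
    have hdisj : Disjoint D (WW Z Y) := by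
      rw [Set.disjoint_left]
      rintro z hz1 ⟨_, _, y, hy, hyz⟩
      exact hz1.2.2.2 y hy hyz
    have hsub2 : D ∪ WW Z Y ⊆ WW Z (insert w Y) := by
      rintro z (hz | hz)
      · exact ⟨hz.1, hz.2.1, w, Finset.mem_insert_self _ _, hz.2.2.1⟩
      · obtain ⟨ha, hb, y, hy, hyz⟩ := hz
        exact ⟨ha, hb, y, Finset.mem_insert_of_mem hy, hyz⟩
    have h2 : volume.real D + volume.real (WW Z Y) ≤ volume.real (WW Z (insert w Y)) := by
      rw [← measureReal_union hdisj (measurable_WW Z Y) hfin2 hfin1]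
      exact measureReal_mono hsub2 hfin3
    have hA := (AA_pos (k + 1)).le
    calc AA (k + 1) * volume.real (Ba (k + 2) ∩ Op (insert w Y))
        ≤ AA (k + 1) * (volume.real (Ba (k + 2) ∩ Op Y)
            + volume.real ((Ba (k + 2) ∩ Op {w}) \ Op Y)) := mul_le_mul_of_nonneg_left h1 hA
      _ = AA (k + 1) * volume.real (Ba (k + 2) ∩ Op Y)
          + AA (k + 1) * volume.real ((Ba (k + 2) ∩ Op {w}) \ Op Y) := by ring
      _ ≤ volume.real (WW Z Y) + volume.real D := add_le_add ih' hstep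
      _ ≤ _ := by linarith

/-- The truncated region lies in the local part of the hull. -/
theorem WW_subset {k : ℕ} {Y : Finset (E (k + 2))} {K : Set (E (k + 2))}
    (hL : Loc (k + 2) Y K) : WW (Nr Y) Y ⊆ (K ∩ Vor Y) ∩ Op Y := by
  rintro z ⟨hz2, hzV, y, hy, hyz0, hyz1⟩
  have hy2 : 2 ≤ ‖y‖ := hL.far y hy
  have hypos : 0 < ‖y‖ := by linarith
  refine ⟨⟨?_, ?_⟩, y, hy, hyz0⟩
  · refine Pool.Agent.Saus.hc_subset hL hy ⟨⟨?_, ?_⟩, hz2⟩
    · rw [real_inner_smul_left]
      exact mul_nonneg (inv_nonneg.2 hypos.le) hyz0.le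
    · rw [real_inner_smul_left, mul_pow, inv_pow]
      have h3 : ‖z‖ ^ 2 = (‖y‖ ^ 2)⁻¹ * (‖y‖ ^ 2 * ‖z‖ ^ 2) := by
        field_simp
      have h4 : (‖y‖ ^ 2)⁻¹ * (‖y‖ ^ 2 * ‖z‖ ^ 2)
          ≤ (‖y‖ ^ 2)⁻¹ * ((inner ℝ y z) ^ 2 + ‖y‖ ^ 2) :=
        mul_le_mul_of_nonneg_left hyz1 (by positivity)
      have h5 : (‖y‖ ^ 2)⁻¹ * ((inner ℝ y z) ^ 2 + ‖y‖ ^ 2)
          = (‖y‖ ^ 2)⁻¹ * (inner ℝ y z) ^ 2 + 1 := by
        field_simp
      rw [h3, ← h5]
      exact h4
  · intro y' hy'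
    by_cases h8 : ‖y'‖ ^ 2 < 8
    · exact hzV y' (Finset.mem_filter.2 ⟨hy', h8⟩)
    · push Not at h8
      have h6 : inner ℝ y' z ≤ ‖y'‖ * ‖z‖ := real_inner_le_norm _ _
      have h7 : ‖z‖ ≤ ‖y'‖ / 2 := by
        have := norm_nonneg y'
        nlinarith [norm_nonneg z]
      nlinarith [norm_nonneg y']

end LocSAux

open LocSAux in
theorem local_star {k : ℕ} (hF : FarNum (k + 1)) {R : ℝ} (hk : 1 ≤ k) (hR1 : 1 ≤ R) (hR2 : R ≤ 2)
    (hR : AA (k + 1) ≤ R ^ ((k : ℝ) / 2)) (hN : NearTwo k R)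
    {Y : Finset (E (k + 2))} {K : Set (E (k + 2))} (hL : Loc (k + 2) Y K) :
    AA (k + 1) * volume.real (Ba (k + 2) ∩ Op Y) ≤ volume.real ((K ∩ Vor Y) ∩ Op Y) := by
  classical
  set Z : Finset (E (k + 2)) := Nr Y with hZdef
  have hZY : Z ⊆ Y := Finset.filter_subset _ _
  have hZ : Sep Z := ⟨fun y hy => hL.far y (hZY hy),
    fun y hy y' hy' h => hL.sep y (hZY hy) y' (hZY hy') h⟩
  have hZ0 : ∀ y ∈ Z, y ≠ 0 := by
    intro y hy h'
    have := hZ.far y hy
    rw [h', norm_zero] at this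
    norm_num at this
  have hbase : AA (k + 1) * volume.real (Ba (k + 2) ∩ Op Z) ≤ volume.real (WW Z Z) := by
    refine near_sum hZ0 (fun w hw => ?_)
    have hw8 : ‖w‖ ^ 2 < 8 := (Finset.mem_filter.1 hw).2
    exact near_cell hZ hw hw8 (fun J hJ => near_face hk hR1 hR2 hR hN hZ hw hw8 hJ)
  have hind := induct hF hZ.far hbase (Y \ Z) (by
    intro y hy h'
    have := hL.far y (Finset.mem_sdiff.1 hy).1
    rw [h', norm_zero] at this
    norm_num at this)
  rw [Finset.union_sdiff_of_subset hZY] at hind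
  refine hind.trans (measureReal_mono (WW_subset hL) ?_)
  have hb : Bornology.IsBounded ((K ∩ Vor Y) ∩ Op Y) :=
    hL.bounded.subset (Set.inter_subset_left.trans Set.inter_subset_left)
  exact hb.measure_lt_top.ne

end

end Pool.Agent.SausN
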