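import Pool.Agent.Lib.MP_5a9905_co_NC.Defs
import Pool.Agent.Lib.MP_5a9905_co_NC.FlR
import Pool.Agent.Lib.MP_5a9905_co_NC.FlV
import Pool.Agent.Lib.MP_5a9905_co_NC.FiM
import Pool.Agent.Lib.MP_5a9905_co_NC.F2C
import Pool.Agent.Lib.MP_5a9905_co_NC.KapN

set_option autoImplicit false

open MeasureTheory Finset

namespace Pool.Agent.SausN

open Pool.Agent.Saus (E kap Loc Vor)

noncomputable section

namespace Near5Aux

theorem certA {s : ℝ} (h1 : 1 ≤ s) (h2 : s ≤ (113/100)) :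
    0 ≤ 1 + s + s ^ 2 + s ^ 3 + s ^ 4 - 3521 / 500 * s ^ 5 - 3521 / 500 * s ^ 6 + 159 / 25 * s ^ 7
      + 159 / 25 * s ^ 8 - 837 / 500 * s ^ 9 - 837 / 500 * s ^ 10 := by
  have e : 1 + s + s ^ 2 + s ^ 3 + s ^ 4 - 3521 / 500 * s ^ 5 - 3521 / 500 * s ^ 6 + 159 / 25 * s ^ 7
      + 159 / 25 * s ^ 8 - 837 / 500 * s ^ 9 - 837 / 500 * s ^ 10
      = (28800000000000000000/137858491849) * ((s - 1) ^ 0 * ((113/100) - s) ^ 10) +
        (237716000000000000000/137858491849) * ((s - 1) ^ 1 * ((113/100) - s) ^ 9) +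
        (860337240000000000000/137858491849) * ((s - 1) ^ 2 * ((113/100) - s) ^ 8) +
        (1787733498800000000000/137858491849) * ((s - 1) ^ 3 * ((113/100) - s) ^ 7) +
        (2343850302856000000000/137858491849) * ((s - 1) ^ 4 * ((113/100) - s) ^ 6) +
        (2004253615102220000000/137858491849) * ((s - 1) ^ 5 * ((113/100) - s) ^ 5) +
        (1114661682099521800000/137858491849) * ((s - 1) ^ 6 * ((113/100) - s) ^ 4) +
        (389172821822276832000/137858491849) * ((s - 1) ^ 7 * ((113/100) - s) ^ 3) +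
        (79066050344430996440/137858491849) * ((s - 1) ^ 8 * ((113/100) - s) ^ 2) +
        (41067570589467757189/689292459245) * ((s - 1) ^ 9 * ((113/100) - s) ^ 1) +
        (187087155831235821287/68929245924500) * ((s - 1) ^ 10 * ((113/100) - s) ^ 0) := by
    ring
  rw [e]
  have u : 0 ≤ s - 1 := by linarith
  have v : 0 ≤ (113/100) - s := by linarith
  positivity

theorem certB {s : ℝ} (h1 : (113/100) ≤ s) (h2 : s ≤ (6/5)) :
    0 ≤ 1 + s + s ^ 2 + s ^ 3 + s ^ 4 - 3521 / 500 * s ^ 5 - 3521 / 500 * s ^ 6 + 159 / 25 * s ^ 7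
      + 159 / 25 * s ^ 8 - 837 / 500 * s ^ 9 - 837 / 500 * s ^ 10 := by
  have e : 1 + s + s ^ 2 + s ^ 3 + s ^ 4 - 3521 / 500 * s ^ 5 - 3521 / 500 * s ^ 6 + 159 / 25 * s ^ 7
      + 159 / 25 * s ^ 8 - 837 / 500 * s ^ 9 - 837 / 500 * s ^ 10
      = (26726736547319403041/20176803500) * ((s - (113/100)) ^ 0 * ((6/5) - s) ^ 10) +
        (952761731167003761/201768035) * ((s - (113/100)) ^ 1 * ((6/5) - s) ^ 9) +
        (220072940199267608/40353607) * ((s - (113/100)) ^ 2 * ((6/5) - s) ^ 8) +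
        (1149403272488513600/40353607) * ((s - (113/100)) ^ 3 * ((6/5) - s) ^ 7) +
        (940027885268644800/5764801) * ((s - (113/100)) ^ 4 * ((6/5) - s) ^ 6) +
        (349319722040582400/823543) * ((s - (113/100)) ^ 5 * ((6/5) - s) ^ 5) +
        (3498275642026240000/5764801) * ((s - (113/100)) ^ 6 * ((6/5) - s) ^ 4) +
        (20891912274995200000/40353607) * ((s - (113/100)) ^ 7 * ((6/5) - s) ^ 3) +
        (10641799398400000000/40353607) * ((s - (113/100)) ^ 8 * ((6/5) - s) ^ 2) +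
        (2991743447040000000/40353607) * ((s - (113/100)) ^ 9 * ((6/5) - s) ^ 1) +
        (356827217920000000/40353607) * ((s - (113/100)) ^ 10 * ((6/5) - s) ^ 0) := by
    ring
  rw [e]
  have u : 0 ≤ s - (113/100) := by linarith
  have v : 0 ≤ (6/5) - s := by linarith
  positivity

theorem certC {s : ℝ} (h1 : (6/5) ≤ s) (h2 : s ≤ (253/200)) :
    0 ≤ 1 + s + s ^ 2 + s ^ 3 + s ^ 4 - 3521 / 500 * s ^ 5 - 3521 / 500 * s ^ 6 + 159 / 25 * s ^ 7
      + 159 / 25 * s ^ 8 - 837 / 500 * s ^ 9 - 837 / 500 * s ^ 10 := by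
  have e : 1 + s + s ^ 2 + s ^ 3 + s ^ 4 - 3521 / 500 * s ^ 5 - 3521 / 500 * s ^ 6 + 159 / 25 * s ^ 7
      + 159 / 25 * s ^ 8 - 837 / 500 * s ^ 9 - 837 / 500 * s ^ 10
      = (2557737498050560000000/137858491849) * ((s - (6/5)) ^ 0 * ((253/200) - s) ^ 10) +
        (29414750221762560000000/137858491849) * ((s - (6/5)) ^ 1 * ((253/200) - s) ^ 9) +
        (148233634120990720000000/137858491849) * ((s - (6/5)) ^ 2 * ((253/200) - s) ^ 8) +
        (430187714078880563200000/137858491849) * ((s - (6/5)) ^ 3 * ((253/200) - s) ^ 7) +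
        (793645407134678794240000/137858491849) * ((s - (6/5)) ^ 4 * ((253/200) - s) ^ 6) +
        (967217709197071147622400/137858491849) * ((s - (6/5)) ^ 5 * ((253/200) - s) ^ 5) +
        (780751529060435215027200/137858491849) * ((s - (6/5)) ^ 6 * ((253/200) - s) ^ 4) +
        (404339982146256412352000/137858491849) * ((s - (6/5)) ^ 7 * ((253/200) - s) ^ 3) +
        (123239813944765553830304/137858491849) * ((s - (6/5)) ^ 8 * ((253/200) - s) ^ 2) +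
        (88246959347345562851814/689292459245) * ((s - (6/5)) ^ 9 * ((253/200) - s) ^ 1) +
        (190712877144088765951787/68929245924500) * ((s - (6/5)) ^ 10 * ((253/200) - s) ^ 0) := by
    ring
  rw [e]
  have u : 0 ≤ s - (6/5) := by linarith
  have v : 0 ≤ (253/200) - s := by linarith
  positivity

theorem cert {s : ℝ} (h1 : 1 ≤ s) (h2 : s ≤ 253 / 200) :
    1 ≤ s ^ 5 * (1 - 589 / 250 * (s ^ 2 - 1) + 753 / 250 * (s ^ 2 - 1) ^ 2
      - 837 / 500 * (s ^ 2 - 1) ^ 3) := by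
  have h : 0 ≤ 1 + s + s ^ 2 + s ^ 3 + s ^ 4 - 3521 / 500 * s ^ 5 - 3521 / 500 * s ^ 6
      + 159 / 25 * s ^ 7 + 159 / 25 * s ^ 8 - 837 / 500 * s ^ 9 - 837 / 500 * s ^ 10 := by
    rcases le_total s (113 / 100) with h | h
    · exact certA h1 h
    · rcases le_total s (6 / 5) with h' | h'
      · exact certB h h'
      · exact certC h' h2
  have e : s ^ 5 * (1 - 589 / 250 * (s ^ 2 - 1) + 753 / 250 * (s ^ 2 - 1) ^ 2
      - 837 / 500 * (s ^ 2 - 1) ^ 3) - 1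
      = (s - 1) * (1 + s + s ^ 2 + s ^ 3 + s ^ 4 - 3521 / 500 * s ^ 5 - 3521 / 500 * s ^ 6
      + 159 / 25 * s ^ 7 + 159 / 25 * s ^ 8 - 837 / 500 * s ^ 9 - 837 / 500 * s ^ 10) := by
    ring
  have h3 : 0 ≤ (s - 1) * (1 + s + s ^ 2 + s ^ 3 + s ^ 4 - 3521 / 500 * s ^ 5
      - 3521 / 500 * s ^ 6 + 159 / 25 * s ^ 7 + 159 / 25 * s ^ 8 - 837 / 500 * s ^ 9
      - 837 / 500 * s ^ 10) := mul_nonneg (by linarith) h
  linarith

/-- The polynomial majorant of `X ^ (-5/2)`. -/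
theorem rpow_le {X : ℝ} (h1 : 1 ≤ X) (h2 : X ≤ 8 / 5) :
    X ^ (-((((3 + 1 : ℕ) : ℝ) + 1) / 2)) ≤ 1 - 589 / 250 * (X - 1) + 753 / 250 * (X - 1) ^ 2
      - 837 / 500 * (X - 1) ^ 3 := by
  have hX : 0 < X := by linarith
  have hs1 : 1 ≤ √X := Real.one_le_sqrt.mpr h1
  have hs2 : √X ≤ 253 / 200 := by
    apply Real.sqrt_le_iff.mpr
    constructor
    · norm_num
    · norm_num
      linarith
  have hsq : √X ^ 2 = X := Real.sq_sqrt hX.le
  have hc := cert hs1 hs2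
  rw [hsq] at hc
  have hs5 : 0 < √X ^ 5 := by positivity
  have e : X ^ (-((((3 + 1 : ℕ) : ℝ) + 1) / 2)) = (√X ^ 5)⁻¹ := by
    rw [Real.rpow_neg hX.le]
    congr 1
    rw [Real.sqrt_eq_rpow, ← Real.rpow_natCast, ← Real.rpow_mul hX.le]
    norm_num
  rw [e, inv_le_iff_one_le_mul₀ hs5]
  linarith

theorem int_even (a0 a1 a2 a3 s : ℝ) (m : ℕ) :
    ∫ r in (0 : ℝ)..s, (a0 + a1 * r ^ 2 + a2 * r ^ 4 + a3 * r ^ 6) * r ^ m
      = a0 * (s ^ (m + 1) / (m + 1)) + a1 * (s ^ (m + 3) / (m + 3))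
        + a2 * (s ^ (m + 5) / (m + 5)) + a3 * (s ^ (m + 7) / (m + 7)) := by
  have h : (fun r : ℝ => (a0 + a1 * r ^ 2 + a2 * r ^ 4 + a3 * r ^ 6) * r ^ m)
      = fun r => ((a0 * r ^ m + a1 * r ^ (m + 2)) + a2 * r ^ (m + 4)) + a3 * r ^ (m + 6) := by
    ext r
    ring
  have c0 : IntervalIntegrable (fun r : ℝ => a0 * r ^ m) volume 0 s :=
    (by fun_prop : Continuous _).intervalIntegrable _ _
  have c1 : IntervalIntegrable (fun r : ℝ => a1 * r ^ (m + 2)) volume 0 s :=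
    (by fun_prop : Continuous _).intervalIntegrable _ _
  have c2 : IntervalIntegrable (fun r : ℝ => a2 * r ^ (m + 4)) volume 0 s :=
    (by fun_prop : Continuous _).intervalIntegrable _ _
  have c3 : IntervalIntegrable (fun r : ℝ => a3 * r ^ (m + 6)) volume 0 s :=
    (by fun_prop : Continuous _).intervalIntegrable _ _
  rw [h, intervalIntegral.integral_add ((c0.add c1).add c2) c3,
    intervalIntegral.integral_add (c0.add c1) c2, intervalIntegral.integral_add c0 c1]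
  simp only [intervalIntegral.integral_const_mul, integral_pow]
  push_cast
  have z1 : (0 : ℝ) ^ (m + 1) = 0 := by simp
  have z2 : (0 : ℝ) ^ (m + 2 + 1) = 0 := by simp
  have z3 : (0 : ℝ) ^ (m + 4 + 1) = 0 := by simp
  have z4 : (0 : ℝ) ^ (m + 6 + 1) = 0 := by simp
  rw [z1, z2, z3, z4]
  ring_nf

/-- First level polynomial. -/
def G1 (X : ℝ) : ℝ :=
  -7 / 32 + 589 / 800 * (X - 1) - 2259 / 3200 * (X - 1) ^ 2 + 2511 / 8000 * (X - 1) ^ 3

/-- Second level polynomial. -/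
def G2 (X : ℝ) : ℝ :=
  -1927 / 144000 + 1481 / 20000 * (X - 4 / 3) - 6273 / 112000 * (X - 4 / 3) ^ 2
    + 279 / 8000 * (X - 4 / 3) ^ 3

theorem G1_cont : Continuous G1 := by
  unfold G1
  fun_prop

theorem G2_cont : Continuous G2 := by
  unfold G2
  fun_prop

theorem G1_mono {x y : ℝ} (h : x ≤ y) : G1 x ≤ G1 y := by
  have e : G1 y - G1 x = (y - x) * (589 / 800 - 2259 / 3200 * ((x - 1) + (y - 1))
      + 2511 / 8000 * ((x - 1) ^ 2 + (x - 1) * (y - 1) + (y - 1) ^ 2)) := by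
    unfold G1
    ring
  have h1 : 0 ≤ 589 / 800 - 2259 / 3200 * ((x - 1) + (y - 1))
      + 2511 / 8000 * ((x - 1) ^ 2 + (x - 1) * (y - 1) + (y - 1) ^ 2) := by
    nlinarith [sq_nonneg (x - y), sq_nonneg (x + y - 2 - 3 / 2)]
  have h2 := mul_nonneg (sub_nonneg.mpr h) h1
  linarith

/-- Level one. -/
theorem G1_le_F2 {h X : ℝ} (h1 : 1 ≤ h) (hX : h ≤ X) (hX2 : X ≤ 8 / 5) :
    G1 X ≤ F2 (3 + 1) h X := by
  have e : G1 X = ∫ τ in (0 : ℝ)..1, ((-7 / 8) + (8835 / 2000 * (X - 1)) * τ ^ 2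
      + (-(11295 / 2000) * (X - 1) ^ 2) * τ ^ 4 + (12555 / 4000 * (X - 1) ^ 3) * τ ^ 6)
        * τ ^ 3 := by
    rw [int_even]
    unfold G1
    norm_num
    ring
  rw [e]
  unfold F2
  have hmem : ∀ τ ∈ Set.Icc (0 : ℝ) 1, 1 ≤ 1 + τ ^ 2 * (X - 1) ∧
      1 + τ ^ 2 * (X - 1) ≤ h + τ ^ 2 * (X - h) ∧ 1 + τ ^ 2 * (X - 1) ≤ 8 / 5 := by
    intro τ hτ
    have t0 : 0 ≤ τ ^ 2 := sq_nonneg τ
    have t1 : τ ^ 2 ≤ 1 := by
      have := hτ.1
      have := hτ.2
      nlinarith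
    refine ⟨?_, ?_, ?_⟩
    · nlinarith
    · nlinarith
    · nlinarith
  apply intervalIntegral.integral_mono_on (by norm_num)
  · exact (by fun_prop : Continuous _).intervalIntegrable _ _
  · apply ContinuousOn.intervalIntegrable
    rw [Set.uIcc_of_le (by norm_num : (0 : ℝ) ≤ 1)]
    apply ContinuousOn.mul _ (by fun_prop)
    apply ContinuousOn.sub (by fun_prop)
    apply ContinuousOn.mul (by fun_prop)
    apply ContinuousOn.rpow_const (by fun_prop)
    intro τ hτ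
    left
    have := hmem τ hτ
    intro h0
    rw [h0] at this
    linarith [this.1, this.2.1]
  · intro τ hτ
    obtain ⟨m1, m2, m3⟩ := hmem τ hτ
    have hr := rpow_le m1 m3
    have hr2 : (h + τ ^ 2 * (X - h)) ^ (-((((3 + 1 : ℕ) : ℝ) + 1) / 2))
        ≤ (1 + τ ^ 2 * (X - 1)) ^ (-((((3 + 1 : ℕ) : ℝ) + 1) / 2)) := by
      apply Real.rpow_le_rpow_of_nonpos (by linarith) m2
      norm_num
    have hA : AA (3 + 1) = 15 / 8 := AA_four
    rw [hA]
    have ht : 0 ≤ τ ^ 3 := pow_nonneg hτ.1 3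
    have hb := hr2.trans hr
    have : ((-7 / 8) + (8835 / 2000 * (X - 1)) * τ ^ 2
      + (-(11295 / 2000) * (X - 1) ^ 2) * τ ^ 4 + (12555 / 4000 * (X - 1) ^ 3) * τ ^ 6)
        ≤ 1 - 15 / 8 * (h + τ ^ 2 * (X - h)) ^ (-((((3 + 1 : ℕ) : ℝ) + 1) / 2)) := by
      have e2 : ((-7 / 8) + (8835 / 2000 * (X - 1)) * τ ^ 2
        + (-(11295 / 2000) * (X - 1) ^ 2) * τ ^ 4 + (12555 / 4000 * (X - 1) ^ 3) * τ ^ 6)
        = 1 - 15 / 8 * (1 - 589 / 250 * (1 + τ ^ 2 * (X - 1) - 1)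
          + 753 / 250 * (1 + τ ^ 2 * (X - 1) - 1) ^ 2
          - 837 / 500 * (1 + τ ^ 2 * (X - 1) - 1) ^ 3) := by
        ring
      rw [e2]
      linarith
    exact mul_le_mul_of_nonneg_right this ht

/-- The second level integral is at least `G2`. -/
theorem G2_le {C X : ℝ} (hC : 4 / 3 ≤ C) :
    G2 X ≤ ∫ τ in (0 : ℝ)..1, G1 (C + τ ^ 2 * (X - C)) * τ ^ 2 := by
  have e : G2 X = ∫ τ in (0 : ℝ)..1, G1 (4 / 3 + τ ^ 2 * (X - 4 / 3)) * τ ^ 2 := by
    have e1 : ∀ τ : ℝ, G1 (4 / 3 + τ ^ 2 * (X - 4 / 3)) * τ ^ 2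
        = ((-1927 / 48000) + (1481 / 4000 * (X - 4 / 3)) * τ ^ 2
          + (-(6273 / 16000) * (X - 4 / 3) ^ 2) * τ ^ 4
          + (2511 / 8000 * (X - 4 / 3) ^ 3) * τ ^ 6) * τ ^ 2 := by
      intro τ
      unfold G1
      ring
    simp only [e1]
    rw [int_even]
    unfold G2
    norm_num
    ring
  rw [e]
  apply intervalIntegral.integral_mono_on (by norm_num)
  · apply Continuous.intervalIntegrable
    have := G1_cont
    fun_prop
  · apply Continuous.intervalIntegrable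
    have := G1_cont
    fun_prop
  · intro τ hτ
    have t1 : τ ^ 2 ≤ 1 := by
      have := hτ.1
      have := hτ.2
      nlinarith
    apply mul_le_mul_of_nonneg_right _ (sq_nonneg τ)
    apply G1_mono
    nlinarith

/-- Evaluation of the ray integral of the first level. -/
theorem ray1 {C : ℝ} (hC : 4 / 3 ≤ C) (hC2 : C < 8 / 5) :
    0 ≤ ∫ r in (0 : ℝ)..√(8 / 5 - C), G1 (C + r ^ 2) * r ^ 2 := by
  have hs : 0 ≤ 8 / 5 - C := by linarith
  have e1 : ∀ r : ℝ, G1 (C + r ^ 2) * r ^ 2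
      = (G1 C + (589 / 800 - 2259 / 1600 * (C - 1) + 7533 / 8000 * (C - 1) ^ 2) * r ^ 2
        + (-2259 / 3200 + 7533 / 8000 * (C - 1)) * r ^ 4 + (2511 / 8000) * r ^ 6) * r ^ 2 := by
    intro r
    unfold G1
    ring
  simp only [e1]
  rw [int_even]
  set s := √(8 / 5 - C) with hsd
  have hsq : s ^ 2 = 8 / 5 - C := Real.sq_sqrt hs
  have s0 : 0 ≤ s := Real.sqrt_nonneg _
  have e2 : G1 C * (s ^ (2 + 1) / (((2 : ℕ) : ℝ) + 1))
      + (589 / 800 - 2259 / 1600 * (C - 1) + 7533 / 8000 * (C - 1) ^ 2)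
        * (s ^ (2 + 3) / (((2 : ℕ) : ℝ) + 3))
      + (-2259 / 3200 + 7533 / 8000 * (C - 1)) * (s ^ (2 + 5) / (((2 : ℕ) : ℝ) + 5))
      + (2511 / 8000) * (s ^ (2 + 7) / (((2 : ℕ) : ℝ) + 7))
      = s ^ 3 * (G1 C / 3 + (589 / 800 - 2259 / 1600 * (C - 1) + 7533 / 8000 * (C - 1) ^ 2)
        * (s ^ 2) / 5 + (-2259 / 3200 + 7533 / 8000 * (C - 1)) * (s ^ 2) ^ 2 / 7
        + 2511 / 8000 * (s ^ 2) ^ 3 / 9) := by
    norm_num
    ring
  rw [e2, hsq]
  apply mul_nonneg (pow_nonneg s0 3)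
  unfold G1
  nlinarith [mul_nonneg (sub_nonneg.mpr hC) hs, mul_nonneg (mul_nonneg (sub_nonneg.mpr hC) hs) hs,
    mul_nonneg (mul_nonneg (sub_nonneg.mpr hC) (sub_nonneg.mpr hC)) hs]

/-- The ray integral of the second level. -/
theorem ray2 {C : ℝ} (hC : 3 / 2 ≤ C) (hC2 : C < 8 / 5) :
    0 ≤ ∫ r in (0 : ℝ)..√(8 / 5 - C), G2 (C + r ^ 2) * r ^ 1 := by
  have hs : 0 ≤ 8 / 5 - C := by linarith
  have e1 : ∀ r : ℝ, G2 (C + r ^ 2) * r ^ 1
      = (G2 C + (1481 / 20000 - 6273 / 56000 * (C - 4 / 3) + 837 / 8000 * (C - 4 / 3) ^ 2) * r ^ 2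
        + (-6273 / 112000 + 837 / 8000 * (C - 4 / 3)) * r ^ 4 + (279 / 8000) * r ^ 6) * r ^ 1 := by
    intro r
    unfold G2
    ring
  simp only [e1]
  rw [int_even]
  set s := √(8 / 5 - C) with hsd
  have hsq : s ^ 2 = 8 / 5 - C := Real.sq_sqrt hs
  have s0 : 0 ≤ s := Real.sqrt_nonneg _
  have e2 : G2 C * (s ^ (1 + 1) / (((1 : ℕ) : ℝ) + 1))
      + (1481 / 20000 - 6273 / 56000 * (C - 4 / 3) + 837 / 8000 * (C - 4 / 3) ^ 2)
        * (s ^ (1 + 3) / (((1 : ℕ) : ℝ) + 3))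
      + (-6273 / 112000 + 837 / 8000 * (C - 4 / 3)) * (s ^ (1 + 5) / (((1 : ℕ) : ℝ) + 5))
      + (279 / 8000) * (s ^ (1 + 7) / (((1 : ℕ) : ℝ) + 7))
      = s ^ 2 * (G2 C / 2 + (1481 / 20000 - 6273 / 56000 * (C - 4 / 3)
        + 837 / 8000 * (C - 4 / 3) ^ 2) * (s ^ 2) / 4
        + (-6273 / 112000 + 837 / 8000 * (C - 4 / 3)) * (s ^ 2) ^ 2 / 6
        + 279 / 8000 * (s ^ 2) ^ 3 / 8) := by
    norm_num
    ring
  rw [e2, hsq]
  apply mul_nonneg hs
  unfold G2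
  nlinarith [mul_nonneg (sub_nonneg.mpr hC) hs, mul_nonneg (mul_nonneg (sub_nonneg.mpr hC) hs) hs,
    mul_nonneg (mul_nonneg (sub_nonneg.mpr hC) (sub_nonneg.mpr hC)) hs]

end Near5Aux

open Near5Aux in
theorem nearTwo_three : NearTwo 3 (8 / 5) := by
  intro Y S c J h hY hF h1 hc hR
  have hcard : S.card = 2 := by
    have := hF.card
    omega
  have hC : 4 / 3 ≤ ‖c‖ ^ 2 := by
    have := fl_radius hY hF.sub hF.mid
    rw [hcard] at this
    norm_num at this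
    linarith
  apply FI_nonneg_of_le (f := G1)
  · exact G1_cont.continuousOn
  · exact (F2_continuousOn h1).mono (Set.Icc_subset_Icc_left hc.le)
  · intro X hX1 hX2
    exact G1_le_F2 h1 (hc.le.trans hX1) hX2
  apply flat_step (m := 2) hY hF (by norm_num) hR G1_cont (ray1 hC hR)
  intro y hy hyS c' J' hF' hcc' hR'
  have hcard' : (insert y S).card = 3 := by
    rw [Finset.card_insert_of_notMem hyS, hcard]
  have hC' : 3 / 2 ≤ ‖c'‖ ^ 2 := by
    have := fl_radius hY hF'.sub hF'.mid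
    rw [hcard'] at this
    norm_num at this
    linarith
  apply FI_nonneg_of_le (f := G2)
  · exact G2_cont.continuousOn
  · apply Continuous.continuousOn
    have hG := G1_cont
    apply intervalIntegral.continuous_parametric_intervalIntegral_of_continuous'
    fun_prop
  · intro X hX1 hX2
    exact G2_le hC
  apply flat_step (m := 1) hY hF' (by norm_num) hR' G2_cont (ray2 hC' hR')
  intro y2 hy2 hyS2 c2 J2 hF2 hcc2 hR2
  exfalso
  have hcard2 : (insert y2 (insert y S)).card = 4 := by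
    rw [Finset.card_insert_of_notMem hyS2, hcard']
  have := fl_radius hY hF2.sub hF2.mid
  rw [hcard2] at this
  norm_num at this
  linarith

end

end Pool.Agent.SausN
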