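import Pool.Agent.Lib.MP_5a9905_co_NC.Defs
import Pool.Agent.Lib.MP_5a9905_co_NC.FlR
import Pool.Agent.Lib.MP_5a9905_co_NC.FlV
import Pool.Agent.Lib.MP_5a9905_co_NC.FiM
import Pool.Agent.Lib.MP_5a9905_co_NC.F2C
import Pool.Agent.Lib.MP_5a9905_co_NC.KapN

set_option autoImplicit false

open MeasureTheory Finset

namespace Pool.Agent.SausN

open Pool.Agent.Saus (E kap Loc Vor)

noncomputable section

namespace Near6Aux

/-- the quadratic majorant of `X ↦ X⁻³` -/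
def Qy (y : ℝ) : ℝ := 1 - 23 / 10 * y + 19 / 10 * y ^ 2

/-- the minorant of `1 - A X⁻³` -/
def P1 (y : ℝ) : ℝ := 1 - 20372 / 10000 * Qy y

/-- its radial average -/
def G (X : ℝ) : ℝ :=
  (1 - 20372 / 10000) / 5 + (20372 / 10000 * (23 / 10)) / 7 * (X - 1)
    - (20372 / 10000 * (19 / 10)) / 9 * (X - 1) ^ 2

theorem Q_cert {y : ℝ} (h0 : 0 ≤ y) (h1 : y ≤ 1 / 2) : 1 ≤ (1 + y) ^ 3 * Qy y := by
  have e : (1 + y) ^ 3 * Qy y
      = 1 + y * (7 / 10 - 2 * y - 1 / 5 * y ^ 2 + 17 / 5 * y ^ 3 + 19 / 10 * y ^ 4) := by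
    unfold Qy; ring
  have h2 : 0 ≤ 7 / 10 - 2 * y - 1 / 5 * y ^ 2 + 17 / 5 * y ^ 3 + 19 / 10 * y ^ 4 := by
    nlinarith [sq_nonneg (y - 2 / 5), sq_nonneg (y ^ 2 - 4 / 25), mul_nonneg h0 (sq_nonneg (y - 2 / 5)),
      sq_nonneg (y * (y - 2 / 5)), pow_nonneg h0 3, pow_nonneg h0 4]
  rw [e]
  nlinarith [mul_nonneg h0 h2]

theorem AA_le : AA 5 ≤ 20372 / 10000 := by
  rw [AA_five, div_le_iff₀ (by positivity)]
  have := Real.pi_gt_d6
  nlinarith

theorem rpow_eq {x : ℝ} (hx : 0 < x) :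
    x ^ (-((((4 + 1 : ℕ) : ℝ) + 1) / 2)) = (x ^ 3)⁻¹ := by
  have e : (-((((4 + 1 : ℕ) : ℝ) + 1) / 2)) = -((3 : ℕ) : ℝ) := by
    push_cast; norm_num
  rw [e, Real.rpow_neg hx.le, Real.rpow_natCast]

theorem inv_le_Q {x y : ℝ} (h0 : 0 ≤ y) (h1 : y ≤ 1 / 2) (hx : 1 + y ≤ x) :
    (x ^ 3)⁻¹ ≤ Qy y := by
  have hc := Q_cert h0 h1
  have hp : 0 < (1 + y) ^ 3 := by positivity
  have hxp : 0 < x := by linarith
  have h2 : (1 + y) ^ 3 ≤ x ^ 3 := pow_le_pow_left₀ (by linarith) hx 3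
  have h3 : (x ^ 3)⁻¹ ≤ ((1 + y) ^ 3)⁻¹ := inv_anti₀ hp h2
  have h4 : ((1 + y) ^ 3)⁻¹ ≤ Qy y := by
    rw [inv_eq_one_div, div_le_iff₀ hp]
    linarith
  exact h3.trans h4

theorem int_P1 (X : ℝ) :
    ∫ τ in (0 : ℝ)..1, P1 (τ ^ 2 * (X - 1)) * τ ^ 4 = G X := by
  have hd : ∀ τ ∈ Set.uIcc (0 : ℝ) 1, HasDerivAt
      (fun τ : ℝ => (1 - 20372 / 10000) / 5 * τ ^ 5
        + (20372 / 10000 * (23 / 10)) / 7 * (X - 1) * τ ^ 7
        - (20372 / 10000 * (19 / 10)) / 9 * (X - 1) ^ 2 * τ ^ 9)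
      (P1 (τ ^ 2 * (X - 1)) * τ ^ 4) τ := by
    intro τ _
    have a1 := (hasDerivAt_pow 5 τ).const_mul ((1 - 20372 / 10000 : ℝ) / 5)
    have a2 := (hasDerivAt_pow 7 τ).const_mul ((20372 / 10000 * (23 / 10) : ℝ) / 7 * (X - 1))
    have a3 := (hasDerivAt_pow 9 τ).const_mul ((20372 / 10000 * (19 / 10) : ℝ) / 9 * (X - 1) ^ 2)
    have a4 := (a1.add a2).sub a3
    refine HasDerivAt.congr_deriv a4 ?_
    unfold P1 Qy
    push_cast
    ring
  rw [intervalIntegral.integral_eq_sub_of_hasDerivAt hd]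
  · unfold G; ring
  · apply Continuous.intervalIntegrable
    unfold P1 Qy
    fun_prop

theorem F2_ge {h X : ℝ} (h1 : 1 ≤ h) (hX : h ≤ X) (hX2 : X ≤ 3 / 2) : G X ≤ F2 (4 + 1) h X := by
  rw [← int_P1 X]
  unfold F2
  have hpos : ∀ τ ∈ Set.Icc (0 : ℝ) 1, 1 ≤ h + τ ^ 2 * (X - h) := by
    intro τ hτ
    nlinarith [mul_nonneg (sq_nonneg τ) (sub_nonneg.2 hX)]
  apply intervalIntegral.integral_mono_on (by norm_num)
  · apply Continuous.intervalIntegrable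
    unfold P1 Qy
    fun_prop
  · apply ContinuousOn.intervalIntegrable
    rw [Set.uIcc_of_le (by norm_num : (0 : ℝ) ≤ 1)]
    apply ContinuousOn.mul
    · apply ContinuousOn.sub continuousOn_const
      apply ContinuousOn.mul continuousOn_const
      apply ContinuousOn.rpow_const
      · fun_prop
      · intro τ hτ
        left
        have := hpos τ hτ
        linarith
    · fun_prop
  · intro τ hτ
    have hτ0 : 0 ≤ τ ^ 2 := sq_nonneg τ
    have hτ1 : τ ^ 2 ≤ 1 := by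
      have := hτ.1; have := hτ.2; nlinarith
    have hp := hpos τ hτ
    have hb : 1 + τ ^ 2 * (X - 1) ≤ h + τ ^ 2 * (X - h) := by
      nlinarith [mul_nonneg (sub_nonneg.2 hτ1) (sub_nonneg.2 h1)]
    have hy0 : 0 ≤ τ ^ 2 * (X - 1) := mul_nonneg hτ0 (by linarith)
    have hy1 : τ ^ 2 * (X - 1) ≤ 1 / 2 := by
      nlinarith [mul_le_mul_of_nonneg_right hτ1 (by linarith : (0 : ℝ) ≤ X - 1)]
    have hq := inv_le_Q hy0 hy1 hb
    rw [rpow_eq (by linarith : (0 : ℝ) < h + τ ^ 2 * (X - h))]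
    have hi0 : 0 ≤ ((h + τ ^ 2 * (X - h)) ^ 3)⁻¹ := by positivity
    have hA := AA_le
    have hA0 := AA_pos 5
    have e4 : τ ^ (4 + 1 - 1) = τ ^ 4 := rfl
    rw [e4]
    apply mul_le_mul_of_nonneg_right _ (by positivity)
    unfold P1
    have : AA (4 + 1) * ((h + τ ^ 2 * (X - h)) ^ 3)⁻¹ ≤ 20372 / 10000 * Qy (τ ^ 2 * (X - 1)) := by
      exact mul_le_mul hA hq hi0 (by norm_num)
    linarith

theorem int_G (a s : ℝ) :
    ∫ r in (0 : ℝ)..s, G (a + r ^ 2) * r ^ 3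
      = s ^ 4 * (G a / 4 + ((20372 / 10000 * (23 / 10)) / 7
          - 2 * ((20372 / 10000 * (19 / 10)) / 9) * (a - 1)) * s ^ 2 / 6
          - (20372 / 10000 * (19 / 10)) / 9 * s ^ 4 / 8) := by
  have hd : ∀ r ∈ Set.uIcc (0 : ℝ) s, HasDerivAt
      (fun r : ℝ => G a / 4 * r ^ 4 + ((20372 / 10000 * (23 / 10)) / 7
          - 2 * ((20372 / 10000 * (19 / 10)) / 9) * (a - 1)) / 6 * r ^ 6
          - (20372 / 10000 * (19 / 10)) / 9 / 8 * r ^ 8)
      (G (a + r ^ 2) * r ^ 3) r := by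
    intro r _
    have a1 := (hasDerivAt_pow 4 r).const_mul (G a / 4)
    have a2 := (hasDerivAt_pow 6 r).const_mul (((20372 / 10000 * (23 / 10) : ℝ) / 7
          - 2 * ((20372 / 10000 * (19 / 10)) / 9) * (a - 1)) / 6)
    have a3 := (hasDerivAt_pow 8 r).const_mul ((20372 / 10000 * (19 / 10) : ℝ) / 9 / 8)
    have a4 := (a1.add a2).sub a3
    refine HasDerivAt.congr_deriv a4 ?_
    unfold G
    push_cast
    ring
  rw [intervalIntegral.integral_eq_sub_of_hasDerivAt hd]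
  · ring
  · apply Continuous.intervalIntegrable
    unfold G
    fun_prop

theorem int_G_nonneg {a : ℝ} (h0 : 4 / 3 ≤ a) (h1 : a < 3 / 2) :
    0 ≤ ∫ r in (0 : ℝ)..√(3 / 2 - a), G (a + r ^ 2) * r ^ 3 := by
  rw [int_G]
  have hs : √(3 / 2 - a) ^ 2 = 3 / 2 - a := Real.sq_sqrt (by linarith)
  have hs4 : √(3 / 2 - a) ^ 4 = (3 / 2 - a) ^ 2 := by
    rw [show √(3 / 2 - a) ^ 4 = (√(3 / 2 - a) ^ 2) ^ 2 by ring, hs]
  rw [hs, hs4]
  apply mul_nonneg (sq_nonneg _)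
  unfold G
  nlinarith [mul_nonneg (sub_nonneg.2 h0) (sub_nonneg.2 h1.le)]

end Near6Aux

open Near6Aux

theorem nearTwo_four : NearTwo 4 (3 / 2) := by
  intro Y S c J h hY hF h1 hh hc
  have hcard : S.card = 2 := by
    have := hF.card
    omega
  have hr : (4 : ℝ) / 3 ≤ ‖c‖ ^ 2 := by
    have := fl_radius hY hF.sub hF.mid
    rw [hcard] at this
    push_cast at this
    linarith
  have hG : Continuous G := by
    unfold G
    fun_prop
  refine FI_nonneg_of_le (f := G) hG.continuousOn ?_ ?_ ?_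
  · exact (F2_continuousOn h1).mono (Set.Icc_subset_Icc hh.le le_rfl)
  · intro X hX hX2
    exact F2_ge h1 (hh.le.trans hX) hX2
  · refine flat_step (m := 3) hY hF (by norm_num) hc hG ?_ ?_
    · exact int_G_nonneg hr hc
    · intro y hy hyS c' J' hF' _ hlt
      exfalso
      have hcard' : (insert y S).card = 3 := by
        rw [card_insert_of_notMem hyS, hcard]
      have := fl_radius hY hF'.sub hF'.mid
      rw [hcard'] at this
      push_cast at this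
      linarith

end

end Pool.Agent.SausN
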