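import Pool.Agent.Lib.MP_5a9905_co_NC.Defs
import Pool.Agent.Lib.MP_5a9905_co_NC.FlR
import Pool.Agent.Lib.MP_5a9905_co_NC.FlV
import Pool.Agent.Lib.MP_5a9905_co_NC.FiM
import Pool.Agent.Lib.MP_5a9905_co_NC.F2C
import Pool.Agent.Lib.MP_5a9905_co_NC.KapN

set_option autoImplicit false

open MeasureTheory Finset

namespace Pool.Agent.SausN

open Pool.Agent.Saus (E kap Loc Vor)

noncomputable section

namespace Near7

/-- the certificate, Bernstein form on `[0, 1/2]` -/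
theorem cert_poly {y : ℝ} (h0 : 0 ≤ y) (h1 : y ≤ 1 / 2) :
    1 ≤ (1 + y) ^ 7 * (1 - 5 / 2 * y + 2 * y ^ 2) ^ 2 := by
  obtain ⟨z, hz⟩ : ∃ z : ℝ, z = 1 - 2 * y := ⟨_, rfl⟩
  have hz0 : 0 ≤ z := by linarith
  have key : (1 + y) ^ 7 * (1 - 5 / 2 * y + 2 * y ^ 2) ^ 2 - 1 =
      y * ((2 / 1 : ℝ) * y ^ 0 * z ^ 10 +
      (145 / 4 : ℝ) * y ^ 1 * z ^ 9 +
      (1137 / 4 : ℝ) * y ^ 2 * z ^ 8 +
      (5029 / 4 : ℝ) * y ^ 3 * z ^ 7 +
      (13713 / 4 : ℝ) * y ^ 4 * z ^ 6 +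
      (23667 / 4 : ℝ) * y ^ 5 * z ^ 5 +
      (25575 / 4 : ℝ) * y ^ 6 * z ^ 4 +
      (16611 / 4 : ℝ) * y ^ 7 * z ^ 3 +
      (6187 / 4 : ℝ) * y ^ 8 * z ^ 2 +
      (400 / 1 : ℝ) * y ^ 9 * z ^ 1 +
      (139 / 1 : ℝ) * y ^ 10 * z ^ 0) := by
    rw [hz]
    ring
  have hp : 0 ≤ y * ((2 / 1 : ℝ) * y ^ 0 * z ^ 10 +
      (145 / 4 : ℝ) * y ^ 1 * z ^ 9 +
      (1137 / 4 : ℝ) * y ^ 2 * z ^ 8 +
      (5029 / 4 : ℝ) * y ^ 3 * z ^ 7 +
      (13713 / 4 : ℝ) * y ^ 4 * z ^ 6 +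
      (23667 / 4 : ℝ) * y ^ 5 * z ^ 5 +
      (25575 / 4 : ℝ) * y ^ 6 * z ^ 4 +
      (16611 / 4 : ℝ) * y ^ 7 * z ^ 3 +
      (6187 / 4 : ℝ) * y ^ 8 * z ^ 2 +
      (400 / 1 : ℝ) * y ^ 9 * z ^ 1 +
      (139 / 1 : ℝ) * y ^ 10 * z ^ 0) := by
    positivity
  linarith

/-- `w ^ (-7/2) ≤ Q (w - 1)` on `[1, 3/2]` -/
theorem cert {w : ℝ} (h1 : 1 ≤ w) (h2 : w ≤ 3 / 2) :
    w ^ (-((7 : ℝ) / 2)) ≤ 1 - 5 / 2 * (w - 1) + 2 * (w - 1) ^ 2 := by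
  have hw : 0 < w := by linarith
  have hQ : 0 < 1 - 5 / 2 * (w - 1) + 2 * (w - 1) ^ 2 := by nlinarith [sq_nonneg (w - 1 - 5 / 8)]
  have hs : 0 < w ^ ((7 : ℝ) / 2) := Real.rpow_pos_of_pos hw _
  have hs2 : (w ^ ((7 : ℝ) / 2)) ^ 2 = w ^ 7 := by
    rw [← Real.rpow_natCast (w ^ ((7 : ℝ) / 2)) 2, ← Real.rpow_mul hw.le]
    rw [show (7 : ℝ) / 2 * ((2 : ℕ) : ℝ) = ((7 : ℕ) : ℝ) by push_cast; ring, Real.rpow_natCast]
  rw [Real.rpow_neg hw.le]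
  have h3 := cert_poly (y := w - 1) (by linarith) (by linarith)
  rw [show 1 + (w - 1) = w by ring, ← hs2, ← mul_pow] at h3
  have h4 : 1 ≤ w ^ ((7 : ℝ) / 2) * (1 - 5 / 2 * (w - 1) + 2 * (w - 1) ^ 2) := by
    by_contra hlt
    push Not at hlt
    have h5 : 0 ≤ w ^ ((7 : ℝ) / 2) * (1 - 5 / 2 * (w - 1) + 2 * (w - 1) ^ 2) := by positivity
    nlinarith
  rw [inv_le_iff_one_le_mul₀ hs]
  linarith [mul_comm (w ^ ((7 : ℝ) / 2)) (1 - 5 / 2 * (w - 1) + 2 * (w - 1) ^ 2)]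

/-- the polynomial lower bound of `F2 6 h` -/
def G (X : ℝ) : ℝ := -19 / 96 + 175 / 256 * (X - 1) - 7 / 16 * (X - 1) ^ 2

theorem G_cont : Continuous G := by
  unfold G
  fun_prop

theorem G_le {h X : ℝ} (h1 : 1 ≤ h) (hX : h ≤ X) (hX2 : X ≤ 3 / 2) : G X ≤ F2 6 h X := by
  have hG : G X = ∫ τ in (0 : ℝ)..1, (1 - 35 / 16 * (1 - 5 / 2 * (τ ^ 2 * (X - 1)) +
      2 * (τ ^ 2 * (X - 1)) ^ 2)) * τ ^ (6 - 1) := by
    have hd : ∀ τ ∈ Set.uIcc (0 : ℝ) 1, HasDerivAt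
        (fun τ : ℝ => -19 / 96 * τ ^ 6 + 175 / 256 * (X - 1) * τ ^ 8 -
          7 / 16 * (X - 1) ^ 2 * τ ^ 10)
        ((1 - 35 / 16 * (1 - 5 / 2 * (τ ^ 2 * (X - 1)) +
          2 * (τ ^ 2 * (X - 1)) ^ 2)) * τ ^ (6 - 1)) τ := by
      intro τ _
      have h3 := (((hasDerivAt_pow 6 τ).const_mul (-19 / 96)).add
        ((hasDerivAt_pow 8 τ).const_mul (175 / 256 * (X - 1)))).sub
        ((hasDerivAt_pow 10 τ).const_mul (7 / 16 * (X - 1) ^ 2))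
      exact h3.congr_deriv (by push_cast; ring)
    rw [intervalIntegral.integral_eq_sub_of_hasDerivAt hd
      (Continuous.intervalIntegrable (by fun_prop) _ _)]
    unfold G
    ring
  rw [hG]
  unfold F2
  apply intervalIntegral.integral_mono_on zero_le_one
  · exact Continuous.intervalIntegrable (by fun_prop) _ _
  · apply ContinuousOn.intervalIntegrable
    apply ContinuousOn.mul
    · apply ContinuousOn.sub continuousOn_const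
      apply ContinuousOn.mul continuousOn_const
      apply ContinuousOn.rpow_const (by fun_prop)
      intro τ hτ
      left
      have h5 : 0 ≤ τ ^ 2 * (X - h) := mul_nonneg (sq_nonneg _) (by linarith)
      linarith
    · fun_prop
  · intro τ hτ
    have ht0 : 0 ≤ τ := hτ.1
    have ht1 : τ ≤ 1 := hτ.2
    have ht2 : τ ^ 2 ≤ 1 := by nlinarith
    have ht3 : 0 ≤ τ ^ 2 := sq_nonneg τ
    apply mul_le_mul_of_nonneg_right _ (pow_nonneg ht0 _)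
    have hw1 : 1 ≤ 1 + τ ^ 2 * (X - 1) := by
      have := mul_nonneg ht3 (by linarith : 0 ≤ X - 1)
      linarith
    have hw2 : 1 + τ ^ 2 * (X - 1) ≤ 3 / 2 := by
      have := mul_le_mul ht2 (le_refl (X - 1)) (by linarith) zero_le_one
      linarith
    have hwu : 1 + τ ^ 2 * (X - 1) ≤ h + τ ^ 2 * (X - h) := by
      nlinarith [mul_nonneg (by linarith : 0 ≤ h - 1) (by linarith : 0 ≤ 1 - τ ^ 2)]
    have hc := cert hw1 hw2
    have hm : (h + τ ^ 2 * (X - h)) ^ (-((7 : ℝ) / 2)) ≤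
        (1 + τ ^ 2 * (X - 1)) ^ (-((7 : ℝ) / 2)) :=
      Real.rpow_le_rpow_of_nonpos (by linarith) hwu (by norm_num)
    rw [AA_six, show -((((6 : ℕ) : ℝ) + 1) / 2) = -((7 : ℝ) / 2) by norm_num]
    rw [show 1 + τ ^ 2 * (X - 1) - 1 = τ ^ 2 * (X - 1) by ring] at hc
    linarith

/-- the average of `G` over the flat -/
theorem ha_ineq {C : ℝ} (h1 : 4 / 3 ≤ C) (h2 : C < 3 / 2) :
    0 ≤ ∫ r in (0 : ℝ)..√(3 / 2 - C), G (C + r ^ 2) * r ^ 4 := by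
  have hd : ∀ r ∈ Set.uIcc (0 : ℝ) √(3 / 2 - C), HasDerivAt
      (fun r : ℝ => G C * r ^ 5 / 5 + (175 / 256 - 7 / 8 * (C - 1)) * r ^ 7 / 7 -
        7 / 16 * r ^ 9 / 9) (G (C + r ^ 2) * r ^ 4) r := by
    intro r _
    have h3 := ((((hasDerivAt_pow 5 r).const_mul (G C)).div_const 5).add
      (((hasDerivAt_pow 7 r).const_mul (175 / 256 - 7 / 8 * (C - 1))).div_const 7)).sub
      (((hasDerivAt_pow 9 r).const_mul (7 / 16)).div_const 9)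
    exact h3.congr_deriv (by unfold G; push_cast; ring)
  rw [intervalIntegral.integral_eq_sub_of_hasDerivAt hd
    (Continuous.intervalIntegrable ((G_cont.comp (by fun_prop)).mul (by fun_prop)) _ _)]
  obtain ⟨s, hs⟩ : ∃ s : ℝ, s = √(3 / 2 - C) := ⟨_, rfl⟩
  have hs0 : 0 ≤ s := by rw [hs]; exact Real.sqrt_nonneg _
  have hs2 : s ^ 2 = 3 / 2 - C := by
    rw [hs]; exact Real.sq_sqrt (by linarith)
  rw [← hs]
  have hC : C = 3 / 2 - s ^ 2 := by linarith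
  have he : s ^ 2 ≤ 1 / 6 := by linarith
  have he0 : 0 ≤ s ^ 2 := sq_nonneg s
  have key : G C * s ^ 5 / 5 + (175 / 256 - 7 / 8 * (C - 1)) * s ^ 7 / 7 - 7 / 16 * s ^ 9 / 9 -
      (G C * 0 ^ 5 / 5 + (175 / 256 - 7 / 8 * (C - 1)) * 0 ^ 7 / 7 - 7 / 16 * 0 ^ 9 / 9) =
      s ^ 5 * (53 / 7680 - 9 / 640 * s ^ 2 - 1 / 90 * (s ^ 2) ^ 2) := by
    rw [hC]
    unfold G
    ring
  rw [key]
  apply mul_nonneg (pow_nonneg hs0 _)
  nlinarith

end Near7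

theorem nearTwo_five : NearTwo 5 (3 / 2) := by
  intro Y S c J h hY hF h1 hhc hcR
  have hcard : S.card = 2 := by
    have := hF.card
    omega
  have hr := fl_radius hY hF.sub hF.mid
  rw [hcard] at hr
  have hr' : 4 / 3 ≤ ‖c‖ ^ 2 := by
    norm_num at hr
    linarith
  apply FI_nonneg_of_le (f := Near7.G) Near7.G_cont.continuousOn
  · exact (F2_continuousOn h1).mono (Set.Icc_subset_Icc hhc.le le_rfl)
  · intro X hX1 hX2
    exact Near7.G_le h1 (by linarith) hX2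
  · apply flat_step (m := 4) hY hF (by norm_num) hcR Near7.G_cont
    · exact Near7.ha_ineq hr' hcR
    · intro y hy hyS c' J' hF' hcc' hc'R
      exfalso
      have hr2 := fl_radius hY hF'.sub hF'.mid
      rw [Finset.card_insert_of_notMem hyS, hcard] at hr2
      norm_num at hr2
      linarith

end

end Pool.Agent.SausN
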