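import Pool.Agent.Lib.MP_5a9905_co_NC.Defs
import Pool.Agent.Lib.MP_5a9905_co_NC.KapN

set_option autoImplicit false

open MeasureTheory Finset

namespace Pool.Agent.SausN

open Pool.Agent.Saus (E kap Loc Vor)

noncomputable section

namespace NumRAux

theorem le_rpow_half {A x : ℝ} (k : ℕ) (hx : 0 ≤ x) (h : A ^ 2 ≤ x ^ k) :
    A ≤ x ^ ((k : ℝ) / 2) := by
  have h1 : x ^ ((k : ℝ) / 2) = √(x ^ k) := by
    rw [Real.sqrt_eq_rpow, ← Real.rpow_natCast x k, ← Real.rpow_mul hx]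
    congr 1
    ring
  rw [h1]
  exact Real.le_sqrt_of_sq_le h

theorem sq_div_pi {a b c : ℝ} (ha : 0 ≤ a) (hb : 0 < b) (h : (a / (b * (314 / 100))) ^ 2 ≤ c) :
    (a / (b * Real.pi)) ^ 2 ≤ c := by
  have hpi := Real.pi_gt_d2
  refine le_trans ?_ h
  have h1 : b * (314 / 100) ≤ b * Real.pi := by
    refine mul_le_mul_of_nonneg_left ?_ hb.le
    linarith
  have h2 : a / (b * Real.pi) ≤ a / (b * (314 / 100)) :=
    div_le_div_of_nonneg_left ha (by positivity) h1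
  have h3 : 0 ≤ a / (b * Real.pi) := by positivity
  exact pow_le_pow_left₀ h3 h2 2

end NumRAux

open NumRAux

theorem AA_le_three : AA (3 + 1) ≤ (8 / 5 : ℝ) ^ (((3 : ℕ) : ℝ) / 2) := by
  refine le_rpow_half 3 (by norm_num) ?_
  rw [show (3 : ℕ) + 1 = 4 from rfl, AA_four]
  norm_num

theorem AA_le_four : AA (4 + 1) ≤ (3 / 2 : ℝ) ^ (((4 : ℕ) : ℝ) / 2) := by
  refine le_rpow_half 4 (by norm_num) ?_
  rw [show (4 : ℕ) + 1 = 5 from rfl, AA_five]
  exact sq_div_pi (by norm_num) (by norm_num) (by norm_num)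

theorem AA_le_five : AA (5 + 1) ≤ (3 / 2 : ℝ) ^ (((5 : ℕ) : ℝ) / 2) := by
  refine le_rpow_half 5 (by norm_num) ?_
  rw [show (5 : ℕ) + 1 = 6 from rfl, AA_six]
  norm_num

theorem AA_le_ge {k : ℕ} (h6 : 6 ≤ k) (h11 : k ≤ 11) :
    AA (k + 1) ≤ (4 / 3 : ℝ) ^ ((k : ℝ) / 2) := by
  refine le_rpow_half k (by norm_num) ?_
  have hk : k = 6 ∨ k = 7 ∨ k = 8 ∨ k = 9 ∨ k = 10 ∨ k = 11 := by omega
  rcases hk with rfl | rfl | rfl | rfl | rfl | rfl
  · rw [show (6 : ℕ) + 1 = 7 from rfl, AA_seven]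
    exact sq_div_pi (by norm_num) (by norm_num) (by norm_num)
  · rw [show (7 : ℕ) + 1 = 8 from rfl, AA_eight]
    norm_num
  · rw [show (8 : ℕ) + 1 = 9 from rfl, AA_nine]
    exact sq_div_pi (by norm_num) (by norm_num) (by norm_num)
  · rw [show (9 : ℕ) + 1 = 10 from rfl, AA_ten]
    norm_num
  · rw [show (10 : ℕ) + 1 = 11 from rfl, AA_eleven]
    exact sq_div_pi (by norm_num) (by norm_num) (by norm_num)
  · rw [show (11 : ℕ) + 1 = 12 from rfl, AA_twelve]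
    norm_num

end

end Pool.Agent.SausN
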