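import Pool.Agent.Lib.MP_5a9905_co_NC.Near0
import Pool.Agent.Lib.MP_5a9905_co_NC.Near5
import Pool.Agent.Lib.MP_5a9905_co_NC.Near6
import Pool.Agent.Lib.MP_5a9905_co_NC.Near7
import Pool.Agent.Lib.MP_5a9905_co_NC.NumR
import Pool.Agent.Lib.MP_5a9905_co_NC.FarV
import Pool.Agent.Lib.MP_5a9905_co_NC.LocS
import Pool.Agent.Lib.MP_5a9905_co_NC.Glob
import Pool.Agent.Lib.MP_5a9905_co.Main

/-! # The sausage conjecture in all dimensions `d ≥ 5`: assembly -/

set_option autoImplicit false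

open MeasureTheory

namespace Pool.Agent.SausN

open Pool.Agent.Saus (E kap Loc Vor)

/-- The data used in dimension `n + 2`. -/
theorem data_small (n : ℕ) (hn : 3 ≤ n) (hn2 : n ≤ 11) :
    ∃ R : ℝ, 1 ≤ R ∧ R ≤ 2 ∧ AA (n + 1) ≤ R ^ ((n : ℝ) / 2) ∧ NearTwo n R ∧ FarNum (n + 1) := by
  have hge : ∀ k : ℕ, 6 ≤ k → k ≤ 11 → FarNum (k + 1) →
      ∃ R : ℝ, 1 ≤ R ∧ R ≤ 2 ∧ AA (k + 1) ≤ R ^ ((k : ℝ) / 2) ∧ NearTwo k R ∧ FarNum (k + 1) :=
    fun k h6 h11 hF => ⟨4 / 3, by norm_num, by norm_num, AA_le_ge h6 h11, nearTwo_ge, hF⟩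
  interval_cases n
  · exact ⟨8 / 5, by norm_num, by norm_num, AA_le_three, nearTwo_three, farNum_four⟩
  · exact ⟨3 / 2, by norm_num, by norm_num, AA_le_four, nearTwo_four, farNum_five⟩
  · exact ⟨3 / 2, by norm_num, by norm_num, AA_le_five, nearTwo_five, farNum_six⟩
  · exact hge 6 (by norm_num) (by norm_num) farNum_seven
  · exact hge 7 (by norm_num) (by norm_num) farNum_eight
  · exact hge 8 (by norm_num) (by norm_num) farNum_nine
  · exact hge 9 (by norm_num) (by norm_num) farNum_ten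
  · exact hge 10 (by norm_num) (by norm_num) farNum_eleven
  · exact hge 11 (by norm_num) (by norm_num) farNum_twelve

/-- The sausage conjecture. -/
theorem sausage_conjecture (d : ℕ) (hd : 5 ≤ d) (k : ℕ) (x : Fin k → E d)
    (hx : ∀ i j : Fin k, i ≠ j → 2 ≤ dist (x i) (x j)) (e : E d) (he : ‖e‖ = 1) :
    volume (convexHull ℝ (⋃ i : Fin k, Metric.closedBall ((2 * ((i : ℕ) : ℝ)) • e) (1 : ℝ)))
      ≤ volume (convexHull ℝ (⋃ i : Fin k, Metric.closedBall (x i) (1 : ℝ))) := by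
  obtain ⟨n, rfl⟩ : ∃ n, d = n + 2 := ⟨d - 2, by omega⟩
  rcases Nat.lt_or_ge n 12 with h | h
  · obtain ⟨R, hR1, hR2, hR, hN, hF⟩ := data_small n (by omega) (by omega)
    exact sausage_of_star (fun Y K hL => local_star hF (by omega) hR1 hR2 hR hN hL) k x hx e he
  · exact Pool.Agent.Saus.sausage_all n h k x hx e he

end Pool.Agent.SausN
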