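import Pool.Agent.Lib.MP_5a9905_co_NC.Defs
import Pool.Agent.Lib.MP_5a9905_co_NC.FlR

set_option autoImplicit false

open MeasureTheory

namespace Pool.Agent.SausN

open Pool.Agent.Saus (E kap Loc Vor)

/-- Near part for `d ≥ 8`: codimension two points have squared distance at least `4/3`. -/
theorem nearTwo_ge {k : ℕ} : NearTwo k (4 / 3) := by
  intro Y S c J h hY hF h1 h2 h3
  exfalso
  have hcard : S.card = 2 := by
    have := hF.card
    omega
  have := fl_radius hY hF.sub hF.mid
  rw [hcard] at this
  norm_num at this
  linarith

end Pool.Agent.SausN
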