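import Pool.Agent.Lib.MP_5a9905_co_NC.Defs
import Pool.Agent.Lib.MP_5a9905_co.SausVol

/-! Exact volume of the sausage. -/

set_option autoImplicit false

open MeasureTheory Finset

namespace Pool.Agent.SausN

open Pool.Agent.Saus (E kap Loc Vor)
open Pool.Agent.Saus.SausVolAux

noncomputable section

namespace Saus2Aux

theorem Tb_sub_hull {d k : ℕ} (e : E (d + 1)) :
    Tb e (2 * k) ⊆
      convexHull ℝ (⋃ i : Fin (k + 1), Metric.closedBall ((2 * ((i : ℕ) : ℝ)) • e) (1 : ℝ)) := by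
  intro z hz
  obtain ⟨s, hs0, hsL, hs⟩ := mem_Tb hz
  set w : E (d + 1) := z - s • e with hw
  have hz' : z = s • e + w := by rw [hw]; abel
  have h0 : w ∈ convexHull ℝ (⋃ i : Fin (k + 1),
      Metric.closedBall ((2 * ((i : ℕ) : ℝ)) • e) (1 : ℝ)) := by
    refine subset_convexHull ℝ _ (Set.mem_iUnion.2 ⟨0, ?_⟩)
    simpa using hs
  have h1 : (2 * (k : ℝ)) • e + w ∈ convexHull ℝ (⋃ i : Fin (k + 1),
      Metric.closedBall ((2 * ((i : ℕ) : ℝ)) • e) (1 : ℝ)) := by
    refine subset_convexHull ℝ _ (Set.mem_iUnion.2 ⟨Fin.last k, ?_⟩)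
    rw [Metric.mem_closedBall, dist_eq_norm]
    simpa using hs
  rcases Nat.eq_zero_or_pos k with hk | hk
  · have hs' : s = 0 := by
      rw [hk] at hsL
      push_cast at hsL
      linarith
    rw [hz', hs', zero_smul, zero_add]
    exact h0
  · have hk' : (0 : ℝ) < 2 * k := by positivity
    have hc := (convex_convexHull ℝ (⋃ i : Fin (k + 1),
      Metric.closedBall ((2 * ((i : ℕ) : ℝ)) • e) (1 : ℝ))) h0 h1
      (a := 1 - s / (2 * k)) (b := s / (2 * k))
      (by rw [sub_nonneg, div_le_one hk']; exact hsL) (by positivity) (by ring)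
    have e1 : (1 - s / (2 * k)) • w + (s / (2 * k)) • ((2 * (k : ℝ)) • e + w) = z := by
      rw [smul_add, smul_smul, div_mul_cancel₀ _ hk'.ne', sub_smul, one_smul, hz']
      abel
    rwa [e1] at hc

theorem parts_sub {d : ℕ} {e : E (d + 1)} (he : ‖e‖ = 1) {L : ℝ} (hL : 0 ≤ L) :
    A1 e ∪ A2 e L ∪ (fun z => z + -(L • e)) ⁻¹' A3 e ⊆ Tb e L := by
  have key : ∀ (z : E (d + 1)) (s : ℝ), 0 ≤ s → s ≤ L → ‖z - s • e‖ ≤ 1 → z ∈ Tb e L := by
    intro z s h0 h1 h2
    refine ⟨s • e, ⟨s, ⟨h0, h1⟩, rfl⟩, z - s • e, ?_, by simp⟩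
    rwa [mem_closedBall_zero_iff]
  rintro z ((h | h) | h)
  · exact key z 0 le_rfl hL (by rw [zero_smul, sub_zero]; exact h.2)
  · obtain ⟨h0, h1, h2⟩ := h
    refine key z (inner ℝ e z) h0 h1 ?_
    have h3 : ‖z - (inner ℝ e z : ℝ) • e‖ ^ 2 ≤ 1 := by
      rw [norm_sub_sq' he]
      linarith
    nlinarith [norm_nonneg (z - (inner ℝ e z : ℝ) • e)]
  · have h' : ‖z + -(L • e)‖ ≤ 1 := h.2
    exact key z L hL le_rfl (by rwa [← sub_eq_add_neg] at h')

theorem caps_ge {d : ℕ} {e : E (d + 1)} (he : ‖e‖ = 1) :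
    ENNReal.ofReal (kap (d + 1)) ≤ volume (A1 e) + volume (A3 e) := by
  have hnull : volume {z : E (d + 1) | inner ℝ e z = (0 : ℝ)} = 0 := by
    have h1 : {z : E (d + 1) | inner ℝ e z = (0 : ℝ)}
        = ((LinearMap.ker (innerSL ℝ e : E (d + 1) →L[ℝ] ℝ).toLinearMap : Submodule ℝ (E (d + 1))) :
          Set (E (d + 1))) := by
      ext z
      simp
    rw [h1]
    refine Measure.addHaar_submodule volume _ ?_
    intro htop
    have h2 : e ∈ (LinearMap.ker (innerSL ℝ e : E (d + 1) →L[ℝ] ℝ).toLinearMap) := by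
      rw [htop]; trivial
    have h3 : inner ℝ e e = (0 : ℝ) := by simpa using h2
    rw [real_inner_self_eq_norm_sq, he] at h3
    norm_num at h3
  have hsub : Metric.closedBall (0 : E (d + 1)) 1 ⊆
      (A1 e ∪ A3 e) ∪ {z : E (d + 1) | inner ℝ e z = (0 : ℝ)} := by
    intro z hz
    rw [mem_closedBall_zero_iff] at hz
    rcases lt_trichotomy (inner ℝ e z : ℝ) 0 with h | h | h
    · exact Or.inl (Or.inl ⟨h, hz⟩)
    · exact Or.inr h
    · exact Or.inl (Or.inr ⟨h, hz⟩)
  rw [kap, Measure.real, ENNReal.ofReal_toReal (isCompact_closedBall _ _).measure_lt_top.ne]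
  calc volume (Metric.closedBall (0 : E (d + 1)) 1)
      ≤ volume ((A1 e ∪ A3 e) ∪ {z : E (d + 1) | inner ℝ e z = (0 : ℝ)}) := measure_mono hsub
    _ ≤ volume (A1 e ∪ A3 e) + volume {z : E (d + 1) | inner ℝ e z = (0 : ℝ)} :=
        measure_union_le _ _
    _ = volume (A1 e ∪ A3 e) := by rw [hnull, add_zero]
    _ ≤ _ := measure_union_le _ _

end Saus2Aux

open Saus2Aux

/-- Exact volume of the sausage. -/
theorem sausage_volume (d k : ℕ) (e : E (d + 1)) (he : ‖e‖ = 1) :
    volume (convexHull ℝ (⋃ i : Fin (k + 1),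
      Metric.closedBall ((2 * ((i : ℕ) : ℝ)) • e) (1 : ℝ)))
      = ENNReal.ofReal (kap (d + 1) + 2 * k * kap d) := by
  refine le_antisymm (Pool.Agent.Saus.sausage_volume_le d k e he) ?_
  have hk0 : 0 ≤ kap (d + 1) := measureReal_nonneg
  have hk1 : 0 ≤ kap d := measureReal_nonneg
  have hL : (0 : ℝ) ≤ 2 * k := by positivity
  refine le_trans ?_ (measure_mono ((parts_sub he hL).trans (Tb_sub_hull e)))
  have m2 : MeasurableSet (A2 e (2 * k)) := by
    have h1 : Continuous fun z : E (d + 1) => (inner ℝ e z : ℝ) := by fun_prop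
    refine IsClosed.measurableSet ?_
    exact (isClosed_le continuous_const h1).inter ((isClosed_le h1 continuous_const).inter
      (isClosed_le (f := fun z : E (d + 1) => ‖z‖ ^ 2)
        (g := fun z : E (d + 1) => (inner ℝ e z : ℝ) ^ 2 + 1) (by fun_prop) (by fun_prop)))
  have m3 : MeasurableSet ((fun z : E (d + 1) => z + -((2 * (k : ℝ)) • e)) ⁻¹' A3 e) := by
    have h1 : Continuous fun z : E (d + 1) => (inner ℝ e z : ℝ) := by fun_prop
    have hm : MeasurableSet (A3 e) :=
      (isOpen_lt continuous_const h1).measurableSet.inter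
        (isClosed_le continuous_norm continuous_const).measurableSet
    exact (measurable_add_const _) hm
  have hin : ∀ z : E (d + 1), inner ℝ e (z + -((2 * (k : ℝ)) • e)) = inner ℝ e z - 2 * k := by
    intro z
    rw [inner_add_right, inner_neg_right, inner_smul_right, real_inner_self_eq_norm_sq, he]
    ring
  have d1 : Disjoint (A1 e ∪ A2 e (2 * k))
      ((fun z : E (d + 1) => z + -((2 * (k : ℝ)) • e)) ⁻¹' A3 e) := by
    rw [Set.disjoint_left]
    rintro z h h'
    have h3 : 0 < inner ℝ e (z + -((2 * (k : ℝ)) • e)) := h'.1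
    rw [hin] at h3
    rcases h with h | h
    · have : inner ℝ e z < (0 : ℝ) := h.1
      linarith
    · have : inner ℝ e z ≤ (2 * k : ℝ) := h.2.1
      linarith
  have d2 : Disjoint (A1 e) (A2 e (2 * k)) := by
    rw [Set.disjoint_left]
    rintro z h h'
    have h1 : inner ℝ e z < (0 : ℝ) := h.1
    have h2 : (0 : ℝ) ≤ inner ℝ e z := h'.1
    linarith
  rw [measure_union d1 m3, measure_union d2 m2, measure_preimage_add_right, vol_A2 he hL,
    ENNReal.ofReal_add hk0 (by positivity), add_right_comm]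
  exact add_le_add_left (caps_ge he) _

end

end Pool.Agent.SausN
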